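import Pool.Agent.BP2.S.Core

set_option autoImplicit false

/-!
# Coordinates on the bodies

`E`, `K` involutions without circles: every component is a path; `Coord E K p` says that `p` is a
coordinate on every component: the two labels of an element have the coordinates `2 i`, `2 i + 1`,
the two labels of an adjacency of `K` have the coordinates `2 i + 1`, `2 i + 2`. So a label looks to
the right iff its coordinate is odd.
-/

namespace BP2

variable {L : Type*}

theorem Cl.compl {E K : L → L} (hE : Function.Involutive E) (hK : Function.Involutive K)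
    {C : Set L} (hC : Cl E K C) : Cl E K Cᶜ := by
  intro z hz
  refine ⟨fun h => hz ?_, fun h => hz ?_⟩
  · have := (hC _ h).1
    rwa [hE z] at this
  · have := (hC _ h).2
    rwa [hK z] at this

theorem Conn.right_e {E K : L → L} {x y : L} (h : Conn E K x y) : Conn E K x (E y) :=
  fun C hC hx => (hC _ (h C hC hx)).1

theorem Conn.right_k {E K : L → L} {x y : L} (h : Conn E K x y) : Conn E K x (K y) :=
  fun C hC hx => (hC _ (h C hC hx)).2

/-- coordinates -/
structure Coord (E K : L → L) (p : L → ℤ) : Prop where
  e : ∀ x, E x ≠ x → p (E x) = if Even (p x) then p x + 1 else p x - 1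
  k : ∀ x, K x ≠ x → p (K x) = if Even (p x) then p x - 1 else p x + 1
  inj : ∀ x y, Conn E K x y → p x = p y → x = y

namespace Coord

variable {E K : L → L} {p : L → ℤ}

theorem e_even (h : Coord E K p) {x : L} (hx : E x ≠ x) (hp : Even (p x)) :
    p (E x) = p x + 1 := by
  rw [h.e x hx, if_pos hp]

theorem e_odd (h : Coord E K p) {x : L} (hx : E x ≠ x) (hp : Odd (p x)) :
    p (E x) = p x - 1 := by
  rw [h.e x hx, if_neg (Int.not_even_iff_odd.2 hp)]

theorem k_even (h : Coord E K p) {x : L} (hx : K x ≠ x) (hp : Even (p x)) :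
    p (K x) = p x - 1 := by
  rw [h.k x hx, if_pos hp]

theorem k_odd (h : Coord E K p) {x : L} (hx : K x ≠ x) (hp : Odd (p x)) :
    p (K x) = p x + 1 := by
  rw [h.k x hx, if_neg (Int.not_even_iff_odd.2 hp)]

/-- a loose label which looks to the right is the last one -/
theorem last_k (h : Coord E K p) {w : L} (hw : K w = w) (hp : Odd (p w)) {z : L}
    (hz : Conn E K w z) : p z ≤ p w := by
  have hC : Cl E K {z | Conn E K w z ∧ p z ≤ p w} := by
    rintro z ⟨h1, h2⟩
    refine ⟨⟨h1.right_e, ?_⟩, ⟨h1.right_k, ?_⟩⟩
    · by_cases hE : E z = z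
      · rwa [hE]
      rcases Int.even_or_odd (p z) with h3 | h3
      · rw [h.e_even hE h3]
        rcases lt_or_eq_of_le h2 with h4 | h4
        · omega
        · rw [h4] at h3
          exact absurd h3 (Int.not_even_iff_odd.2 hp)
      · rw [h.e_odd hE h3]; omega
    · by_cases hE : K z = z
      · rwa [hE]
      rcases Int.even_or_odd (p z) with h3 | h3
      · rw [h.k_even hE h3]; omega
      · rw [h.k_odd hE h3]
        rcases lt_or_eq_of_le h2 with h4 | h4
        · omega
        · have := h.inj _ _ h1 h4.symm
          rw [← this] at hE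
          exact absurd hw hE
  exact (hz _ hC ⟨Conn.refl _ _ _, le_rfl⟩).2

/-- a loose label which looks to the left is the first one -/
theorem first_k (h : Coord E K p) {w : L} (hw : K w = w) (hp : Even (p w)) {z : L}
    (hz : Conn E K w z) : p w ≤ p z := by
  have hC : Cl E K {z | Conn E K w z ∧ p w ≤ p z} := by
    rintro z ⟨h1, h2⟩
    refine ⟨⟨h1.right_e, ?_⟩, ⟨h1.right_k, ?_⟩⟩
    · by_cases hE : E z = z
      · rwa [hE]
      rcases Int.even_or_odd (p z) with h3 | h3
      · rw [h.e_even hE h3]; omega
      · rw [h.e_odd hE h3]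
        rcases lt_or_eq_of_le h2 with h4 | h4
        · omega
        · rw [← h4] at h3
          exact absurd hp (Int.not_even_iff_odd.2 h3)
    · by_cases hE : K z = z
      · rwa [hE]
      rcases Int.even_or_odd (p z) with h3 | h3
      · rw [h.k_even hE h3]
        rcases lt_or_eq_of_le h2 with h4 | h4
        · omega
        · have := h.inj _ _ h1 h4
          rw [← this] at hE
          exact absurd hw hE
      · rw [h.k_odd hE h3]; omega
  exact (hz _ hC ⟨Conn.refl _ _ _, le_rfl⟩).2

/-- the floor, if it looks to the left, is the last one -/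
theorem last_e (h : Coord E K p) {w : L} (hw : E w = w) (hp : Even (p w)) {z : L}
    (hz : Conn E K w z) : p z ≤ p w := by
  have hC : Cl E K {z | Conn E K w z ∧ p z ≤ p w} := by
    rintro z ⟨h1, h2⟩
    refine ⟨⟨h1.right_e, ?_⟩, ⟨h1.right_k, ?_⟩⟩
    · by_cases hE : E z = z
      · rwa [hE]
      rcases Int.even_or_odd (p z) with h3 | h3
      · rw [h.e_even hE h3]
        rcases lt_or_eq_of_le h2 with h4 | h4
        · omega
        · have := h.inj _ _ h1 h4.symm
          rw [← this] at hE
          exact absurd hw hE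
      · rw [h.e_odd hE h3]; omega
    · by_cases hE : K z = z
      · rwa [hE]
      rcases Int.even_or_odd (p z) with h3 | h3
      · rw [h.k_even hE h3]; omega
      · rw [h.k_odd hE h3]
        rcases lt_or_eq_of_le h2 with h4 | h4
        · omega
        · rw [h4] at h3
          exact absurd hp (Int.not_even_iff_odd.2 h3)
  exact (hz _ hC ⟨Conn.refl _ _ _, le_rfl⟩).2

/-- the floor, if it looks to the right, is the first one -/
theorem first_e (h : Coord E K p) {w : L} (hw : E w = w) (hp : Odd (p w)) {z : L}
    (hz : Conn E K w z) : p w ≤ p z := by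
  have hC : Cl E K {z | Conn E K w z ∧ p w ≤ p z} := by
    rintro z ⟨h1, h2⟩
    refine ⟨⟨h1.right_e, ?_⟩, ⟨h1.right_k, ?_⟩⟩
    · by_cases hE : E z = z
      · rwa [hE]
      rcases Int.even_or_odd (p z) with h3 | h3
      · rw [h.e_even hE h3]; omega
      · rw [h.e_odd hE h3]
        rcases lt_or_eq_of_le h2 with h4 | h4
        · omega
        · have := h.inj _ _ h1 h4
          rw [← this] at hE
          exact absurd hw hE
    · by_cases hE : K z = z
      · rwa [hE]
      rcases Int.even_or_odd (p z) with h3 | h3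
      · rw [h.k_even hE h3]
        rcases lt_or_eq_of_le h2 with h4 | h4
        · omega
        · rw [← h4] at h3
          exact absurd h3 (Int.not_even_iff_odd.2 hp)
      · rw [h.k_odd hE h3]; omega
  exact (hz _ hC ⟨Conn.refl _ _ _, le_rfl⟩).2

open Classical in
/-- change the coordinates on a union of components by a reflection -/
theorem rev (h : Coord E K p) (hE : Function.Involutive E) (hK : Function.Involutive K)
    {C : Set L} (hC : Cl E K C) : Coord E K (fun x => if x ∈ C then 1 - p x else p x) := by
  have hC' := hC.compl hE hK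
  have par : ∀ t : ℤ, Even (1 - t) ↔ ¬ Even t := by
    intro t
    rw [Int.not_even_iff_odd]
    constructor
    · rintro ⟨k, hk⟩
      exact ⟨-k, by omega⟩
    · rintro ⟨k, hk⟩
      exact ⟨-k, by omega⟩
  refine ⟨?_, ?_, ?_⟩
  · intro x hx
    by_cases hm : x ∈ C
    · simp only [hm, (hC x hm).1, if_true, par]
      rw [h.e x hx]
      by_cases h1 : Even (p x)
      · simp only [h1, if_true, not_true_eq_false, if_false]; omega
      · simp only [h1, if_false, not_false_eq_true, if_true]; omega
    · have h2 : E x ∉ C := (hC' x hm).1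
      simp only [hm, h2, if_false]
      exact h.e x hx
  · intro x hx
    by_cases hm : x ∈ C
    · simp only [hm, (hC x hm).2, if_true, par]
      rw [h.k x hx]
      by_cases h1 : Even (p x)
      · simp only [h1, if_true, not_true_eq_false, if_false]; omega
      · simp only [h1, if_false, not_false_eq_true, if_true]; omega
    · have h2 : K x ∉ C := (hC' x hm).2
      simp only [hm, h2, if_false]
      exact h.k x hx
  · intro x y hxy he
    apply h.inj x y hxy
    by_cases hm : x ∈ C
    · have := hxy C hC hm
      simp only [hm, this, if_true] at he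
      omega
    · have : y ∉ C := hxy Cᶜ hC' hm
      simpa only [hm, this, if_false] using he

open Classical in
/-- change the coordinates on a union of components by a shift -/
theorem shift (h : Coord E K p) (hE : Function.Involutive E) (hK : Function.Involutive K)
    {C : Set L} (hC : Cl E K C) {c : ℤ} (hc : Even c) :
    Coord E K (fun x => if x ∈ C then p x + c else p x) := by
  have hC' := hC.compl hE hK
  have par : ∀ t : ℤ, Even (t + c) ↔ Even t := by
    intro t
    rw [Int.even_add]
    simp only [hc, iff_true]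
  refine ⟨?_, ?_, ?_⟩
  · intro x hx
    by_cases hm : x ∈ C
    · simp only [hm, (hC x hm).1, if_true, par]
      rw [h.e x hx]
      by_cases h1 : Even (p x)
      · simp only [h1, if_true]; omega
      · simp only [h1, if_false]; omega
    · have h2 : E x ∉ C := (hC' x hm).1
      simp only [hm, h2, if_false]
      exact h.e x hx
  · intro x hx
    by_cases hm : x ∈ C
    · simp only [hm, (hC x hm).2, if_true, par]
      rw [h.k x hx]
      by_cases h1 : Even (p x)
      · simp only [h1, if_true]; omega
      · simp only [h1, if_false]; omega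
    · have h2 : K x ∉ C := (hC' x hm).2
      simp only [hm, h2, if_false]
      exact h.k x hx
  · intro x y hxy he
    apply h.inj x y hxy
    by_cases hm : x ∈ C
    · have := hxy C hC hm
      simp only [hm, this, if_true] at he
      omega
    · have : y ∉ C := hxy Cᶜ hC' hm
      simpa only [hm, this, if_false] using he

end Coord

/-- with coordinates for the cut: the two labels of the gap are not connected any more -/
theorem Coord.cut_not_conn {E K : L → L} {p : L → ℤ} (hE : Function.Involutive E)
    (hK : Function.Involutive K) (hA : Acyc E K) {u : L} (hu : K u ≠ u)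
    (h : Coord E (cut K u) p) : ¬ Conn E (cut K u) u (K u) := by
  intro hcon
  have hK' := cut_invol hK u
  -- the component of `u` is closed under `E`, `K`
  have hC : Cl E K {z | Conn E (BP2.cut K u) u z} := by
    intro z hz
    refine ⟨Conn.right_e hz, ?_⟩
    by_cases h1 : z = u
    · rw [h1]; exact hcon
    by_cases h2 : z = K u
    · rw [h2, hK u]; exact Conn.refl _ _ _
    have := Conn.right_k hz
    rwa [cut_of_ne K h1 h2] at this
  obtain ⟨x, hx, hx2⟩ := hA _ hC ⟨u, Conn.refl _ _ _⟩
  have hx1 : Conn E (BP2.cut K u) u x := hx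
  have hsu := cut_self K u
  have hsv := cut_mate K u
  -- `E u ≠ u`, `E (K u) ≠ K u`
  have hEu : E u ≠ u := by
    intro h1
    have : Cl E (BP2.cut K u) {u} := by
      intro z hz
      rw [Set.mem_singleton_iff] at hz
      rw [hz, h1, hsu]
      exact ⟨rfl, rfl⟩
    exact hu (hcon {u} this rfl)
  have hEv : E (K u) ≠ K u := by
    intro h1
    have : Cl E (BP2.cut K u) {K u} := by
      intro z hz
      rw [Set.mem_singleton_iff] at hz
      rw [hz, h1, hsv]
      exact ⟨rfl, rfl⟩
    exact hu ((hcon.symm hE hK') {K u} this rfl).symm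
  -- `x` is neither of the two
  have hxu : x ≠ u := by
    rintro rfl
    rcases hx2 with h1 | h1
    · exact hEu h1
    · exact hu h1
  have hxv : x ≠ K u := by
    rintro rfl
    rcases hx2 with h1 | h1
    · exact hEv h1
    · exact hu (hK.injective h1)
  have hvx : Conn E (BP2.cut K u) (K u) x := (hcon.symm hE hK').trans hx1
  have hxu' := hx1.symm hE hK'
  have hxv' := hvx.symm hE hK'
  have n1 : p x ≠ p u := fun h1 => hxu (h.inj _ _ hxu' h1)
  have n2 : p x ≠ p (K u) := fun h1 => hxv (h.inj _ _ hxv' h1)
  have n3 : p u ≠ p (K u) := fun h1 => hu (h.inj _ _ hcon h1).symm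
  have hcon' := hcon.symm hE hK'
  have hxe : E x = x ∨ BP2.cut K u x = x := by
    rcases hx2 with h1 | h1
    · exact Or.inl h1
    · right; rwa [cut_of_ne K hxu hxv]
  have ex : (p x ≤ p u ∧ p x ≤ p (K u)) ∨ (p u ≤ p x ∧ p (K u) ≤ p x) := by
    rcases hxe with h1 | h1
    · rcases Int.even_or_odd (p x) with h2 | h2
      · exact Or.inr ⟨h.last_e h1 h2 hxu', h.last_e h1 h2 hxv'⟩
      · exact Or.inl ⟨h.first_e h1 h2 hxu', h.first_e h1 h2 hxv'⟩
    · rcases Int.even_or_odd (p x) with h2 | h2
      · exact Or.inl ⟨h.first_k h1 h2 hxu', h.first_k h1 h2 hxv'⟩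
      · exact Or.inr ⟨h.last_k h1 h2 hxu', h.last_k h1 h2 hxv'⟩
  have eu : (p u ≤ p x ∧ p u ≤ p (K u)) ∨ (p x ≤ p u ∧ p (K u) ≤ p u) := by
    rcases Int.even_or_odd (p u) with h2 | h2
    · exact Or.inl ⟨h.first_k hsu h2 hx1, h.first_k hsu h2 hcon⟩
    · exact Or.inr ⟨h.last_k hsu h2 hx1, h.last_k hsu h2 hcon⟩
  have ev : (p (K u) ≤ p x ∧ p (K u) ≤ p u) ∨ (p x ≤ p (K u) ∧ p u ≤ p (K u)) := by
    rcases Int.even_or_odd (p (K u)) with h2 | h2
    · exact Or.inl ⟨h.first_k hsv h2 hvx, h.first_k hsv h2 hcon'⟩
    · exact Or.inr ⟨h.last_k hsv h2 hvx, h.last_k hsv h2 hcon'⟩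
  omega


theorem exists_coord_id [Finite L] {E : L → L} (hE : Function.Involutive E) {K : L → L}
    (hK : ∀ x, K x = x) : ∃ p : L → ℤ, Coord E K p := by
  classical
  obtain ⟨n, ⟨e⟩⟩ := Finite.exists_equiv_fin L
  refine ⟨fun x => if e x ≤ e (E x) then 0 else 1, ?_, ?_, ?_⟩
  · intro x hx
    have h1 : e (E x) ≠ e x := fun h => hx (e.injective h)
    simp only [hE x]
    by_cases h2 : e x ≤ e (E x)
    · have h3 : ¬ e (E x) ≤ e x := fun h => h1 (le_antisymm h h2)
      simp [h2, h3]
    · have h3 : e (E x) ≤ e x := le_of_lt (not_le.1 h2)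
      simp [h2, h3]
  · intro x hx
    exact absurd (hK x) hx
  · intro x y hxy he
    have h1 : y ∈ ({x, E x} : Set L) := by
      apply hxy
      · intro z hz
        rw [hK z]
        refine ⟨?_, hz⟩
        rcases hz with rfl | hz
        · right; rfl
        · rw [Set.mem_singleton_iff] at hz
          rw [hz, hE x]; left; rfl
      · left; rfl
    rcases h1 with h1 | h1
    · exact h1.symm
    · rw [Set.mem_singleton_iff] at h1
      subst h1
      by_contra hne
      have h1 : e (E x) ≠ e x := fun h => hne (e.injective h).symm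
      simp only [hE x] at he
      by_cases h2 : e x ≤ e (E x)
      · have h3 : ¬ e (E x) ≤ e x := fun h => h1 (le_antisymm h h2)
        simp [h2, h3] at he
      · have h3 : e (E x) ≤ e x := le_of_lt (not_le.1 h2)
        simp [h2, h3] at he

theorem Coord.glue_aux {E K : L → L} (hE : Function.Involutive E)
    (hK : Function.Involutive K) (hA : Acyc E K) {u : L} (hu : K u ≠ u) {p : L → ℤ}
    (h : Coord E (cut K u) p) : ∃ q : L → ℤ, Coord E K q := by
  classical
  have hK' := cut_invol hK u
  have hnc := h.cut_not_conn hE hK hA hu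
  have hclA : Cl E (BP2.cut K u) (bd E (BP2.cut K u) u) := bd_cl _ _ _
  have hclB : Cl E (BP2.cut K u) (bd E (BP2.cut K u) (K u)) := bd_cl _ _ _
  have huA : u ∈ bd E (BP2.cut K u) u := mem_bd_self _ _ _
  have hvB : K u ∈ bd E (BP2.cut K u) (K u) := mem_bd_self _ _ _
  have huB : u ∉ bd E (BP2.cut K u) (K u) := fun h => hnc (Conn.symm hE hK' h)
  have hvA : K u ∉ bd E (BP2.cut K u) u := hnc
  -- orientation of the first body
  have s1 : ∃ q, Coord E (BP2.cut K u) q ∧ Odd (q u) := by
    rcases Int.even_or_odd (p u) with h1 | h1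
    · refine ⟨_, h.rev hE hK' hclA, ?_⟩
      simp only [huA, if_true]
      obtain ⟨k, hk⟩ := h1
      exact ⟨-k, by omega⟩
    · exact ⟨p, h, h1⟩
  obtain ⟨p2, h2, o2⟩ := s1
  have s2 : ∃ q, Coord E (BP2.cut K u) q ∧ Odd (q u) ∧ Even (q (K u)) := by
    rcases Int.even_or_odd (p2 (K u)) with h1 | h1
    · exact ⟨p2, h2, o2, h1⟩
    · refine ⟨_, h2.rev hE hK' hclB, ?_, ?_⟩
      · simp only [huB, if_false]; exact o2
      · simp only [hvB, if_true]
        obtain ⟨k, hk⟩ := h1
        exact ⟨-k, by omega⟩
  obtain ⟨p3, h3, o3, e3⟩ := s2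
  have s3 : ∃ q, Coord E (BP2.cut K u) q ∧ Odd (q u) ∧ Even (q (K u)) ∧
      q (K u) = q u + 1 := by
    have hc : Even (p3 u + 1 - p3 (K u)) := by
      obtain ⟨k, hk⟩ := o3
      obtain ⟨l, hl⟩ := e3
      exact ⟨k + 1 - l, by omega⟩
    refine ⟨_, h3.shift hE hK' hclB hc, ?_, ?_, ?_⟩
    · simp only [huB, if_false]; exact o3
    · simp only [hvB, if_true]
      exact e3.add hc
    · simp only [hvB, huB, if_true, if_false]
      omega
  obtain ⟨q, hq, oq, eq, gq⟩ := s3
  refine ⟨q, hq.e, ?_, ?_⟩
  · intro x hx
    by_cases h1 : x = u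
    · subst h1
      rw [gq, if_neg (Int.not_even_iff_odd.2 oq)]
    by_cases h4 : x = K u
    · rw [h4, hK u, if_pos eq]
      omega
    have := hq.k x (by rwa [cut_of_ne K h1 h4])
    rwa [cut_of_ne K h1 h4] at this
  · intro x y hxy he
    have hD : Cl E K (bd E (BP2.cut K u) u ∪ bd E (BP2.cut K u) (K u)) := by
      intro z hz
      refine ⟨((hclA.union hclB) z hz).1, ?_⟩
      by_cases h1 : z = u
      · rw [h1]; exact Or.inr hvB
      by_cases h4 : z = K u
      · rw [h4, hK u]; exact Or.inl huA
      have := ((hclA.union hclB) z hz).2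
      rwa [cut_of_ne K h1 h4] at this
    by_cases hx : x ∈ bd E (BP2.cut K u) u ∪ bd E (BP2.cut K u) (K u)
    · have hy := hxy _ hD hx
      rcases hx with hx | hx <;> rcases hy with hy | hy
      · exact hq.inj _ _ ((Conn.symm hE hK' hx).trans hy) he
      · have a1 := hq.last_k (cut_self K u) oq hx
        have a2 := hq.first_k (cut_mate K u) eq hy
        omega
      · have a1 := hq.last_k (cut_self K u) oq hy
        have a2 := hq.first_k (cut_mate K u) eq hx
        omega
      · exact hq.inj _ _ ((Conn.symm hE hK' hx).trans hy) he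
    · have hX : Cl E K (bd E (BP2.cut K u) x) := by
        intro z hz
        refine ⟨((bd_cl E (BP2.cut K u) x) z hz).1, ?_⟩
        have h1 : z ≠ u := by
          rintro rfl
          exact hx (Or.inl (Conn.symm hE hK' hz))
        have h4 : z ≠ K u := by
          rintro rfl
          exact hx (Or.inr (Conn.symm hE hK' hz))
        have := ((bd_cl E (BP2.cut K u) x) z hz).2
        rwa [cut_of_ne K h1 h4] at this
      exact hq.inj _ _ (hxy _ hX (mem_bd_self _ _ _)) he

/-- **existence of coordinates** -/
theorem exists_coord [Finite L] {E K : L → L} (hE : Function.Involutive E)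
    (hK : Function.Involutive K) (hA : Acyc E K) : ∃ p : L → ℤ, Coord E K p := by
  induction hn : {x | K x ≠ x}.ncard using Nat.strong_induction_on generalizing K with
  | _ n ih =>
    by_cases h : ∀ x, K x = x
    · exact exists_coord_id hE h
    push Not at h
    obtain ⟨u, hu⟩ := h
    have hlt : {x | cut K u x ≠ x}.ncard < n := by
      rw [← hn]
      apply Set.ncard_lt_ncard
      · refine ⟨?_, ?_⟩
        · intro x hx hx2
          exact hx (cut_fix hx2)
        · intro hsub
          exact (hsub hu) (cut_self K u)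
      · exact Set.toFinite _
    obtain ⟨p, hp⟩ := ih _ hlt (cut_invol hK u) (hA.cut u) rfl
    exact hp.glue_aux hE hK hA hu

/-- coordinates which are at least `0` -/
theorem exists_coord_nonneg [Finite L] {E K : L → L} (hE : Function.Involutive E)
    (hK : Function.Involutive K) (hA : Acyc E K) :
    ∃ p : L → ℤ, Coord E K p ∧ ∀ x, 0 ≤ p x := by
  classical
  obtain ⟨p, hp⟩ := exists_coord hE hK hA
  obtain ⟨b, hb⟩ : ∃ b : ℤ, ∀ x, b ≤ p x := by
    obtain ⟨b, hb⟩ := (Set.finite_range p).bddBelow
    exact ⟨b, fun x => hb ⟨x, rfl⟩⟩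
  have h1 := hp.shift hE hK (C := Set.univ) (cl_univ E K) (c := 2 * |b|) ⟨|b|, by ring⟩
  refine ⟨_, h1, ?_⟩
  intro x
  simp only [Set.mem_univ, if_true]
  have := hb x
  have := neg_abs_le b
  have := abs_nonneg b
  omega

end BP2
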