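import Mathlib

/-! MP_475aca_co, part (S): averaging over orientations and colours. -/

set_option autoImplicit false

namespace BP2

/-- change the value at `x` -/
def avgFlip {Lam : Type*} [DecidableEq Lam] (x : Lam) (g : Lam → Bool) : Lam → Bool :=
  Function.update g x (!(g x))

theorem avgFlip_invol {Lam : Type*} [DecidableEq Lam] (x : Lam) :
    Function.Involutive (avgFlip (Lam := Lam) x) := by
  intro g
  funext y
  by_cases h : y = x
  · subst h; simp [avgFlip]
  · simp [avgFlip, h]

theorem sum_avgFlip {Lam : Type*} [Fintype Lam] [DecidableEq Lam] (x : Lam)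
    (F : (Lam → Bool) → ℕ) : ∑ g, F (avgFlip x g) = ∑ g, F g :=
  Equiv.sum_comp (Function.Involutive.toPerm _ (avgFlip_invol x)) F

theorem avg_two {Lam : Type*} [Fintype Lam] [DecidableEq Lam] {s t : Lam} (hst : s ≠ t)
    (u v : Bool) : 4 * ∑ g : Lam → Bool, (if g s = u ∧ g t = v then 1 else 0) =
      Fintype.card (Lam → Bool) := by
  let F : (Lam → Bool) → ℕ := fun g => if g s = u ∧ g t = v then 1 else 0
  have h1 : ∑ g, F (avgFlip s g) = ∑ g, F g := sum_avgFlip s F
  have h2 : ∑ g, F (avgFlip t g) = ∑ g, F g := sum_avgFlip t F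
  have h3 : ∑ g, F (avgFlip s (avgFlip t g)) = ∑ g, F g := by
    rw [← h1]; exact sum_avgFlip t (fun g => F (avgFlip s g))
  have h4 : ∑ g, (F g + F (avgFlip s g) + F (avgFlip t g) + F (avgFlip s (avgFlip t g))) =
      Fintype.card (Lam → Bool) := by
    rw [← Finset.card_univ, Finset.card_eq_sum_ones]
    apply Finset.sum_congr rfl
    intro g _
    have e1 : avgFlip s g s = !(g s) := by simp [avgFlip]
    have e2 : avgFlip s g t = g t := by simp [avgFlip, hst.symm]
    have e3 : avgFlip t g s = g s := by simp [avgFlip, hst]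
    have e4 : avgFlip t g t = !(g t) := by simp [avgFlip]
    have e5 : avgFlip s (avgFlip t g) s = !(g s) := by
      simp [avgFlip, hst]
    have e6 : avgFlip s (avgFlip t g) t = !(g t) := by
      simp [avgFlip, hst.symm]
    simp only [F, e1, e2, e3, e4, e5, e6]
    cases g s <;> cases g t <;> cases u <;> cases v <;> rfl
  rw [Finset.sum_add_distrib, Finset.sum_add_distrib, Finset.sum_add_distrib, h1, h2, h3] at h4
  rw [← h4]
  ring

theorem avg_one {Lam : Type*} [Fintype Lam] [DecidableEq Lam] {s t : Lam} (hst : s ≠ t) :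
    2 * ∑ g : Lam → Bool, (if g s ≠ g t then 1 else 0) = Fintype.card (Lam → Bool) := by
  let F : (Lam → Bool) → ℕ := fun g => if g s ≠ g t then 1 else 0
  have h1 : ∑ g, F (avgFlip s g) = ∑ g, F g := sum_avgFlip s F
  have h4 : ∑ g, (F g + F (avgFlip s g)) = Fintype.card (Lam → Bool) := by
    rw [← Finset.card_univ, Finset.card_eq_sum_ones]
    apply Finset.sum_congr rfl
    intro g _
    have e1 : avgFlip s g s = !(g s) := by simp [avgFlip]
    have e2 : avgFlip s g t = g t := by simp [avgFlip, hst.symm]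
    simp only [F, e1, e2]
    cases g s <;> cases g t <;> rfl
  rw [Finset.sum_add_distrib, h1] at h4
  rw [← h4]
  ring

theorem averaging {Lam : Type*} [Fintype Lam] [DecidableEq Lam] {ι : Type*} (A : Finset ι)
    (s t : ι → Lam) (u v : ι → Bool) (hst : ∀ a ∈ A, s a ≠ t a) :
    ∃ g col : Lam → Bool, A.card ≤
      8 * (A.filter (fun a => g (s a) = u a ∧ g (t a) = v a ∧ col (s a) ≠ col (t a))).card := by
  by_contra hcon
  push Not at hcon
  have hT : 0 < Fintype.card (Lam → Bool) := Fintype.card_pos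
  have h1 : 8 * ∑ g : Lam → Bool, ∑ c : Lam → Bool,
      (A.filter (fun a => g (s a) = u a ∧ g (t a) = v a ∧ c (s a) ≠ c (t a))).card =
      A.card * (Fintype.card (Lam → Bool) * Fintype.card (Lam → Bool)) := by
    have h2 : ∀ g c : Lam → Bool,
        (A.filter (fun a => g (s a) = u a ∧ g (t a) = v a ∧ c (s a) ≠ c (t a))).card =
        ∑ a ∈ A, (if g (s a) = u a ∧ g (t a) = v a then 1 else 0) *
          (if c (s a) ≠ c (t a) then 1 else 0) := by
      intro g c
      rw [Finset.card_filter]
      apply Finset.sum_congr rfl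
      intro a _
      by_cases e1 : g (s a) = u a ∧ g (t a) = v a
      · by_cases e2 : c (s a) ≠ c (t a)
        · rw [if_pos ⟨e1.1, e1.2, e2⟩, if_pos e1, if_pos e2]
        · rw [if_neg (fun h => e2 h.2.2), if_neg e2, mul_zero]
      · rw [if_neg (fun h => e1 ⟨h.1, h.2.1⟩), if_neg e1, zero_mul]
    simp only [h2]
    have h3 : ∑ g : Lam → Bool, ∑ c : Lam → Bool,
        ∑ a ∈ A, (if g (s a) = u a ∧ g (t a) = v a then 1 else 0) *
          (if c (s a) ≠ c (t a) then 1 else 0) =
        ∑ a ∈ A, (∑ g : Lam → Bool, (if g (s a) = u a ∧ g (t a) = v a then 1 else 0)) *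
          (∑ c : Lam → Bool, (if c (s a) ≠ c (t a) then 1 else 0)) := by
      rw [Finset.sum_congr rfl (fun g _ => Finset.sum_comm), Finset.sum_comm]
      apply Finset.sum_congr rfl
      intro a _
      rw [Finset.sum_mul_sum]
    rw [h3, Finset.mul_sum, Finset.card_eq_sum_ones, Finset.sum_mul]
    apply Finset.sum_congr rfl
    intro a ha
    have h4 := avg_two (hst a ha) (u a) (v a)
    have h5 := avg_one (hst a ha)
    rw [one_mul]
    calc 8 * ((∑ g : Lam → Bool, (if g (s a) = u a ∧ g (t a) = v a then 1 else 0)) *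
          (∑ c : Lam → Bool, (if c (s a) ≠ c (t a) then 1 else 0)))
        = (4 * ∑ g : Lam → Bool, (if g (s a) = u a ∧ g (t a) = v a then 1 else 0)) *
          (2 * ∑ c : Lam → Bool, (if c (s a) ≠ c (t a) then 1 else 0)) := by ring
      _ = _ := by rw [h4, h5]
  have h6 : ∑ g : Lam → Bool, ∑ c : Lam → Bool,
      8 * (A.filter (fun a => g (s a) = u a ∧ g (t a) = v a ∧ c (s a) ≠ c (t a))).card <
      ∑ _g : Lam → Bool, ∑ _c : Lam → Bool, A.card := by
    apply Finset.sum_lt_sum_of_nonempty
    · exact Finset.univ_nonempty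
    · intro g _
      apply Finset.sum_lt_sum_of_nonempty
      · exact Finset.univ_nonempty
      · intro c _
        exact hcon g c
  simp only [← Finset.mul_sum] at h6
  rw [h1] at h6
  simp only [Finset.sum_const, Finset.card_univ, smul_eq_mul] at h6
  apply lt_irrefl _ (lt_of_lt_of_le h6 (le_of_eq _))
  ring

end BP2
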