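import Mathlib

/-! MP_475aca_co, part (S): distribution of the starting times. -/

set_option autoImplicit false

namespace BP2

theorem bal_aux {ι : Type*} [DecidableEq ι] (T : ℕ) (hT : 0 < T) (Q : Finset ι) :
    ∃ t : ι → ℕ, (∀ p, t p < T) ∧ ∀ r < T, ∀ s < T,
      (Q.filter (fun p => t p = r)).card ≤ (Q.filter (fun p => t p = s)).card + 1 := by
  induction Q using Finset.induction_on with
  | empty => exact ⟨fun _ => 0, fun _ => hT, fun r _ s _ => by simp⟩
  | @insert x Q hx ih =>
    obtain ⟨t, ht, hc⟩ := ih
    obtain ⟨r0, hr0, hmin⟩ := Finset.exists_min_image (Finset.range T)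
      (fun r => (Q.filter (fun p => t p = r)).card) ⟨0, Finset.mem_range.2 hT⟩
    rw [Finset.mem_range] at hr0
    have hmin' : ∀ s < T, (Q.filter (fun p => t p = r0)).card ≤
        (Q.filter (fun p => t p = s)).card := fun s hs => hmin s (Finset.mem_range.2 hs)
    have h1 : ∀ r, ((insert x Q).filter (fun p => Function.update t x r0 p = r)).card =
        (if r0 = r then 1 else 0) + (Q.filter (fun p => t p = r)).card := by
      intro r
      have h2 : Q.filter (fun p => Function.update t x r0 p = r) =
          Q.filter (fun p => t p = r) := by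
        apply Finset.filter_congr
        intro p hp
        rw [Function.update_of_ne (by rintro rfl; exact hx hp)]
      rw [Finset.filter_insert, Function.update_self, h2]
      by_cases h3 : r0 = r
      · rw [if_pos h3, if_pos h3, Finset.card_insert_of_notMem (by
          intro h4; exact hx (Finset.mem_filter.1 h4).1)]
        omega
      · rw [if_neg h3, if_neg h3]; omega
    refine ⟨Function.update t x r0, ?_, ?_⟩
    · intro p
      by_cases h : p = x
      · subst h; rw [Function.update_self]; exact hr0
      · rw [Function.update_of_ne h]; exact ht p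
    · intro r hr s hs
      rw [h1, h1]
      have h2 := hc r hr s hs
      have h3 := hmin' s hs
      by_cases h4 : r0 = r
      · subst h4
        rw [if_pos rfl]; split_ifs <;> omega
      · rw [if_neg h4]; split_ifs <;> omega

theorem bal_class {ι : Type*} [DecidableEq ι] (Q : Finset ι) (R T : ℕ) (t : ι → ℕ)
    (ht : ∀ p, t p < T) (hc : ∀ r < T, ∀ s < T,
      (Q.filter (fun p => t p = r)).card ≤ (Q.filter (fun p => t p = s)).card + 1)
    (i j : ℕ) (hi : i < R) (hj : j < R) :
    T * (∑ tau ∈ Finset.range (T + R), (((Q.filter (fun p => t p + i = tau)).card : ℤ) -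
        ((Q.filter (fun p => t p + j = tau)).card : ℤ)).natAbs) ≤
      2 * R * Q.card + T * (T + R) := by
  -- the value of a cell
  have hcell : ∀ k tau : ℕ, k ≤ tau → Q.filter (fun p => t p + k = tau) =
      Q.filter (fun p => t p = tau - k) := by
    intro k tau hk
    apply Finset.filter_congr
    intro p _
    omega
  have hzero : ∀ k tau : ℕ, ¬ (k ≤ tau ∧ tau < k + T) →
      (Q.filter (fun p => t p + k = tau)).card = 0 := by
    intro k tau hk
    rw [Finset.card_eq_zero, Finset.filter_eq_empty_iff]
    intro p _ h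
    have := ht p
    apply hk
    omega
  have hbig : ∀ r < T, T * (Q.filter (fun p => t p = r)).card ≤ Q.card + T := by
    intro r hr
    have h1 : Q.card = ∑ s ∈ Finset.range T, (Q.filter (fun p => t p = s)).card :=
      Finset.card_eq_sum_card_fiberwise (fun p _ => Finset.mem_coe.2 (Finset.mem_range.2 (ht p)))
    have h2 : ∑ _s ∈ Finset.range T, (Q.filter (fun p => t p = r)).card ≤
        ∑ s ∈ Finset.range T, ((Q.filter (fun p => t p = s)).card + 1) :=
      Finset.sum_le_sum fun s hs => hc r hr s (Finset.mem_range.1 hs)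
    rw [Finset.sum_add_distrib, ← h1] at h2
    simpa using h2
  have hpt : ∀ tau ∈ Finset.range (T + R),
      T * (((Q.filter (fun p => t p + i = tau)).card : ℤ) -
        ((Q.filter (fun p => t p + j = tau)).card : ℤ)).natAbs ≤
      T + (if tau < R ∨ T ≤ tau then Q.card else 0) := by
    intro tau _
    by_cases h1 : i ≤ tau ∧ tau < i + T
    · by_cases h2 : j ≤ tau ∧ tau < j + T
      · rw [hcell i tau h1.1, hcell j tau h2.1]
        have h3 := hc (tau - i) (by omega) (tau - j) (by omega)
        have h4 := hc (tau - j) (by omega) (tau - i) (by omega)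
        have h5 : (((Q.filter (fun p => t p = tau - i)).card : ℤ) -
            ((Q.filter (fun p => t p = tau - j)).card : ℤ)).natAbs ≤ 1 := by omega
        calc _ ≤ T * 1 := Nat.mul_le_mul_left T h5
          _ ≤ _ := by omega
      · rw [hzero j tau h2, hcell i tau h1.1, if_pos (by omega)]
        have h3 := hbig (tau - i) (by omega)
        simp only [Nat.cast_zero, sub_zero, Int.natAbs_natCast]
        omega
    · by_cases h2 : j ≤ tau ∧ tau < j + T
      · rw [hzero i tau h1, hcell j tau h2.1, if_pos (by omega)]
        have h3 := hbig (tau - j) (by omega)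
        simp only [Nat.cast_zero, zero_sub, Int.natAbs_neg, Int.natAbs_natCast]
        omega
      · rw [hzero i tau h1, hzero j tau h2]
        simp
  rw [Finset.mul_sum]
  refine (Finset.sum_le_sum hpt).trans ?_
  rw [Finset.sum_add_distrib, Finset.sum_const, Finset.card_range, smul_eq_mul, ← Finset.sum_filter,
    Finset.sum_const, smul_eq_mul]
  have h1 : ((Finset.range (T + R)).filter (fun tau => tau < R ∨ T ≤ tau)).card ≤ 2 * R := by
    calc _ ≤ (Finset.range R ∪ Finset.Ico T (T + R)).card := by
          apply Finset.card_le_card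
          intro tau h
          rw [Finset.mem_filter, Finset.mem_range] at h
          rw [Finset.mem_union, Finset.mem_range, Finset.mem_Ico]
          omega
      _ ≤ (Finset.range R).card + (Finset.Ico T (T + R)).card := Finset.card_union_le _ _
      _ = 2 * R := by rw [Finset.card_range, Nat.card_Ico]; omega
  have h2 := Nat.mul_le_mul_right Q.card h1
  have h3 : (T + R) * T = T * (T + R) := mul_comm _ _
  omega

theorem balance {ι : Type*} [DecidableEq ι] (P : Finset ι) (R T : ℕ) (hT : 0 < T)
    (a b : ι → ℕ) (ha : ∀ p ∈ P, a p < R) (hb : ∀ p ∈ P, b p < R) :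
    ∃ t : ι → ℕ, (∀ p, t p < T) ∧
      T * (∑ tau ∈ Finset.range (T + R), (((P.filter (fun p => t p + a p = tau)).card : ℤ) -
        ((P.filter (fun p => t p + b p = tau)).card : ℤ)).natAbs) ≤
      2 * R * P.card + T * ((T + R) * (R * R)) := by
  choose t ht hc using fun k : ℕ × ℕ =>
    bal_aux T hT (P.filter (fun p => (a p, b p) = k))
  refine ⟨fun p => t (a p, b p) p, fun p => ht _ p, ?_⟩
  let D : Finset (ℕ × ℕ) := Finset.range R ×ˢ Finset.range R
  have hD : ∀ p ∈ P, (a p, b p) ∈ D := fun p hp =>
    Finset.mem_product.2 ⟨Finset.mem_range.2 (ha p hp), Finset.mem_range.2 (hb p hp)⟩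
  have hA : ∀ tau : ℕ, (P.filter (fun p => t (a p, b p) p + a p = tau)).card =
      ∑ k ∈ D, ((P.filter (fun p => (a p, b p) = k)).filter (fun p => t k p + k.1 = tau)).card := by
    intro tau
    rw [Finset.card_eq_sum_card_fiberwise (f := fun p => (a p, b p)) (t := D)
      (fun p hp => Finset.mem_coe.2 (hD p (Finset.mem_filter.1 hp).1))]
    apply Finset.sum_congr rfl
    intro k _
    congr 1
    ext p
    simp only [Finset.mem_filter]
    constructor
    · rintro ⟨⟨h1, h2⟩, h3⟩
      subst h3; exact ⟨⟨h1, rfl⟩, h2⟩
    · rintro ⟨⟨h1, h3⟩, h2⟩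
      subst h3; exact ⟨⟨h1, h2⟩, rfl⟩
  have hB : ∀ tau : ℕ, (P.filter (fun p => t (a p, b p) p + b p = tau)).card =
      ∑ k ∈ D, ((P.filter (fun p => (a p, b p) = k)).filter (fun p => t k p + k.2 = tau)).card := by
    intro tau
    rw [Finset.card_eq_sum_card_fiberwise (f := fun p => (a p, b p)) (t := D)
      (fun p hp => Finset.mem_coe.2 (hD p (Finset.mem_filter.1 hp).1))]
    apply Finset.sum_congr rfl
    intro k _
    congr 1
    ext p
    simp only [Finset.mem_filter]
    constructor
    · rintro ⟨⟨h1, h2⟩, h3⟩
      subst h3; exact ⟨⟨h1, rfl⟩, h2⟩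
    · rintro ⟨⟨h1, h3⟩, h2⟩
      subst h3; exact ⟨⟨h1, h2⟩, rfl⟩
  have hle : ∀ tau : ℕ, (((P.filter (fun p => t (a p, b p) p + a p = tau)).card : ℤ) -
        ((P.filter (fun p => t (a p, b p) p + b p = tau)).card : ℤ)).natAbs ≤
      ∑ k ∈ D, ((((P.filter (fun p => (a p, b p) = k)).filter
          (fun p => t k p + k.1 = tau)).card : ℤ) -
        (((P.filter (fun p => (a p, b p) = k)).filter
          (fun p => t k p + k.2 = tau)).card : ℤ)).natAbs := by
    intro tau
    rw [hA, hB, Nat.cast_sum, Nat.cast_sum, ← Finset.sum_sub_distrib]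
    exact Int.natAbs_sum_le _ _
  calc T * (∑ tau ∈ Finset.range (T + R),
        (((P.filter (fun p => t (a p, b p) p + a p = tau)).card : ℤ) -
        ((P.filter (fun p => t (a p, b p) p + b p = tau)).card : ℤ)).natAbs)
      ≤ T * (∑ tau ∈ Finset.range (T + R), ∑ k ∈ D,
        ((((P.filter (fun p => (a p, b p) = k)).filter
          (fun p => t k p + k.1 = tau)).card : ℤ) -
        (((P.filter (fun p => (a p, b p) = k)).filter
          (fun p => t k p + k.2 = tau)).card : ℤ)).natAbs) :=
        Nat.mul_le_mul_left T (Finset.sum_le_sum fun tau _ => hle tau)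
    _ = ∑ k ∈ D, T * ∑ tau ∈ Finset.range (T + R),
        ((((P.filter (fun p => (a p, b p) = k)).filter
          (fun p => t k p + k.1 = tau)).card : ℤ) -
        (((P.filter (fun p => (a p, b p) = k)).filter
          (fun p => t k p + k.2 = tau)).card : ℤ)).natAbs := by
        rw [Finset.sum_comm, Finset.mul_sum]
    _ ≤ ∑ k ∈ D, (2 * R * (P.filter (fun p => (a p, b p) = k)).card + T * (T + R)) := by
        apply Finset.sum_le_sum
        intro k hk
        have hk' := Finset.mem_product.1 hk
        exact bal_class _ R T (t k) (ht k) (hc k) k.1 k.2 (Finset.mem_range.1 hk'.1)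
          (Finset.mem_range.1 hk'.2)
    _ = 2 * R * P.card + T * ((T + R) * (R * R)) := by
        rw [Finset.sum_add_distrib, ← Finset.mul_sum, Finset.sum_const, Finset.card_product,
          Finset.card_range, smul_eq_mul,
          ← Finset.card_eq_sum_card_fiberwise (f := fun p => (a p, b p)) (t := D)
            (fun p hp => Finset.mem_coe.2 (hD p hp))]
        ring

end BP2
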