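import Mathlib

/-! MP_475aca_co, part (S), definitions. Labels: Lam (without the floor, so E has no fixed point).
E joins the two sides of an element, K is a partial matching of rigid adjacencies
(fixed points = loose labels), I the target. -/

namespace BP2

variable {Lam : Type*}

/-- x and y lie in the same body (component of E and K) -/
def Same (E K : Lam → Lam) (x y : Lam) : Prop :=
  Relation.ReflTransGen (fun a b => b = E a ∨ b = K a) x y

/-- E is a fixed point free involution, K an involution, every body is a path -/
structure Geo (E K : Lam → Lam) : Prop where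
  Einv : ∀ x, E (E x) = x
  Ene : ∀ x, E x ≠ x
  Kinv : ∀ x, K (K x) = x
  acyc : ∀ x, ∃ z, Same E K x z ∧ K z = z

/-- the target line: E and I connect everything and I has a fixed point -/
structure Tgt (E I : Lam → Lam) : Prop where
  Iinv : ∀ x, I (I x) = x
  conn : ∀ x y, Same E I x y
  top : ∃ x, I x = x

/-- cutting -/
structure Cut (K K' : Lam → Lam) : Prop where
  sub : ∀ x, K' x = K x ∨ K' x = x
  inv : ∀ x, K' (K' x) = x

/-- the partners of all labels that are not loose are in the same body -/
def Closed (E I K : Lam → Lam) : Prop := ∀ x, K x ≠ x → Same E K x (I x)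

section dec
variable [DecidableEq Lam]

/-- one level: all labels of U get their target partner, the gap mates of U become loose -/
def step (I K : Lam → Lam) (U : Finset Lam) (x : Lam) : Lam :=
  if x ∈ U then I x else if K x ∈ U then x else K x

/-- far level: every body carries at most one label of U -/
structure Far (E I K : Lam → Lam) (U : Finset Lam) : Prop where
  closed : ∀ x ∈ U, I x ∈ U
  moving : ∀ x ∈ U, I x ≠ x
  sep : ∀ x ∈ U, ∀ y ∈ U, Same E K x y → x = y

/-- K without the adjacency of p -/
def cutAt (K : Lam → Lam) (p : Lam) (z : Lam) : Lam := if z = p ∨ z = K p then z else K z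

/-- local level with first labels O: the unit {p, I p} lies in one body, both labels are in
gaps, and p is separated from I p when the gap of p is cut; one unit per body -/
structure Loc (E I K : Lam → Lam) (O : Finset Lam) : Prop where
  gap1 : ∀ p ∈ O, K p ≠ p
  gap2 : ∀ p ∈ O, K (I p) ≠ I p
  unf : ∀ p ∈ O, K p ≠ I p
  body : ∀ p ∈ O, Same E K p (I p)
  side : ∀ p ∈ O, ¬ Same E (cutAt K p) p (I p)
  sep : ∀ p ∈ O, ∀ q ∈ O, Same E K p q → p = q

/-- the used labels of a local level -/
def locU (I : Lam → Lam) (O : Finset Lam) : Finset Lam := O ∪ O.image I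

/-- a sequence of far levels -/
inductive FarRun (E I : Lam → Lam) : (Lam → Lam) → List (Finset Lam) → (Lam → Lam) → Prop
  | nil (K) : FarRun E I K [] K
  | cons (K U Us K') : Far E I K U → FarRun E I (step I K U) Us K' → FarRun E I K (U :: Us) K'

/-- the balance error of a local level with first labels O in front of the levels Us -/
def imb (I K : Lam → Lam) (O : Finset Lam) (Us : List (Finset Lam)) : ℕ :=
  (Us.map (fun U => (((O.filter (fun p => K p ∈ U)).card : ℤ) -
    ((O.filter (fun p => K (I p) ∈ U)).card : ℤ)).natAbs)).sum

/-- levels -/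
inductive Lv (Lam : Type*)
  | cut (K1 : Lam → Lam)
  | far (U : Finset Lam)
  | loc (O : Finset Lam)

/-- the used labels of a level -/
def Lv.used (I : Lam → Lam) : Lv Lam → Finset Lam
  | .cut _ => ∅
  | .far U => U
  | .loc O => locU I O

/-- a run -/
inductive SRun (E I : Lam → Lam) : (Lam → Lam) → List (Lv Lam) → (Lam → Lam) → Prop
  | nil (K) : SRun E I K [] K
  | cut (K K1 L K') : Cut K K1 → (∀ x, K1 x ≠ K x → K x ≠ I x) → SRun E I K1 L K' →
      SRun E I K (Lv.cut K1 :: L) K'
  | far (K U L K') : Far E I K U → SRun E I (step I K U) L K' → SRun E I K (Lv.far U :: L) K'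
  | loc (K O L K') : Loc E I K O → SRun E I (step I K (locU I O)) L K' →
      SRun E I K (Lv.loc O :: L) K'

end dec

section fin
variable [Fintype Lam]

open Classical in
/-- the body of x as a finite set -/
noncomputable def body (E K : Lam → Lam) (x : Lam) : Finset Lam :=
  Finset.univ.filter (fun y => Same E K x y)

/-- all bodies have at most R labels -/
def Small (E K : Lam → Lam) (R : ℕ) : Prop := ∀ x, (body E K x).card ≤ R

variable [DecidableEq Lam]

/-- gap labels: not loose and not yet joined as in the target -/
def gapL (I K : Lam → Lam) : Finset Lam :=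
  Finset.univ.filter (fun x => K x ≠ x ∧ K x ≠ I x)

open Classical in
/-- labels of available edges: the edge joins two bodies and has a gap label -/
noncomputable def avail (E I K : Lam → Lam) : Finset Lam :=
  Finset.univ.filter (fun x => ¬ Same E K x (I x) ∧ (K x ≠ x ∨ K (I x) ≠ I x))

/-- number of labels cut inside a run (not counting the start) -/
def cutCount (I : Lam → Lam) : (Lam → Lam) → List (Lv Lam) → ℕ
  | _, [] => 0
  | K, Lv.cut K1 :: L => (Finset.univ.filter (fun x => K1 x ≠ K x)).card + cutCount I K1 L
  | K, Lv.far U :: L => cutCount I (step I K U) L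
  | K, Lv.loc O :: L => cutCount I (step I K (locU I O)) L

/-- total balance error of a run -/
def imbCount (I : Lam → Lam) : (Lam → Lam) → List (Lv Lam) → ℕ
  | _, [] => 0
  | _, Lv.cut K1 :: L => imbCount I K1 L
  | K, Lv.far U :: L => imbCount I (step I K U) L
  | K, Lv.loc O :: L => imb I K O (L.map (Lv.used I)) + imbCount I (step I K (locU I O)) L

end fin

end BP2
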