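import Mathlib
import Pool.Agent.BP2.S.Defs

/-! MP_475aca_co, part (S): basic lemmas. -/

set_option autoImplicit false

namespace BP2

section A
variable {Lam : Type*}

theorem Same.refl (E K : Lam → Lam) (x : Lam) : Same E K x x := Relation.ReflTransGen.refl

theorem same_E (E K : Lam → Lam) (x : Lam) : Same E K x (E x) :=
  Relation.ReflTransGen.single (Or.inl rfl)

theorem same_K (E K : Lam → Lam) (x : Lam) : Same E K x (K x) :=
  Relation.ReflTransGen.single (Or.inr rfl)

theorem Same.trans {E K : Lam → Lam} {x y z : Lam} (h : Same E K x y) (h' : Same E K y z) :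
    Same E K x z := Relation.ReflTransGen.trans h h'

theorem Same.symm {E K : Lam → Lam} (hE : ∀ x, E (E x) = x) (hK : ∀ x, K (K x) = x) {x y : Lam}
    (h : Same E K x y) : Same E K y x := by
  unfold Same at h
  induction h with
  | refl => exact Same.refl _ _ _
  | @tail b c _ hbc ih =>
    have h1 : Same E K c b := by
      rcases hbc with rfl | rfl
      · have := same_E E K (E b)
        rwa [hE] at this
      · have := same_K E K (K b)
        rwa [hK] at this
    exact h1.trans ih

/-- constant along E and K implies constant on bodies -/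
theorem Same.const {α : Type*} {E K : Lam → Lam} {f : Lam → α} (hE : ∀ x, f (E x) = f x)
    (hK : ∀ x, f (K x) = f x) {x y : Lam} (h : Same E K x y) : f y = f x := by
  unfold Same at h
  induction h with
  | refl => rfl
  | tail _ hbc ih =>
    rcases hbc with rfl | rfl
    · rw [hE, ih]
    · rw [hK, ih]

/-- a set closed under E and K contains the body -/
theorem Same.closed {E K : Lam → Lam} {C : Set Lam} (hE : ∀ x ∈ C, E x ∈ C)
    (hK : ∀ x ∈ C, K x ∈ C) {x y : Lam} (h : Same E K x y) (hx : x ∈ C) : y ∈ C := by
  unfold Same at h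
  induction h with
  | refl => exact hx
  | tail _ hbc ih =>
    rcases hbc with rfl | rfl
    · exact hE _ ih
    · exact hK _ ih

/-- if every single step stays in a transitive reflexive relation, then so does the body -/
theorem Same.le {E K : Lam → Lam} {Cl : Lam → Lam → Prop} (hr : ∀ x, Cl x x)
    (ht : ∀ x y z, Cl x y → Cl y z → Cl x z) (hE : ∀ x, Cl x (E x)) (hK : ∀ x, Cl x (K x))
    {x y : Lam} (h : Same E K x y) : Cl x y := by
  unfold Same at h
  induction h with
  | refl => exact hr _
  | tail _ hbc ih =>
    rcases hbc with rfl | rfl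
    · exact ht _ _ _ ih (hE _)
    · exact ht _ _ _ ih (hK _)

/-- bodies get smaller under cutting -/
theorem Same.mono {E K K' : Lam → Lam} (hsub : ∀ x, K' x = K x ∨ K' x = x) {x y : Lam}
    (h : Same E K' x y) : Same E K x y := by
  refine Same.le (Cl := Same E K) (Same.refl E K) (fun _ _ _ h1 h2 => h1.trans h2)
    (same_E E K) (fun z => ?_) h
  rcases hsub z with h1 | h1
  · rw [h1]; exact same_K E K z
  · rw [h1]; exact Same.refl E K z

theorem mem_body [Fintype Lam] {E K : Lam → Lam} {x y : Lam} : y ∈ body E K x ↔ Same E K x y := by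
  simp [body]

/-- f acts on C as an involution: the number of fixed points has the parity of card C -/
theorem card_parity [DecidableEq Lam] (f : Lam → Lam) (hf : ∀ x, f (f x) = x) (C : Finset Lam)
    (hC : ∀ x ∈ C, f x ∈ C) : (C.filter (fun x => f x = x)).card % 2 = C.card % 2 := by
  have h0 : ((C.filter (fun x => ¬ f x = x)).card : ZMod 2) = 0 := by
    rw [Finset.card_eq_sum_ones, Nat.cast_sum]
    refine Finset.sum_involution (fun a _ => f a) ?_ ?_ ?_ ?_
    · intro a _; simp; decide
    · intro a ha _
      exact (Finset.mem_filter.mp ha).2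
    · intro a ha
      have h1 := Finset.mem_filter.mp ha
      refine Finset.mem_filter.mpr ⟨hC a h1.1, ?_⟩
      intro h2
      apply h1.2
      have h3 := congrArg f h2
      rw [hf, hf] at h3
      exact h3.symm ▸ rfl
    · intro a _; exact hf a
  have h1 : (C.filter (fun x => ¬ f x = x)).card % 2 = 0 := by
    have := (ZMod.natCast_eq_zero_iff _ _).mp h0
    omega
  have h2 := Finset.card_filter_add_card_filter_not (s := C) (fun x => f x = x)
  omega

end A

section B
variable {Lam : Type*} [Fintype Lam] [DecidableEq Lam] {E I K K' : Lam → Lam}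

theorem Geo.symm (hG : Geo E K) {x y : Lam} (h : Same E K x y) : Same E K y x :=
  Same.symm hG.Einv hG.Kinv h

theorem Geo.card_even (hG : Geo E K) (C : Finset Lam) (hC : ∀ x ∈ C, E x ∈ C) :
    C.card % 2 = 0 := by
  have h := card_parity E hG.Einv C hC
  rw [← h]
  have : C.filter (fun x => E x = x) = ∅ := by
    apply Finset.filter_false_of_mem
    intro x _; exact hG.Ene x
  rw [this]; rfl

/-- parity: a body with one loose label has a second one -/
theorem Geo.second (hG : Geo E K) {x : Lam} (hx : K x = x) :
    ∃ z, z ≠ x ∧ Same E K x z ∧ K z = z := by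
  classical
  have hE : ∀ y ∈ body E K x, E y ∈ body E K x := by
    intro y hy
    rw [mem_body] at hy ⊢
    exact hy.trans (same_E E K y)
  have hK : ∀ y ∈ body E K x, K y ∈ body E K x := by
    intro y hy
    rw [mem_body] at hy ⊢
    exact hy.trans (same_K E K y)
  have h1 := hG.card_even _ hE
  have h2 := card_parity K hG.Kinv _ hK
  have hx' : x ∈ (body E K x).filter (fun y => K y = y) :=
    Finset.mem_filter.mpr ⟨mem_body.mpr (Same.refl E K x), hx⟩
  have h3 : 1 < ((body E K x).filter (fun y => K y = y)).card := by
    have : 0 < ((body E K x).filter (fun y => K y = y)).card := Finset.card_pos.mpr ⟨x, hx'⟩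
    omega
  obtain ⟨z, hz, hzx⟩ := Finset.exists_mem_ne h3 x
  have hz' := Finset.mem_filter.mp hz
  exact ⟨z, hzx, mem_body.mp hz'.1, hz'.2⟩

/-- cutting keeps the geometry -/
theorem Geo.cut (hG : Geo E K) (hc : Cut K K') : Geo E K' := by
  refine ⟨hG.Einv, hG.Ene, hc.inv, fun x => ?_⟩
  by_contra hcon
  push Not at hcon
  obtain ⟨z, hz, hKz⟩ := hG.acyc x
  have hz' : Same E K' x z := by
    refine Same.closed (C := {y | Same E K' x y}) ?_ ?_ hz (Same.refl E K' x)
    · intro y hy
      exact Same.trans hy (same_E E K' y)
    · intro y hy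
      have h1 : K' y = K y := (hc.sub y).resolve_right (hcon y hy)
      have h2 := Same.trans hy (same_K E K' y)
      rwa [h1] at h2
  rcases hc.sub z with h1 | h1
  · exact hcon z hz' (h1.trans hKz)
  · exact hcon z hz' h1

/-- K with all gaps of U cut -/
def cutU (K : Lam → Lam) (U : Finset Lam) (x : Lam) : Lam := if x ∈ U ∨ K x ∈ U then x else K x

theorem cutU_cut (hK : ∀ x, K (K x) = x) (U : Finset Lam) : Cut K (cutU K U) := by
  refine ⟨fun x => ?_, fun x => ?_⟩
  · unfold cutU; split_ifs <;> simp
  · unfold cutU
    by_cases h : x ∈ U ∨ K x ∈ U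
    · simp [h]
    · have h' : ¬ (K x ∈ U ∨ K (K x) ∈ U) := by rw [hK]; tauto
      rw [if_neg h, if_neg h', hK]

theorem step_eq (U : Finset Lam) (x : Lam) : step I K U x = if x ∈ U then I x else cutU K U x := by
  unfold step cutU
  by_cases h1 : x ∈ U
  · simp [h1]
  · by_cases h2 : K x ∈ U <;> simp [h1, h2]

theorem Far.geo {U : Finset Lam} (hI : ∀ x, I (I x) = x) (hG : Geo E K)
    (hU : Far E I K U) : Geo E (step I K U) := by
  have hc := cutU_cut (K := K) hG.Kinv U
  have hG1 := hG.cut hc
  have hfix : ∀ x, x ∈ U → cutU K U x = x := fun x hx => by simp [cutU, hx]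
  have hle : ∀ {x y : Lam}, Same E (cutU K U) x y → Same E (step I K U) x y := by
    intro x y h
    refine Same.le (Cl := Same E (step I K U)) (Same.refl _ _) (fun _ _ _ h1 h2 => h1.trans h2)
      (same_E _ _) (fun z => ?_) h
    by_cases hz : z ∈ U
    · rw [hfix z hz]; exact Same.refl _ _ _
    · have := same_K E (step I K U) z
      rwa [step_eq, if_neg hz] at this
  refine ⟨hG.Einv, hG.Ene, fun x => ?_, fun x => ?_⟩
  · by_cases hx : x ∈ U
    · rw [step_eq U x, if_pos hx, step_eq, if_pos (hU.closed x hx), hI]
    · have h1 : cutU K U x ∉ U := by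
        intro h
        rcases hc.sub x with h2 | h2
        · by_cases h3 : K x ∈ U
          · have : cutU K U x = x := by simp [cutU, h3]
            rw [this] at h; exact hx h
          · rw [h2] at h; exact h3 h
        · rw [h2] at h; exact hx h
      rw [step_eq U x, if_neg hx, step_eq, if_neg h1, hc.inv]
  · obtain ⟨z, hz, hKz⟩ := hG1.acyc x
    by_cases hzU : z ∈ U
    · obtain ⟨w, hwz, hzw, hKw⟩ := hG1.second hKz
      have hwU : w ∉ U := by
        intro hw
        exact hwz (hU.sep z hzU w hw (Same.mono hc.sub hzw)).symm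
      exact ⟨w, hle (hz.trans hzw), by rw [step_eq, if_neg hwU, hKw]⟩
    · exact ⟨z, hle hz, by rw [step_eq, if_neg hzU, hKz]⟩

theorem step_cases (U : Finset Lam) (x : Lam) :
    step I K U x = K x ∨ step I K U x = x ∨ (step I K U x = I x ∧ x ∈ U) := by
  unfold step
  split_ifs with h1 h2
  · exact Or.inr (Or.inr ⟨rfl, h1⟩)
  · exact Or.inr (Or.inl rfl)
  · exact Or.inl rfl

theorem Far.formed {U : Finset Lam} (hI : ∀ x, I (I x) = x) (hU : Far E I K U) {x : Lam}
    (hx : K x = I x) : step I K U x = I x := by
  unfold step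
  split_ifs with h1 h2
  · rfl
  · exfalso
    rw [hx] at h2
    have := hU.closed _ h2
    rw [hI] at this
    exact h1 this
  · exact hx

theorem Far.unformed {U : Finset Lam} (hU : Far E I K U) {x : Lam} (hx : x ∈ U) : K x ≠ I x := by
  intro h
  have h1 := hU.sep x hx (I x) (hU.closed x hx) (h ▸ same_K E K x)
  exact hU.moving x hx h1.symm

theorem FarRun.geo {Us : List (Finset Lam)} (hI : ∀ x, I (I x) = x)
    (hG : Geo E K) (h : FarRun E I K Us K') : Geo E K' := by
  induction h with
  | nil => exact hG
  | cons K U Us K' hU _ ih => exact ih (hU.geo hI hG)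

theorem FarRun.loose {Us : List (Finset Lam)} (hL : ∀ x, I x = x → K x = x)
    (h : FarRun E I K Us K') : ∀ x, I x = x → K' x = x := by
  induction h with
  | nil => exact hL
  | cons K U Us K' hU _ ih =>
    apply ih
    intro x hx
    rcases step_cases (I := I) (K := K) U x with h1 | h1 | h1
    · rw [h1, hL x hx]
    · exact h1
    · exact absurd hx (hU.moving x h1.2)

theorem FarRun.cases' {Us : List (Finset Lam)}
    (h : FarRun E I K Us K') : ∀ x, K' x = K x ∨ K' x = x ∨ K' x = I x := by
  induction h with
  | nil => intro x; exact Or.inl rfl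
  | cons K U Us K' hU _ ih =>
    intro x
    rcases ih x with h1 | h1 | h1
    · rcases step_cases (I := I) (K := K) U x with h2 | h2 | h2
      · left; rw [h1, h2]
      · right; left; rw [h1, h2]
      · right; right; rw [h1, h2.1]
    · exact Or.inr (Or.inl h1)
    · exact Or.inr (Or.inr h1)

theorem FarRun.formed' {Us : List (Finset Lam)} (hI : ∀ x, I (I x) = x)
    (h : FarRun E I K Us K') : ∀ x, K x = I x → K' x = I x := by
  induction h with
  | nil => intro x hx; exact hx
  | cons K U Us K' hU _ ih =>
    intro x hx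
    exact ih x (hU.formed hI hx)

theorem FarRun.used' {Us : List (Finset Lam)} (hI : ∀ x, I (I x) = x)
    (h : FarRun E I K Us K') : ∀ U ∈ Us, ∀ x ∈ U, K x ≠ I x ∧ K' x = I x := by
  induction h with
  | nil => intro U hU; simp at hU
  | cons K U Us K' hU hrun ih =>
    intro V hV x hx
    rcases List.mem_cons.mp hV with rfl | hV
    · refine ⟨hU.unformed hx, ?_⟩
      apply hrun.formed' hI
      unfold step; rw [if_pos hx]
    · have h1 := ih V hV x hx
      exact ⟨fun h2 => h1.1 (hU.formed hI h2), h1.2⟩

set_option linter.unusedVariables false in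
/-- what a level does to a label: unchanged, loose, or formed -/
theorem FarRun.cases {Us : List (Finset Lam)} (hI : ∀ x, I (I x) = x) (hG : Geo E K)
    (h : FarRun E I K Us K') : ∀ x, K' x = K x ∨ K' x = x ∨ K' x = I x := h.cases'

set_option linter.unusedVariables false in
/-- formed labels stay formed -/
theorem FarRun.formed {Us : List (Finset Lam)} (hI : ∀ x, I (I x) = x) (hG : Geo E K)
    (h : FarRun E I K Us K') : ∀ x, K x = I x → K' x = I x := h.formed' hI

set_option linter.unusedVariables false in
/-- used labels were unformed before and are formed at the end -/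
theorem FarRun.used {Us : List (Finset Lam)} (hI : ∀ x, I (I x) = x) (hG : Geo E K)
    (h : FarRun E I K Us K') : ∀ U ∈ Us, ∀ x ∈ U, K x ≠ I x ∧ K' x = I x := h.used' hI

theorem FarRun.was_used {Us : List (Finset Lam)} (h : FarRun E I K Us K') :
    ∀ x, K x = x → K' x ≠ x → ∃ U ∈ Us, x ∈ U := by
  induction h with
  | nil => intro x h1 h2; exact absurd h1 h2
  | cons K U Us K' hU hrun ih =>
    intro x h1 h2
    by_cases hx : x ∈ U
    · exact ⟨U, List.mem_cons_self, hx⟩
    · have h3 : step I K U x = x := by
        unfold step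
        rw [if_neg hx, h1]
        simp
      obtain ⟨V, hV, hxV⟩ := ih x h3 h2
      exact ⟨V, List.mem_cons_of_mem _ hV, hxV⟩

theorem FarRun.append {K1 : Lam → Lam} {Us Vs : List (Finset Lam)} (h : FarRun E I K Us K1)
    (h' : FarRun E I K1 Vs K') : FarRun E I K (Us ++ Vs) K' := by
  induction h with
  | nil => exact h'
  | cons K U Us K1 hU _ ih => exact FarRun.cons K U _ K' hU (ih h')

theorem step_cutU (U : Finset Lam) : step I (cutU K U) U = step I K U := by
  funext x
  rw [step_eq, step_eq]
  by_cases hx : x ∈ U
  · simp [hx]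
  · rw [if_neg hx, if_neg hx]
    unfold cutU
    by_cases h2 : K x ∈ U
    · simp [hx, h2]
    · simp [hx, h2]

theorem Loc.far {O : Finset Lam} (hI : ∀ x, I (I x) = x) (hG : Geo E K)
    (hO : Loc E I K O) : Far E I (cutU K (locU I O)) (locU I O) := by
  have hmem : ∀ x, x ∈ locU I O ↔ x ∈ O ∨ I x ∈ O := by
    intro x
    unfold locU
    rw [Finset.mem_union, Finset.mem_image]
    constructor
    · rintro (h | ⟨p, hp, rfl⟩)
      · exact Or.inl h
      · right; rw [hI]; exact hp
    · rintro (h | h)
      · exact Or.inl h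
      · exact Or.inr ⟨I x, h, hI x⟩
  have hne : ∀ p ∈ O, I p ≠ p := by
    intro p hp h
    apply hO.side p hp
    rw [h]; exact Same.refl _ _ _
  have hside : ∀ p ∈ O, ¬ Same E (cutU K (locU I O)) p (I p) := by
    intro p hp h
    apply hO.side p hp
    refine Same.mono (fun z => ?_) h
    unfold cutAt
    by_cases hz : z = p ∨ z = K p
    · rw [if_pos hz]
      left
      have : z ∈ locU I O ∨ K z ∈ locU I O := by
        rcases hz with rfl | rfl
        · left; rw [hmem]; exact Or.inl hp
        · right; rw [hG.Kinv, hmem]; exact Or.inl hp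
      unfold cutU; rw [if_pos this]
    · rw [if_neg hz]
      unfold cutU; split_ifs <;> simp
  refine ⟨fun x hx => ?_, fun x hx => ?_, fun x hx y hy hxy => ?_⟩
  · rw [hmem] at hx ⊢
    rw [hI]; tauto
  · rw [hmem] at hx
    rcases hx with h | h
    · exact hne x h
    · intro h2
      rw [h2] at h
      exact hne x h h2
  · have hK : Same E K x y := Same.mono (cutU_cut hG.Kinv _).sub hxy
    rw [hmem] at hx hy
    have hsy := fun {a b : Lam} (h : Same E K a b) => hG.symm h
    have hsy' := fun {a b : Lam} (h : Same E (cutU K (locU I O)) a b) =>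
      (hG.cut (cutU_cut hG.Kinv (locU I O))).symm h
    rcases hx with hx | hx <;> rcases hy with hy | hy
    · exact hO.sep x hx y hy hK
    · have h1 : Same E K x (I y) := by
        have := hsy (hO.body _ hy)
        rw [hI] at this
        exact hK.trans this
      have h2 := hO.sep x hx (I y) hy h1
      exfalso
      apply hside x hx
      have h3 : I x = y := by rw [h2, hI]
      rwa [h3]
    · have h1 : Same E K (I x) y := by
        have := hO.body _ hx
        rw [hI] at this
        exact this.trans hK
      have h2 := hO.sep (I x) hx y hy h1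
      exfalso
      apply hside y hy
      have h3 : I y = x := by rw [← h2, hI]
      rw [h3]
      exact hsy' hxy
    · have h1 : Same E K (I x) (I y) := by
        have e1 := hO.body _ hx
        have e2 := hsy (hO.body _ hy)
        rw [hI] at e1 e2
        exact (e1.trans hK).trans e2
      have h2 := hO.sep _ hx _ hy h1
      have h3 := congrArg I h2
      rwa [hI, hI] at h3

theorem Loc.geo {O : Finset Lam} (hI : ∀ x, I (I x) = x) (hG : Geo E K)
    (hO : Loc E I K O) : Geo E (step I K (locU I O)) := by
  have h := (hO.far hI hG).geo hI (hG.cut (cutU_cut hG.Kinv (locU I O)))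
  rwa [step_cutU] at h

/-- a local level does not leave the bodies -/
theorem Loc.same {O : Finset Lam} (hI : ∀ x, I (I x) = x) (hG : Geo E K)
    (hO : Loc E I K O) {x y : Lam} (h : Same E (step I K (locU I O)) x y) : Same E K x y := by
  refine Same.le (Cl := Same E K) (Same.refl _ _) (fun _ _ _ h1 h2 => h1.trans h2)
    (same_E _ _) (fun z => ?_) h
  rcases step_cases (I := I) (K := K) (locU I O) z with h1 | h1 | ⟨h1, h2⟩
  · rw [h1]; exact same_K _ _ _
  · rw [h1]; exact Same.refl _ _ _
  · rw [h1]
    unfold locU at h2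
    rcases Finset.mem_union.mp h2 with h3 | h3
    · exact hO.body z h3
    · obtain ⟨p, hp, rfl⟩ := Finset.mem_image.mp h3
      rw [hI]
      exact hG.symm (hO.body p hp)

end B

end BP2
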