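import Mathlib
import Pool.Agent.BP2.S.Defs
import Pool.Agent.BP2.S.Base

/-! MP_475aca_co, part (S): every class of Cl gets its own delay. State at time tau at x =
(state after tau - t x levels of Us) x. -/

set_option autoImplicit false

namespace BP2

section Delay
variable {Lam : Type*} [DecidableEq Lam] {E I K : Lam → Lam}

theorem delay_far_empty (E I K : Lam → Lam) : Far E I K ∅ :=
  ⟨fun x hx => by simp at hx, fun x hx => by simp at hx, fun x hx => by simp at hx⟩

theorem delay_step_empty (I K : Lam → Lam) : step I K ∅ = K := by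
  funext x; simp [step]

/-- a far run as a sequence of states -/
theorem FarRun.delayStates {K' : Lam → Lam} {Us : List (Finset Lam)} (h : FarRun E I K Us K') :
    ∃ S : ℕ → Lam → Lam, S 0 = K ∧ (∀ n, Us.length ≤ n → S n = K') ∧
      ∀ n, Far E I (S n) (Us.getD n ∅) ∧ S (n + 1) = step I (S n) (Us.getD n ∅) := by
  induction h with
  | nil K =>
    refine ⟨fun _ => K, rfl, fun _ _ => rfl, fun n => ⟨?_, ?_⟩⟩
    · simpa using delay_far_empty E I K
    · simp [delay_step_empty]
  | cons K U Us K' hU _ ih =>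
    obtain ⟨S, h0, h1, h2⟩ := ih
    refine ⟨fun n => match n with
      | 0 => K
      | n + 1 => S n, rfl, ?_, ?_⟩
    · intro n hn
      cases n with
      | zero => simp at hn
      | succ n => exact h1 n (by simpa using hn)
    · intro n
      cases n with
      | zero => exact ⟨by simpa using hU, by simpa using h0⟩
      | succ n => exact ⟨by simpa using (h2 n).1, by simpa using (h2 n).2⟩

/-- a sequence of states as a far run -/
theorem FarRun.delayOfStates (S : ℕ → Lam → Lam) (V : ℕ → Finset Lam)
    (h : ∀ n, Far E I (S n) (V n) ∧ S (n + 1) = step I (S n) (V n)) (N : ℕ) :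
    FarRun E I (S 0) ((List.range N).map V) (S N) := by
  induction N with
  | zero => exact FarRun.nil _
  | succ N ih =>
    rw [List.range_succ, List.map_append]
    have h1 : ∀ {K1 K2 : Lam → Lam} {Us Ws : List (Finset Lam)}, FarRun E I K1 Us K2 →
        ∀ {K3 : Lam → Lam}, FarRun E I K2 Ws K3 → FarRun E I K1 (Us ++ Ws) K3 := by
      intro K1 K2 Us Ws ha
      induction ha with
      | nil => intro K3 hb; exact hb
      | cons K U Us K1 hU _ ih2 => intro K3 hb; exact FarRun.cons K U _ _ hU (ih2 hb)
    refine h1 ih ?_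
    have h2 := FarRun.cons (S N) (V N) [] (S (N + 1)) (h N).1
      (by rw [(h N).2]; exact FarRun.nil _)
    simpa using h2

end Delay

section Delay2
variable {Lam : Type*} [Fintype Lam] [DecidableEq Lam] {E I K : Lam → Lam}

set_option linter.unusedVariables false in
theorem delay (Cl : Lam → Lam → Prop) (hCl : Equivalence Cl) {K1 K' : Lam → Lam}
    {Us : List (Finset Lam)} (hI : ∀ x, I (I x) = x) (hG : Geo E K1)
    (h1 : ∀ x y, Same E K1 x y → Cl x y)
    (hU : ∀ U ∈ Us, ∀ x ∈ U, Cl x (I x)) (hrun : FarRun E I K1 Us K') (T : ℕ)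
    (t : Lam → ℕ) (ht : ∀ x, t x < T) (htc : ∀ x y, Cl x y → t x = t y) :
    ∃ Vs : List (Finset Lam), Vs.length = T + Us.length ∧ FarRun E I K1 Vs K' ∧
      ∀ (tau : ℕ) (h : tau < Vs.length) (x : Lam), x ∈ Vs[tau] ↔
        ∃ (s : ℕ) (hs : s < Us.length), x ∈ Us[s] ∧ tau = t x + s := by
  obtain ⟨S, hS0, hSL, hS⟩ := hrun.delayStates
  set U : ℕ → Finset Lam := fun n => Us.getD n ∅ with hUdef
  have hUmem : ∀ n x, x ∈ U n ↔ ∃ (hn : n < Us.length), x ∈ Us[n] := by
    intro n x
    simp only [hUdef]
    by_cases hn : n < Us.length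
    · rw [List.getD_eq_getElem _ _ hn]
      exact ⟨fun h => ⟨hn, h⟩, fun ⟨_, h⟩ => h⟩
    · rw [List.getD_eq_default _ _ (by omega)]
      simp [hn]
  have hUC : ∀ n x, x ∈ U n → Cl x (I x) := by
    intro n x hx
    obtain ⟨hn, hx'⟩ := (hUmem n x).mp hx
    exact hU _ (List.getElem_mem hn) x hx'
  have hE : ∀ x, Cl x (E x) := fun x => h1 _ _ (same_E E K1 x)
  have hSC : ∀ n x, Cl x (S n x) := by
    intro n
    induction n with
    | zero => intro x; rw [hS0]; exact h1 _ _ (same_K E K1 x)
    | succ n ih =>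
      intro x
      rw [(hS n).2]
      rcases step_cases (I := I) (K := S n) (U n) x with h | h | ⟨h, h'⟩
      · rw [h]; exact ih x
      · rw [h]; exact hCl.refl x
      · rw [h]; exact hUC n x h'
  -- delayed states and levels
  let S' : ℕ → Lam → Lam := fun tau x => S (tau - t x) x
  let V : ℕ → Finset Lam := fun tau => Finset.univ.filter (fun x => t x ≤ tau ∧ x ∈ U (tau - t x))
  have hVmem : ∀ tau x, x ∈ V tau ↔ t x ≤ tau ∧ x ∈ U (tau - t x) := by
    intro tau x; simp [V]
  have hS'C : ∀ tau x, Cl x (S' tau x) := fun tau x => hSC _ x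
  have hstep : ∀ tau, S' (tau + 1) = step I (S' tau) (V tau) := by
    intro tau
    funext x
    have hty : t (S' tau x) = t x := (htc _ _ (hS'C tau x)).symm
    by_cases hlt : tau < t x
    · have e1 : x ∉ V tau := by rw [hVmem]; omega
      have e2 : S' tau x ∉ V tau := by rw [hVmem, hty]; omega
      unfold step
      rw [if_neg e1, if_neg e2]
      change S (tau + 1 - t x) x = S (tau - t x) x
      rw [show tau + 1 - t x = 0 by omega, show tau - t x = 0 by omega]
    · have hle : t x ≤ tau := by omega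
      have e1 : x ∈ V tau ↔ x ∈ U (tau - t x) := by rw [hVmem]; tauto
      have e2 : S' tau x ∈ V tau ↔ S (tau - t x) x ∈ U (tau - t x) := by
        rw [hVmem, hty]
        exact ⟨fun h => h.2, fun h => ⟨hle, h⟩⟩
      change S (tau + 1 - t x) x = _
      rw [show tau + 1 - t x = (tau - t x) + 1 by omega, (hS (tau - t x)).2]
      unfold step
      change (if x ∈ U (tau - t x) then I x else if S (tau - t x) x ∈ U (tau - t x) then x
        else S (tau - t x) x) = if x ∈ V tau then I x else if S' tau x ∈ V tau then x else S' tau x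
      by_cases c1 : x ∈ U (tau - t x)
      · rw [if_pos c1, if_pos (e1.mpr c1)]
      · rw [if_neg c1, if_neg (fun h => c1 (e1.mp h))]
        by_cases c2 : S (tau - t x) x ∈ U (tau - t x)
        · rw [if_pos c2, if_pos (e2.mpr c2)]
        · rw [if_neg c2, if_neg (fun h => c2 (e2.mp h))]
  have hfar : ∀ tau, Far E I (S' tau) (V tau) := by
    intro tau
    refine ⟨fun x hx => ?_, fun x hx => ?_, fun x hx y hy hxy => ?_⟩
    · rw [hVmem] at hx ⊢
      rw [← htc _ _ (hUC _ _ hx.2)]
      exact ⟨hx.1, (hS _).1.closed x hx.2⟩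
    · rw [hVmem] at hx
      exact (hS _).1.moving x hx.2
    · rw [hVmem] at hx hy
      have hmain : y ∈ {z | Same E (S (tau - t x)) x z ∧ Cl x z} := by
        refine Same.closed (C := {z | Same E (S (tau - t x)) x z ∧ Cl x z}) ?_ ?_ hxy
          ⟨Same.refl _ _ _, hCl.refl x⟩
        · rintro z ⟨hz1, hz2⟩
          exact ⟨hz1.trans (same_E _ _ _), hCl.trans hz2 (hE z)⟩
        · rintro z ⟨hz1, hz2⟩
          have e : S' tau z = S (tau - t x) z := by
            change S (tau - t z) z = _
            rw [← htc _ _ hz2]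
          rw [e]
          exact ⟨hz1.trans (same_K _ _ _), hCl.trans hz2 (hSC _ z)⟩
      rw [← htc _ _ hmain.2] at hy
      exact (hS _).1.sep x hx.2 y hy.2 hmain.1
  have hrun' := FarRun.delayOfStates (E := E) (I := I) S' V (fun n => ⟨hfar n, hstep n⟩)
    (T + Us.length)
  have hS'0 : S' 0 = K1 := by
    funext x
    change S (0 - t x) x = K1 x
    rw [Nat.zero_sub, hS0]
  have hS'T : S' (T + Us.length) = K' := by
    funext x
    change S (T + Us.length - t x) x = K' x
    rw [hSL _ (by have := ht x; omega)]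
  rw [hS'0, hS'T] at hrun'
  refine ⟨(List.range (T + Us.length)).map V, by simp, hrun', ?_⟩
  intro tau h x
  have e : ((List.range (T + Us.length)).map V)[tau] = V tau := by simp
  rw [e, hVmem]
  constructor
  · rintro ⟨h2, h3⟩
    obtain ⟨hn, hx⟩ := (hUmem _ _).mp h3
    exact ⟨tau - t x, hn, hx, by omega⟩
  · rintro ⟨s, hs, hx, h2⟩
    refine ⟨by omega, ?_⟩
    rw [show tau - t x = s by omega, hUmem]
    exact ⟨hs, hx⟩

end Delay2

end BP2
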