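import Pool.Agent.BP2.S.Bridge

/-!
# Gadgets

`IConn E I W` : `W` is connected by `E` and by `I` restricted to `W` (it is an interval of the
target arrangement).
* `gadget_iconn` : a body `W` of `E, K` such that all non-loose labels have their `I`-partner in
  `W` is `IConn`;
* `gadget_loose` : in a body `W` all loose labels have their `I`-partner outside `W`;
* `gadget_step` : as long as something in `W` is not formed, there is a far unit in `W`, or `W` is
  one body and there is a local alpha.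
* `GInv` : the invariants, kept by the units (`GInv.upd`).
-/

set_option autoImplicit false

open Classical

namespace BP2

variable {L : Type*}

/-- `W` is connected by `E` and by `I` restricted to `W` -/
def IConn (E I : L → L) (W : Set L) : Prop :=
  ∀ D : Set L, D ⊆ W → D.Nonempty → (∀ x ∈ D, E x ∈ D) → (∀ x ∈ D, I x ∈ W → I x ∈ D) → D = W

/-- the invariants of a gadget -/
structure GInv (E I K : L → L) (W : Set L) : Prop where
  cl : Cl E K W
  /-- non-loose labels are matched inside -/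
  gap : ∀ x ∈ W, K x ≠ x → I x ∈ W
  /-- the top label of the target is loose -/
  top : ∀ x ∈ W, I x = x → K x = x

/-- `I` restricted to `D` -/
noncomputable def restr (I : L → L) (D : Set L) (z : L) : L :=
  if z ∈ D ∧ I z ∈ D then I z else z

theorem restr_invol {I : L → L} (hI : Function.Involutive I) (D : Set L) :
    Function.Involutive (restr I D) := by
  intro z
  by_cases h : z ∈ D ∧ I z ∈ D
  · have h1 : restr I D z = I z := if_pos h
    have h2 : I z ∈ D ∧ I (I z) ∈ D := ⟨h.2, by rw [hI]; exact h.1⟩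
    have h3 : restr I D (I z) = I (I z) := if_pos h2
    rw [h1, h3, hI]
  · have h1 : restr I D z = z := by simp only [restr, if_neg h]
    rw [h1, h1]

theorem restr_cl {E I : L → L} {D : Set L} (hE : ∀ x ∈ D, E x ∈ D) : Cl E (restr I D) D := by
  intro z hz
  refine ⟨hE z hz, ?_⟩
  unfold restr
  split_ifs with h
  · exact h.2
  · exact hz

theorem restr_fix {I : L → L} {D : Set L} {z : L} (hz : z ∈ D) :
    restr I D z = z ↔ (I z ∉ D ∨ I z = z) := by
  unfold restr
  split_ifs with h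
  · constructor
    · intro h1; exact Or.inr h1
    · rintro (h1 | h1)
      · exact absurd h.2 h1
      · exact h1
  · constructor
    · intro _
      by_cases h1 : I z ∈ D
      · exact absurd ⟨hz, h1⟩ h
      · exact Or.inl h1
    · intro _; rfl

variable [Fintype L]

/-- a set closed under `E` contains at least two ends of `E` and `I` restricted -/
theorem two_le_restr {E I : L → L} (hE : Function.Involutive E) (hI : Function.Involutive I)
    (htop : ∃ x, I x = x) (hEI : ∀ x y, Conn E I x y) {D : Set L} (hD : D.Nonempty)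
    (hDE : ∀ x ∈ D, E x ∈ D) : 2 ≤ ends E (restr I D) D := by
  have h1 : ∃ z ∈ D, restr I D z = z := by
    by_contra h
    push Not at h
    obtain ⟨x, hx⟩ := hD
    obtain ⟨t, ht⟩ := htop
    have h2 : Cl E I D := by
      intro z hz
      refine ⟨hDE z hz, ?_⟩
      by_contra h3
      exact h z hz ((restr_fix hz).2 (Or.inl h3))
    have h3 := hEI x t D h2 hx
    exact h t h3 ((restr_fix h3).2 (Or.inr ht))
  obtain ⟨z, hz, h2⟩ := h1
  exact two_le_ends hE (restr_invol hI D) (restr_cl hDE) hz (Or.inr h2)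

theorem ends_split {E K : L → L} {W D : Set L} (hD : D ⊆ W) :
    ends E K W = ends E K D + ends E K (W \ D) := by
  have aux : ∀ p : L → Prop, {x | x ∈ W ∧ p x}.ncard =
      {x | x ∈ D ∧ p x}.ncard + {x | x ∈ W \ D ∧ p x}.ncard := by
    intro p
    rw [← Set.ncard_union_eq]
    · congr 1
      ext x
      simp only [Set.mem_union, Set.mem_ofPred_eq, Set.mem_sdiff]
      constructor
      · rintro ⟨h1, h2⟩
        by_cases h3 : x ∈ D
        · exact Or.inl ⟨h3, h2⟩
        · exact Or.inr ⟨⟨h1, h3⟩, h2⟩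
      · rintro (⟨h1, h2⟩ | ⟨⟨h1, _⟩, h2⟩)
        · exact ⟨hD h1, h2⟩
        · exact ⟨h1, h2⟩
    · rw [Set.disjoint_left]
      rintro x ⟨h1, _⟩ ⟨⟨_, h2⟩, _⟩
      exact h2 h1
  unfold ends
  rw [aux, aux]
  omega

theorem ends_mono {E J K : L → L} {D : Set L} (h : ∀ x ∈ D, J x = x → K x = x) :
    ends E J D ≤ ends E K D := by
  unfold ends
  have : {x | x ∈ D ∧ J x = x}.ncard ≤ {x | x ∈ D ∧ K x = x}.ncard :=
    Set.ncard_le_ncard (fun x hx => ⟨hx.1, h x hx.1 hx.2⟩) (Set.toFinite _)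
  omega

/-- a closed gadget is an interval of the target -/
theorem gadget_iconn {E I K : L → L} (hE : Function.Involutive E) (hI : Function.Involutive I)
    (hK : Function.Involutive K) (htop : ∃ x, I x = x) (hEI : ∀ x y, Conn E I x y)
    {W : Set L} (hW : Con1 E K W) (hG : GInv E I K W) : IConn E I W := by
  intro D hDW hDn hDE hDI
  by_contra hne
  have hD' : (W \ D).Nonempty := by
    by_contra h
    rw [Set.not_nonempty_iff_eq_empty, Set.sdiff_eq_empty] at h
    exact hne (Set.Subset.antisymm hDW h)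
  have hDE' : ∀ x ∈ W \ D, E x ∈ W \ D := by
    rintro x ⟨h1, h2⟩
    refine ⟨(hW.1 x h1).1, fun h3 => h2 ?_⟩
    have := hDE _ h3
    rwa [hE] at this
  have hDI' : ∀ x ∈ W \ D, I x ∈ W → I x ∈ W \ D := by
    rintro x ⟨h1, h2⟩ h3
    refine ⟨h3, fun h4 => h2 ?_⟩
    have := hDI _ h4 (by rw [hI]; exact h1)
    rwa [hI] at this
  have key : ∀ F : Set L, F ⊆ W → (∀ x ∈ F, I x ∈ W → I x ∈ F) →
      ∀ x ∈ F, restr I F x = x → K x = x := by
    intro F hF hFI x hx h1
    rcases (restr_fix hx).1 h1 with h2 | h2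
    · by_contra h3
      exact h2 (hFI x hx (hG.gap x (hF hx) h3))
    · exact hG.top x (hF hx) h2
  have h1 := two_le_restr hE hI htop hEI hDn hDE
  have h2 := two_le_restr hE hI htop hEI hD' hDE'
  have h3 := ends_mono (E := E) (key D hDW hDI)
  have h4 := ends_mono (E := E) (key (W \ D) Set.sdiff_subset hDI')
  have h5 := ends_le_two hE hK hW
  rw [ends_split hDW] at h5
  omega

/-- in a body all loose labels are matched outside -/
theorem gadget_loose {E I K : L → L} (hE : Function.Involutive E) (hI : Function.Involutive I)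
    (hK : Function.Involutive K) (htop : ∃ x, I x = x) (hEI : ∀ x y, Conn E I x y)
    {W : Set L} (hW : Con1 E K W) (hG : GInv E I K W) {x : L} (hx : x ∈ W) (hKx : K x = x) :
    I x ∉ W ∨ I x = x := by
  have h1 := two_le_restr hE hI htop hEI hW.2.1 (fun z hz => (hW.1 z hz).1)
  have h2 := ends_le_two hE hK hW
  have hsub : {z | z ∈ W ∧ restr I W z = z} ⊆ {z | z ∈ W ∧ K z = z} := by
    rintro z ⟨hz, h3⟩
    refine ⟨hz, ?_⟩
    rcases (restr_fix hz).1 h3 with h4 | h4
    · by_contra h5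
      exact h4 (hG.gap z hz h5)
    · exact hG.top z hz h4
  have h3 : {z | z ∈ W ∧ K z = z}.ncard ≤ {z | z ∈ W ∧ restr I W z = z}.ncard := by
    unfold ends at h1 h2
    omega
  have h4 := Set.eq_of_subset_of_ncard_le hsub h3 (Set.toFinite _)
  have h5 : x ∈ {z | z ∈ W ∧ K z = z} := ⟨hx, hKx⟩
  rw [← h4] at h5
  exact (restr_fix hx).1 h5.2

omit [Fintype L] in
/-- the formed part of `K` -/
theorem formed_invol {I K : L → L} (hI : Function.Involutive I) (hK : Function.Involutive K) :
    Function.Involutive (fun z => if K z = I z then K z else z) := by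
  intro z
  by_cases h : K z = I z
  · have h1 : K (K z) = I (K z) := by rw [hK, h, hI]
    have h2 : (fun z => if K z = I z then K z else z) z = K z := if_pos h
    have h3 : (fun z => if K z = I z then K z else z) (K z) = K (K z) := if_pos h1
    rw [h2, h3, hK]
  · have h2 : (fun z => if K z = I z then K z else z) z = z := if_neg h
    rw [h2, h2]

theorem three_ends {E J : L → L} {A : Set L} {a b z0 : L} (ha : a ∈ A) (hb : b ∈ A)
    (hz0 : z0 ∈ A) (hab : a ≠ b) (hJa : J a = a) (hJb : J b = b)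
    (h0 : E z0 = z0 ∨ (J z0 = z0 ∧ z0 ≠ a ∧ z0 ≠ b)) : 3 ≤ ends E J A := by
  have h2 : ({a, b} : Set L) ⊆ {x | x ∈ A ∧ J x = x} := by
    rintro x (rfl | rfl)
    · exact ⟨ha, hJa⟩
    · exact ⟨hb, hJb⟩
  unfold ends
  rcases h0 with h0 | ⟨h0, h3, h4⟩
  · have h5 : 0 < {x | x ∈ A ∧ E x = x}.ncard :=
      (Set.ncard_pos (Set.toFinite _)).2 ⟨z0, hz0, h0⟩
    have h6 := Set.ncard_le_ncard h2 (Set.toFinite _)
    rw [Set.ncard_pair hab] at h6
    omega
  · have h5 : insert z0 ({a, b} : Set L) ⊆ {x | x ∈ A ∧ J x = x} := by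
      rintro x (rfl | hx)
      · exact ⟨hz0, h0⟩
      · exact h2 hx
    have h6 := Set.ncard_le_ncard h5 (Set.toFinite _)
    rw [Set.ncard_insert_of_notMem (by
      rintro (h | h)
      · exact h3 h
      · exact h4 h), Set.ncard_pair hab] at h6
    omega

/-- the step -/
theorem gadget_step {E I K : L → L} (hE : Function.Involutive E) (hI : Function.Involutive I)
    (hK : Function.Involutive K) (htop : ∃ x, I x = x) (hEI : ∀ x y, Conn E I x y)
    (hac : Acyc E K) {W : Set L} (hG : GInv E I K W) (hIW : IConn E I W)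
    (hun : ∃ z ∈ W, I z ∈ W ∧ K z ≠ I z) :
    (∃ x ∈ W, I x ∈ W ∧ K x ≠ I x ∧ ¬ Conn E K x (I x)) ∨
    (Con1 E K W ∧ ∃ a ∈ W, I a ∈ W ∧ K a ≠ I a ∧ K a ≠ a ∧ K (I a) ≠ I a ∧
      ¬ Conn E (cut K a) a (I a)) := by
  obtain ⟨z1, hz1, hIz1, hKz1⟩ := hun
  by_cases hW : Con1 E K W
  swap
  · left
    have : ∃ D : Set L, D ⊆ W ∧ D.Nonempty ∧ Cl E K D ∧ D ≠ W := by
      by_contra h
      apply hW
      refine ⟨hG.cl, ⟨z1, hz1⟩, fun D h1 h2 h3 => ?_⟩
      by_contra h4
      exact h ⟨D, h1, h2, h3, h4⟩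
    obtain ⟨D, h1, h2, h3, h4⟩ := this
    have : ∃ x ∈ D, I x ∈ W ∧ I x ∉ D := by
      by_contra h
      push Not at h
      exact h4 (hIW D h1 h2 (fun x hx => (h3 x hx).1) h)
    obtain ⟨x, hx, h5, h6⟩ := this
    refine ⟨x, h1 hx, h5, ?_, not_conn_iff.2 ⟨D, h3, hx, h6⟩⟩
    intro h7
    apply h6
    rw [← h7]
    exact (h3 x hx).2
  right
  refine ⟨hW, ?_⟩
  have hloose := fun {x : L} (hx : x ∈ W) (hKx : K x = x) =>
    gadget_loose hE hI hK htop hEI hW hG hx hKx
  obtain ⟨z0, hz0, hend⟩ := hac W hG.cl ⟨z1, hz1⟩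
  set J : L → L := fun z => if K z = I z then K z else z with hJ
  have hJinv : Function.Involutive J := formed_invol hI hK
  have hJf : ∀ {z : L}, K z = I z → J z = K z := fun {z} h => by simp only [hJ, if_pos h]
  have hJn : ∀ {z : L}, K z ≠ I z → J z = z := fun {z} h => by simp only [hJ, if_neg h]
  have hJfix : ∀ {z : L}, K z = z → J z = z := by
    intro z h
    by_cases h1 : K z = I z
    · rw [hJf h1, h]
    · exact hJn h1
  set A := bd E J z0 with hA
  have hAW : A ⊆ W := by
    intro y hy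
    refine hy W ?_ hz0
    intro z hz
    refine ⟨(hG.cl z hz).1, ?_⟩
    by_cases h : K z = I z
    · rw [hJf h]; exact (hG.cl z hz).2
    · rw [hJn h]; exact hz
  have hAc : Con1 E J A := bd_con1 hE hJinv z0
  have hA2 : ends E J A ≤ 2 := ends_le_two hE hJinv hAc
  have hz0A : z0 ∈ A := mem_bd_self E J z0
  -- two unformed gap labels in `A` are impossible
  have htwo : ∀ a ∈ A, ∀ b ∈ A, K a ≠ a → K b ≠ b → K a ≠ I a → K b ≠ I b → a = b := by
    intro a ha b hb h1 h2 h3 h4
    by_contra hab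
    have := three_ends (E := E) ha hb hz0A hab (hJn h3) (hJn h4) (by
      rcases hend with h5 | h5
      · exact Or.inl h5
      · refine Or.inr ⟨hJfix h5, ?_, ?_⟩
        · rintro rfl; exact h1 h5
        · rintro rfl; exact h2 h5)
    omega
  have hmateI : ∀ {z : L}, K z ≠ I z → K (K z) ≠ I (K z) := by
    intro z h1 h2
    apply h1
    rw [hK] at h2
    rw [h2, hI, ← h2]
  -- an unformed gap label whose mate is outside `A`
  have hex : ∃ a ∈ A, K a ∉ A := by
    by_contra h
    push Not at h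
    have h1 : A = W := hW.2.2 A hAW hAc.2.1 fun z hz => ⟨(hAc.1 z hz).1, h z hz⟩
    have h2 : K z1 ≠ z1 := by
      intro h3
      rcases hloose hz1 h3 with h4 | h4
      · exact h4 hIz1
      · exact hKz1 (by rw [h3, h4])
    have h3 := htwo z1 (h1 ▸ hz1) (K z1) (h1 ▸ (hG.cl z1 hz1).2) h2
      (by rw [hK]; exact h2.symm) hKz1 (hmateI hKz1)
    exact h2 h3.symm
  obtain ⟨a, haA, hKa⟩ := hex
  have haW := hAW haA
  have hKaI : K a ≠ I a := by
    intro h
    apply hKa
    rw [← hJf h]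
    exact (hAc.1 a haA).2
  have hKaa : K a ≠ a := fun h => hKa (by rw [h]; exact haA)
  have hIa : I a ∈ W := hG.gap a haW hKaa
  have hKIa : K (I a) ≠ I a := by
    intro h
    rcases hloose hIa h with h1 | h1
    · exact h1 (by rw [hI]; exact haW)
    · rw [hI] at h1
      exact hKaa (hG.top a haW h1.symm)
  have hKIa' : K (I a) ≠ I (I a) := by
    intro h
    rw [hI] at h
    apply hKaI
    rw [← h, hK, h]
  refine ⟨a, haW, hIa, hKaI, hKaa, hKIa, not_conn_iff.2 ⟨A, ?_, haA, ?_⟩⟩
  · intro w hw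
    refine ⟨(hAc.1 w hw).1, ?_⟩
    by_cases h1 : w = a
    · rw [h1, cut_self]; exact haA
    have h2 : w ≠ K a := by rintro rfl; exact hKa hw
    rw [cut_of_ne K h1 h2]
    by_cases h3 : K w = w
    · rw [h3]; exact hw
    by_cases h4 : K w = I w
    · rw [← hJf h4]; exact (hAc.1 w hw).2
    · exact absurd (htwo w hw a haA h3 hKaa h4 hKaI) h1
  · intro h
    have := htwo a haA (I a) h hKaa hKIa hKaI hKIa'
    exact hKaa (hG.top a haW this.symm)

/-! ### the invariants are kept -/

omit [Fintype L] in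
theorem GInv.upd {E I K : L → L} {W U : Set L} (hG : GInv E I K W)
    (hU : ∀ x ∈ U, x ∈ W → I x ∈ W) (hU1 : ∀ x ∈ U, I x ≠ x) :
    GInv E I (upd I K U) W := by
  refine ⟨fun z hz => ⟨(hG.cl z hz).1, ?_⟩, fun z hz h => ?_, fun z hz h => ?_⟩
  · unfold BP2.upd
    split_ifs with h1 h2
    · exact hU z h1 hz
    · exact hz
    · exact (hG.cl z hz).2
  · by_cases h1 : z ∈ U
    · exact hU z h1 hz
    by_cases h2 : K z ∈ U
    · exact absurd (upd_mate I K h1 h2) h
    · rw [upd_of I K h1 h2] at h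
      exact hG.gap z hz h
  · have h1 : z ∉ U := fun h1 => hU1 z h1 h
    have h3 := hG.top z hz h
    rw [upd_of I K h1 (by rw [h3]; exact h1), h3]

/-! ### the statements of the skeleton -/

section skel

variable {Lam : Type*} [Fintype Lam] {E I K : Lam → Lam}

omit [Fintype Lam] in
theorem Tgt.conn' {E I : Lam → Lam} (hT : Tgt E I) : ∀ x y, Conn E I x y :=
  fun x y => same_iff_conn.1 (hT.conn x y)

omit [Fintype Lam] in
theorem Closed.gInv (hL : ∀ x, I x = x → K x = x) (hC : Closed E I K) (x : Lam) :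
    GInv E I K (bd E K x) := by
  refine ⟨bd_cl E K x, fun z hz h => ?_, fun z _ h => hL z h⟩
  exact (hz : Conn E K x z).trans (same_iff_conn.1 (hC z h))

/-- the loose labels of a closed state are matched outside their bodies -/
theorem closed_ends (hT : Tgt E I) (hG : Geo E K) (hL : ∀ x, I x = x → K x = x)
    (hC : Closed E I K) (x : Lam) (hx : K x = x) (hne : I x ≠ x) : ¬ Same E K x (I x) := by
  intro h
  rcases gadget_loose hG.Einv hT.Iinv hG.Kinv hT.top hT.conn' (bd_con1 hG.Einv hG.Kinv x)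
    (hC.gInv hL x) (mem_bd_self E K x) hx with h1 | h1
  · exact h1 (same_iff_conn.1 h)
  · exact hne h1

/-- if a `K`-body contains two `K1`-bodies, some target adjacency inside it joins two
`K1`-bodies -/
theorem exists_edge (hT : Tgt E I) (hG : Geo E K) (hL : ∀ x, I x = x → K x = x)
    (hC : Closed E I K) {K1 : Lam → Lam} (_hG1 : Geo E K1)
    (h1 : ∀ x y, Same E K1 x y → Same E K x y) {x y : Lam} (hxy : Same E K x y)
    (hn : ¬ Same E K1 x y) : ∃ z, Same E K x z ∧ Same E K x (I z) ∧ ¬ Same E K1 z (I z) := by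
  have hW := gadget_iconn hG.Einv hT.Iinv hG.Kinv hT.top hT.conn'
    (bd_con1 hG.Einv hG.Kinv x) (hC.gInv hL x)
  have hsub : bd E K1 x ⊆ bd E K x := fun z hz => same_iff_conn.1 (h1 x z (same_iff_conn.2 hz))
  by_contra hno
  push Not at hno
  have h2 := hW (bd E K1 x) hsub ⟨x, mem_bd_self E K1 x⟩ (fun z hz => (bd_cl E K1 x z hz).1)
    (by
      intro z hz hIz
      have h3 := hno z (same_iff_conn.2 (hsub hz)) (same_iff_conn.2 hIz)
      exact (hz : Conn E K1 x z).trans (same_iff_conn.1 h3))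
  apply hn
  have h4 : y ∈ bd E K x := same_iff_conn.1 hxy
  rw [← h2] at h4
  exact same_iff_conn.2 h4

variable [DecidableEq Lam]

/-- one local unit for every body with a gap label -/
theorem exists_loc (hT : Tgt E I) (hG : Geo E K) (hL : ∀ x, I x = x → K x = x)
    (hC : Closed E I K) : ∃ O : Finset Lam, Loc E I K O ∧ (∀ x ∈ gapL I K, ∃ p ∈ O,
      Same E K x p) ∧ (∀ p ∈ O, p ∈ gapL I K) := by
  -- one unit
  have hone : ∀ x ∈ gapL I K, ∃ p, Same E K x p ∧ Same E K p (I p) ∧ K p ≠ I p ∧ K p ≠ p ∧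
      K (I p) ≠ I p ∧ ¬ Same E (cutAt K p) p (I p) := by
    intro x hx
    have hx' : K x ≠ x ∧ K x ≠ I x := (Finset.mem_filter.1 hx).2
    have hW := gadget_iconn hG.Einv hT.Iinv hG.Kinv hT.top hT.conn'
      (bd_con1 hG.Einv hG.Kinv x) (hC.gInv hL x)
    rcases gadget_step hG.Einv hT.Iinv hG.Kinv hT.top hT.conn' hG.acyc' (hC.gInv hL x) hW
      ⟨x, mem_bd_self E K x, same_iff_conn.1 (hC x hx'.1), hx'.2⟩ with h | h
    · obtain ⟨y, hy, hIy, _, h2⟩ := h
      exact absurd ((bd_con1 hG.Einv hG.Kinv x).conn hy hIy) h2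
    · obtain ⟨_, a, ha, hIa, h1, h2, h3, h4⟩ := h
      refine ⟨a, same_iff_conn.2 ha, same_iff_conn.2
        ((bd_con1 hG.Einv hG.Kinv x).conn ha hIa), h1, h2, h3, ?_⟩
      rw [cutAt_eq_cut]
      exact fun h5 => h4 (same_iff_conn.1 h5)
  -- a choice for every body
  let Q : Set Lam → Lam → Prop := fun C p => C = bd E K p ∧ Same E K p (I p) ∧ K p ≠ I p ∧
      K p ≠ p ∧ K (I p) ≠ I p ∧ ¬ Same E (cutAt K p) p (I p)
  have hex : ∀ x ∈ gapL I K, ∃ p, Q (bd E K x) p := by
    intro x hx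
    obtain ⟨p, h1, h2⟩ := hone x hx
    exact ⟨p, (bd_con1 hG.Einv hG.Kinv x).eq_bd (same_iff_conn.1 h1), h2⟩
  let f : Lam → Lam := fun x => if h : ∃ p, Q (bd E K x) p then h.choose else x
  have hf : ∀ x ∈ gapL I K, Q (bd E K x) (f x) := by
    intro x hx
    have h := hex x hx
    have : f x = h.choose := dif_pos h
    rw [this]
    exact h.choose_spec
  have hfeq : ∀ x y, bd E K x = bd E K y → x ∈ gapL I K → y ∈ gapL I K → f x = f y := by
    intro x y h hx hy
    have h1 := hex x hx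
    have h2 := hex y hy
    have e1 : f x = h1.choose := dif_pos h1
    have e2 : f y = h2.choose := dif_pos h2
    rw [e1, e2]
    congr 1
    rw [h]
  refine ⟨(gapL I K).image f, ⟨?_, ?_, ?_, ?_, ?_, ?_⟩, ?_, ?_⟩
  · intro p hp
    obtain ⟨x, hx, rfl⟩ := Finset.mem_image.1 hp
    exact (hf x hx).2.2.2.1
  · intro p hp
    obtain ⟨x, hx, rfl⟩ := Finset.mem_image.1 hp
    exact (hf x hx).2.2.2.2.1
  · intro p hp
    obtain ⟨x, hx, rfl⟩ := Finset.mem_image.1 hp
    exact (hf x hx).2.2.1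
  · intro p hp
    obtain ⟨x, hx, rfl⟩ := Finset.mem_image.1 hp
    exact (hf x hx).2.1
  · intro p hp
    obtain ⟨x, hx, rfl⟩ := Finset.mem_image.1 hp
    exact (hf x hx).2.2.2.2.2
  · intro p hp q hq hpq
    obtain ⟨x, hx, rfl⟩ := Finset.mem_image.1 hp
    obtain ⟨y, hy, rfl⟩ := Finset.mem_image.1 hq
    apply hfeq x y _ hx hy
    rw [(hf x hx).1, (hf y hy).1]
    exact (bd_con1 hG.Einv hG.Kinv _).eq_bd (same_iff_conn.1 hpq)
  · intro x hx
    refine ⟨f x, Finset.mem_image_of_mem f hx, ?_⟩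
    have h1 := (hf x hx).1
    have h2 : f x ∈ bd E K (f x) := mem_bd_self E K _
    rw [← h1] at h2
    exact same_iff_conn.2 h2
  · intro p hp
    obtain ⟨x, hx, rfl⟩ := Finset.mem_image.1 hp
    exact Finset.mem_filter.2 ⟨Finset.mem_univ _, (hf x hx).2.2.2.1, (hf x hx).2.2.1⟩

end skel

end BP2
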