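import Pool.Agent.BP2.Interface

/-!
# Closed sets, circles, units

Basic facts on the closed sets of two involutions `E`, `K` of a finite set `L` of labels.
* `ends E K C` : number of fixed points of `E` plus number of fixed points of `K` in `C`;
  it is even for closed `C` (`even_ends`) and at most `2` for a body (`ends_le_two`);
* `Con1 E K C` : `C` is a body (closed, nonempty, no smaller nonempty closed set);
* `join K x y` : the edge `x y` is added; `glue K x y` : the edges at `x`, `y` are cut, the edge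
  `x y` is added;
* `upd I K U` : all labels of `U` are glued to their `I`-partners.
-/

set_option autoImplicit false
set_option linter.unusedSectionVars false

open Classical

namespace BP2

variable {L : Type*}

/-- a body -/
def Con1 (E K : L → L) (C : Set L) : Prop :=
  Cl E K C ∧ C.Nonempty ∧ ∀ D : Set L, D ⊆ C → D.Nonempty → Cl E K D → D = C

/-- add the edge `x y` -/
noncomputable def join (K : L → L) (x y z : L) : L :=
  if z = x then y else if z = y then x else K z

/-- the unit at `x ~ y` -/
noncomputable def glue (K : L → L) (x y : L) : L → L := join (cut (cut K x) y) x y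

/-- glue all labels of `U` to their `I`-partners -/
noncomputable def upd (I K : L → L) (U : Set L) (z : L) : L :=
  if z ∈ U then I z else if K z ∈ U then z else K z

/-! ### cut -/

theorem cut_self (K : L → L) (x : L) : cut K x x = x := by simp [cut]

theorem cut_mate (K : L → L) (x : L) : cut K x (K x) = K x := by simp [cut]

theorem cut_of_ne (K : L → L) {x z : L} (h : z ≠ x) (h' : z ≠ K x) : cut K x z = K z := by
  simp [cut, h, h']

theorem cut_eq_or (K : L → L) (x z : L) : cut K x z = z ∨ cut K x z = K z := by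
  unfold cut; split_ifs <;> simp

theorem cut_fix {K : L → L} {x z : L} (h : K z = z) : cut K x z = z := by
  unfold cut; split_ifs <;> simp [h]

theorem cut_invol {K : L → L} (hK : Function.Involutive K) (x : L) :
    Function.Involutive (cut K x) := by
  intro z
  by_cases h : z = x ∨ z = K x
  · rcases h with h | h
    · subst h; rw [cut_self, cut_self]
    · subst h; rw [cut_mate, cut_mate]
  · rw [not_or] at h
    rw [cut_of_ne K h.1 h.2, cut_of_ne K, hK]
    · intro h1; apply h.2; rw [← h1, hK]
    · intro h1; apply h.1; exact hK.injective h1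

theorem Cl.cut {E K : L → L} {C : Set L} (h : Cl E K C) (x : L) : Cl E (cut K x) C := by
  intro z hz
  refine ⟨(h z hz).1, ?_⟩
  rcases cut_eq_or K x z with h1 | h1 <;> rw [h1]
  · exact hz
  · exact (h z hz).2

theorem Cl.diff {E K : L → L} (hE : Function.Involutive E) (hK : Function.Involutive K)
    {C D : Set L} (h : Cl E K C) (hD : Cl E K D) : Cl E K (C \ D) := by
  intro z hz
  refine ⟨⟨(h z hz.1).1, fun h1 => hz.2 ?_⟩, ⟨(h z hz.1).2, fun h1 => hz.2 ?_⟩⟩
  · have := (hD _ h1).1; rwa [hE] at this
  · have := (hD _ h1).2; rwa [hK] at this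

theorem Cl.inter {E K : L → L} {C D : Set L} (h : Cl E K C) (hD : Cl E K D) :
    Cl E K (C ∩ D) := fun z hz =>
  ⟨⟨(h z hz.1).1, (hD z hz.2).1⟩, ⟨(h z hz.1).2, (hD z hz.2).2⟩⟩

theorem Cl.union {E K : L → L} {C D : Set L} (h : Cl E K C) (hD : Cl E K D) :
    Cl E K (C ∪ D) := by
  rintro z (hz | hz)
  · exact ⟨Or.inl (h z hz).1, Or.inl (h z hz).2⟩
  · exact ⟨Or.inr (hD z hz).1, Or.inr (hD z hz).2⟩

theorem Cl.swap {E K : L → L} {C : Set L} (h : Cl E K C) : Cl K E C :=
  fun x hx => ⟨(h x hx).2, (h x hx).1⟩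

theorem cl_univ (E K : L → L) : Cl E K Set.univ := fun _ _ => ⟨trivial, trivial⟩

/-! ### connectedness -/

theorem not_conn_iff {E K : L → L} {x y : L} :
    ¬ Conn E K x y ↔ ∃ C : Set L, Cl E K C ∧ x ∈ C ∧ y ∉ C := by
  unfold Conn; push Not; rfl

theorem Conn.refl (E K : L → L) (x : L) : Conn E K x x := fun _ _ h => h

theorem Conn.symm {E K : L → L} (hE : Function.Involutive E) (hK : Function.Involutive K)
    {x y : L} (h : Conn E K x y) : Conn E K y x := by
  intro C hC hy
  by_contra hx
  have := h (Set.univ \ C) ((cl_univ E K).diff hE hK hC) ⟨trivial, hx⟩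
  exact this.2 hy

theorem Conn.trans {E K : L → L} {x y z : L} (h : Conn E K x y) (h' : Conn E K y z) :
    Conn E K x z := fun C hC hx => h' C hC (h C hC hx)

theorem not_conn_cut {E K : L → L} {x y z : L} (h : ¬ Conn E K x y) :
    ¬ Conn E (cut K z) x y := by
  rw [not_conn_iff] at *
  obtain ⟨C, h1, h2, h3⟩ := h
  exact ⟨C, h1.cut z, h2, h3⟩

/-- the body of `x` -/
def bd (E K : L → L) (x : L) : Set L := {y | Conn E K x y}

theorem mem_bd_self (E K : L → L) (x : L) : x ∈ bd E K x := Conn.refl E K x

theorem bd_cl (E K : L → L) (x : L) : Cl E K (bd E K x) := fun z hz =>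
  ⟨fun C hC hx => (hC z (hz C hC hx)).1, fun C hC hx => (hC z (hz C hC hx)).2⟩

theorem bd_con1 {E K : L → L} (hE : Function.Involutive E) (hK : Function.Involutive K) (x : L) :
    Con1 E K (bd E K x) := by
  refine ⟨bd_cl E K x, ⟨x, mem_bd_self E K x⟩, ?_⟩
  intro D hD hDn hDcl
  apply Set.Subset.antisymm hD
  intro y hy
  obtain ⟨w, hw⟩ := hDn
  exact ((hD hw : Conn E K x w).symm hE hK).trans hy D hDcl hw

theorem Con1.conn {E K : L → L} {C : Set L} (h : Con1 E K C) {x y : L} (hx : x ∈ C) (hy : y ∈ C) : Conn E K x y := by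
  intro D hD hxD
  have := h.2.2 (C ∩ D) Set.inter_subset_left ⟨x, hx, hxD⟩ (h.1.inter hD)
  rw [← this] at hy
  exact hy.2

theorem Con1.eq_bd {E K : L → L} {C : Set L} (h : Con1 E K C) {x : L} (hx : x ∈ C) : C = bd E K x := by
  apply Set.Subset.antisymm
  · intro y hy; exact h.conn hx hy
  · intro y hy; exact hy C h.1 hx

theorem Con1.swap {E K : L → L} {C : Set L} (h : Con1 E K C) : Con1 K E C :=
  ⟨h.1.swap, h.2.1, fun D h1 h2 h3 => h.2.2 D h1 h2 h3.swap⟩

/-! ### parity -/

variable [Fintype L]

/-- number of ends -/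
noncomputable def ends (E K : L → L) (C : Set L) : ℕ :=
  {x | x ∈ C ∧ E x = x}.ncard + {x | x ∈ C ∧ K x = x}.ncard

theorem even_moved {K : L → L} (hK : Function.Involutive K) {C : Set L}
    (hC : ∀ x ∈ C, K x ∈ C) : Even {x | x ∈ C ∧ K x ≠ x}.ncard := by
  have h : ∑ x ∈ {x | x ∈ C ∧ K x ≠ x}.toFinset, (1 : ZMod 2) = 0 := by
    apply Finset.sum_involution (fun x _ => K x)
    · intro a _; decide
    · intro a ha _; exact (Set.mem_toFinset.1 ha).2
    · intro a ha
      rw [Set.mem_toFinset] at ha ⊢
      refine ⟨hC a ha.1, ?_⟩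
      rw [hK]; exact fun h => ha.2 h.symm
    · intro a _; exact hK a
  rw [Finset.sum_const, nsmul_eq_mul, mul_one] at h
  rw [Set.ncard_eq_toFinset_card']
  exact (ZMod.natCast_eq_zero_iff_even).1 h

theorem ncard_split (C : Set L) (p : L → Prop) :
    {x | x ∈ C ∧ p x}.ncard + {x | x ∈ C ∧ ¬ p x}.ncard = C.ncard := by
  rw [← Set.ncard_union_eq]
  · congr 1
    ext x
    simp only [Set.mem_union, Set.mem_ofPred_eq]
    tauto
  · rw [Set.disjoint_left]
    rintro x ⟨_, h1⟩ ⟨_, h2⟩
    exact h2 h1

theorem even_fix {K : L → L} (hK : Function.Involutive K) {C : Set L}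
    (hC : ∀ x ∈ C, K x ∈ C) : Even ({x | x ∈ C ∧ K x = x}.ncard + C.ncard) := by
  have h := even_moved hK hC
  have h1 := ncard_split C (fun x => K x = x)
  have h2 : {x | x ∈ C ∧ K x ≠ x}.ncard = {x | x ∈ C ∧ ¬ K x = x}.ncard := rfl
  rw [h2] at h
  rw [← h1]
  rw [Nat.even_iff] at h ⊢
  omega

theorem even_ends {E K : L → L} (hE : Function.Involutive E) (hK : Function.Involutive K)
    {C : Set L} (hC : Cl E K C) : Even (ends E K C) := by
  have h1 := even_fix hE fun x hx => (hC x hx).1
  have h2 := even_fix hK fun x hx => (hC x hx).2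
  unfold ends
  rw [Nat.even_iff] at *
  omega

theorem ends_pos {E K : L → L} {C : Set L} {x : L} (hx : x ∈ C) (h : E x = x ∨ K x = x) :
    0 < ends E K C := by
  unfold ends
  rcases h with h | h
  · have : 0 < {x | x ∈ C ∧ E x = x}.ncard :=
      (Set.ncard_pos (Set.toFinite _)).2 ⟨x, hx, h⟩
    omega
  · have : 0 < {x | x ∈ C ∧ K x = x}.ncard :=
      (Set.ncard_pos (Set.toFinite _)).2 ⟨x, hx, h⟩
    omega

theorem two_le_ends {E K : L → L} (hE : Function.Involutive E) (hK : Function.Involutive K)
    {C : Set L} (hC : Cl E K C) {x : L} (hx : x ∈ C) (h : E x = x ∨ K x = x) :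
    2 ≤ ends E K C := by
  have h1 := even_ends hE hK hC
  have h2 := ends_pos hx h
  rw [Nat.even_iff] at h1
  omega

/-! ### circles -/

omit [Fintype L] in
theorem Acyc.cut {E K : L → L} (h : Acyc E K) (x : L) : Acyc E (cut K x) := by
  intro C hcl hC
  by_cases h1 : ∃ z ∈ C, z = x ∨ z = K x
  · obtain ⟨z, hz, h2⟩ := h1
    exact ⟨z, hz, Or.inr (by simp [BP2.cut, h2])⟩
  · push Not at h1
    obtain ⟨z, hz, h3⟩ := h C (by
      intro z hz
      refine ⟨(hcl z hz).1, ?_⟩
      have := (hcl z hz).2
      rwa [cut_of_ne K (h1 z hz).1 (h1 z hz).2] at this) hC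
    refine ⟨z, hz, ?_⟩
    rcases h3 with h3 | h3
    · exact Or.inl h3
    · exact Or.inr (cut_fix h3)

omit [Fintype L] in
theorem join_fst (K : L → L) (x y : L) : join K x y x = y := by simp [join]

omit [Fintype L] in
theorem join_snd (K : L → L) (x y : L) : join K x y y = x := by
  unfold join; split_ifs with h <;> simp_all

omit [Fintype L] in
theorem join_of_ne (K : L → L) {x y z : L} (h : z ≠ x) (h' : z ≠ y) : join K x y z = K z := by
  simp [join, h, h']

omit [Fintype L] in
theorem join_invol {K : L → L} (hK : Function.Involutive K) {x y : L} (hx : K x = x)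
    (hy : K y = y) : Function.Involutive (join K x y) := by
  intro z
  by_cases h1 : z = x
  · subst h1; rw [join_fst, join_snd]
  by_cases h2 : z = y
  · subst h2; rw [join_snd, join_fst]
  rw [join_of_ne K h1 h2, join_of_ne K, hK]
  · intro h; apply h1; rw [← hK z, h, hx]
  · intro h; apply h2; rw [← hK z, h, hy]

/-- joining two loose labels of different bodies makes no circle -/
theorem Acyc.join {E K : L → L} (hE : Function.Involutive E) (hK : Function.Involutive K)
    (h : Acyc E K) {x y : L} (hx : K x = x) (hy : K y = y) (hxy : ¬ Conn E K x y) :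
    Acyc E (join K x y) := by
  intro C hcl hC
  obtain ⟨D, hD, hxD, hyD⟩ := not_conn_iff.1 hxy
  have hne : x ≠ y := by rintro rfl; exact hyD hxD
  by_cases h1 : x ∈ C
  · have hCD : Cl E K (C ∩ D) := by
      intro z hz
      refine ⟨⟨(hcl z hz.1).1, (hD z hz.2).1⟩, ⟨?_, (hD z hz.2).2⟩⟩
      by_cases h2 : z = x
      · rw [h2, hx]; exact h1
      · have h3 : z ≠ y := by rintro rfl; exact hyD hz.2
        have := (hcl z hz.1).2
        rwa [join_of_ne K h2 h3] at this
    have h4 := two_le_ends hE hK hCD ⟨h1, hxD⟩ (Or.inr hx)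
    by_cases h5 : ∃ z ∈ C ∩ D, E z = z
    · obtain ⟨z, hz, h6⟩ := h5
      exact ⟨z, hz.1, Or.inl h6⟩
    · push Not at h5
      have h6 : {z | z ∈ C ∩ D ∧ E z = z}.ncard = 0 := by
        rw [Set.ncard_eq_zero (Set.toFinite _), Set.eq_empty_iff_forall_notMem]
        exact fun z hz => h5 z hz.1 hz.2
      have h7 : 1 < {z | z ∈ C ∩ D ∧ K z = z}.ncard := by
        unfold ends at h4; omega
      obtain ⟨z, hz, hzx⟩ := Set.exists_ne_of_one_lt_ncard h7 x
      refine ⟨z, hz.1.1, Or.inr ?_⟩
      rw [join_of_ne K hzx, hz.2]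
      rintro rfl; exact hyD hz.1.2
  · have h2 : y ∉ C := by
      intro h3
      have := (hcl y h3).2
      rw [join_snd] at this
      exact h1 this
    obtain ⟨z, hz, h3⟩ := h C (by
      intro z hz
      refine ⟨(hcl z hz).1, ?_⟩
      have := (hcl z hz).2
      rwa [join_of_ne K (by rintro rfl; exact h1 hz) (by rintro rfl; exact h2 hz)] at this) hC
    refine ⟨z, hz, ?_⟩
    rcases h3 with h3 | h3
    · exact Or.inl h3
    · refine Or.inr ?_
      rw [join_of_ne K (by rintro rfl; exact h1 hz) (by rintro rfl; exact h2 hz), h3]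

/-! ### the unit -/

omit [Fintype L] in
theorem glue_fst (K : L → L) (x y : L) : glue K x y x = y := join_fst _ _ _

omit [Fintype L] in
theorem glue_snd (K : L → L) (x y : L) : glue K x y y = x := join_snd _ _ _

omit [Fintype L] in
theorem cut_cut_fst (K : L → L) (x y : L) : cut (cut K x) y x = x := cut_fix (cut_self K x)

omit [Fintype L] in
theorem glue_invol {K : L → L} (hK : Function.Involutive K) (x y : L) :
    Function.Involutive (glue K x y) :=
  join_invol (cut_invol (cut_invol hK x) y) (cut_cut_fst K x y) (cut_self _ y)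

/-- a unit whose labels are not connected after the two cuts makes no circle -/
theorem Acyc.glue {E K : L → L} (hE : Function.Involutive E) (hK : Function.Involutive K)
    (h : Acyc E K) {x y : L} (hxy : ¬ Conn E (BP2.cut (BP2.cut K x) y) x y) :
    Acyc E (glue K x y) :=
  (h.cut x |>.cut y).join hE (cut_invol (cut_invol hK x) y) (cut_cut_fst K x y)
    (cut_self _ y) hxy

theorem Acyc.glue_far {E K : L → L} (hE : Function.Involutive E) (hK : Function.Involutive K)
    (h : Acyc E K) {x y : L} (hxy : ¬ Conn E K x y) : Acyc E (BP2.glue K x y) :=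
  h.glue hE hK (not_conn_cut (not_conn_cut hxy))

/-! ### a body has at most two ends -/

theorem ends_swap (E K : L → L) (C : Set L) : ends K E C = ends E K C := by
  unfold ends; omega

theorem ends_le_two_aux : ∀ (n : ℕ) (E K : L → L) (C : Set L), C.ncard = n →
    Function.Involutive E → Function.Involutive K → Con1 E K C →
    ∀ e ∈ C, K e = e → ends E K C ≤ 2 := by
  intro n
  induction n with
  | zero =>
    intro E K C hn _ _ hC e he _
    rw [Set.ncard_eq_zero (Set.toFinite _)] at hn
    rw [hn] at he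
    exact absurd he (Set.notMem_empty e)
  | succ n ih =>
    intro E K C hn hE hK hC e he hKe
    by_cases hEe : E e = e
    · have : ({e} : Set L) = C := hC.2.2 _ (by simpa using he) (by simp) (by
        intro z hz
        rw [Set.mem_singleton_iff] at hz
        subst hz; simp [hEe, hKe])
      rw [← this]
      unfold ends
      have h1 : {x | x ∈ ({e} : Set L) ∧ E x = x} ⊆ {e} := fun z hz => hz.1
      have h2 : {x | x ∈ ({e} : Set L) ∧ K x = x} ⊆ {e} := fun z hz => hz.1
      have h3 := Set.ncard_le_ncard h1 (Set.toFinite _)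
      have h4 := Set.ncard_le_ncard h2 (Set.toFinite _)
      rw [Set.ncard_singleton] at h3 h4
      omega
    · have hf : E e ∈ C := (hC.1 e he).1
      have hcl : Cl (BP2.cut E e) K (C \ {e}) := by
        intro z hz
        have hze : z ≠ e := fun h => hz.2 h
        constructor
        · by_cases h1 : z = E e
          · rw [h1, cut_mate]; exact ⟨hf, hEe⟩
          · rw [cut_of_ne E hze h1]
            refine ⟨(hC.1 z hz.1).1, ?_⟩
            intro h2; apply h1; rw [← (h2 : E z = e), hE]
        · refine ⟨(hC.1 z hz.1).2, ?_⟩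
          intro h2; apply hze; rw [← hK z, (h2 : K z = e), hKe]
      have hcon : Con1 (BP2.cut E e) K (C \ {e}) := by
        refine ⟨hcl, ⟨E e, hf, hEe⟩, ?_⟩
        intro D hD hDn hDcl
        have heD : e ∉ D := fun h => (hD h).2 rfl
        by_cases h1 : E e ∈ D
        · have h2 : insert e D = C := hC.2.2 _ (by
              rintro z (rfl | hz)
              · exact he
              · exact (hD hz).1) ⟨e, Or.inl rfl⟩ (by
              rintro z (rfl | hz)
              · rw [hKe]; exact ⟨Or.inr h1, Or.inl rfl⟩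
              · refine ⟨?_, Or.inr (hDcl z hz).2⟩
                by_cases h3 : z = E e
                · rw [h3, hE]; exact Or.inl rfl
                · have := (hDcl z hz).1
                  rw [cut_of_ne E (by rintro rfl; exact heD hz) h3] at this
                  exact Or.inr this)
          rw [← h2]
          ext z
          constructor
          · intro hz; exact ⟨Or.inr hz, by rintro rfl; exact heD hz⟩
          · rintro ⟨rfl | hz, h3⟩
            · exact absurd rfl h3
            · exact hz
        · exfalso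
          have h2 : D = C := hC.2.2 _ (fun z hz => (hD hz).1) hDn (by
            intro z hz
            refine ⟨?_, (hDcl z hz).2⟩
            have := (hDcl z hz).1
            rwa [cut_of_ne E (by rintro rfl; exact heD hz) (by rintro rfl; exact h1 hz)]
              at this)
          rw [h2] at heD; exact heD he
      have hcard : (C \ {e}).ncard = n := by
        rw [Set.ncard_sdiff_singleton_of_mem he, hn]; rfl
      have h4 := ih K (BP2.cut E e) (C \ {e}) hcard
        hK (cut_invol hE e) hcon.swap (E e) ⟨hf, hEe⟩ (cut_mate E e)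
      rw [ends_swap] at h4
      -- compare the numbers of ends
      have h5 : {x | x ∈ C \ {e} ∧ BP2.cut E e x = x} =
          insert (E e) {x | x ∈ C ∧ E x = x} := by
        ext z
        simp only [Set.mem_ofPred_eq, Set.mem_insert_iff]
        constructor
        · rintro ⟨⟨h6, h7⟩, h8⟩
          by_cases h9 : z = E e
          · exact Or.inl h9
          · rw [cut_of_ne E h7 h9] at h8
            exact Or.inr ⟨h6, h8⟩
        · rintro (rfl | ⟨h6, h7⟩)
          · exact ⟨⟨hf, hEe⟩, cut_mate E e⟩
          · refine ⟨⟨h6, ?_⟩, cut_fix h7⟩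
            rintro rfl; exact hEe h7
      have h6 : {x | x ∈ C ∧ K x = x} =
          insert e {x | x ∈ C \ {e} ∧ K x = x} := by
        ext z
        simp only [Set.mem_ofPred_eq, Set.mem_insert_iff]
        constructor
        · rintro ⟨h6, h7⟩
          by_cases h9 : z = e
          · exact Or.inl h9
          · exact Or.inr ⟨⟨h6, h9⟩, h7⟩
        · rintro (rfl | ⟨⟨h6, h7⟩, h8⟩)
          · exact ⟨he, hKe⟩
          · exact ⟨h6, h8⟩
      unfold ends at h4 ⊢
      rw [h5, Set.ncard_insert_of_notMem (by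
        rintro ⟨_, h7⟩
        apply hEe
        rw [hE] at h7; exact h7.symm)] at h4
      rw [h6, Set.ncard_insert_of_notMem (fun h => h.1.2 rfl)]
      omega

/-- a body has at most two ends -/
theorem ends_le_two {E K : L → L} (hE : Function.Involutive E) (hK : Function.Involutive K)
    {C : Set L} (hC : Con1 E K C) : ends E K C ≤ 2 := by
  by_cases h : ∃ e ∈ C, E e = e ∨ K e = e
  · obtain ⟨e, he, h1 | h1⟩ := h
    · rw [← ends_swap]
      exact ends_le_two_aux _ K E C rfl hK hE hC.swap e he h1
    · exact ends_le_two_aux _ E K C rfl hE hK hC e he h1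
  · push Not at h
    unfold ends
    rw [(Set.ncard_eq_zero (Set.toFinite _)).2
        (Set.eq_empty_iff_forall_notMem.2 fun x hx => (h x hx.1).1 hx.2),
      (Set.ncard_eq_zero (Set.toFinite _)).2
        (Set.eq_empty_iff_forall_notMem.2 fun x hx => (h x hx.1).2 hx.2)]
    omega

/-! ### `upd` -/

omit [Fintype L] in
theorem upd_mem (I K : L → L) {U : Set L} {z : L} (h : z ∈ U) : upd I K U z = I z := by
  simp [upd, h]

omit [Fintype L] in
theorem upd_mate (I K : L → L) {U : Set L} {z : L} (h : z ∉ U) (h' : K z ∈ U) :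
    upd I K U z = z := by simp [upd, h, h']

omit [Fintype L] in
theorem upd_of (I K : L → L) {U : Set L} {z : L} (h : z ∉ U) (h' : K z ∉ U) :
    upd I K U z = K z := by simp [upd, h, h']

omit [Fintype L] in
theorem upd_invol {I K : L → L} (hI : Function.Involutive I) (hK : Function.Involutive K)
    {U : Set L} (hU : ∀ x ∈ U, I x ∈ U) : Function.Involutive (upd I K U) := by
  intro z
  by_cases h1 : z ∈ U
  · rw [upd_mem I K h1, upd_mem I K (hU z h1), hI]
  by_cases h2 : K z ∈ U
  · rw [upd_mate I K h1 h2, upd_mate I K h1 h2]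
  rw [upd_of I K h1 h2, upd_of I K h2 (by rwa [hK]), hK]

/-! ### a whole level makes no circle -/

/-- far level: the labels of `U` are in different bodies -/
theorem acyc_upd_far {E I K : L → L} (hE : Function.Involutive E) (hK : Function.Involutive K)
    (h : Acyc E K) {U : Set L}
    (hfar : ∀ x ∈ U, ∀ y ∈ U, x ≠ y → ¬ Conn E K x y) : Acyc E (upd I K U) := by
  intro C hcl hC
  by_contra hno
  push Not at hno
  -- mates of labels of `U` are not in `C`
  have hmate : ∀ z ∈ C, z ∉ U → K z ∉ U := fun z hz hzU h1 =>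
    (hno z hz).2 (upd_mate I K hzU h1)
  by_cases hCU : ∃ x ∈ C, x ∈ U
  · obtain ⟨x, hxC, hxU⟩ := hCU
    have huniq : ∀ z ∈ bd E K x, z ∈ U → z = x := by
      intro z hz hzU
      by_contra hne
      exact hfar x hxU z hzU (fun h => hne h.symm) hz
    have hcl' : Cl E (BP2.cut K x) (C ∩ bd E K x) := by
      rintro z ⟨hzC, hzB⟩
      refine ⟨⟨(hcl z hzC).1, (bd_cl E K x z hzB).1⟩, ?_⟩
      by_cases hzx : z = x
      · subst hzx; rw [cut_self]; exact ⟨hzC, hzB⟩
      have hzU : z ∉ U := fun h1 => hzx (huniq z hzB h1)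
      have hKz := hmate z hzC hzU
      have h2 : z ≠ K x := by
        rintro rfl
        apply hKz; rw [hK]; exact hxU
      rw [cut_of_ne K hzx h2]
      refine ⟨?_, (bd_cl E K x z hzB).2⟩
      have := (hcl z hzC).2
      rwa [upd_of I K hzU hKz] at this
    have h2 := two_le_ends hE (cut_invol hK x) hcl' ⟨hxC, mem_bd_self E K x⟩
      (Or.inr (cut_self K x))
    have h3 : {z | z ∈ C ∩ bd E K x ∧ E z = z}.ncard = 0 := by
      rw [Set.ncard_eq_zero (Set.toFinite _), Set.eq_empty_iff_forall_notMem]
      exact fun z hz => (hno z hz.1.1).1 hz.2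
    have h4 : 1 < {z | z ∈ C ∩ bd E K x ∧ BP2.cut K x z = z}.ncard := by
      unfold ends at h2; omega
    obtain ⟨z, hz, hzx⟩ := Set.exists_ne_of_one_lt_ncard h4 x
    obtain ⟨⟨hzC, hzB⟩, hz3⟩ := hz
    have hzU : z ∉ U := fun h1 => hzx (huniq z hzB h1)
    have hKz := hmate z hzC hzU
    have h5 : z ≠ K x := by
      rintro rfl
      apply hKz; rw [hK]; exact hxU
    rw [cut_of_ne K hzx h5] at hz3
    apply (hno z hzC).2
    rw [upd_of I K hzU hKz, hz3]
  · push Not at hCU
    obtain ⟨z, hz, h1⟩ := h C (by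
      intro z hz
      refine ⟨(hcl z hz).1, ?_⟩
      have := (hcl z hz).2
      rwa [upd_of I K (hCU z hz) (hmate z hz (hCU z hz))] at this) hC
    rcases h1 with h1 | h1
    · exact (hno z hz).1 h1
    · apply (hno z hz).2
      rw [upd_of I K (hCU z hz) (hmate z hz (hCU z hz)), h1]

/-- local level -/
theorem acyc_upd_loc {E I K : L → L} (hE : Function.Involutive E)
    (hI : Function.Involutive I) (hK : Function.Involutive K)
    (h : Acyc E K) {U : Set L} {P : L → Prop} (hU : ∀ x ∈ U, I x ∈ U)
    (hfirst : ∀ x ∈ U, (P x ↔ ¬ P (I x)))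
    (hbody : ∀ x ∈ U, Conn E K x (I x))
    (hside : ∀ x ∈ U, P x → ¬ Conn E (BP2.cut K x) x (I x))
    (hone : ∀ x ∈ U, ∀ y ∈ U, P x → P y → Conn E K x y → x = y) :
    Acyc E (upd I K U) := by
  intro C hcl hC
  by_contra hno
  push Not at hno
  have hmate : ∀ z ∈ C, z ∉ U → K z ∉ U := fun z hz hzU h1 =>
    (hno z hz).2 (upd_mate I K hzU h1)
  by_cases hCU : ∃ x ∈ C, x ∈ U
  · have hex : ∃ x ∈ C, x ∈ U ∧ P x := by
      obtain ⟨x, hxC, hxU⟩ := hCU
      by_cases hP : P x
      · exact ⟨x, hxC, hxU, hP⟩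
      · refine ⟨I x, ?_, hU x hxU, ?_⟩
        · have := (hcl x hxC).2
          rwa [upd_mem I K hxU] at this
        · by_contra hP'
          exact hP ((hfirst x hxU).2 hP')
    obtain ⟨x, hxC, hxU, hxP⟩ := hex
    -- labels of `U` in the body of `x`
    have huniq : ∀ z ∈ bd E K x, z ∈ U → z = x ∨ z = I x := by
      intro z hz hzU
      by_cases hP : P z
      · exact Or.inl (hone x hxU z hzU hxP hP hz).symm
      · right
        have h1 : P (I z) := by
          by_contra h2
          exact hP ((hfirst z hzU).2 h2)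
        have h2 := hone x hxU (I z) (hU z hzU) hxP h1
          ((hz : Conn E K x z).trans (hbody z hzU))
        rw [h2, hI]
    obtain ⟨A, hA, hxA, hIA⟩ := not_conn_iff.1 (hside x hxU hxP)
    have hin : ∀ z ∈ C ∩ bd E K x ∩ A, z ≠ x → z ∉ U ∧ K z ∉ U ∧ z ≠ K x := by
      rintro z ⟨⟨hzC, hzB⟩, hzA⟩ hzx
      have hzU : z ∉ U := by
        intro h1
        rcases huniq z hzB h1 with h2 | h2
        · exact hzx h2
        · rw [h2] at hzA; exact hIA hzA
      refine ⟨hzU, hmate z hzC hzU, ?_⟩
      rintro rfl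
      apply hmate _ hzC hzU
      rw [hK]; exact hxU
    have hcl' : Cl E (BP2.cut K x) (C ∩ bd E K x ∩ A) := by
      intro z hz
      have hz' := hz
      obtain ⟨⟨hzC, hzB⟩, hzA⟩ := hz
      refine ⟨⟨⟨(hcl z hzC).1, (bd_cl E K x z hzB).1⟩, (hA z hzA).1⟩, ?_⟩
      by_cases hzx : z = x
      · subst hzx; rw [cut_self]; exact ⟨⟨hzC, hzB⟩, hzA⟩
      obtain ⟨h1, h2, h3⟩ := hin z hz' hzx
      have h4 := (hA z hzA).2
      rw [cut_of_ne K hzx h3] at h4 ⊢
      refine ⟨⟨?_, (bd_cl E K x z hzB).2⟩, h4⟩
      have := (hcl z hzC).2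
      rwa [upd_of I K h1 h2] at this
    have h2 := two_le_ends hE (cut_invol hK x) hcl' ⟨⟨hxC, mem_bd_self E K x⟩, hxA⟩
      (Or.inr (cut_self K x))
    have h3 : {z | z ∈ C ∩ bd E K x ∩ A ∧ E z = z}.ncard = 0 := by
      rw [Set.ncard_eq_zero (Set.toFinite _), Set.eq_empty_iff_forall_notMem]
      exact fun z hz => (hno z hz.1.1.1).1 hz.2
    have h4 : 1 < {z | z ∈ C ∩ bd E K x ∩ A ∧ BP2.cut K x z = z}.ncard := by
      unfold ends at h2; omega
    obtain ⟨z, hz, hzx⟩ := Set.exists_ne_of_one_lt_ncard h4 x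
    obtain ⟨hz1, hz3⟩ := hz
    obtain ⟨h5, h6, h7⟩ := hin z hz1 hzx
    rw [cut_of_ne K hzx h7] at hz3
    apply (hno z hz1.1.1).2
    rw [upd_of I K h5 h6, hz3]
  · push Not at hCU
    obtain ⟨z, hz, h1⟩ := h C (by
      intro z hz
      refine ⟨(hcl z hz).1, ?_⟩
      have := (hcl z hz).2
      rwa [upd_of I K (hCU z hz) (hmate z hz (hCU z hz))] at this) hC
    rcases h1 with h1 | h1
    · exact (hno z hz).1 h1
    · apply (hno z hz).2
      rw [upd_of I K (hCU z hz) (hmate z hz (hCU z hz)), h1]

end BP2
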