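import Pool.Agent.BP2.S.Base
import Pool.Agent.BP2.S.Core

/-!
# The two languages of part (S)

`Same` (chains) and `Conn` (closed sets) agree; `Geo E K` = fixed point free involution `E`,
involution `K`, no circles; `step I K U = upd I K U`.  Consequence: `two_ends`.
-/

set_option autoImplicit false
set_option linter.unusedSectionVars false

namespace BP2

variable {Lam : Type*}

theorem same_iff_conn {E K : Lam → Lam} {x y : Lam} : Same E K x y ↔ Conn E K x y := by
  constructor
  · intro h C hC hx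
    induction h with
    | refl => exact hx
    | tail _ h2 ih =>
      rcases h2 with rfl | rfl
      · exact (hC _ ih).1
      · exact (hC _ ih).2
  · intro h
    apply h {z | Same E K x z}
    · intro z hz
      exact ⟨Relation.ReflTransGen.tail hz (Or.inl rfl), Relation.ReflTransGen.tail hz (Or.inr rfl)⟩
    · exact Relation.ReflTransGen.refl

theorem Geo.acyc' {E K : Lam → Lam} (hG : Geo E K) : Acyc E K := by
  rintro C hC ⟨x, hx⟩
  obtain ⟨z, hz, h1⟩ := hG.acyc x
  exact ⟨z, same_iff_conn.1 hz C hC hx, Or.inr h1⟩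

theorem geo_of {E K : Lam → Lam} (hE : ∀ x, E (E x) = x) (hEne : ∀ x, E x ≠ x)
    (hK : ∀ x, K (K x) = x) (h : Acyc E K) : Geo E K := by
  refine ⟨hE, hEne, hK, fun x => ?_⟩
  obtain ⟨z, hz, h1⟩ := h (bd E K x) (bd_cl E K x) ⟨x, mem_bd_self E K x⟩
  rcases h1 with h1 | h1
  · exact absurd h1 (hEne z)
  · exact ⟨z, same_iff_conn.2 hz, h1⟩

theorem mem_bd_iff {E K : Lam → Lam} {x y : Lam} : y ∈ bd E K x ↔ Same E K x y :=
  same_iff_conn.symm

section fin
variable [Fintype Lam]

theorem ends_eq {E K : Lam → Lam} (hG : Geo E K) (x : Lam) :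
    ends E K (bd E K x) = {z | z ∈ bd E K x ∧ K z = z}.ncard := by
  unfold ends
  have : {z | z ∈ bd E K x ∧ E z = z}.ncard = 0 := by
    rw [Set.ncard_eq_zero (Set.toFinite _), Set.eq_empty_iff_forall_notMem]
    exact fun z hz => hG.Ene z hz.2
  omega

theorem ncard_loose {E K : Lam → Lam} (hG : Geo E K) (x : Lam) :
    {z | z ∈ bd E K x ∧ K z = z}.ncard = 2 := by
  obtain ⟨z, hz, h1⟩ := hG.acyc x
  have h := two_le_ends hG.Einv hG.Kinv (bd_cl E K x) (same_iff_conn.1 hz) (Or.inr h1)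
  have h2 := ends_le_two hG.Einv hG.Kinv (bd_con1 hG.Einv hG.Kinv x)
  rw [ends_eq hG] at h h2
  omega

/-- exactly two loose labels in a body -/
theorem two_ends {E K : Lam → Lam} (hG : Geo E K) (x : Lam) : ∃ z z' : Lam, z ≠ z' ∧
    Same E K x z ∧ Same E K x z' ∧ K z = z ∧ K z' = z' ∧
    ∀ y, Same E K x y → K y = y → y = z ∨ y = z' := by
  obtain ⟨z, z', hne, h⟩ := Set.ncard_eq_two.1 (ncard_loose hG x)
  have hz : z ∈ {z | z ∈ bd E K x ∧ K z = z} := by rw [h]; exact Or.inl rfl
  have hz' : z' ∈ {z | z ∈ bd E K x ∧ K z = z} := by rw [h]; exact Or.inr rfl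
  refine ⟨z, z', hne, same_iff_conn.2 hz.1, same_iff_conn.2 hz'.1, hz.2, hz'.2, ?_⟩
  intro y hy hKy
  have : y ∈ {z | z ∈ bd E K x ∧ K z = z} := ⟨same_iff_conn.1 hy, hKy⟩
  rw [h] at this
  exact this

variable [DecidableEq Lam]

omit [Fintype Lam] in
theorem step_eq_upd (I K : Lam → Lam) (U : Finset Lam) :
    step I K U = upd I K (U : Set Lam) := by
  funext z
  unfold step upd
  simp only [Finset.mem_coe]

omit [Fintype Lam] in
theorem cutAt_eq_cut (K : Lam → Lam) (p : Lam) : cutAt K p = cut K p := by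
  funext z
  unfold cutAt cut
  congr

omit [Fintype Lam] in
theorem Loc.ne {E I K : Lam → Lam} {O : Finset Lam} (hO : Loc E I K O) {p : Lam} (hp : p ∈ O) :
    I p ≠ p := by
  intro h
  apply hO.side p hp
  rw [h]
  exact Relation.ReflTransGen.refl

omit [Fintype Lam] in
theorem Loc.notMem {E I K : Lam → Lam} {O : Finset Lam} (hO : Loc E I K O) {p : Lam}
    (hp : p ∈ O) : I p ∉ O := fun h =>
  hO.ne hp (hO.sep p hp (I p) h (hO.body p hp)).symm

omit [Fintype Lam] in
theorem mem_locU {I : Lam → Lam} (hI : ∀ x, I (I x) = x) {O : Finset Lam} {x : Lam} :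
    x ∈ locU I O ↔ x ∈ O ∨ I x ∈ O := by
  unfold locU
  rw [Finset.mem_union, Finset.mem_image]
  constructor
  · rintro (h | ⟨p, hp, rfl⟩)
    · exact Or.inl h
    · right; rw [hI]; exact hp
  · rintro (h | h)
    · exact Or.inl h
    · exact Or.inr ⟨I x, h, hI x⟩

end fin

end BP2
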