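import Mathlib
import Pool.Agent.BP2.S.Defs
import Pool.Agent.BP2.S.Bridge
import Pool.Agent.BP2.S.Gadget

/-!
# Synchronisation

All bodies of `K` in parallel, one far unit per body of `K` and level, until every body of `K` is
one body again.  The number of labels of a body of `K` that are not formed gets smaller at every
level at which the body is still split (`sync_aux`).
-/

set_option autoImplicit false

namespace BP2

section Sync
variable {Lam : Type*}

theorem sy_symm {E K : Lam → Lam} (hG : Geo E K) {x y : Lam} (h : Same E K x y) :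
    Same E K y x := by
  rw [same_iff_conn] at h ⊢
  exact h.symm hG.Einv hG.Kinv

theorem sy_bd {E K : Lam → Lam} (hG : Geo E K) {x y : Lam} (h : Same E K x y) :
    bd E K x = bd E K y :=
  (bd_con1 hG.Einv hG.Kinv x).eq_bd (same_iff_conn.1 h)

theorem sy_of_bd {E K : Lam → Lam} {x y : Lam} (h : bd E K x = bd E K y) : Same E K x y := by
  have h1 : y ∈ bd E K y := mem_bd_self E K y
  rw [← h] at h1
  exact same_iff_conn.2 h1

variable [Fintype Lam]

/-- if the bodies agree and the loose labels of `K` are loose for `K1`, then the loose labels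
agree -/
theorem sy_loose {E K K1 : Lam → Lam} (hG : Geo E K) (hG1 : Geo E K1)
    (h : ∀ x y, Same E K x y → Same E K1 x y) (h1l : ∀ x, K x = x → K1 x = x) (x : Lam)
    (hx : K1 x = x) : K x = x := by
  obtain ⟨z, z', hne, hz, hz', hKz, hKz', _⟩ := two_ends hG x
  obtain ⟨w, w', _, _, _, _, _, hw⟩ := two_ends hG1 x
  have a1 := hw z (h _ _ hz) (h1l z hKz)
  have a2 := hw z' (h _ _ hz') (h1l z' hKz')
  have a3 := hw x Relation.ReflTransGen.refl hx
  have key : x = z ∨ x = z' := by
    rcases a1 with rfl | rfl <;> rcases a2 with rfl | rfl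
    · exact absurd rfl hne
    · exact a3
    · exact a3.symm
    · exact absurd rfl hne
  rcases key with rfl | rfl
  · exact hKz
  · exact hKz'

variable [DecidableEq Lam] {E I K : Lam → Lam}

/-- one level: one far unit in every body of `K` that is split -/
theorem sy_unit (hT : Tgt E I) (hG : Geo E K) (hL : ∀ x, I x = x → K x = x)
    (hC : Closed E I K) {K1 : Lam → Lam} (hG1 : Geo E K1)
    (h1 : ∀ x y, Same E K1 x y → Same E K x y) :
    ∃ U : Finset Lam, (∀ x ∈ U, I x ∈ U) ∧ (∀ x ∈ U, Same E K x (I x)) ∧
      (∀ x ∈ U, ¬ Same E K1 x (I x)) ∧ (∀ x ∈ U, ∀ y ∈ U, Same E K1 x y → x = y) ∧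
      (∀ x y, Same E K x y → ¬ Same E K1 x y → ∃ z ∈ U, Same E K x z) := by
  classical
  have hch : ∀ C : Set Lam, ∃ o : Option Lam,
      (∀ p, o = some p → (bd E K p = C ∧ Same E K p (I p) ∧ ¬ Same E K1 p (I p))) ∧
      ((∃ p, bd E K p = C ∧ Same E K p (I p) ∧ ¬ Same E K1 p (I p)) → ∃ p, o = some p) := by
    intro C
    by_cases h : ∃ p, bd E K p = C ∧ Same E K p (I p) ∧ ¬ Same E K1 p (I p)
    · obtain ⟨p, hp⟩ := h
      refine ⟨some p, ?_, fun _ => ⟨p, rfl⟩⟩
      intro q hq
      cases hq
      exact hp
    · refine ⟨none, ?_, fun h' => absurd h' h⟩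
      intro q hq
      exact absurd hq (by simp)
  choose c hc1 hc2 using hch
  have hmem : ∀ y, (c (bd E K y) = some y ∨ c (bd E K y) = some (I y)) →
      Same E K y (I y) ∧ ¬ Same E K1 y (I y) := by
    rintro y (h | h)
    · exact (hc1 _ _ h).2
    · obtain ⟨_, h3, h4⟩ := hc1 _ _ h
      rw [hT.Iinv] at h3 h4
      exact ⟨sy_symm hG h3, fun h5 => h4 (sy_symm hG1 h5)⟩
  refine ⟨Finset.univ.filter
    (fun y => c (bd E K y) = some y ∨ c (bd E K y) = some (I y)), ?_, ?_, ?_, ?_, ?_⟩
  · intro x hx
    rw [Finset.mem_filter] at hx ⊢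
    refine ⟨Finset.mem_univ _, ?_⟩
    have h2 := hmem x hx.2
    rw [← sy_bd hG h2.1, hT.Iinv]
    exact hx.2.symm
  · intro x hx
    exact (hmem x (Finset.mem_filter.1 hx).2).1
  · intro x hx
    exact (hmem x (Finset.mem_filter.1 hx).2).2
  · intro x hx y hy hxy
    have hx2 := (Finset.mem_filter.1 hx).2
    have hy2 := (Finset.mem_filter.1 hy).2
    have hxn := (hmem x hx2).2
    rw [← sy_bd hG (h1 _ _ hxy)] at hy2
    rcases hx2 with hx2 | hx2 <;> rcases hy2 with hy2 | hy2
    · rw [hx2] at hy2
      exact Option.some.inj hy2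
    · rw [hx2] at hy2
      have h3 : x = I y := Option.some.inj hy2
      have h4 : I x = y := by rw [h3, hT.Iinv]
      rw [h4] at hxn
      exact absurd hxy hxn
    · rw [hx2] at hy2
      have h3 : I x = y := Option.some.inj hy2
      rw [h3] at hxn
      exact absurd hxy hxn
    · rw [hx2] at hy2
      have h3 : I x = I y := Option.some.inj hy2
      rw [← hT.Iinv x, h3, hT.Iinv]
  · intro x y hxy hn
    obtain ⟨z, hz1, hz2, hz3⟩ := exists_edge hT hG hL hC hG1 h1 hxy hn
    have hb : bd E K z = bd E K x := (sy_bd hG hz1).symm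
    have hzz : Same E K z (I z) := (sy_symm hG hz1).trans hz2
    obtain ⟨p, hp⟩ := hc2 (bd E K x) ⟨z, hb, hzz, hz3⟩
    have h3 := hc1 _ _ hp
    refine ⟨p, ?_, sy_of_bd h3.1.symm⟩
    rw [Finset.mem_filter]
    refine ⟨Finset.mem_univ _, Or.inl ?_⟩
    rw [h3.1]
    exact hp

theorem sync_aux (hT : Tgt E I) (hG : Geo E K) (hL : ∀ x, I x = x → K x = x)
    (hC : Closed E I K) : ∀ (N : ℕ) (K1 : Lam → Lam), Geo E K1 →
    (∀ x y, Same E K1 x y → Same E K x y) → (∀ x, K x = x → K1 x = x) →
    (∀ x y, Same E K x y → ¬ Same E K1 x y →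
      ((body E K x).filter (fun z => K1 z ≠ I z)).card ≤ N) →
    ∃ (Us : List (Finset Lam)) (K' : Lam → Lam), Us.length ≤ N ∧ FarRun E I K1 Us K' ∧
      (∀ U ∈ Us, ∀ x ∈ U, Same E K x (I x)) ∧
      (∀ x y, Same E K' x y ↔ Same E K x y) ∧ (∀ x, K' x = x ↔ K x = x) := by
  intro N
  induction N with
  | zero =>
    intro K1 hG1 h1 h1l hN
    have hall : ∀ x y, Same E K x y → Same E K1 x y := by
      intro x y hxy
      by_contra hn
      obtain ⟨z, hz1, _, hz3⟩ := exists_edge hT hG hL hC hG1 h1 hxy hn
      have h2 := hN x y hxy hn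
      rw [Nat.le_zero, Finset.card_eq_zero] at h2
      have h3 : z ∈ (body E K x).filter (fun z => K1 z ≠ I z) := by
        rw [Finset.mem_filter]
        refine ⟨?_, ?_⟩
        · simp only [body, Finset.mem_filter, Finset.mem_univ, true_and]
          exact hz1
        · intro h4
          apply hz3
          rw [← h4]
          exact Relation.ReflTransGen.single (Or.inr rfl)
      rw [h2] at h3
      exact absurd h3 (Finset.notMem_empty z)
    refine ⟨[], K1, le_refl _, FarRun.nil K1, by simp, fun x y => ⟨h1 x y, hall x y⟩,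
      fun x => ⟨sy_loose hG hG1 hall h1l x, h1l x⟩⟩
  | succ N ih =>
    intro K1 hG1 h1 h1l hN
    obtain ⟨U, hUI, hUK, hUn, hUs, hUa⟩ := sy_unit hT hG hL hC hG1 h1
    have hFar : Far E I K1 U := by
      refine ⟨hUI, ?_, hUs⟩
      intro x hx h
      apply hUn x hx
      rw [h]
      exact Relation.ReflTransGen.refl
    have hG2 : Geo E (step I K1 U) := hFar.geo hT.Iinv hG1
    have h1K : ∀ x, Same E K x (K1 x) := fun x =>
      h1 x (K1 x) (Relation.ReflTransGen.single (Or.inr rfl))
    have hEK : ∀ x, Same E K x (E x) := fun x => Relation.ReflTransGen.single (Or.inl rfl)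
    have h2K : ∀ x, Same E K x (step I K1 U x) := by
      intro x
      unfold step
      split_ifs with h3 h4
      · exact hUK x h3
      · exact Relation.ReflTransGen.refl
      · exact h1K x
    have h2 : ∀ x y, Same E (step I K1 U) x y → Same E K x y := by
      intro x y h
      induction h with
      | refl => exact Relation.ReflTransGen.refl
      | tail _ h4 ih4 =>
        rcases h4 with rfl | rfl
        · exact ih4.trans (hEK _)
        · exact ih4.trans (h2K _)
    have hfix : ∀ x, K x = x → x ∉ U := by
      intro x hx hxU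
      exact closed_ends hT hG hL hC x hx (hFar.moving x hxU) (hUK x hxU)
    have h2l : ∀ x, K x = x → step I K1 U x = x := by
      intro x hx
      have h3 := hfix x hx
      have h4 := h1l x hx
      unfold step
      rw [if_neg h3, h4, if_neg h3]
    have hform : ∀ x, K1 x = I x → step I K1 U x = I x := by
      intro x hx
      unfold step
      by_cases h3 : x ∈ U
      · rw [if_pos h3]
      · have h4 : K1 x ∉ U := by
          intro h5
          apply h3
          have := hUI _ h5
          rwa [hx, hT.Iinv] at this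
        rw [if_neg h3, if_neg h4, hx]
    have hact : ∀ x y, Same E K x y → ¬ Same E (step I K1 U) x y →
        ∃ y', Same E K x y' ∧ ¬ Same E K1 x y' := by
      intro x y hxy hn
      by_contra hno
      push Not at hno
      apply hn
      have hU : ∀ z, Same E K x z → z ∉ U := by
        intro z hz hzU
        apply hUn z hzU
        exact (sy_symm hG1 (hno z hz)).trans (hno (I z) (hz.trans (hUK z hzU)))
      have hstep : ∀ z, Same E K x z → step I K1 U z = K1 z := by
        intro z hz
        unfold step
        rw [if_neg (hU z hz), if_neg (hU (K1 z) (hz.trans (h1K z)))]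
      have hgo : ∀ w, Same E K1 x w → Same E (step I K1 U) x w := by
        intro w hw
        induction hw with
        | refl => exact Relation.ReflTransGen.refl
        | tail h5 h6 ih6 =>
          rename_i b e
          refine Relation.ReflTransGen.tail ih6 ?_
          rcases h6 with h6 | h6
          · exact Or.inl h6
          · right
            rw [hstep b (h1 x b h5)]
            exact h6
      exact hgo y (hno y hxy)
    have hN' : ∀ x y, Same E K x y → ¬ Same E (step I K1 U) x y →
        ((body E K x).filter (fun z => step I K1 U z ≠ I z)).card ≤ N := by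
      intro x y hxy hn
      obtain ⟨y', hy', hn'⟩ := hact x y hxy hn
      have h3 := hN x y' hy' hn'
      obtain ⟨z, hzU, hz⟩ := hUa x y' hy' hn'
      have h4 : ((body E K x).filter (fun z => step I K1 U z ≠ I z)) ⊂
          ((body E K x).filter (fun z => K1 z ≠ I z)) := by
        rw [Finset.ssubset_iff_of_subset]
        · refine ⟨z, ?_, ?_⟩
          · rw [Finset.mem_filter]
            refine ⟨?_, ?_⟩
            · simp only [body, Finset.mem_filter, Finset.mem_univ, true_and]
              exact hz
            · intro h5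
              apply hUn z hzU
              rw [← h5]
              exact Relation.ReflTransGen.single (Or.inr rfl)
          · rw [Finset.mem_filter]
            rintro ⟨_, h5⟩
            apply h5
            unfold step
            rw [if_pos hzU]
        · intro w hw
          rw [Finset.mem_filter] at hw ⊢
          exact ⟨hw.1, fun h5 => hw.2 (hform w h5)⟩
      have h5 := Finset.card_lt_card h4
      omega
    obtain ⟨Us, K', hlen, hrun, hsame, hbod, hloose⟩ := ih (step I K1 U) hG2 h2 h2l hN'
    refine ⟨U :: Us, K', by simpa using hlen, FarRun.cons K1 U Us K' hFar hrun, ?_, hbod, hloose⟩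
    intro V hV x hx
    rcases List.mem_cons.1 hV with rfl | hV
    · exact hUK x hx
    · exact hsame V hV x hx

theorem sync {R : ℕ} (hT : Tgt E I) (hG : Geo E K) (hL : ∀ x, I x = x → K x = x)
    (hC : Closed E I K) (hR : Small E K R) {K1 : Lam → Lam} (hG1 : Geo E K1)
    (h1 : ∀ x y, Same E K1 x y → Same E K x y)
    (h1l : ∀ x, K x = x → K1 x = x) :
    ∃ (Us : List (Finset Lam)) (K' : Lam → Lam), Us.length ≤ R ∧ FarRun E I K1 Us K' ∧
      (∀ U ∈ Us, ∀ x ∈ U, Same E K x (I x)) ∧
      (∀ x y, Same E K' x y ↔ Same E K x y) ∧ (∀ x, K' x = x ↔ K x = x) :=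
  sync_aux hT hG hL hC R K1 hG1 h1 h1l
    (fun x _ _ _ => (Finset.card_filter_le _ _).trans (hR x))

end Sync

end BP2
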