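import Pool.Agent.BP2.S.Base
import Pool.Agent.BP2.S.Gadget
import Pool.Agent.BP2.S.Sync
import Pool.Agent.BP2.S.Delay
import Pool.Agent.BP2.S.Balance

/-! MP_475aca_co, part (S): one gadget block (helper37) -/

set_option autoImplicit false

namespace BP2

section Block
variable {Lam : Type*} [Fintype Lam] [DecidableEq Lam] {E I K K' : Lam → Lam}

set_option linter.unusedSectionVars false

lemma blk_mem_locU {O : Finset Lam} {x : Lam} :
    x ∈ locU I O ↔ x ∈ O ∨ ∃ p ∈ O, I p = x := by
  unfold locU
  rw [Finset.mem_union, Finset.mem_image]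

/-- a label is used at most once in a far run -/
lemma blk_used_once {Us : List (Finset Lam)} (hI : ∀ x, I (I x) = x)
    (h : FarRun E I K Us K') (x : Lam) : ∀ (s s' : ℕ) (hs : s < Us.length) (hs' : s' < Us.length),
      x ∈ Us[s] → x ∈ Us[s'] → s = s' := by
  induction h with
  | nil K => intro s s' hs; simp at hs
  | cons K U Us K' hU hr ih =>
    intro s s' hs hs' h1 h2
    have key : x ∈ U → ∀ (i : ℕ) (hi : i < Us.length), x ∉ Us[i] := by
      intro hxU i hi hx
      have h3 := (hr.used' hI _ (List.getElem_mem hi) x hx).1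
      apply h3
      unfold step
      rw [if_pos hxU]
    rcases s with _ | s <;> rcases s' with _ | s'
    · rfl
    · simp only [List.getElem_cons_zero, List.getElem_cons_succ] at h1 h2
      exact absurd h2 (key h1 s' (by simpa using hs'))
    · simp only [List.getElem_cons_zero, List.getElem_cons_succ] at h1 h2
      exact absurd h1 (key h2 s (by simpa using hs))
    · simp only [List.getElem_cons_succ] at h1 h2
      rw [ih s s' (by simpa using hs) (by simpa using hs') h1 h2]

section facts
variable {O : Finset Lam}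

/-- the gap mate of a used label is not used -/
lemma blk_mate_notMem (hI : ∀ x, I (I x) = x) (hG : Geo E K) (hO : Loc E I K O) {x : Lam}
    (hx : x ∈ locU I O) : K x ≠ x ∧ K x ≠ I x ∧ K x ∉ locU I O := by
  have hsameI : ∀ p ∈ O, Same E K p (I p) := hO.body
  rw [blk_mem_locU] at hx
  rcases hx with hx | ⟨p, hp, rfl⟩
  · refine ⟨hO.gap1 x hx, hO.unf x hx, ?_⟩
    rw [blk_mem_locU]
    rintro (h | ⟨q, hq, h⟩)
    · have := hO.sep x hx _ h (same_K E K x)
      exact hO.gap1 x hx this.symm
    · have h1 : Same E K x q := by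
        have h2 : Same E K q (K x) := by rw [← h]; exact hsameI q hq
        exact (same_K E K x).trans (hG.symm h2)
      have := hO.sep x hx q hq h1
      subst this
      exact hO.unf x hx h.symm
  · refine ⟨hO.gap2 p hp, ?_, ?_⟩
    · rw [hI]
      intro h
      apply hO.unf p hp
      have h1 : K (K (I p)) = K p := by rw [h]
      rw [hG.Kinv] at h1
      exact h1.symm
    · rw [blk_mem_locU]
      rintro (h | ⟨q, hq, h⟩)
      · have h1 : Same E K p (K (I p)) := (hsameI p hp).trans (same_K E K _)
        have h2 := hO.sep p hp _ h h1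
        apply hO.unf p hp
        have h3 : K p = K (K (I p)) := by rw [← h2]
        rw [hG.Kinv] at h3
        exact h3
      · have h1 : Same E K p q := by
          have h2 : Same E K q (K (I p)) := by rw [← h]; exact hsameI q hq
          exact ((hsameI p hp).trans (same_K E K _)).trans (hG.symm h2)
        have h2 := hO.sep p hp q hq h1
        rw [← h2] at h
        exact hO.gap2 p hp h.symm

/-- after the local level the mates are loose -/
lemma blk_mate_loose (hI : ∀ x, I (I x) = x) (hG : Geo E K) (hO : Loc E I K O) {x : Lam}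
    (hx : x ∈ locU I O) : step I K (locU I O) (K x) = K x := by
  obtain ⟨-, -, h3⟩ := blk_mate_notMem hI hG hO hx
  unfold step
  rw [if_neg h3, if_pos]
  rw [hG.Kinv]
  exact hx

/-- every mate is used in exactly one level of the synchronous run -/
lemma blk_index (hI : ∀ x, I (I x) = x) (hG : Geo E K) (hO : Loc E I K O)
    {Us : List (Finset Lam)} (hr : FarRun E I (step I K (locU I O)) Us K')
    (hfix : ∀ x, K' x = x ↔ K x = x) {x : Lam} (hx : x ∈ locU I O) :
    ∃ (s : ℕ) (hs : s < Us.length), K x ∈ Us[s] := by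
  have h1 := blk_mate_loose hI hG hO hx
  have h2 : K' (K x) ≠ K x := by
    intro h
    rw [hfix, hG.Kinv] at h
    exact (blk_mate_notMem hI hG hO hx).1 h.symm
  obtain ⟨U, hU, hxU⟩ := hr.was_used (K x) h1 h2
  obtain ⟨s, hs, rfl⟩ := List.getElem_of_mem hU
  exact ⟨s, hs, hxU⟩

end facts

/-- one gadget block -/
theorem block {R : ℕ} (T : ℕ) (hTp : 0 < T) (hT : Tgt E I) (hG : Geo E K)
    (hL : ∀ x, I x = x → K x = x) (hC : Closed E I K) (hR : Small E K R) :
    ∃ (O : Finset Lam) (Us : List (Finset Lam)) (K' : Lam → Lam), Loc E I K O ∧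
      Us.length ≤ T + R ∧ FarRun E I (step I K (locU I O)) Us K' ∧ Geo E K' ∧
      (∀ x, I x = x → K' x = x) ∧ Closed E I K' ∧ (∀ x y, Same E K' x y ↔ Same E K x y) ∧
      (∀ p ∈ O, (∃ U ∈ Us, K p ∈ U) ∧ ∃ U ∈ Us, K (I p) ∈ U) ∧
      T * imb I K O Us ≤ 2 * R * Fintype.card Lam + T * ((T + R) * (R * R)) ∧
      (∀ x ∈ gapL I K, ((gapL I K').filter (fun y => y ∈ body E K x)).card + 1 ≤
        ((gapL I K).filter (fun y => y ∈ body E K x)).card) ∧
      (∀ x, x ∈ gapL I K' → x ∈ gapL I K) := by
  classical
  have hI := hT.Iinv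
  obtain ⟨O, hO, hOgap, hOsub⟩ := exists_loc hT hG hL hC
  set K1 := step I K (locU I O) with hK1
  have hG1 : Geo E K1 := hO.geo hI hG
  have h1 : ∀ x y, Same E K1 x y → Same E K x y := fun x y h => hO.same hI hG h
  have hUgap : ∀ x ∈ locU I O, K x ≠ x := fun x hx => (blk_mate_notMem hI hG hO hx).1
  have h1l : ∀ x, K x = x → K1 x = x := by
    intro x hx
    have hxU : x ∉ locU I O := fun h => hUgap x h hx
    rw [hK1]
    unfold step
    rw [if_neg hxU, if_neg (by rw [hx]; exact hxU), hx]
  obtain ⟨Us0, K', hlen, hrun, hUsame, hsame, hfix⟩ := sync hT hG hL hC hR hG1 h1 h1l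
  -- the indices
  have hidx : ∀ x, ∃ s : ℕ, x ∈ locU I O → ∃ hs : s < Us0.length, K x ∈ Us0[s] := by
    intro x
    by_cases hx : x ∈ locU I O
    · obtain ⟨s, hs, h⟩ := blk_index hI hG hO hrun hfix hx
      exact ⟨s, fun _ => ⟨hs, h⟩⟩
    · exact ⟨0, fun h => absurd h hx⟩
  choose ix hix using hidx
  have hOU : ∀ p ∈ O, p ∈ locU I O := fun p hp => blk_mem_locU.mpr (Or.inl hp)
  have hIOU : ∀ p ∈ O, I p ∈ locU I O := fun p hp => blk_mem_locU.mpr (Or.inr ⟨p, hp, rfl⟩)
  obtain ⟨t0, ht0, hbal⟩ := balance O R T hTp (fun p => ix p) (fun p => ix (I p))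
    (fun p hp => by
      obtain ⟨hs, -⟩ := hix p (hOU p hp)
      omega)
    (fun p hp => by
      obtain ⟨hs, -⟩ := hix (I p) (hIOU p hp)
      omega)
  -- delays, constant on the bodies
  let t : Lam → ℕ := fun x => if h : ∃ p ∈ O, Same E K x p then t0 h.choose else 0
  have htO : ∀ x, ∀ p ∈ O, Same E K x p → t x = t0 p := by
    intro x p hp hxp
    have hex : ∃ p ∈ O, Same E K x p := ⟨p, hp, hxp⟩
    simp only [t]
    rw [dif_pos hex]
    congr 1
    exact hO.sep _ hex.choose_spec.1 _ hp ((hG.symm hex.choose_spec.2).trans hxp)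
  have htT : ∀ x, t x < T := by
    intro x
    simp only [t]
    split_ifs with h
    · exact ht0 _
    · exact hTp
  have htc : ∀ x y, Same E K x y → t x = t y := by
    intro x y hxy
    by_cases hex : ∃ p ∈ O, Same E K y p
    · obtain ⟨p, hp, hyp⟩ := hex
      rw [htO x p hp (hxy.trans hyp), htO y p hp hyp]
    · have hex' : ¬ ∃ p ∈ O, Same E K x p := by
        rintro ⟨p, hp, hxp⟩
        exact hex ⟨p, hp, (hG.symm hxy).trans hxp⟩
      simp only [t]
      rw [dif_neg hex, dif_neg hex']
  obtain ⟨Vs, hVl, hVr, hVm⟩ := delay (Same E K)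
    ⟨Same.refl E K, fun h => hG.symm h, fun h h' => h.trans h'⟩ hI hG1 h1 hUsame hrun T t htT htc
  -- formed labels
  have hform : ∀ x, K x = I x → K' x = I x := by
    intro x hx
    apply hrun.formed' hI
    have hxU : x ∉ locU I O := fun h => (blk_mate_notMem hI hG hO h).2.1 hx
    have hIxU : I x ∉ locU I O := by
      intro h
      apply hxU
      rw [blk_mem_locU] at h ⊢
      rcases h with h | ⟨p, hp, h⟩
      · exact Or.inr ⟨I x, h, hI x⟩
      · have : p = x := by rw [← hI p, h, hI]
        rw [← this]
        exact Or.inl hp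
    rw [hK1]
    unfold step
    rw [if_neg hxU, if_neg (by rw [hx]; exact hIxU), hx]
  have hgsub : ∀ x, x ∈ gapL I K' → x ∈ gapL I K := by
    intro x hx
    unfold gapL at hx ⊢
    rw [Finset.mem_filter] at hx ⊢
    refine ⟨Finset.mem_univ x, fun h => hx.2.1 ((hfix x).mpr h), fun h => hx.2.2 (hform x h)⟩
  refine ⟨O, Vs, K', hO, by omega, hVr, hVr.geo hI hG1, ?_, ?_, hsame, ?_, ?_, ?_, hgsub⟩
  · exact hVr.loose (fun x hx => h1l x (hL x hx))
  · intro x hx
    rw [hsame]
    exact hC x (fun h => hx ((hfix x).mpr h))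
  · -- used
    intro p hp
    constructor
    · obtain ⟨hs, h⟩ := hix p (hOU p hp)
      have hlt : t (K p) + ix p < Vs.length := by
        have := htT (K p)
        omega
      exact ⟨_, List.getElem_mem hlt, (hVm _ hlt _).mpr ⟨ix p, hs, h, rfl⟩⟩
    · obtain ⟨hs, h⟩ := hix (I p) (hIOU p hp)
      have hlt : t (K (I p)) + ix (I p) < Vs.length := by
        have := htT (K (I p))
        omega
      exact ⟨_, List.getElem_mem hlt, (hVm _ hlt _).mpr ⟨ix (I p), hs, h, rfl⟩⟩
  · -- imbalance
    have hmem : ∀ x ∈ locU I O, ∀ p ∈ O, Same E K x p → ∀ (tau : ℕ) (h : tau < Vs.length),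
        (K x ∈ Vs[tau] ↔ t0 p + ix x = tau) := by
      intro x hx p hp hxp tau h
      obtain ⟨hs, hxs⟩ := hix x hx
      have ht1 : t (K x) = t0 p := htO _ p hp ((hG.symm (same_K E K x)).trans hxp)
      rw [hVm tau h]
      constructor
      · rintro ⟨s, hs', h1', h2'⟩
        have := blk_used_once hI hrun (K x) s (ix x) hs' hs h1' hxs
        rw [h2', ht1, this]
      · intro h'
        exact ⟨ix x, hs, hxs, by rw [ht1, h']⟩
    have himb : imb I K O Vs ≤ ∑ tau ∈ Finset.range (T + R),
        (((O.filter (fun p => t0 p + ix p = tau)).card : ℤ) -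
        ((O.filter (fun p => t0 p + ix (I p) = tau)).card : ℤ)).natAbs := by
      have e : imb I K O Vs = ∑ tau ∈ Finset.range Vs.length,
          (((O.filter (fun p => t0 p + ix p = tau)).card : ℤ) -
          ((O.filter (fun p => t0 p + ix (I p) = tau)).card : ℤ)).natAbs := by
        have hlist : Vs.map (fun U => (((O.filter (fun p => K p ∈ U)).card : ℤ) -
            ((O.filter (fun p => K (I p) ∈ U)).card : ℤ)).natAbs) =
            (List.range Vs.length).map (fun tau =>
              (((O.filter (fun p => t0 p + ix p = tau)).card : ℤ) -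
              ((O.filter (fun p => t0 p + ix (I p) = tau)).card : ℤ)).natAbs) := by
          apply List.ext_getElem
          · simp
          · intro tau h2 h3
            have h4 : tau < Vs.length := by simpa using h2
            rw [List.getElem_map, List.getElem_map, List.getElem_range]
            have e1 : O.filter (fun p => K p ∈ Vs[tau]) =
                O.filter (fun p => t0 p + ix p = tau) := by
              apply Finset.filter_congr
              intro p hp
              exact hmem p (hOU p hp) p hp (Same.refl _ _ _) tau h4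
            have e2 : O.filter (fun p => K (I p) ∈ Vs[tau]) =
                O.filter (fun p => t0 p + ix (I p) = tau) := by
              apply Finset.filter_congr
              intro p hp
              exact hmem (I p) (hIOU p hp) p hp (hG.symm (hO.body p hp)) tau h4
            rw [e1, e2]
        unfold imb
        rw [hlist]
        rfl
      rw [e]
      apply Finset.sum_le_sum_of_subset
      apply Finset.range_subset_range.mpr
      omega
    calc T * imb I K O Vs ≤ T * _ := Nat.mul_le_mul_left _ himb
      _ ≤ 2 * R * O.card + T * ((T + R) * (R * R)) := hbal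
      _ ≤ _ := by
        have : O.card ≤ Fintype.card Lam := Finset.card_le_univ O
        gcongr
  · -- gap count
    intro x hx
    obtain ⟨p, hp, hxp⟩ := hOgap x hx
    have hss : (gapL I K').filter (fun y => y ∈ body E K x) ⊂
        (gapL I K).filter (fun y => y ∈ body E K x) := by
      rw [Finset.ssubset_iff_of_subset]
      · refine ⟨p, ?_, ?_⟩
        · rw [Finset.mem_filter]
          exact ⟨hOsub p hp, mem_body.mpr hxp⟩
        · rw [Finset.mem_filter]
          rintro ⟨h, -⟩
          unfold gapL at h
          rw [Finset.mem_filter] at h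
          apply h.2.2
          apply hrun.formed' hI
          rw [hK1]
          unfold step
          rw [if_pos (hOU p hp)]
      · intro y hy
        rw [Finset.mem_filter] at hy ⊢
        exact ⟨hgsub y hy.1, hy.2⟩
    exact Finset.card_lt_card hss

end Block

end BP2
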