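import Pool.Agent.BP2.S.Block

/-! MP_475aca_co, part (S): R gadget blocks (helper37) -/

namespace BP2

section Blocks

variable {Lam : Type*} [Fintype Lam] [DecidableEq Lam] {E I K K' : Lam → Lam}

/-! ### formed labels are never used again -/

lemma Far.blks_notMem (hG : Geo E K) {U : Finset Lam}
    (h : Far E I K U) {x : Lam} (hx : K x = I x) : x ∉ U := by
  intro hxU
  have h1 := h.closed x hxU
  have h2 := h.moving x hxU
  have h3 : Same E K x (I x) := by
    rw [← hx]
    exact Relation.ReflTransGen.single (Or.inr rfl)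
  exact h2 (h.sep x hxU _ h1 h3).symm

lemma Loc.blks_notMem (hI : ∀ x, I (I x) = x) (hK : ∀ x, K (K x) = x) {O : Finset Lam}
    (h : Loc E I K O) {x : Lam} (hx : K x = I x) : x ∉ locU I O := by
  intro hxU
  unfold locU at hxU
  rw [Finset.mem_union, Finset.mem_image] at hxU
  rcases hxU with hxO | ⟨p, hp, rfl⟩
  · exact h.unf x hxO hx
  · rw [hI] at hx
    apply h.unf p hp
    have h1 : K (K (I p)) = K p := by rw [hx]
    rw [hK] at h1
    exact h1.symm

/-- a step preserves the formed labels outside a closed set of used labels -/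
lemma blks_step_formed (hI : ∀ x, I (I x) = x) {U : Finset Lam} (hU : ∀ x ∈ U, I x ∈ U) {x : Lam}
    (hxU : x ∉ U) (hx : K x = I x) : step I K U x = I x := by
  unfold step
  rw [if_neg hxU, if_neg, hx]
  intro h
  apply hxU
  rw [hx] at h
  have := hU _ h
  rwa [hI] at this

lemma blks_locU_closed (hI : ∀ x, I (I x) = x) {O : Finset Lam} : ∀ x ∈ locU I O, I x ∈ locU I O := by
  intro x hx
  unfold locU at hx ⊢
  rw [Finset.mem_union, Finset.mem_image] at hx ⊢
  rcases hx with h | ⟨p, hp, rfl⟩
  · exact Or.inr ⟨x, h, rfl⟩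
  · rw [hI]
    exact Or.inl hp

/-- along a run formed labels are never used -/
lemma SRun.blks_notMem (hI : ∀ x, I (I x) = x) {L : List (Lv Lam)} (hG : Geo E K)
    (h : SRun E I K L K') : ∀ x, K x = I x → ∀ l ∈ L, x ∉ l.used I := by
  induction h with
  | nil K => simp
  | cut K K1 L K' hc hf hr ih =>
    intro x hx l hl
    have hx1 : K1 x = I x := by
      by_contra hne
      exact hf x (fun h => hne (by rw [h, hx])) hx
    rcases List.mem_cons.mp hl with rfl | hl
    · simp [Lv.used]
    · exact ih (hG.cut hc) x hx1 l hl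
  | far K U L K' hU hr ih =>
    intro x hx l hl
    have hxU := hU.blks_notMem hG hx
    rcases List.mem_cons.mp hl with rfl | hl
    · exact hxU
    · exact ih (hU.geo hI hG) x (blks_step_formed hI hU.closed hxU hx) l hl
  | loc K O L K' hO hr ih =>
    intro x hx l hl
    have hxU := hO.blks_notMem hI hG.Kinv hx
    rcases List.mem_cons.mp hl with rfl | hl
    · exact hxU
    · exact ih (hO.geo hI hG) x (blks_step_formed hI (blks_locU_closed hI) hxU hx) l hl

/-! ### runs -/

lemma SRun.blks_append {L L' : List (Lv Lam)} {K1 K2 : Lam → Lam} (h : SRun E I K L K1)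
    (h' : SRun E I K1 L' K2) : SRun E I K (L ++ L') K2 := by
  induction h with
  | nil K => exact h'
  | cut K K1 L K' hc hf hr ih => exact SRun.cut _ _ _ _ hc hf (ih h')
  | far K U L K' hU hr ih => exact SRun.far _ _ _ _ hU (ih h')
  | loc K O L K' hO hr ih => exact SRun.loc _ _ _ _ hO (ih h')

lemma FarRun.blks_toRun {Us : List (Finset Lam)} (h : FarRun E I K Us K') :
    SRun E I K (Us.map Lv.far) K' := by
  induction h with
  | nil K => exact SRun.nil K
  | cons K U Us K' hU hr ih => exact SRun.far _ _ _ _ hU ih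

lemma blks_imb_append (I K : Lam → Lam) (O : Finset Lam) (Us Vs : List (Finset Lam)) :
    imb I K O (Us ++ Vs) = imb I K O Us + imb I K O Vs := by
  unfold imb
  rw [List.map_append, List.sum_append]

lemma blks_imb_eq_zero (I K : Lam → Lam) (O : Finset Lam) (Us : List (Finset Lam))
    (h : ∀ U ∈ Us, ∀ p ∈ O, K p ∉ U ∧ K (I p) ∉ U) : imb I K O Us = 0 := by
  unfold imb
  rw [List.sum_eq_zero]
  intro n hn
  rw [List.mem_map] at hn
  obtain ⟨U, hU, rfl⟩ := hn
  have h1 : O.filter (fun p => K p ∈ U) = ∅ :=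
    Finset.filter_eq_empty_iff.mpr fun p hp => (h U hU p hp).1
  have h2 : O.filter (fun p => K (I p) ∈ U) = ∅ :=
    Finset.filter_eq_empty_iff.mpr fun p hp => (h U hU p hp).2
  rw [h1, h2]
  simp

lemma blks_imbCount_far {Us : List (Finset Lam)} (h : FarRun E I K Us K') (L : List (Lv Lam)) :
    imbCount I K (Us.map Lv.far ++ L) = imbCount I K' L := by
  induction h with
  | nil K => rfl
  | cons K U Us K' hU hr ih =>
    rw [List.map_cons, List.cons_append, imbCount]
    exact ih

lemma blks_cutCount_far {Us : List (Finset Lam)} (h : FarRun E I K Us K') (L : List (Lv Lam)) :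
    cutCount I K (Us.map Lv.far ++ L) = cutCount I K' L := by
  induction h with
  | nil K => rfl
  | cons K U Us K' hU hr ih =>
    rw [List.map_cons, List.cons_append, cutCount]
    exact ih

lemma blks_map_far_used (I : Lam → Lam) (Us : List (Finset Lam)) :
    (Us.map Lv.far).map (Lv.used I) = Us := by
  rw [List.map_map]
  conv_rhs => rw [← List.map_id Us]
  rfl

end Blocks

section Blocks2

/-- `r` blocks -/
lemma blks_aux (R T : ℕ) (hT0 : 0 < T) (r : ℕ) : ∀ (Lam : Type) [Fintype Lam]
    [DecidableEq Lam] (E I K : Lam → Lam), Tgt E I → Geo E K → (∀ x, I x = x → K x = x) →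
    Closed E I K → Small E K R →
    (∀ x, ((gapL I K).filter (fun y => y ∈ body E K x)).card ≤ r) →
    ∃ (L : List (Lv Lam)) (K' : Lam → Lam), L.length ≤ r * (1 + T + R) ∧
      SRun E I K L K' ∧ Geo E K' ∧ (∀ x, I x = x → K' x = x) ∧ (∀ x, K' x = x ∨ K' x = I x) ∧
      cutCount I K L = 0 ∧
      T * imbCount I K L ≤ r * (2 * R * Fintype.card Lam + T * ((T + R) * (R * R))) ∧
      (∀ (L' : List (Lv Lam)) (K'' : Lam → Lam), SRun E I K' L' K'' →
        imbCount I K (L ++ L') = imbCount I K L + imbCount I K' L') := by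
  induction r with
  | zero =>
    intro Lam _ _ E I K hTg hG hL hC hR hgap
    refine ⟨[], K, by simp, SRun.nil K, hG, hL, ?_, rfl, ?_, ?_⟩
    · intro x
      by_contra hne
      push Not at hne
      have hx : x ∈ (gapL I K).filter (fun y => y ∈ body E K x) := by
        rw [Finset.mem_filter, gapL, Finset.mem_filter]
        exact ⟨⟨Finset.mem_univ x, hne.1, hne.2⟩, mem_body.mpr Relation.ReflTransGen.refl⟩
      have := Finset.card_pos.mpr ⟨x, hx⟩
      have := hgap x
      omega
    · simp [imbCount]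
    · intro L' K'' _
      simp [imbCount]
  | succ r ih =>
    intro Lam _ _ E I K hTg hG hL hC hR hgap
    obtain ⟨O, Us, K1, hO, hlen, hrun, hG1, hL1, hC1, hsame, hused, himb, hg1, hg2⟩ :=
      block T hT0 hTg hG hL hC hR
    have hI := hTg.Iinv
    have hbody : ∀ x, body E K1 x = body E K x := by
      intro x
      ext y
      rw [mem_body, mem_body, hsame]
    have hR1 : Small E K1 R := fun x => by rw [hbody]; exact hR x
    have hgap1 : ∀ x, ((gapL I K1).filter (fun y => y ∈ body E K1 x)).card ≤ r := by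
      intro x
      rw [hbody]
      by_cases he : ((gapL I K).filter (fun y => y ∈ body E K x)).Nonempty
      · obtain ⟨y, hy⟩ := he
        rw [Finset.mem_filter] at hy
        have h1 := hg1 y hy.1
        have hb : body E K y = body E K x := by
          ext z
          have hxy : Same E K x y := mem_body.mp hy.2
          rw [mem_body, mem_body]
          exact ⟨fun h => hxy.trans h, fun h => (hxy.symm hG.Einv hG.Kinv).trans h⟩
        rw [hb] at h1
        have h2 := hgap x
        omega
      · rw [Finset.not_nonempty_iff_eq_empty] at he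
        have : (gapL I K1).filter (fun y => y ∈ body E K x) = ∅ := by
          rw [← Finset.subset_empty, ← he]
          intro z hz
          rw [Finset.mem_filter] at hz ⊢
          exact ⟨hg2 z hz.1, hz.2⟩
        rw [this]
        simp
    obtain ⟨L2, K2, hl2, hr2, hG2, hL2, hf2, hc2, hi2, hc2'⟩ :=
      ih Lam E I K1 hTg hG1 hL1 hC1 hR1 hgap1
    have hGs : Geo E (step I K (locU I O)) := hO.geo hI hG
    -- later levels do not see the labels of this block
    have hlater : ∀ (L' : List (Lv Lam)) (K'' : Lam → Lam), SRun E I K1 L' K'' →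
        imb I K O (L'.map (Lv.used I)) = 0 := by
      intro L' K'' hr'
      apply blks_imb_eq_zero
      intro U hU p hp
      rw [List.mem_map] at hU
      obtain ⟨l, hl, rfl⟩ := hU
      obtain ⟨⟨U1, hU1, h1⟩, ⟨U2, hU2, h2⟩⟩ := hused p hp
      have e1 := (hrun.used hI hGs U1 hU1 _ h1).2
      have e2 := (hrun.used hI hGs U2 hU2 _ h2).2
      exact ⟨hr'.blks_notMem hI hG1 _ e1 l hl, hr'.blks_notMem hI hG1 _ e2 l hl⟩
    have hcount : ∀ (L' : List (Lv Lam)) (K'' : Lam → Lam), SRun E I K1 L' K'' →
        imbCount I K (Lv.loc O :: (Us.map Lv.far ++ L')) = imb I K O Us + imbCount I K1 L' := by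
      intro L' K'' hr'
      rw [imbCount, List.map_append, blks_map_far_used, blks_imb_append, hlater L' K'' hr', add_zero,
        blks_imbCount_far hrun]
    refine ⟨Lv.loc O :: (Us.map Lv.far ++ L2), K2, ?_, ?_, hG2, hL2, hf2, ?_, ?_, ?_⟩
    · rw [List.length_cons, List.length_append, List.length_map]
      calc Us.length + L2.length + 1 ≤ (T + R) + r * (1 + T + R) + 1 := by omega
        _ = (r + 1) * (1 + T + R) := by ring
    · exact SRun.loc _ _ _ _ hO (hrun.blks_toRun.blks_append hr2)
    · rw [cutCount, blks_cutCount_far hrun]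
      exact hc2
    · rw [hcount L2 K2 hr2, Nat.mul_add, Nat.add_mul, Nat.one_mul, add_comm (r * _)]
      exact Nat.add_le_add himb hi2
    · intro L' K'' hr'
      rw [List.cons_append, List.append_assoc, hcount (L2 ++ L') K'' (hr2.blks_append hr'),
        hcount L2 K2 hr2, hc2' L' K'' hr', add_assoc]

/-- R blocks, at the end no gap labels; the count of a continuation is additive -/
theorem blocks' (m R : ℕ) (hm : 0 < m) : ∃ Q C : ℕ, ∀ (Lam : Type) [Fintype Lam]
    [DecidableEq Lam] (E I K : Lam → Lam), Tgt E I → Geo E K → (∀ x, I x = x → K x = x) →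
    Closed E I K → Small E K R → ∃ (L : List (Lv Lam)) (K' : Lam → Lam), L.length ≤ Q ∧
      SRun E I K L K' ∧ Geo E K' ∧ (∀ x, I x = x → K' x = x) ∧ (∀ x, K' x = x ∨ K' x = I x) ∧
      cutCount I K L = 0 ∧ m * imbCount I K L ≤ Fintype.card Lam + C ∧
      (∀ (L' : List (Lv Lam)) (K'' : Lam → Lam), SRun E I K' L' K'' →
        imbCount I K (L ++ L') = imbCount I K L + imbCount I K' L') := by
  set T : ℕ := m * (R * (2 * R)) + 1 with hTdef
  refine ⟨R * (1 + T + R), m * (R * ((T + R) * (R * R))), ?_⟩
  intro Lam _ _ E I K hTg hG hL hC hR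
  obtain ⟨L, K', h1, h2, h3, h4, h5, h6, h7, h8⟩ := blks_aux R T (by omega) R Lam E I K hTg hG
    hL hC hR (fun x => by
      refine (Finset.card_le_card ?_).trans (hR x)
      intro y hy
      exact (Finset.mem_filter.mp hy).2)
  refine ⟨L, K', h1, h2, h3, h4, h5, h6, ?_, h8⟩
  set n := Fintype.card Lam
  set i := imbCount I K L
  set c := (T + R) * (R * R)
  have h9 : T * (m * i) ≤ T * (n + m * (R * c)) := by
    calc T * (m * i) = m * (T * i) := by ring
      _ ≤ m * (R * (2 * R * n + T * c)) := Nat.mul_le_mul_left _ h7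
      _ = (m * (R * (2 * R))) * n + T * (m * (R * c)) := by ring
      _ ≤ T * n + T * (m * (R * c)) := by
          have : m * (R * (2 * R)) ≤ T := by omega
          gcongr
      _ = T * (n + m * (R * c)) := by ring
  exact Nat.le_of_mul_le_mul_left h9 (by omega)

theorem blocks (m R : ℕ) (hm : 0 < m) : ∃ Q C : ℕ, ∀ (Lam : Type) [Fintype Lam]
    [DecidableEq Lam] (E I K : Lam → Lam), Tgt E I → Geo E K → (∀ x, I x = x → K x = x) →
    Closed E I K → Small E K R → ∃ (L : List (Lv Lam)) (K' : Lam → Lam), L.length ≤ Q ∧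
      SRun E I K L K' ∧ Geo E K' ∧ (∀ x, I x = x → K' x = x) ∧ (∀ x, K' x = x ∨ K' x = I x) ∧
      cutCount I K L = 0 ∧ m * imbCount I K L ≤ Fintype.card Lam + C := by
  obtain ⟨Q, C, h⟩ := blocks' m R hm
  refine ⟨Q, C, ?_⟩
  intro Lam _ _ E I K hTg hG hL hC hR
  obtain ⟨L, K', h1, h2, h3, h4, h5, h6, h7, -⟩ := h Lam E I K hTg hG hL hC hR
  exact ⟨L, K', h1, h2, h3, h4, h5, h6, h7⟩

end Blocks2

end BP2
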