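import Mathlib
import Pool.Agent.BP2.S.Base

/-! MP_475aca_co, part (S), stage 2a. At every level every class of `Cl` that contains an
edge `{x, I x}` with `K x ≠ x` between different bodies executes one such edge; the number of gap
labels of an active class drops, an inactive class never becomes active. -/

set_option autoImplicit false

namespace BP2

section Cluster
variable {Lam : Type*} [Fintype Lam] [DecidableEq Lam] {E I K : Lam → Lam}

/-- the label `x` belongs to an edge that can be executed -/
def ActL (E I K : Lam → Lam) (x : Lam) : Prop := K x ≠ x ∧ ¬ Same E K x (I x)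

/-- one active label for every class that has one -/
theorem cluster_choose (Cl : Lam → Lam → Prop) (hCl : Equivalence Cl) (A : Lam → Prop) :
    ∃ ch : Lam → Lam, (∀ x y, Cl x y → ch x = ch y) ∧
      ∀ x y, Cl x y → A y → Cl x (ch x) ∧ A (ch x) := by
  classical
  let s : Setoid Lam := ⟨Cl, hCl⟩
  let r : Lam → Lam := fun x => (Quotient.mk s x).out
  have hr : ∀ x, Cl (r x) x := fun x => Quotient.exact (Quotient.out_eq (Quotient.mk s x))
  have hrr : ∀ x y, Cl x y → r x = r y := by
    intro x y h
    have : Quotient.mk s x = Quotient.mk s y := Quotient.sound h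
    simp only [r, this]
  let g : Lam → Lam := fun z => if h : ∃ y, Cl z y ∧ A y then h.choose else z
  refine ⟨fun x => g (r x), fun x y h => by simp only [hrr x y h], fun x y hxy hy => ?_⟩
  have h : ∃ y, Cl (r x) y ∧ A y := ⟨y, hCl.trans (hr x) hxy, hy⟩
  have hg : g (r x) = h.choose := by simp only [g, dif_pos h]
  show Cl x (g (r x)) ∧ A (g (r x))
  rw [hg]
  exact ⟨hCl.trans (hCl.symm (hr x)) h.choose_spec.1, h.choose_spec.2⟩

/-- one level -/
theorem cluster_level (hI : ∀ x, I (I x) = x) (hG : Geo E K)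
    (hL : ∀ x, I x = x → K x = x) (Cl : Lam → Lam → Prop) (hCl : Equivalence Cl)
    (hsub : ∀ x y, Same E K x y → Cl x y) (hcl : ∀ x, K x ≠ x → Cl x (I x)) :
    ∃ U : Finset Lam, Far E I K U ∧ (∀ x ∈ U, Cl x (I x)) ∧
      (∀ x ∈ U, ∃ y, Cl x y ∧ ActL E I K y) ∧
      ∀ x, ActL E I K x → ∃ y ∈ U, Cl x y ∧ ActL E I K y := by
  classical
  obtain ⟨ch, hch1, hch2⟩ := cluster_choose Cl hCl (ActL E I K)
  let U : Finset Lam := Finset.univ.filter
    (fun u => (∃ y, Cl u y ∧ ActL E I K y) ∧ (u = ch u ∨ u = I (ch u)))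
  have hU : ∀ u, u ∈ U ↔ (∃ y, Cl u y ∧ ActL E I K y) ∧ (u = ch u ∨ u = I (ch u)) := by
    intro u
    simp only [U, Finset.mem_filter, Finset.mem_univ, true_and]
  -- facts on the chosen label of the class of a member
  have hfact : ∀ u ∈ U, Cl u (ch u) ∧ ActL E I K (ch u) := by
    intro u hu
    obtain ⟨⟨y, hy1, hy2⟩, -⟩ := (hU u).1 hu
    exact hch2 u y hy1 hy2
  have hclI : ∀ u ∈ U, Cl u (I u) := by
    intro u hu
    obtain ⟨h1, h2⟩ := hfact u hu
    have h3 : Cl (ch u) (I (ch u)) := hcl _ h2.1
    rcases ((hU u).1 hu).2 with h4 | h4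
    · rw [← h4] at h3
      exact h3
    · have h5 : I u = ch u := by rw [h4, hI, ← h4]
      rw [h5]
      exact h1
  have hmate : ∀ u ∈ U, I u ∈ U := by
    intro u hu
    have h1 := hclI u hu
    have h2 : ch (I u) = ch u := (hch1 u (I u) h1).symm
    obtain ⟨⟨y, hy1, hy2⟩, h3⟩ := (hU u).1 hu
    refine (hU (I u)).2 ⟨⟨y, hCl.trans (hCl.symm h1) hy1, hy2⟩, ?_⟩
    rw [h2]
    rcases h3 with h3 | h3
    · right
      rw [← h3]
    · left
      rw [h3, hI, ← h3]
  refine ⟨U, ⟨hmate, ?_, ?_⟩, hclI, fun u hu => ((hU u).1 hu).1, ?_⟩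
  · -- moving
    intro u hu hfix
    obtain ⟨h1, h2⟩ := hfact u hu
    have h3 : I (ch u) = ch u := by
      rcases ((hU u).1 hu).2 with h4 | h4
      · rw [← h4]
        exact hfix
      · have h5 : I u = ch u := by rw [h4, hI, ← h4]
        rw [hfix] at h5
        rw [← h5]
        exact hfix
    exact h2.1 (hL _ h3)
  · -- one label per body
    intro x hx y hy hxy
    have hc : ch x = ch y := hch1 x y (hsub x y hxy)
    obtain ⟨-, h2⟩ := hfact x hx
    have h3 := ((hU x).1 hx).2
    have h4 := ((hU y).1 hy).2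
    rw [← hc] at h4
    generalize ch x = c at h2 h3 h4
    rcases h3 with rfl | rfl <;> rcases h4 with rfl | rfl
    · rfl
    · exact absurd hxy h2.2
    · exact absurd (hG.symm hxy) h2.2
    · rfl
  · intro x hx
    have h1 := hch2 x x (hCl.refl x) hx
    refine ⟨ch x, (hU _).2 ⟨⟨x, hCl.symm h1.1, hx⟩, Or.inl (hch1 x _ h1.1)⟩, h1.1, h1.2⟩

/-- gap labels of the class of `x` -/
noncomputable def clGap (Cl : Lam → Lam → Prop) (I K : Lam → Lam) (x : Lam) : Finset Lam :=
  open Classical in Finset.univ.filter (fun y => Cl x y ∧ K y ≠ y ∧ K y ≠ I y)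

theorem mem_clGap {Cl : Lam → Lam → Prop} {x y : Lam} :
    y ∈ clGap Cl I K x ↔ Cl x y ∧ K y ≠ y ∧ K y ≠ I y := by
  unfold clGap
  simp

theorem ActL.gap {x : Lam} (h : ActL E I K x) : K x ≠ I x := by
  intro h1
  apply h.2
  rw [← h1]
  exact same_K E K x

/-- the gap labels after a level -/
theorem cl_step_gap {U : Finset Lam} {y : Lam} (h1 : step I K U y ≠ y) (h2 : step I K U y ≠ I y) :
    y ∉ U ∧ K y ∉ U ∧ step I K U y = K y := by
  unfold step at h1 h2 ⊢
  by_cases hy : y ∈ U
  · rw [if_pos hy] at h2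
    exact absurd rfl h2
  · rw [if_neg hy] at h1 ⊢
    by_cases hk : K y ∈ U
    · rw [if_pos hk] at h1
      exact absurd rfl h1
    · rw [if_neg hk]
      exact ⟨hy, hk, rfl⟩

theorem cluster_aux (hI : ∀ x, I (I x) = x) (Cl : Lam → Lam → Prop) (hCl : Equivalence Cl) :
    ∀ (r : ℕ) (K : Lam → Lam), Geo E K → (∀ x, I x = x → K x = x) →
      (∀ x y, Same E K x y → Cl x y) → (∀ x, K x ≠ x → Cl x (I x)) →
      (∀ x, ActL E I K x → (clGap Cl I K x).card ≤ r) →
      ∃ (Us : List (Finset Lam)) (K' : Lam → Lam), Us.length ≤ r ∧ FarRun E I K Us K' ∧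
        (∀ x y, Same E K' x y → Cl x y) ∧ Closed E I K' := by
  classical
  intro r
  induction r with
  | zero =>
    intro K hG hL hsub hcl hr
    refine ⟨[], K, le_rfl, FarRun.nil K, hsub, fun x hx => ?_⟩
    by_contra hn
    have h1 := hr x ⟨hx, hn⟩
    have h2 : x ∈ clGap Cl I K x := mem_clGap.2 ⟨hCl.refl x, hx, ActL.gap ⟨hx, hn⟩⟩
    have := Finset.card_pos.2 ⟨x, h2⟩
    omega
  | succ r ih =>
    intro K hG hL hsub hcl hr
    obtain ⟨U, hfar, hUcl, hUact, hact⟩ := cluster_level hI hG hL Cl hCl hsub hcl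
    -- a step stays in the class
    have hstepCl : ∀ x, Cl x (step I K U x) := by
      intro x
      rcases step_cases (I := I) (K := K) U x with h | h | h
      · rw [h]
        exact hsub _ _ (same_K E K x)
      · rw [h]
        exact hCl.refl x
      · rw [h.1]
        exact hUcl x h.2
    have hsub1 : ∀ x y, Same E (step I K U) x y → Cl x y := fun x y h =>
      Same.le hCl.refl (fun _ _ _ h1 h2 => hCl.trans h1 h2)
        (fun z => hsub _ _ (same_E E K z)) hstepCl h
    have hL1 : ∀ x, I x = x → step I K U x = x := by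
      intro x hx
      rcases step_cases (I := I) (K := K) U x with h | h | h
      · rw [h, hL x hx]
      · exact h
      · exact absurd hx (hfar.moving x h.2)
    have hcl1 : ∀ x, step I K U x ≠ x → Cl x (I x) := by
      intro x hx
      rcases step_cases (I := I) (K := K) U x with h | h | h
      · exact hcl x (by rwa [h] at hx)
      · exact absurd h hx
      · exact hUcl x h.2
    -- active labels after the level lie in active classes
    have hold : ∀ x, ActL E I (step I K U) x → ∃ y, Cl x y ∧ ActL E I K y := by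
      intro x hx
      by_contra hno
      push Not at hno
      -- no label of `U` in the class of `x`
      have hnoU : ∀ y, Cl x y → y ∉ U := by
        intro y hy hyU
        obtain ⟨z, hz1, hz2⟩ := hUact y hyU
        exact hno z (hCl.trans hy hz1) hz2
      have heq : ∀ y, Cl x y → step I K U y = K y := by
        intro y hy
        unfold step
        rw [if_neg (hnoU y hy), if_neg (hnoU _ (hCl.trans hy (hsub _ _ (same_K E K y))))]
      have hKx : K x ≠ x := by
        rw [← heq x (hCl.refl x)]
        exact hx.1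
      have hs : Same E K x (I x) := by
        by_contra hn
        exact hno x (hCl.refl x) ⟨hKx, hn⟩
      apply hx.2
      -- the bodies in the class do not change
      have key : ∀ y, Same E K x y → Same E (step I K U) x y := by
        intro y hy
        unfold Same at hy
        induction hy with
        | refl => exact Same.refl _ _ _
        | @tail b c hxb hbc ih2 =>
          rcases hbc with rfl | rfl
          · exact ih2.trans (same_E _ _ _)
          · rw [← heq b (hsub x b hxb)]
            exact ih2.trans (same_K _ _ _)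
      exact key _ hs
    obtain ⟨Us, K', hlen, hrun, hsub2, hclosed⟩ := ih (step I K U) (hfar.geo hI hG) hL1 hsub1
      hcl1 (by
        intro x hx
        obtain ⟨y, hxy, hy⟩ := hold x hx
        obtain ⟨z, hzU, hyz, hz⟩ := hact y hy
        have hxz := hCl.trans hxy hyz
        have h1 := hr z hz
        have h2 : clGap Cl I (step I K U) x ⊆ (clGap Cl I K z).erase z := by
          intro w hw
          rw [mem_clGap] at hw
          obtain ⟨hw1, hw2, hw3⟩ := cl_step_gap hw.2.1 hw.2.2
          rw [Finset.mem_erase, mem_clGap]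
          refine ⟨?_, hCl.trans (hCl.symm hxz) hw.1, ?_, ?_⟩
          · rintro rfl
            exact hw1 hzU
          · rw [← hw3]
            exact hw.2.1
          · rw [← hw3]
            exact hw.2.2
        have h3 := Finset.card_le_card h2
        have h4 : z ∈ clGap Cl I K z := mem_clGap.2 ⟨hCl.refl z, hz.1, hz.gap⟩
        rw [Finset.card_erase_of_mem h4] at h3
        omega)
    exact ⟨U :: Us, K', by simpa using hlen, FarRun.cons K U Us K' hfar hrun, hsub2, hclosed⟩

theorem cluster (R : ℕ) (hI : ∀ x, I (I x) = x) (hG : Geo E K)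
    (hL : ∀ x, I x = x → K x = x) (Cl : Lam → Lam → Prop) (hCl : Equivalence Cl)
    (hR : ∀ x (C : Finset Lam), (∀ y ∈ C, Cl x y) → C.card ≤ R)
    (hsub : ∀ x y, Same E K x y → Cl x y) (hcl : ∀ x, K x ≠ x → Cl x (I x)) :
    ∃ (Us : List (Finset Lam)) (K' : Lam → Lam), Us.length ≤ R ∧ FarRun E I K Us K' ∧
      (∀ x y, Same E K' x y → Cl x y) ∧ Closed E I K' :=
  cluster_aux hI Cl hCl R K hG hL hsub hcl fun x _ => hR x _ fun _ hy => (mem_clGap.1 hy).1

end Cluster

end BP2
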