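import Mathlib
import Pool.Agent.BP2.S.Defs
import Pool.Agent.BP2.S.Base
import Pool.Agent.BP2.S.Bridge

set_option autoImplicit false

/-! MP_475aca_co, part (S), module S/Halve: stage 3, the k0 edges -/

namespace BP2

/-- U = a maximal subset of V closed under I with at most one label per body -/
theorem greedy {Lam : Type*} [Fintype Lam] [DecidableEq Lam] {E I K : Lam → Lam}
    (m : ℕ) (hI : ∀ x, I (I x) = x) (hG : Geo E K) (V : Finset Lam)
    (hV : ∀ x ∈ V, I x ∈ V ∧ I x ≠ x ∧ ¬ Same E K x (I x))
    (hm : ∀ x, ((body E K x).filter (fun y => y ∈ V)).card ≤ m) :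
    ∃ U : Finset Lam, U ⊆ V ∧ Far E I K U ∧ V.card ≤ 2 * m * U.card := by
  classical
  let F : Finset (Finset Lam) := V.powerset.filter (fun U => (∀ x ∈ U, I x ∈ U) ∧
    ∀ x ∈ U, ∀ y ∈ U, Same E K x y → x = y)
  have hne : F.Nonempty := ⟨∅, by simp [F]⟩
  obtain ⟨U, hUF, hmax⟩ := Finset.exists_max_image F Finset.card hne
  obtain ⟨hUV, hUI, hUs⟩ : U ⊆ V ∧ (∀ x ∈ U, I x ∈ U) ∧
      ∀ x ∈ U, ∀ y ∈ U, Same E K x y → x = y := by
    simpa [F] using hUF
  have hsymm : ∀ {x y : Lam}, Same E K x y → Same E K y x := fun h => h.symm hG.Einv hG.Kinv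
  refine ⟨U, hUV, ⟨hUI, fun x hx => (hV x (hUV hx)).2.1, hUs⟩, ?_⟩
  -- every label of V, or its partner, is in the body of a label of U
  have key : ∀ x ∈ V, ∃ u ∈ U, Same E K u x ∨ Same E K u (I x) := by
    intro x hx
    by_contra hcon
    push Not at hcon
    have hxU : x ∉ U := fun h => (hcon x h).1 Relation.ReflTransGen.refl
    have hmem : insert x (insert (I x) U) ∈ F := by
      simp only [F, Finset.mem_filter, Finset.mem_powerset]
      refine ⟨?_, ?_, ?_⟩
      · intro y hy
        simp only [Finset.mem_insert] at hy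
        rcases hy with rfl | rfl | hy
        · exact hx
        · exact (hV x hx).1
        · exact hUV hy
      · intro y hy
        simp only [Finset.mem_insert] at hy ⊢
        rcases hy with rfl | rfl | hy
        · exact Or.inr (Or.inl rfl)
        · exact Or.inl (hI x)
        · exact Or.inr (Or.inr (hUI y hy))
      · intro y hy z hz hyz
        simp only [Finset.mem_insert] at hy hz
        rcases hy with rfl | rfl | hy <;> rcases hz with rfl | rfl | hz
        · rfl
        · exact absurd hyz (hV _ hx).2.2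
        · exact absurd (hsymm hyz) (hcon z hz).1
        · exact absurd (hsymm hyz) (hV _ hx).2.2
        · rfl
        · exact absurd (hsymm hyz) (hcon z hz).2
        · exact absurd hyz (hcon y hy).1
        · exact absurd hyz (hcon y hy).2
        · exact hUs y hy z hz hyz
    have hlt : U.card < (insert x (insert (I x) U)).card := by
      apply Finset.card_lt_card
      refine ⟨fun y hy => by simp [hy], fun h => hxU (h (by simp))⟩
    exact absurd (hmax _ hmem) (by omega)
  -- counting
  have hcover : V ⊆ U.biUnion (fun u => (body E K u).filter (fun y => y ∈ V) ∪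
      ((body E K u).filter (fun y => y ∈ V)).image I) := by
    intro x hx
    obtain ⟨u, hu, h⟩ := key x hx
    simp only [Finset.mem_biUnion, Finset.mem_union, Finset.mem_filter, Finset.mem_image]
    refine ⟨u, hu, ?_⟩
    rcases h with h | h
    · exact Or.inl ⟨mem_body.2 h, hx⟩
    · exact Or.inr ⟨I x, ⟨mem_body.2 h, (hV x hx).1⟩, hI x⟩
  calc V.card ≤ _ := Finset.card_le_card hcover
    _ ≤ ∑ u ∈ U, _ := Finset.card_biUnion_le
    _ ≤ ∑ u ∈ U, (2 * m) := by
        apply Finset.sum_le_sum
        intro u _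
        have h1 := hm u
        have h2 := Finset.card_image_le (s := (body E K u).filter (fun y => y ∈ V)) (f := I)
        have h3 := Finset.card_union_le ((body E K u).filter (fun y => y ∈ V))
          (((body E K u).filter (fun y => y ∈ V)).image I)
        omega
    _ = 2 * m * U.card := by rw [Finset.sum_const, smul_eq_mul]; ring

/-- one level: a quarter of the unformed labels gets formed -/
theorem halve_level {Lam : Type*} [Fintype Lam] [DecidableEq Lam] {E I K : Lam → Lam}
    (hT : Tgt E I) (hG : Geo E K) (hL : ∀ x, I x = x → K x = x)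
    (hK : ∀ x, K x = x ∨ K x = I x) :
    ∃ U : Finset Lam, Far E I K U ∧ (∀ x, step I K U x = x ∨ step I K U x = I x) ∧
      (∀ x, I x = x → step I K U x = x) ∧
      4 * (Finset.univ.filter (fun x => step I K U x ≠ I x)).card ≤
        3 * (Finset.univ.filter (fun x => K x ≠ I x)).card := by
  classical
  set V : Finset Lam := Finset.univ.filter (fun x => K x ≠ I x) with hVdef
  have hmemV : ∀ x, x ∈ V ↔ K x ≠ I x := fun x => by simp [hVdef]
  have hVl : ∀ x ∈ V, K x = x := fun x hx => (hK x).resolve_right ((hmemV x).1 hx)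
  have hVI : ∀ x ∈ V, I x ∈ V := by
    intro x hx
    rw [hmemV, hT.Iinv]
    intro h
    apply (hmemV x).1 hx
    have := hG.Kinv (I x)
    rw [h] at this
    exact this
  have hVne : ∀ x ∈ V, I x ≠ x := by
    intro x hx h
    exact (hmemV x).1 hx (by rw [hVl x hx, h])
  have hVs : ∀ x ∈ V, ¬ Same E K x (I x) := by
    intro x hx hs
    obtain ⟨z, z', hzz, hz, hz', _, _, honly⟩ := two_ends hG x
    have hx1 := honly x Relation.ReflTransGen.refl (hVl x hx)
    have hx2 := honly (I x) hs (hVl _ (hVI x hx))
    have hne := hVne x hx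
    -- the only loose labels of the body are x and I x
    have honly' : ∀ y, Same E K x y → K y = y → y = x ∨ y = I x := by
      intro y hy hyl
      have h3 := honly y hy hyl
      rcases hx1 with h1 | h1 <;> rcases hx2 with h2 | h2 <;> rcases h3 with h3 | h3
      · left; rw [h1, h3]
      · exact absurd (h2.trans h1.symm) hne
      · left; rw [h1, h3]
      · right; rw [h2, h3]
      · right; rw [h2, h3]
      · left; rw [h1, h3]
      · exact absurd (h2.trans h1.symm) hne
      · left; rw [h1, h3]
    -- the body is closed under E and I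
    obtain ⟨t, ht⟩ := hT.top
    have hall : Same E K x t := by
      have hc := Same.closed (C := {y | Same E K x y}) (E := E) (K := I) ?_ ?_ (hT.conn x t)
        (Relation.ReflTransGen.refl)
      · exact hc
      · intro y hy
        exact Same.trans hy (Relation.ReflTransGen.single (Or.inl rfl))
      · intro y hy
        rcases hK y with h | h
        · rcases honly' y hy h with rfl | rfl
          · exact hs
          · show Same E K x (I (I x))
            rw [hT.Iinv]
            exact Relation.ReflTransGen.refl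
        · show Same E K x (I y)
          rw [← h]
          exact Same.trans hy (Relation.ReflTransGen.single (Or.inr rfl))
    rcases honly' t hall (hL t ht) with rfl | rfl
    · exact hne ht
    · rw [hT.Iinv] at ht
      exact hne ht.symm
  obtain ⟨U, hUV, hFar, hcard⟩ := greedy 2 hT.Iinv hG V
    (fun x hx => ⟨hVI x hx, hVne x hx, hVs x hx⟩) (by
      intro x
      obtain ⟨z, z', _, _, _, _, _, honly⟩ := two_ends hG x
      calc ((body E K x).filter (fun y => y ∈ V)).card ≤ ({z, z'} : Finset Lam).card := by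
            apply Finset.card_le_card
            intro y hy
            rw [Finset.mem_filter, mem_body] at hy
            rcases honly y hy.1 (hVl y hy.2) with rfl | rfl <;> simp
        _ ≤ 2 := Finset.card_le_two)
  have hstepU : ∀ x ∈ U, step I K U x = I x := fun x hx => by simp [step, hx]
  have hKU : ∀ x ∉ U, K x ∉ U := by
    intro x hx h
    have h1 : K (K x) = K x := hVl _ (hUV h)
    rw [hG.Kinv] at h1
    rw [← h1] at h
    exact hx h
  have hstepN : ∀ x ∉ U, step I K U x = K x := fun x hx => by simp [step, hx, hKU x hx]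
  refine ⟨U, hFar, ?_, ?_, ?_⟩
  · intro x
    by_cases hx : x ∈ U
    · exact Or.inr (hstepU x hx)
    · rw [hstepN x hx]
      exact hK x
  · intro x hx
    have hxU : x ∉ U := fun h => hVne x (hUV h) hx
    rw [hstepN x hxU]
    exact hL x hx
  · have hsub : Finset.univ.filter (fun x => step I K U x ≠ I x) ⊆ V \ U := by
      intro x hx
      simp only [Finset.mem_filter, Finset.mem_univ, true_and] at hx
      have hxU : x ∉ U := fun h => hx (hstepU x h)
      rw [Finset.mem_sdiff]
      refine ⟨?_, hxU⟩
      rw [hmemV, ← hstepN x hxU]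
      exact hx
    have h1 := Finset.card_le_card hsub
    have h2 := Finset.card_sdiff_add_card_eq_card hUV
    omega

theorem halve_iter (Q : ℕ) {Lam : Type*} [Fintype Lam] [DecidableEq Lam] {E I : Lam → Lam}
    (hT : Tgt E I) : ∀ K : Lam → Lam, Geo E K → (∀ x, I x = x → K x = x) →
    (∀ x, K x = x ∨ K x = I x) → ∃ (Us : List (Finset Lam)) (K' : Lam → Lam), Us.length = Q ∧
      FarRun E I K Us K' ∧
      4 ^ Q * (Finset.univ.filter (fun x => K' x ≠ I x)).card ≤
        3 ^ Q * (Finset.univ.filter (fun x => K x ≠ I x)).card := by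
  induction Q with
  | zero =>
    intro K _ _ _
    exact ⟨[], K, rfl, FarRun.nil K, by simp⟩
  | succ Q ih =>
    intro K hG hL hK
    obtain ⟨U, hF, h1, h2, h3⟩ := halve_level hT hG hL hK
    obtain ⟨Us, K', hlen, hrun, hcard⟩ := ih (step I K U) (Far.geo hT.Iinv hG hF) h2 h1
    refine ⟨U :: Us, K', by simp [hlen], FarRun.cons _ _ _ _ hF hrun, ?_⟩
    calc 4 ^ (Q + 1) * (Finset.univ.filter (fun x => K' x ≠ I x)).card
        = 4 * (4 ^ Q * (Finset.univ.filter (fun x => K' x ≠ I x)).card) := by ring
      _ ≤ 4 * (3 ^ Q * (Finset.univ.filter (fun x => step I K U x ≠ I x)).card) :=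
          Nat.mul_le_mul_left _ hcard
      _ = 3 ^ Q * (4 * (Finset.univ.filter (fun x => step I K U x ≠ I x)).card) := by ring
      _ ≤ 3 ^ Q * (3 * (Finset.univ.filter (fun x => K x ≠ I x)).card) :=
          Nat.mul_le_mul_left _ h3
      _ = 3 ^ (Q + 1) * (Finset.univ.filter (fun x => K x ≠ I x)).card := by ring

theorem halve (m : ℕ) (_hm : 0 < m) : ∃ Q : ℕ, ∀ (Lam : Type) [Fintype Lam] [DecidableEq Lam]
    (E I K : Lam → Lam), Tgt E I → Geo E K → (∀ x, I x = x → K x = x) →
    (∀ x, K x = x ∨ K x = I x) → ∃ (Us : List (Finset Lam)) (K' : Lam → Lam), Us.length ≤ Q ∧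
      FarRun E I K Us K' ∧
      m * (Finset.univ.filter (fun x => K' x ≠ I x)).card ≤ Fintype.card Lam := by
  -- `m * 3 ^ Q ≤ 4 ^ Q` for `Q = 3 * m`
  have hQ : m * 3 ^ (3 * m) ≤ 4 ^ (3 * m) := by
    clear _hm
    induction m with
    | zero => simp
    | succ n ih =>
      rcases Nat.eq_zero_or_pos n with rfl | hn
      · norm_num
      · have e1 : (n + 1) * 3 ^ (3 * (n + 1)) = (n + 1) * 27 * 3 ^ (3 * n) := by ring
        have e2 : 4 ^ (3 * (n + 1)) = 64 * 4 ^ (3 * n) := by ring
        rw [e1, e2]
        calc (n + 1) * 27 * 3 ^ (3 * n) ≤ (n * 64) * 3 ^ (3 * n) :=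
              Nat.mul_le_mul_right _ (by omega)
          _ = 64 * (n * 3 ^ (3 * n)) := by ring
          _ ≤ 64 * 4 ^ (3 * n) := Nat.mul_le_mul_left _ ih
  refine ⟨3 * m, ?_⟩
  intro Lam _ _ E I K hT hG hL hK
  obtain ⟨Us, K', hlen, hrun, hcard⟩ := halve_iter (3 * m) hT K hG hL hK
  refine ⟨Us, K', hlen.le, hrun, ?_⟩
  have h3 : 0 < 3 ^ (3 * m) := by positivity
  have hle : (Finset.univ.filter (fun x => K x ≠ I x)).card ≤ Fintype.card Lam :=
    Finset.card_le_univ _
  refine Nat.le_of_mul_le_mul_left ?_ h3
  calc 3 ^ (3 * m) * (m * (Finset.univ.filter (fun x => K' x ≠ I x)).card)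
      = (m * 3 ^ (3 * m)) * (Finset.univ.filter (fun x => K' x ≠ I x)).card := by ring
    _ ≤ 4 ^ (3 * m) * (Finset.univ.filter (fun x => K' x ≠ I x)).card :=
        Nat.mul_le_mul_right _ hQ
    _ ≤ 3 ^ (3 * m) * (Finset.univ.filter (fun x => K x ≠ I x)).card := hcard
    _ ≤ 3 ^ (3 * m) * Fintype.card Lam := Nat.mul_le_mul_left _ hle

end BP2
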