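import Pool.Agent.BP2.S.Defs
import Pool.Agent.BP2.S.Coord

/-! MP_475aca_co, (S): positions along the bodies (from the coordinates of Coord.lean). -/

set_option autoImplicit false

namespace BP2

variable {Lam : Type*}

theorem ps_trans {E K : Lam → Lam} {x y z : Lam} (h : Same E K x y) (h' : Same E K y z) :
    Same E K x z := Relation.ReflTransGen.trans h h'

theorem ps_refl {E K : Lam → Lam} (x : Lam) : Same E K x x := Relation.ReflTransGen.refl

theorem ps_e {E K : Lam → Lam} (x : Lam) : Same E K x (E x) :=
  Relation.ReflTransGen.single (Or.inl rfl)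

theorem ps_k {E K : Lam → Lam} (x : Lam) : Same E K x (K x) :=
  Relation.ReflTransGen.single (Or.inr rfl)

theorem ps_closed {E K : Lam → Lam} {C : Set Lam} (hC : Cl E K C) {x y : Lam}
    (h : Same E K x y) (hx : x ∈ C) : y ∈ C := by
  induction h with
  | refl => exact hx
  | tail _ h2 ih =>
    rcases h2 with rfl | rfl
    · exact (hC _ ih).1
    · exact (hC _ ih).2

theorem ps_conn {E K : Lam → Lam} {x y : Lam} : Same E K x y ↔ Conn E K x y := by
  constructor
  · intro h C hC hx
    exact ps_closed hC h hx
  · intro h
    exact h {z | Same E K x z} (fun z hz => ⟨ps_trans hz (ps_e z), ps_trans hz (ps_k z)⟩)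
      (ps_refl x)

theorem ps_symm {E K : Lam → Lam} (hE : ∀ x, E (E x) = x) (hK : ∀ x, K (K x) = x) {x y : Lam}
    (h : Same E K x y) : Same E K y x :=
  ps_conn.2 ((ps_conn.1 h).symm hE hK)

theorem Geo.ps_acyc {E K : Lam → Lam} (hG : Geo E K) : Acyc E K := by
  intro C hC hne
  obtain ⟨x, hx⟩ := hne
  obtain ⟨z, hz, hzK⟩ := hG.acyc x
  exact ⟨z, ps_closed hC hz hx, Or.inr hzK⟩

theorem ps_mem_body [Fintype Lam] {E K : Lam → Lam} {x y : Lam} :
    y ∈ body E K x ↔ Same E K x y := by
  classical
  unfold body
  rw [Finset.mem_filter]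
  exact ⟨fun h => h.2, fun h => ⟨Finset.mem_univ _, h⟩⟩

theorem ps_body_eq [Fintype Lam] {E K : Lam → Lam} (hE : ∀ x, E (E x) = x)
    (hK : ∀ x, K (K x) = x) {x y : Lam} (h : Same E K x y) : body E K x = body E K y := by
  ext z
  rw [ps_mem_body, ps_mem_body]
  exact ⟨fun h2 => ps_trans (ps_symm hE hK h) h2, fun h2 => ps_trans h h2⟩

/-- positions along the bodies -/
structure Pos (E K : Lam → Lam) (pos : Lam → ℕ) : Prop where
  even_E : ∀ x, Even (pos x) → pos (E x) = pos x + 1
  odd_E : ∀ x, Odd (pos x) → pos x = pos (E x) + 1
  odd_K : ∀ x, Odd (pos x) → K x ≠ x → pos (K x) = pos x + 1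
  even_K : ∀ x, Even (pos x) → K x ≠ x → pos x = pos (K x) + 1
  even_fix : ∀ x, Even (pos x) → K x = x → pos x = 0
  inj : ∀ x y, Same E K x y → pos x = pos y → x = y

/-- all smaller positions occur in the body -/
theorem Pos.below {E K : Lam → Lam} {pos : Lam → ℕ} (hp : Pos E K pos) (x : Lam) :
    ∀ k ≤ pos x, ∃ y, Same E K x y ∧ pos y = k := by
  intro k hk
  induction hd : pos x - k generalizing k with
  | zero => exact ⟨x, ps_refl x, by omega⟩
  | succ d ih =>
    obtain ⟨y, hy, hyk⟩ := ih (k + 1) (by omega) (by omega)
    rcases Nat.even_or_odd (pos y) with h | h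
    · by_cases hK : K y = y
      · have := hp.even_fix y h hK
        omega
      · exact ⟨K y, ps_trans hy (ps_k y), by have := hp.even_K y h hK; omega⟩
    · exact ⟨E y, ps_trans hy (ps_e y), by have := hp.odd_E y h; omega⟩

/-- a loose label of odd position is the last one of its body -/
theorem Pos.last {E K : Lam → Lam} {pos : Lam → ℕ} (hp : Pos E K pos) {x y : Lam}
    (hx : Odd (pos x)) (hK : K x = x) (h : Same E K x y) : pos y ≤ pos x := by
  have hC : Cl E K {z | Same E K x z ∧ pos z ≤ pos x} := by
    rintro z ⟨h1, h2⟩
    refine ⟨⟨ps_trans h1 (ps_e z), ?_⟩, ⟨ps_trans h1 (ps_k z), ?_⟩⟩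
    · rcases Nat.even_or_odd (pos z) with h3 | h3
      · rw [hp.even_E z h3]
        rcases lt_or_eq_of_le h2 with h4 | h4
        · omega
        · rw [h4] at h3
          exact absurd h3 (Nat.not_even_iff_odd.2 hx)
      · have := hp.odd_E z h3
        omega
    · by_cases hKz : K z = z
      · rw [hKz]; exact h2
      rcases Nat.even_or_odd (pos z) with h3 | h3
      · have := hp.even_K z h3 hKz
        omega
      · rw [hp.odd_K z h3 hKz]
        rcases lt_or_eq_of_le h2 with h4 | h4
        · omega
        · have := hp.inj _ _ h1 h4.symm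
          rw [← this] at hKz
          exact absurd hK hKz
  exact (ps_closed hC h ⟨ps_refl x, le_rfl⟩).2

variable [Fintype Lam] {E I K K' : Lam → Lam} {pos : Lam → ℕ}

theorem Pos.lt_card (hp : Pos E K pos) (x : Lam) : pos x < (body E K x).card := by
  classical
  have h : Finset.range (pos x + 1) ⊆ (body E K x).image pos := by
    intro k hk
    rw [Finset.mem_range] at hk
    obtain ⟨y, hy, hyk⟩ := hp.below x k (by omega)
    rw [Finset.mem_image]
    exact ⟨y, ps_mem_body.2 hy, hyk⟩
  have h1 := Finset.card_le_card h
  have h2 := Finset.card_image_le (s := body E K x) (f := pos)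
  rw [Finset.card_range] at h1
  omega

/-- positions exist -/
theorem exists_pos (hG : Geo E K) : ∃ pos : Lam → ℕ, Pos E K pos ∧
    (∀ x, pos x < (body E K x).card) := by
  classical
  have hE : Function.Involutive E := hG.Einv
  have hK : Function.Involutive K := hG.Kinv
  obtain ⟨p, hp⟩ := exists_coord hE hK hG.ps_acyc
  -- the smallest coordinate of the body
  have hmin : ∀ x, ∃ z, Same E K x z ∧ ∀ y, Same E K x y → p z ≤ p y := by
    intro x
    obtain ⟨z, hz, hz2⟩ := Finset.exists_min_image (body E K x) p ⟨x, ps_mem_body.2 (ps_refl x)⟩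
    exact ⟨z, ps_mem_body.1 hz, fun y hy => hz2 y (ps_mem_body.2 hy)⟩
  choose z hz hz2 using hmin
  have hconst : ∀ x y, Same E K x y → p (z x) = p (z y) := by
    intro x y h
    apply le_antisymm
    · exact hz2 x _ (ps_trans h (hz y))
    · exact hz2 y _ (ps_trans (ps_symm hE hK h) (hz x))
  have heven : ∀ x, Even (p (z x)) := by
    intro x
    rcases Int.even_or_odd (p (z x)) with h | h
    · exact h
    · have h1 := hp.e_odd (hG.Ene (z x)) h
      have h2 := hz2 x _ (ps_trans (hz x) (ps_e (z x)))
      omega
  have hpos : ∀ x, (((p x - p (z x)).toNat : ℕ) : ℤ) = p x - p (z x) := by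
    intro x
    have := hz2 x x (ps_refl x)
    exact Int.toNat_of_nonneg (by omega)
  have hpar : ∀ x, Even ((p x - p (z x)).toNat) ↔ Even (p x) := by
    intro x
    rw [← Int.even_coe_nat, hpos x, Int.even_sub]
    simp only [heven x, iff_true]
  have hparo : ∀ x, Odd ((p x - p (z x)).toNat) ↔ Odd (p x) := by
    intro x
    rw [← Nat.not_even_iff_odd, ← Int.not_even_iff_odd, hpar x]
  have hP : Pos E K (fun x => (p x - p (z x)).toNat) := by
    refine ⟨?_, ?_, ?_, ?_, ?_, ?_⟩
    · intro x hx
      have h1 := hp.e_even (hG.Ene x) ((hpar x).1 hx)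
      have h2 := hpos x
      have h3 := hpos (E x)
      have h4 := hconst x (E x) (ps_e x)
      show (p (E x) - p (z (E x))).toNat = (p x - p (z x)).toNat + 1
      omega
    · intro x hx
      have h1 := hp.e_odd (hG.Ene x) ((hparo x).1 hx)
      have h2 := hpos x
      have h3 := hpos (E x)
      have h4 := hconst x (E x) (ps_e x)
      show (p x - p (z x)).toNat = (p (E x) - p (z (E x))).toNat + 1
      omega
    · intro x hx hKx
      have h1 := hp.k_odd hKx ((hparo x).1 hx)
      have h2 := hpos x
      have h3 := hpos (K x)
      have h4 := hconst x (K x) (ps_k x)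
      show (p (K x) - p (z (K x))).toNat = (p x - p (z x)).toNat + 1
      omega
    · intro x hx hKx
      have h1 := hp.k_even hKx ((hpar x).1 hx)
      have h2 := hpos x
      have h3 := hpos (K x)
      have h4 := hconst x (K x) (ps_k x)
      show (p x - p (z x)).toNat = (p (K x) - p (z (K x))).toNat + 1
      omega
    · intro x hx hKx
      have h1 := hp.first_k hKx ((hpar x).1 hx) (ps_conn.1 (hz x))
      have h2 := hpos x
      show (p x - p (z x)).toNat = 0
      omega
    · intro x y hxy he
      apply hp.inj x y (ps_conn.1 hxy)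
      have h2 := hpos x
      have h3 := hpos y
      have h4 := hconst x y hxy
      have h5 : (p x - p (z x)).toNat = (p y - p (z y)).toNat := he
      omega
  exact ⟨_, hP, hP.lt_card⟩

theorem Pos.attain (hp : Pos E K pos) (hG : Geo E K) (x : Lam) {k : ℕ}
    (hk : k < (body E K x).card) : ∃ y, Same E K x y ∧ pos y = k := by
  classical
  have h1 : (body E K x).image pos ⊆ Finset.range (body E K x).card := by
    intro j hj
    rw [Finset.mem_image] at hj
    obtain ⟨y, hy, rfl⟩ := hj
    rw [Finset.mem_range, ps_body_eq hG.Einv hG.Kinv (ps_mem_body.1 hy)]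
    exact hp.lt_card y
  have h2 : ((body E K x).image pos).card = (body E K x).card := by
    apply Finset.card_image_of_injOn
    intro y hy y' hy' he
    rw [Finset.mem_coe, ps_mem_body] at hy hy'
    exact hp.inj y y' (ps_trans (ps_symm hG.Einv hG.Kinv hy) hy') he
  have h3 := Finset.eq_of_subset_of_card_le h1 (by rw [Finset.card_range, h2])
  have h4 : k ∈ (body E K x).image pos := by
    rw [h3]; exact Finset.mem_range.2 hk
  rw [Finset.mem_image] at h4
  obtain ⟨y, hy, hyk⟩ := h4
  exact ⟨y, ps_mem_body.1 hy, hyk⟩

theorem Pos.even_card (hp : Pos E K pos) (hG : Geo E K) (x : Lam) :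
    Even (body E K x).card := by
  by_contra hodd
  rw [Nat.not_even_iff_odd] at hodd
  obtain ⟨y, hy, hyk⟩ := hp.attain hG x (k := (body E K x).card - 1)
    (by have := hp.lt_card x; omega)
  have h1 : Even (pos y) := by
    obtain ⟨j, hj⟩ := hodd
    exact ⟨j, by omega⟩
  have h2 := hp.even_E y h1
  have h3 := hp.lt_card (E y)
  rw [← ps_body_eq hG.Einv hG.Kinv (ps_trans hy (ps_e y))] at h3
  have h4 := hp.lt_card x
  omega

/-- turning bodies round (pos' = card - 1 - pos): g is constant on bodies -/
theorem Pos.turn (hG : Geo E K) (hp : Pos E K pos) (hb : ∀ x, pos x < (body E K x).card)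
    (g : Lam → Bool) (hg : ∀ x y, Same E K x y → g x = g y) :
    ∃ pos' : Lam → ℕ, Pos E K pos' ∧ (∀ x, pos' x < (body E K x).card) ∧
      ∀ x, (Odd (pos' x) ↔ (Odd (pos x) ↔ g x = false)) := by
  have hcE : ∀ x, (body E K (E x)).card = (body E K x).card := fun x => by
    rw [ps_body_eq hG.Einv hG.Kinv (ps_e x)]
  have hcK : ∀ x, (body E K (K x)).card = (body E K x).card := fun x => by
    rw [ps_body_eq hG.Einv hG.Kinv (ps_k x)]
  have hgE : ∀ x, g (E x) = g x := fun x => (hg _ _ (ps_e x)).symm
  have hgK : ∀ x, g (K x) = g x := fun x => (hg _ _ (ps_k x)).symm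
  have hodd : ∀ x, Odd (if g x then (body E K x).card - 1 - pos x else pos x) ↔
      (Odd (pos x) ↔ g x = false) := by
    intro x
    by_cases h : g x = true
    · simp only [h, if_true]
      have h1 := hp.even_card hG x
      have h2 := hb x
      simp only [Bool.true_eq_false, iff_false, Nat.not_odd_iff_even]
      rw [Nat.odd_iff, Nat.even_iff]
      rw [Nat.even_iff] at h1
      omega
    · rw [Bool.not_eq_true] at h
      simp only [h, Bool.false_eq_true, if_false, iff_true]
  refine ⟨fun x => if g x then (body E K x).card - 1 - pos x else pos x, ?_, ?_, hodd⟩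
  · refine ⟨?_, ?_, ?_, ?_, ?_, ?_⟩
    · intro x hx
      by_cases h : g x = true
      · simp only [hgE, h, if_true, hcE] at hx ⊢
        have h1 := hp.even_card hG x
        have h2 := hb x
        have h3 := hb (E x)
        rw [hcE] at h3
        have h4 : Odd (pos x) := by
          rw [Nat.odd_iff]
          rw [Nat.even_iff] at hx h1
          omega
        have h5 := hp.odd_E x h4
        omega
      · simp only [hgE, h, if_false] at hx ⊢
        exact hp.even_E x hx
    · intro x hx
      by_cases h : g x = true
      · simp only [hgE, h, if_true, hcE] at hx ⊢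
        have h1 := hp.even_card hG x
        have h2 := hb x
        have h3 := hb (E x)
        rw [hcE] at h3
        have h4 : Even (pos x) := by
          rw [Nat.even_iff]
          rw [Nat.odd_iff] at hx
          rw [Nat.even_iff] at h1
          omega
        have h5 := hp.even_E x h4
        omega
      · simp only [hgE, h, if_false] at hx ⊢
        exact hp.odd_E x hx
    · intro x hx hKx
      by_cases h : g x = true
      · simp only [hgK, h, if_true, hcK] at hx ⊢
        have h1 := hp.even_card hG x
        have h2 := hb x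
        have h3 := hb (K x)
        rw [hcK] at h3
        have h4 : Even (pos x) := by
          rw [Nat.even_iff]
          rw [Nat.odd_iff] at hx
          rw [Nat.even_iff] at h1
          omega
        have h5 := hp.even_K x h4 hKx
        omega
      · simp only [hgK, h, if_false] at hx ⊢
        exact hp.odd_K x hx hKx
    · intro x hx hKx
      by_cases h : g x = true
      · simp only [hgK, h, if_true, hcK] at hx ⊢
        have h1 := hp.even_card hG x
        have h2 := hb x
        have h3 := hb (K x)
        rw [hcK] at h3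
        have h4 : Odd (pos x) := by
          rw [Nat.odd_iff]
          rw [Nat.even_iff] at hx h1
          omega
        have h5 := hp.odd_K x h4 hKx
        omega
      · simp only [hgK, h, if_false] at hx ⊢
        exact hp.even_K x hx hKx
    · intro x hx hKx
      by_cases h : g x = true
      · simp only [h, if_true] at hx ⊢
        have h1 := hp.even_card hG x
        have h2 := hb x
        have h4 : Odd (pos x) := by
          rw [Nat.odd_iff]
          rw [Nat.even_iff] at hx h1
          omega
        obtain ⟨y, hy, hyk⟩ := hp.attain hG x (k := (body E K x).card - 1) (by omega)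
        have h5 := hp.last h4 hKx hy
        omega
      · simp only [h, if_false] at hx ⊢
        exact hp.even_fix x hx hKx
    · intro x y hxy he
      apply hp.inj x y hxy
      have h0 := hg x y hxy
      have h6 := hb x
      have h7 := hb y
      by_cases h : g x = true
      · rw [h] at h0
        simp only [h, ← h0, if_true] at he
        rw [← ps_body_eq hG.Einv hG.Kinv hxy] at he h7
        omega
      · rw [Bool.not_eq_true] at h
        rw [h] at h0
        simpa only [h, ← h0, Bool.false_eq_true, if_false] using he
  · intro x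
    have := hb x
    show (if g x then (body E K x).card - 1 - pos x else pos x) < (body E K x).card
    split_ifs <;> omega

end BP2
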