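import Pool.Agent.BP2.S.Base
import Pool.Agent.BP2.S.Bridge
import Pool.Agent.BP2.S.Pos

set_option autoImplicit false

/-!
# MP_475aca_co, part (S): the first cut, and the isolating cut after stage 1
-/

namespace BP2

section Stage0
variable {Lam : Type*} [Fintype Lam] [DecidableEq Lam] {E I K S : Lam → Lam}

omit [Fintype Lam] [DecidableEq Lam] in
theorem s0_geo_tgt (hT : Tgt E I) (hE : ∀ x, E (E x) = x) (hEne : ∀ x, E x ≠ x) : Geo E I where
  Einv := hE
  Ene := hEne
  Kinv := hT.Iinv
  acyc := fun x => by
    obtain ⟨z, hz⟩ := hT.top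
    exact ⟨z, hT.conn x z, hz⟩

omit [Fintype Lam] [DecidableEq Lam] in
/-- below every label there is a label of the same body at every smaller position -/
theorem s0_below {pos : Lam → ℕ} (hp : Pos E K pos) (k : ℕ) :
    ∀ x, k ≤ pos x → ∃ y, Same E K x y ∧ pos y = k := by
  intro x
  induction hd : pos x - k generalizing x with
  | zero =>
    intro h
    exact ⟨x, Relation.ReflTransGen.refl, by omega⟩
  | succ d ih =>
    intro h
    rcases Nat.even_or_odd (pos x) with he | ho
    · have hK : K x ≠ x := fun hK => by have := hp.even_fix x he hK; omega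
      have h1 := hp.even_K x he hK
      obtain ⟨y, hy, hy'⟩ := ih (K x) (by omega) (by omega)
      exact ⟨y, Relation.ReflTransGen.head (Or.inr rfl) hy, hy'⟩
    · have h1 := hp.odd_E x ho
      obtain ⟨y, hy, hy'⟩ := ih (E x) (by omega) (by omega)
      exact ⟨y, Relation.ReflTransGen.head (Or.inl rfl) hy, hy'⟩

omit [Fintype Lam] [DecidableEq Lam] in
theorem s0_half_E {pos : Lam → ℕ} (hp : Pos E K pos) (z : Lam) : pos (E z) / 2 = pos z / 2 := by
  rcases Nat.even_or_odd (pos z) with he | ho
  · rw [hp.even_E z he]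
    obtain ⟨r, hr⟩ := he
    omega
  · have h1 := hp.odd_E z ho
    obtain ⟨r, hr⟩ := ho
    omega

omit [Fintype Lam] [DecidableEq Lam] in
theorem s0_half_S {pos : Lam → ℕ} (hp : Pos E S pos) {l : ℕ} {z : Lam} (hz : S z ≠ z)
    (hc : ¬ 2 * l ∣ max (pos z) (pos (S z))) : pos (S z) / 2 / l = pos z / 2 / l := by
  have key : ∀ i : ℕ, ¬ l ∣ (i + 1) → i / l = (i + 1) / l := by
    intro i hi
    rw [Nat.succ_div]
    rw [if_neg hi]
    rfl
  rcases Nat.even_or_odd (pos z) with he | ho
  · have h1 := hp.even_K z he hz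
    obtain ⟨r, hr⟩ := he
    have hm : max (pos z) (pos (S z)) = 2 * r := by omega
    rw [hm] at hc
    have hr1 : pos (S z) / 2 = r - 1 := by omega
    have hr2 : pos z / 2 = (r - 1) + 1 := by omega
    rw [hr1, hr2]
    refine key (r - 1) fun h => hc ?_
    have : r - 1 + 1 = r := by omega
    rw [this] at h
    exact Nat.mul_dvd_mul_left 2 h
  · have h1 := hp.odd_K z ho hz
    obtain ⟨r, hr⟩ := ho
    have hm : max (pos z) (pos (S z)) = 2 * (r + 1) := by omega
    rw [hm] at hc
    have hr1 : pos (S z) / 2 = r + 1 := by omega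
    have hr2 : pos z / 2 = r := by omega
    rw [hr1, hr2]
    exact (key r fun h => hc (Nat.mul_dvd_mul_left 2 h)).symm

theorem s0_count {pos : Lam → ℕ} (hp : Pos E S pos) (hE : ∀ x, E (E x) = x)
    (hS : ∀ x, S (S x) = x) {l : ℕ} : l * (Finset.univ.filter
      (fun x => S x ≠ x ∧ 2 * l ∣ max (pos x) (pos (S x)))).card ≤ Fintype.card Lam := by
  classical
  set A := Finset.univ.filter (fun x => S x ≠ x ∧ 2 * l ∣ max (pos x) (pos (S x))) with hA
  set Ae := A.filter (fun x => Even (pos x)) with hAe
  have hmemA : ∀ x, x ∈ A ↔ S x ≠ x ∧ 2 * l ∣ max (pos x) (pos (S x)) := by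
    intro x
    rw [hA, Finset.mem_filter]
    simp
  have h1 : A.card ≤ 2 * Ae.card := by
    have h2 : Ae.card + (A.filter (fun x => ¬ Even (pos x))).card = A.card :=
      Finset.card_filter_add_card_filter_not (s := A) (fun x => Even (pos x))
    have h3 : (A.filter (fun x => ¬ Even (pos x))).card ≤ Ae.card := by
      refine Finset.card_le_card_of_injOn S ?_ ?_
      · intro x hx
        rw [Finset.mem_coe, Finset.mem_filter, hmemA] at hx
        obtain ⟨⟨hx1, hx2⟩, hx3⟩ := hx
        rw [Finset.mem_coe, hAe, Finset.mem_filter, hmemA, hS, max_comm]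
        refine ⟨⟨fun h => hx1 h.symm, hx2⟩, ?_⟩
        rw [Nat.not_even_iff_odd] at hx3
        rw [hp.odd_K x hx3 hx1]
        exact hx3.add_one
      · intro x _ y _ h
        rw [← hS x, h, hS]
    omega
  have hpos : ∀ x ∈ Ae, 2 * l ∣ pos x ∧ 2 * l ≤ pos x := by
    intro x hx
    rw [hAe, Finset.mem_filter, hmemA] at hx
    obtain ⟨⟨hx1, hx2⟩, hx3⟩ := hx
    have h4 := hp.even_K x hx3 hx1
    have h5 : max (pos x) (pos (S x)) = pos x := by omega
    rw [h5] at hx2
    exact ⟨hx2, Nat.le_of_dvd (by omega) hx2⟩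
  have hch : ∀ q : Lam × ℕ, ∃ y, q.1 ∈ Ae → q.2 < 2 * l →
      Same E S q.1 y ∧ pos y = pos q.1 - 1 - q.2 := by
    intro q
    by_cases hq : q.1 ∈ Ae ∧ q.2 < 2 * l
    · have h6 := hpos q.1 hq.1
      obtain ⟨y, hy⟩ := s0_below hp (pos q.1 - 1 - q.2) q.1 (by omega)
      exact ⟨y, fun _ _ => hy⟩
    · exact ⟨q.1, fun h h' => absurd ⟨h, h'⟩ hq⟩
  choose g hg using hch
  have h7 : (Ae ×ˢ Finset.range (2 * l)).card ≤ (Finset.univ : Finset Lam).card := by
    refine Finset.card_le_card_of_injOn g (fun _ _ => Finset.mem_univ _) ?_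
    intro q hq q' hq' h
    rw [Finset.mem_coe, Finset.mem_product, Finset.mem_range] at hq hq'
    obtain ⟨s1, p1⟩ := hg q hq.1 hq.2
    obtain ⟨s2, p2⟩ := hg q' hq'.1 hq'.2
    rw [← h] at s2 p2
    obtain ⟨⟨k1, hk1⟩, b1⟩ := hpos q.1 hq.1
    obtain ⟨⟨k2, hk2⟩, b2⟩ := hpos q'.1 hq'.1
    have hk : k1 = k2 ∧ q.2 = q'.2 := by
      have e1 : 2 * l * k1 - 1 - q.2 = 2 * l * k2 - 1 - q'.2 := by
        rw [← hk1, ← hk2, ← p1, ← p2]
      have c1 := hq.2
      have c2 := hq'.2
      rw [hk1] at b1
      rw [hk2] at b2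
      rcases lt_trichotomy k1 k2 with hlt | heq | hgt
      · have : 2 * l * (k1 + 1) ≤ 2 * l * k2 := Nat.mul_le_mul_left _ hlt
        rw [Nat.mul_add, Nat.mul_one] at this
        omega
      · subst heq
        exact ⟨rfl, by omega⟩
      · have : 2 * l * (k2 + 1) ≤ 2 * l * k1 := Nat.mul_le_mul_left _ hgt
        rw [Nat.mul_add, Nat.mul_one] at this
        omega
    have hsame : Same E S q.1 q'.1 := s1.trans (Same.symm hE hS s2)
    exact Prod.ext (hp.inj _ _ hsame (by rw [hk1, hk2, hk.1])) hk.2
  rw [Finset.card_product, Finset.card_range, Finset.card_univ] at h7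
  calc l * A.card ≤ l * (2 * Ae.card) := Nat.mul_le_mul_left _ h1
    _ = Ae.card * (2 * l) := by ring
    _ ≤ _ := h7

theorem stage0 (l : ℕ) (hl : 0 < l) (hT : Tgt E I) (hG : Geo E S) : ∃ K : Lam → Lam,
    Cut S K ∧ Small E K (2 * l) ∧ (∀ x, I x = x → K x = x) ∧
    l * (Finset.univ.filter (fun x => K x ≠ S x)).card ≤ Fintype.card Lam + 4 * l := by
  classical
  obtain ⟨pos, hp, -⟩ := exists_pos hG
  have hS := hG.Kinv
  set c : Lam → Prop := fun x => 2 * l ∣ max (pos x) (pos (S x)) ∨ I x = x ∨ I (S x) = S x with hc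
  have hcS : ∀ x, c (S x) ↔ c x := by
    intro x
    simp only [hc, hS, max_comm (pos (S x))]
    tauto
  set K : Lam → Lam := fun x => if c x then x else S x with hK
  have hKc : ∀ x, c x → K x = x := fun x h => if_pos h
  have hKn : ∀ x, ¬ c x → K x = S x := fun x h => if_neg h
  have hcut : Cut S K := by
    constructor
    · intro x
      by_cases h : c x
      · exact Or.inr (hKc x h)
      · exact Or.inl (hKn x h)
    · intro x
      by_cases h : c x
      · rw [hKc x h, hKc x h]
      · rw [hKn x h, hKn (S x) (fun h' => h ((hcS x).1 h')), hS]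
  refine ⟨K, hcut, ?_, ?_, ?_⟩
  · -- the bodies
    intro x
    have hfl : ∀ y, Same E K x y → pos y / 2 / l = pos x / 2 / l := by
      intro y hy
      refine Same.const (f := fun z => pos z / 2 / l) ?_ ?_ hy
      · intro z
        show pos (E z) / 2 / l = pos z / 2 / l
        rw [s0_half_E hp]
      · intro z
        show pos (K z) / 2 / l = pos z / 2 / l
        by_cases h : c z
        · rw [hKc z h]
        · rw [hKn z h]
          by_cases hz : S z = z
          · rw [hz]
          · exact s0_half_S hp hz fun h' => h (Or.inl h')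
    have hsub : ∀ y, Same E K x y → Same E S x y := fun y hy => Same.mono hcut.sub hy
    have h1 : (body E K x).card ≤ (Finset.range (2 * l)).card := by
      refine Finset.card_le_card_of_injOn (fun y => pos y - 2 * l * (pos x / 2 / l)) ?_ ?_
      · intro y hy
        rw [Finset.mem_coe, mem_body] at hy
        rw [Finset.mem_coe, Finset.mem_range]
        have h2 := hfl y hy
        have h3 := Nat.div_add_mod (pos y / 2) l
        have h4 := Nat.mod_lt (pos y / 2) hl
        rw [h2] at h3
        have h5 : 2 * l * (pos x / 2 / l) = 2 * (l * (pos x / 2 / l)) := by ring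
        show pos y - 2 * l * (pos x / 2 / l) < 2 * l
        rw [h5]
        omega
      · intro y hy z hz h
        rw [Finset.mem_coe, mem_body] at hy hz
        have h2 := hfl y hy
        have h2' := hfl z hz
        have h3 := Nat.div_add_mod (pos y / 2) l
        have h3' := Nat.div_add_mod (pos z / 2) l
        rw [h2] at h3
        rw [h2'] at h3'
        have h5 : 2 * l * (pos x / 2 / l) = 2 * (l * (pos x / 2 / l)) := by ring
        have h6 : pos y - 2 * l * (pos x / 2 / l) = pos z - 2 * l * (pos x / 2 / l) := h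
        rw [h5] at h6
        have h7 : pos y = pos z := by omega
        exact hp.inj y z ((Same.symm hG.Einv hS (hsub y hy)).trans (hsub z hz)) h7
    rwa [Finset.card_range] at h1
  · intro x hx
    exact hKc x (Or.inr (Or.inl hx))
  · -- the count
    set A := Finset.univ.filter (fun x => S x ≠ x ∧ 2 * l ∣ max (pos x) (pos (S x))) with hA
    set B := Finset.univ.filter (fun x => I x = x) with hB
    have hsub : (Finset.univ.filter (fun x => K x ≠ S x)) ⊆ A ∪ (B ∪ B.image S) := by
      intro x hx
      rw [Finset.mem_filter] at hx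
      have hcx : c x := by
        by_contra h
        exact hx.2 (hKn x h)
      have hSx : S x ≠ x := fun h => hx.2 (by rw [hKc x hcx, h])
      rw [Finset.mem_union, Finset.mem_union, Finset.mem_image, hA, hB, Finset.mem_filter,
        Finset.mem_filter]
      rcases hcx with h | h | h
      · exact Or.inl ⟨Finset.mem_univ _, hSx, h⟩
      · exact Or.inr (Or.inl ⟨Finset.mem_univ _, h⟩)
      · exact Or.inr (Or.inr ⟨S x, by rw [Finset.mem_filter]; exact ⟨Finset.mem_univ _, h⟩, hS x⟩)
    have h1 := Finset.card_le_card hsub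
    have h2 := Finset.card_union_le A (B ∪ B.image S)
    have h3 := Finset.card_union_le B (B.image S)
    have h4 : (B.image S).card ≤ B.card := Finset.card_image_le
    have h5 : B.card ≤ 2 := by
      obtain ⟨x, -⟩ := hT.top
      obtain ⟨z, z', -, -, -, -, -, hzz⟩ := two_ends (s0_geo_tgt hT hG.Einv hG.Ene) x
      have h6 : B ⊆ {z, z'} := by
        intro y hy
        rw [hB, Finset.mem_filter] at hy
        rw [Finset.mem_insert, Finset.mem_singleton]
        exact hzz y (hT.conn x y) hy.2
      exact (Finset.card_le_card h6).trans Finset.card_le_two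
    have h7 := s0_count (l := l) hp hG.Einv hS
    have h8 : l * (Finset.univ.filter (fun x => K x ≠ S x)).card ≤ l * (A.card + 4) :=
      Nat.mul_le_mul_left _ (by omega)
    rw [Nat.mul_add] at h8
    have h9 : l * A.card ≤ Fintype.card Lam := h7
    omega

theorem isolate (hI : ∀ x, I (I x) = x) (hG : Geo E K) : ∃ K' : Lam → Lam, Cut K K' ∧
    (∀ x, K' x ≠ K x → K x ≠ I x) ∧
    (Finset.univ.filter (fun x => K' x ≠ K x)).card ≤ 2 * (avail E I K).card ∧
    ∀ x, K' x ≠ x → Same E K x (I x) := by
  classical
  have hK := hG.Kinv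
  have hKs : ∀ x, Same E K x (K x) := fun x => Relation.ReflTransGen.single (Or.inr rfl)
  set K' : Lam → Lam := fun x => if x ∈ avail E I K ∨ K x ∈ avail E I K then x else K x with hK'
  have hav : ∀ x, K x = I x → x ∉ avail E I K := by
    intro x hx h
    unfold avail at h
    rw [Finset.mem_filter] at h
    apply h.2.1
    rw [← hx]
    exact hKs x
  refine ⟨K', ?_, ?_, ?_, ?_⟩
  · constructor
    · intro x
      by_cases h : x ∈ avail E I K ∨ K x ∈ avail E I K
      · exact Or.inr (if_pos h)
      · exact Or.inl (if_neg h)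
    · intro x
      by_cases h : x ∈ avail E I K ∨ K x ∈ avail E I K
      · have h1 : K' x = x := if_pos h
        rw [h1, h1]
      · have h1 : K' x = K x := if_neg h
        have h2 : K' (K x) = K (K x) := if_neg (fun h' => h (by rw [hK] at h'; exact h'.symm))
        rw [h1, h2, hK]
  · intro x hx hxI
    by_cases h : x ∈ avail E I K ∨ K x ∈ avail E I K
    · rcases h with h | h
      · exact hav x hxI h
      · refine hav (K x) ?_ h
        rw [hK, hxI, hI]
    · exact hx (if_neg h)
  · have hsub : (Finset.univ.filter (fun x => K' x ≠ K x)) ⊆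
        avail E I K ∪ (avail E I K).image K := by
      intro x hx
      rw [Finset.mem_filter] at hx
      rw [Finset.mem_union, Finset.mem_image]
      by_cases h : x ∈ avail E I K ∨ K x ∈ avail E I K
      · rcases h with h | h
        · exact Or.inl h
        · exact Or.inr ⟨K x, h, hK x⟩
      · exact absurd (if_neg h) hx.2
    have h1 := Finset.card_le_card hsub
    have h2 := Finset.card_union_le (avail E I K) ((avail E I K).image K)
    have h3 : ((avail E I K).image K).card ≤ (avail E I K).card := Finset.card_image_le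
    omega
  · intro x hx
    by_contra hns
    have hKx : K x ≠ x := by
      intro h
      apply hx
      show (if x ∈ avail E I K ∨ K x ∈ avail E I K then x else K x) = x
      rw [h]
      exact ite_self x
    apply hx
    have hxa : x ∈ avail E I K := by
      unfold avail
      rw [Finset.mem_filter]
      exact ⟨Finset.mem_univ _, hns, Or.inl hKx⟩
    exact if_pos (Or.inl hxa)

end Stage0

end BP2
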