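import Pool.Agent.BP2.S.RoundA
import Pool.Agent.BP2.S.Avg

set_option autoImplicit false

/-!
# MP_475aca_co, part (S): one round
-/

namespace BP2

section RoundB
variable {Lam : Type*} [Fintype Lam] [DecidableEq Lam] {E I K : Lam → Lam}

theorem rb_mem_avail {x : Lam} : x ∈ avail E I K ↔
    ¬ Same E K x (I x) ∧ (K x ≠ x ∨ K (I x) ≠ I x) := by
  classical
  unfold avail
  simp only [Finset.mem_filter, Finset.mem_univ, true_and]

theorem rb_avail_I (hI : ∀ x, I (I x) = x) (hG : Geo E K) {x : Lam} (hx : x ∈ avail E I K) :
    I x ∈ avail E I K := by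
  rw [rb_mem_avail] at hx ⊢
  rw [hI]
  exact ⟨fun h => hx.1 (Same.symm hG.Einv hG.Kinv h), hx.2.symm⟩

theorem exists_V (hI : ∀ x, I (I x) = x) (hG : Geo E K) :
    ∃ (pos : Lam → ℕ) (col : Lam → Bool) (V : Finset Lam), Pos E K pos ∧
      (∀ x, pos x < (body E K x).card) ∧ (∀ x y, Same E K x y → col x = col y) ∧
      (∀ x ∈ V, I x ∈ V) ∧ (∀ x ∈ V, Odd (pos x)) ∧ (∀ x ∈ V, col x ≠ col (I x)) ∧
      V ⊆ avail E I K ∧ (avail E I K).card ≤ 8 * V.card := by
  classical
  obtain ⟨pos, hp, hpb⟩ := exists_pos hG
  -- representatives of the bodies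
  let st : Setoid Lam := ⟨Same E K, ⟨fun _ => Relation.ReflTransGen.refl,
    fun h => Same.symm hG.Einv hG.Kinv h, fun h h' => Same.trans h h'⟩⟩
  set rep : Lam → Lam := fun x => (Quotient.mk st x).out with hrep
  have hrs : ∀ x, Same E K (rep x) x := fun x => Quotient.exact (Quotient.out_eq (Quotient.mk st x))
  have hreq : ∀ x y, Same E K x y → rep x = rep y := by
    intro x y h
    show (Quotient.mk st x).out = (Quotient.mk st y).out
    rw [show Quotient.mk st x = Quotient.mk st y from Quotient.sound h]
  have hrne : ∀ x y, ¬ Same E K x y → rep x ≠ rep y := by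
    intro x y h he
    apply h
    refine (Same.symm hG.Einv hG.Kinv (hrs x)).trans ?_
    rw [he]
    exact hrs y
  set u : Lam → Bool := fun x => decide (¬ Odd (pos x)) with hu
  obtain ⟨g, col, hgc⟩ := averaging (avail E I K) rep (fun x => rep (I x)) u (fun x => u (I x))
    (fun a ha => hrne _ _ (rb_mem_avail.1 ha).1)
  obtain ⟨pos', hp', hpb', hodd⟩ := Pos.turn hG hp hpb (fun x => g (rep x))
    (fun x y h => by rw [hreq x y h])
  have hood : ∀ x, g (rep x) = u x → Odd (pos' x) := by
    intro x h
    rw [hodd x, h, hu]
    by_cases hx : Odd (pos x)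
    · simp [hx]
    · simp [hx]
  refine ⟨pos', fun x => col (rep x), (avail E I K).filter (fun a => g (rep a) = u a ∧
    g (rep (I a)) = u (I a) ∧ col (rep a) ≠ col (rep (I a))), hp', hpb',
    fun x y h => congrArg col (hreq x y h), ?_, ?_, ?_, Finset.filter_subset _ _, hgc⟩
  · intro x hx
    rw [Finset.mem_filter] at hx ⊢
    rw [hI]
    exact ⟨rb_avail_I hI hG hx.1, hx.2.2.1, hx.2.1, fun h => hx.2.2.2 h.symm⟩
  · intro x hx
    rw [Finset.mem_filter] at hx
    exact hood x hx.2.1
  · intro x hx
    rw [Finset.mem_filter] at hx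
    exact hx.2.2.2

theorem round_gaps {pos : Lam → ℕ} (hI : ∀ x, I (I x) = x) (hG : Geo E K) (hp : Pos E K pos)
    (V : Finset Lam) (hV : ∀ x ∈ V, I x ∈ V) (hodd : ∀ x ∈ V, Odd (pos x))
    (hsub : V ⊆ avail E I K) : (gapL I (step I K V)).card + V.card ≤ (gapL I K).card := by
  classical
  have hK := hG.Kinv
  set V1 := V.filter (fun x => K x ≠ x) with hV1
  have hne : ∀ x ∈ V, K x ≠ I x := by
    intro x hx h
    apply (rb_mem_avail.1 (hsub hx)).1
    rw [← h]
    exact Relation.ReflTransGen.single (Or.inr rfl)
  have h1 : V.card ≤ 2 * V1.card := by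
    have h2 : V1.card + (V.filter (fun x => ¬ K x ≠ x)).card = V.card :=
      Finset.card_filter_add_card_filter_not (s := V) (fun x => K x ≠ x)
    have h3 : (V.filter (fun x => ¬ K x ≠ x)).card ≤ V1.card := by
      refine Finset.card_le_card_of_injOn I ?_ ?_
      · intro x hx
        rw [Finset.mem_coe, Finset.mem_filter, not_not] at hx
        rw [Finset.mem_coe, hV1, Finset.mem_filter]
        refine ⟨hV x hx.1, ?_⟩
        rcases (rb_mem_avail.1 (hsub hx.1)).2 with h | h
        · exact absurd hx.2 h
        · exact h
      · intro x _ y _ h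
        rw [← hI x, h, hI]
    omega
  have hdis : Disjoint V1 (V1.image K) := by
    rw [Finset.disjoint_left]
    intro x hx hx'
    obtain ⟨y, hy, hyx⟩ := Finset.mem_image.1 hx'
    rw [hV1, Finset.mem_filter] at hx hy
    have o1 := hodd x hx.1
    have o2 := hodd y hy.1
    have := hp.odd_K y o2 hy.2
    rw [hyx] at this
    rw [this] at o1
    exact (Nat.not_odd_iff_even.2 o2.add_one) o1
  have hcard : (V1 ∪ V1.image K).card = 2 * V1.card := by
    rw [Finset.card_union_of_disjoint hdis, Finset.card_image_of_injective V1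
      (fun x y h => by rw [← hK x, h, hK])]
    omega
  have hdis2 : Disjoint (gapL I (step I K V)) (V1 ∪ V1.image K) := by
    rw [Finset.disjoint_left]
    intro x hx hx'
    unfold gapL at hx
    rw [Finset.mem_filter] at hx
    obtain ⟨-, hx1, hx2⟩ := hx
    rw [Finset.mem_union] at hx'
    by_cases hxV : x ∈ V
    · exact hx2 (if_pos hxV)
    · rcases hx' with h | h
      · rw [hV1, Finset.mem_filter] at h
        exact hxV h.1
      · obtain ⟨y, hy, rfl⟩ := Finset.mem_image.1 h
        rw [hV1, Finset.mem_filter] at hy
        apply hx1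
        unfold step
        rw [if_neg hxV, hK, if_pos hy.1]
  have hsub2 : gapL I (step I K V) ∪ (V1 ∪ V1.image K) ⊆ gapL I K := by
    intro x hx
    rw [Finset.mem_union, Finset.mem_union] at hx
    unfold gapL
    rw [Finset.mem_filter]
    refine ⟨Finset.mem_univ _, ?_⟩
    rcases hx with hx | hx | hx
    · unfold gapL at hx
      rw [Finset.mem_filter] at hx
      obtain ⟨-, hx1, hx2⟩ := hx
      by_cases hxV : x ∈ V
      · exact absurd (if_pos hxV) hx2
      · by_cases hKV : K x ∈ V
        · exact absurd (by unfold step; rw [if_neg hxV, if_pos hKV]) hx1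
        · have h3 : step I K V x = K x := by unfold step; rw [if_neg hxV, if_neg hKV]
          rw [h3] at hx1 hx2
          exact ⟨hx1, hx2⟩
    · rw [hV1, Finset.mem_filter] at hx
      exact ⟨hx.2, hne x hx.1⟩
    · obtain ⟨y, hy, rfl⟩ := Finset.mem_image.1 hx
      rw [hV1, Finset.mem_filter] at hy
      rw [hK]
      refine ⟨fun h => hy.2 h.symm, fun h => hne y hy.1 ?_⟩
      rw [h, hI, ← h]
  have h4 := Finset.card_le_card hsub2
  rw [Finset.card_union_of_disjoint hdis2, hcard] at h4
  omega

theorem rb_run (hI : ∀ x, I (I x) = x) (V : Finset Lam) (rk : Lam → ℕ)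
    (hV : ∀ x ∈ V, I x ∈ V) (hrk : ∀ x, rk (I x) = rk x)
    (hfar : ∀ n, Far E I (step I K (V.filter (fun x => rk x < n)))
      (V.filter (fun x => rk x = n))) (k : ℕ) :
    ∀ n, FarRun E I (step I K (V.filter (fun x => rk x < n)))
      ((List.range' n k).map (fun i => V.filter (fun x => rk x = i)))
      (step I K (V.filter (fun x => rk x < n + k))) := by
  induction k with
  | zero =>
    intro n
    exact FarRun.nil _
  | succ k ih =>
    intro n
    rw [List.range'_succ, List.map_cons]
    refine FarRun.cons _ _ _ _ (hfar n) ?_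
    have h1 := step_step (K := K) hI (V.filter (fun x => rk x < n)) (V.filter (fun x => rk x = n))
      (fun x hx => by
        rw [Finset.mem_filter] at hx ⊢
        exact ⟨hV x hx.1, by rw [hrk]; exact hx.2⟩)
      (fun x hx => by
        rw [Finset.mem_filter] at hx ⊢
        exact ⟨hV x hx.1, by rw [hrk]; exact hx.2⟩)
      (by
        rw [Finset.disjoint_left]
        intro x hx hx'
        rw [Finset.mem_filter] at hx hx'
        omega)
    have h2 : V.filter (fun x => rk x < n) ∪ V.filter (fun x => rk x = n) =
        V.filter (fun x => rk x < n + 1) := by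
      ext x
      rw [Finset.mem_union, Finset.mem_filter, Finset.mem_filter, Finset.mem_filter]
      constructor
      · rintro (h | h)
        · exact ⟨h.1, by omega⟩
        · exact ⟨h.1, by omega⟩
      · intro h
        rcases Nat.lt_or_ge (rk x) n with h' | h'
        · exact Or.inl ⟨h.1, h'⟩
        · exact Or.inr ⟨h.1, by omega⟩
    rw [h1, h2]
    have h3 := ih (n + 1)
    have h4 : n + 1 + k = n + (k + 1) := by omega
    rwa [h4] at h3

/-- one round -/
theorem round_thm {R : ℕ} (hI : ∀ x, I (I x) = x) (hG : Geo E K)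
    (hR : Small E K R) : ∃ (Us : List (Finset Lam)) (K' : Lam → Lam), Us.length ≤ R * R ∧
      FarRun E I K Us K' ∧ Small E K' (2 * R) ∧
      8 * (gapL I K').card + (avail E I K).card ≤ 8 * (gapL I K).card := by
  classical
  obtain ⟨pos, col, V, hp, hpb, hcol, hV, hodd, hVc, hsub, hcard⟩ := exists_V hI hG
  have hposR : ∀ x, pos x < R := fun x => (hpb x).trans_le (hR x)
  set rk : Lam → ℕ := fun x => if x ∈ V then
    (if col x = true then R * pos x + pos (I x) else R * pos (I x) + pos x) else 0 with hrk
  have hrkI : ∀ x, rk (I x) = rk x := by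
    intro x
    by_cases hx : x ∈ V
    · have hx' := hV x hx
      have hc := hVc x hx
      simp only [hrk, hx, hx', if_true, hI]
      cases h1 : col x <;> cases h2 : col (I x) <;> simp_all
    · have hx' : I x ∉ V := fun h => hx (by have := hV _ h; rwa [hI] at this)
      simp only [hrk, hx, hx', if_false]
  have hfar : ∀ n, Far E I (step I K (V.filter (fun x => rk x < n)))
      (V.filter (fun x => rk x = n)) := by
    intro n
    by_cases hR0 : R = 0
    · -- no labels
      have hno : ∀ x : Lam, False := fun x => by have := hposR x; omega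
      exact ⟨fun x _ => (hno x).elim, fun x _ => (hno x).elim, fun x _ => (hno x).elim⟩
    have hRpos : 0 < R := Nat.pos_of_ne_zero hR0
    have h := round_level hI hG hp hcol V hV hodd hVc (n / R) (n % R)
    have hdm := Nat.div_add_mod n R
    have hm := Nat.mod_lt n hRpos
    have key : ∀ p q : ℕ, q < R → (R * p + q < n ↔ (p < n / R ∨ (p = n / R ∧ q < n % R))) := by
      intro p q hq
      constructor
      · intro h1
        by_contra h2
        rw [not_or, not_and, not_lt, not_lt] at h2
        obtain ⟨h3, h4⟩ := h2
        rcases Nat.lt_or_ge (n / R) p with h5 | h5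
        · have h6 : R * (n / R + 1) ≤ R * p := Nat.mul_le_mul_left _ h5
          rw [Nat.mul_add, Nat.mul_one] at h6
          omega
        · have h6 : p = n / R := by omega
          have := h4 h6
          rw [h6] at h1
          omega
      · rintro (h1 | ⟨h1, h2⟩)
        · have h6 : R * (p + 1) ≤ R * (n / R) := Nat.mul_le_mul_left _ h1
          rw [Nat.mul_add, Nat.mul_one] at h6
          omega
        · rw [h1]
          omega
    have key2 : ∀ p q : ℕ, q < R → (R * p + q = n ↔ (p = n / R ∧ q = n % R)) := by
      intro p q hq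
      constructor
      · intro h1
        rcases lt_trichotomy p (n / R) with h5 | h5 | h5
        · have h6 : R * (p + 1) ≤ R * (n / R) := Nat.mul_le_mul_left _ h5
          rw [Nat.mul_add, Nat.mul_one] at h6
          omega
        · rw [h5] at h1
          exact ⟨h5, by omega⟩
        · have h6 : R * (n / R + 1) ≤ R * p := Nat.mul_le_mul_left _ h5
          rw [Nat.mul_add, Nat.mul_one] at h6
          omega
      · rintro ⟨h1, h2⟩
        rw [h1, h2]
        exact hdm
    have e1 : V.filter (fun x => rk x < n) = V.filter (fun x => (col x = true ∧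
        (pos x < n / R ∨ (pos x = n / R ∧ pos (I x) < n % R))) ∨ (col x = false ∧
        (pos (I x) < n / R ∨ (pos (I x) = n / R ∧ pos x < n % R)))) := by
      refine Finset.filter_congr fun x hx => ?_
      simp only [hrk, hx, if_true]
      cases hc : col x
      · simp only [Bool.false_eq_true, if_false, false_and, false_or, true_and]
        exact key _ _ (hposR x)
      · simp only [if_true, true_and, Bool.true_eq_false, false_and, or_false]
        exact key _ _ (hposR (I x))
    have e2 : V.filter (fun x => rk x = n) = V.filter (fun x =>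
        (col x = true ∧ pos x = n / R ∧ pos (I x) = n % R) ∨
        (col x = false ∧ pos (I x) = n / R ∧ pos x = n % R)) := by
      refine Finset.filter_congr fun x hx => ?_
      simp only [hrk, hx, if_true]
      cases hc : col x
      · simp only [Bool.false_eq_true, if_false, false_and, false_or, true_and]
        exact key2 _ _ (hposR x)
      · simp only [if_true, true_and, Bool.true_eq_false, false_and, or_false]
        exact key2 _ _ (hposR (I x))
    rw [e1, e2]
    exact h
  have hrun := rb_run hI V rk hV hrkI hfar (R * R) 0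
  have h0 : V.filter (fun x => rk x < 0) = ∅ := by
    rw [Finset.filter_eq_empty_iff]
    intro x _
    omega
  have h0' : step I K ∅ = K := by
    funext x
    unfold step
    simp
  have h1 : V.filter (fun x => rk x < 0 + R * R) = V := by
    refine Finset.filter_true_of_mem fun x hx => ?_
    have a1 := hposR x
    have a2 := hposR (I x)
    simp only [hrk, hx, if_true]
    have b1 : R * (pos x + 1) ≤ R * R := Nat.mul_le_mul_left _ a1
    have b2 : R * (pos (I x) + 1) ≤ R * R := Nat.mul_le_mul_left _ a2
    rw [Nat.mul_add, Nat.mul_one] at b1 b2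
    split_ifs <;> omega
  rw [h0, h0', h1] at hrun
  refine ⟨_, _, ?_, hrun, round_small hI hG hR hp hcol V hV hodd hVc, ?_⟩
  · rw [List.length_map, List.length_range']
  · have h2 := round_gaps hI hG hp V hV hodd hsub
    omega

end RoundB

end BP2
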