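import Mathlib
import Pool.Agent.BP2.S.Base

/-! MP_475aca_co, part (S), stage 1 from the round theorem. -/

set_option autoImplicit false

namespace BP2

/-- the round theorem, as a proposition -/
def RoundStmt : Prop := ∀ (Lam : Type) [Fintype Lam] [DecidableEq Lam] (E I K : Lam → Lam) (R : ℕ),
  (∀ x, I (I x) = x) → Geo E K → Small E K R →
    ∃ (Us : List (Finset Lam)) (K' : Lam → Lam), Us.length ≤ R * R ∧
      FarRun E I K Us K' ∧ Small E K' (2 * R) ∧
      8 * (gapL I K').card + (avail E I K).card ≤ 8 * (gapL I K).card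

/-- no gap labels, no available edges -/
theorem avail_eq_empty {Lam : Type*} [Fintype Lam] [DecidableEq Lam] {E I K : Lam → Lam}
    (hI : ∀ x, I (I x) = x) (hG : Geo E K) (h : gapL I K = ∅) : avail E I K = ∅ := by
  have hno : ∀ x, K x = x ∨ K x = I x := by
    intro x
    by_contra hx
    push Not at hx
    have : x ∈ gapL I K := by
      unfold gapL
      simp only [Finset.mem_filter, Finset.mem_univ, true_and]
      exact hx
    rw [h] at this
    simp at this
  classical
  rw [Finset.eq_empty_iff_forall_notMem]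
  intro x hx
  unfold avail at hx
  rw [Finset.mem_filter] at hx
  obtain ⟨-, h1, h2⟩ := hx
  rcases h2 with h2 | h2
  · rcases hno x with h3 | h3
    · exact h2 h3
    · apply h1
      rw [← h3]
      exact same_K E K x
  · rcases hno (I x) with h3 | h3
    · exact h2 h3
    · apply h1
      rw [hI] at h3
      have h4 := same_K E K (I x)
      rw [h3] at h4
      exact hG.symm h4

theorem stage1_aux (hround : RoundStmt) (m : ℕ) : ∀ T R : ℕ, ∃ Q R' : ℕ,
    ∀ (Lam : Type) [Fintype Lam] [DecidableEq Lam] (E I K : Lam → Lam), (∀ x, I (I x) = x) →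
      Geo E K → Small E K R → 8 * m * (gapL I K).card ≤ T * Fintype.card Lam →
      ∃ (Us : List (Finset Lam)) (K' : Lam → Lam), Us.length ≤ Q ∧
        FarRun E I K Us K' ∧ Small E K' R' ∧ m * (avail E I K').card ≤ Fintype.card Lam := by
  intro T
  induction T with
  | zero =>
    intro R
    refine ⟨0, R, ?_⟩
    intro Lam _ _ E I K hI hG hR hgap
    refine ⟨[], K, le_rfl, FarRun.nil K, hR, ?_⟩
    rw [Nat.zero_mul] at hgap
    rcases Nat.eq_zero_or_pos m with h0 | h0
    · rw [h0, Nat.zero_mul]
      exact Nat.zero_le _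
    · have h1 : (gapL I K).card = 0 := by
        by_contra h2
        have h3 : 0 < (gapL I K).card := Nat.pos_of_ne_zero h2
        have : 0 < 8 * m * (gapL I K).card := by positivity
        omega
      rw [avail_eq_empty hI hG (Finset.card_eq_zero.1 h1)]
      simp
  | succ T ih =>
    intro R
    obtain ⟨Q, R', hQ⟩ := ih (2 * R)
    refine ⟨R * R + Q, max R R', ?_⟩
    intro Lam _ _ E I K hI hG hR hgap
    by_cases hav : m * (avail E I K).card ≤ Fintype.card Lam
    · exact ⟨[], K, Nat.zero_le _, FarRun.nil K, fun x => (hR x).trans (le_max_left _ _), hav⟩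
    · push Not at hav
      obtain ⟨Us, K1, h1, h2, h3, h4⟩ := hround Lam E I K R hI hG hR
      have h5 : 8 * m * (gapL I K1).card ≤ T * Fintype.card Lam := by
        have h6 := Nat.mul_le_mul_left m h4
        have h7 : 8 * m * (gapL I K1).card + m * (avail E I K).card ≤
            8 * m * (gapL I K).card := by
          calc 8 * m * (gapL I K1).card + m * (avail E I K).card
              = m * (8 * (gapL I K1).card + (avail E I K).card) := by ring
            _ ≤ m * (8 * (gapL I K).card) := h6
            _ = 8 * m * (gapL I K).card := by ring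
        have h8 : (T + 1) * Fintype.card Lam = T * Fintype.card Lam + Fintype.card Lam := by ring
        omega
      obtain ⟨Vs, K', g1, g2, g3, g4⟩ := hQ Lam E I K1 hI (h2.geo hI hG) h3 h5
      refine ⟨Us ++ Vs, K', ?_, h2.append g2, fun x => (g3 x).trans (le_max_right _ _), g4⟩
      rw [List.length_append]
      exact Nat.add_le_add h1 g1

theorem stage1_of (hround : RoundStmt) (m R : ℕ) : ∃ Q R' : ℕ, ∀ (Lam : Type) [Fintype Lam]
    [DecidableEq Lam] (E I K : Lam → Lam), (∀ x, I (I x) = x) → Geo E K → Small E K R →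
    ∃ (Us : List (Finset Lam)) (K' : Lam → Lam), Us.length ≤ Q ∧
      FarRun E I K Us K' ∧ Small E K' R' ∧ m * (avail E I K').card ≤ Fintype.card Lam := by
  obtain ⟨Q, R', h⟩ := stage1_aux hround m (8 * m) R
  refine ⟨Q, R', ?_⟩
  intro Lam _ _ E I K hI hG hR
  exact h Lam E I K hI hG hR (Nat.mul_le_mul_left _ (Finset.card_le_univ _))

end BP2
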