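import Mathlib
import Pool.Agent.BP2.S.Stage1A
import Pool.Agent.BP2.S.RoundB

/-! MP_475aca_co, part (S), stage 1. -/

set_option autoImplicit false

namespace BP2

set_option linter.unusedVariables false in
theorem stage1 (m R : ℕ) (hm : 0 < m) : ∃ Q R' : ℕ, ∀ (Lam : Type) [Fintype Lam]
    [DecidableEq Lam] (E I K : Lam → Lam), (∀ x, I (I x) = x) → Geo E K → Small E K R →
    ∃ (Us : List (Finset Lam)) (K' : Lam → Lam), Us.length ≤ Q ∧
      FarRun E I K Us K' ∧ Small E K' R' ∧ m * (avail E I K').card ≤ Fintype.card Lam :=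
  stage1_of (fun _ _ _ _ _ _ _ hI hG hR => round_thm hI hG hR) m R

end BP2
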