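import Pool.Agent.BP2.S.Blocks
import Pool.Agent.BP2.S.Stage0
import Pool.Agent.BP2.S.Stage1
import Pool.Agent.BP2.S.Cluster
import Pool.Agent.BP2.S.Halve

/-! MP_475aca_co, part (S): the whole run (helper37) -/

namespace BP2

section Flat

lemma blks_cutCount_zero_far {Lam : Type*} [Fintype Lam] [DecidableEq Lam] {E I K K' : Lam → Lam}
    {Us : List (Finset Lam)} (h : FarRun E I K Us K') : cutCount I K (Us.map Lv.far) = 0 := by
  have := blks_cutCount_far h []
  rw [List.append_nil] at this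
  rw [this]
  rfl

lemma blks_imbCount_zero_far {Lam : Type*} [Fintype Lam] [DecidableEq Lam] {E I K K' : Lam → Lam}
    {Us : List (Finset Lam)} (h : FarRun E I K Us K') : imbCount I K (Us.map Lv.far) = 0 := by
  have := blks_imbCount_far h []
  rw [List.append_nil] at this
  rw [this]
  rfl

lemma blks_cutCount_append {Lam : Type*} [Fintype Lam] [DecidableEq Lam] {E I : Lam → Lam}
    {L : List (Lv Lam)} (L' : List (Lv Lam)) {K K' : Lam → Lam} (h : SRun E I K L K') :
    cutCount I K (L ++ L') = cutCount I K L + cutCount I K' L' := by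
  induction h with
  | nil K => simp [cutCount]
  | cut K K1 L K' hc hf hr ih =>
    rw [List.cons_append, cutCount, cutCount, ih, add_assoc]
  | far K U L K' hU hr ih => rw [List.cons_append, cutCount, cutCount, ih]
  | loc K O L K' hO hr ih => rw [List.cons_append, cutCount, cutCount, ih]

theorem flat (m : ℕ) (hm : 0 < m) : ∃ Q C : ℕ, ∀ (Lam : Type) [Fintype Lam]
    [DecidableEq Lam] (E I S : Lam → Lam), Tgt E I → Geo E S →
    ∃ (K0 : Lam → Lam) (L : List (Lv Lam)) (K' : Lam → Lam), Cut S K0 ∧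
      (∀ x, I x = x → K0 x = x) ∧ L.length ≤ Q ∧ SRun E I K0 L K' ∧
      m * (Finset.univ.filter (fun x => K0 x ≠ S x)).card ≤ Fintype.card Lam + C ∧
      m * (Finset.univ.filter (fun x => K' x ≠ I x)).card ≤ Fintype.card Lam ∧
      m * cutCount I K0 L ≤ Fintype.card Lam ∧
      m * imbCount I K0 L ≤ Fintype.card Lam + C := by
  classical
  obtain ⟨Q1, R1, hst1⟩ := stage1 (2 * m) (2 * m) (by omega)
  obtain ⟨Q3, C3, hbl⟩ := blocks' m R1 hm
  obtain ⟨Q4, hhv⟩ := halve m hm
  refine ⟨Q1 + 1 + R1 + Q3 + Q4, 4 * m + C3, ?_⟩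
  intro Lam _ _ E I S hTg hG
  have hI := hTg.Iinv
  obtain ⟨K0, hc0, hs0, hl0, hn0⟩ := stage0 m hm hTg hG
  have hG0 : Geo E K0 := hG.cut hc0
  obtain ⟨Us1, K1, hlen1, hrun1, hs1, hav⟩ := hst1 Lam E I K0 hI hG0 hs0
  have hG1 : Geo E K1 := hrun1.geo hI hG0
  have hl1 : ∀ x, I x = x → K1 x = x := hrun1.loose hl0
  obtain ⟨K2, hc2, hf2, hn2, hb2⟩ := isolate hI hG1
  have hG2 : Geo E K2 := hG1.cut hc2
  have hl2 : ∀ x, I x = x → K2 x = x := by
    intro x hx
    rcases hc2.sub x with h | h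
    · rw [h]; exact hl1 x hx
    · exact h
  obtain ⟨Us2, K3, hlen2, hrun2, hs3, hC3⟩ := cluster R1 hI hG2 hl2 (Same E K1)
    ⟨fun x => Relation.ReflTransGen.refl, fun h => h.symm hG1.Einv hG1.Kinv,
      fun h h' => h.trans h'⟩
    (fun x C hC => by
      refine (Finset.card_le_card ?_).trans (hs1 x)
      intro y hy
      exact mem_body.mpr (hC y hy))
    (fun x y h => h.mono hc2.sub) (fun x hx => hb2 x hx)
  have hG3 : Geo E K3 := hrun2.geo hI hG2
  have hl3 : ∀ x, I x = x → K3 x = x := hrun2.loose hl2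
  have hR3 : Small E K3 R1 := by
    intro x
    refine (Finset.card_le_card ?_).trans (hs1 x)
    intro y hy
    exact mem_body.mpr (hs3 x y (mem_body.mp hy))
  obtain ⟨L3, K4, hlen3, hrun3, hG4, hl4, hf4, hcut3, himb3, hadd3⟩ :=
    hbl Lam E I K3 hTg hG3 hl3 hC3 hR3
  obtain ⟨Us4, K5, hlen4, hrun4, hn5⟩ := hhv Lam E I K4 hTg hG4 hl4 hf4
  have hr4 := hrun4.blks_toRun
  have hr34 := hrun3.blks_append hr4
  have hr234 := hrun2.blks_toRun.blks_append hr34
  have hr1234 : SRun E I K1 (Lv.cut K2 :: (Us2.map Lv.far ++ (L3 ++ Us4.map Lv.far))) K5 :=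
    SRun.cut _ _ _ _ hc2 hf2 hr234
  refine ⟨K0, Us1.map Lv.far ++ (Lv.cut K2 :: (Us2.map Lv.far ++ (L3 ++ Us4.map Lv.far))), K5,
    hc0, hl0, ?_, hrun1.blks_toRun.blks_append hr1234, ?_, hn5, ?_, ?_⟩
  · simp only [List.length_append, List.length_cons, List.length_map]
    omega
  · omega
  · rw [blks_cutCount_far hrun1, cutCount, blks_cutCount_far hrun2, blks_cutCount_append _ hrun3, hcut3,
      blks_cutCount_zero_far hrun4]
    calc m * ((Finset.univ.filter (fun x => K2 x ≠ K1 x)).card + (0 + 0))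
        = m * (Finset.univ.filter (fun x => K2 x ≠ K1 x)).card := by ring
      _ ≤ m * (2 * (avail E I K1).card) := by
          refine Nat.mul_le_mul_left _ ?_
          convert hn2 using 2
      _ = 2 * m * (avail E I K1).card := by ring
      _ ≤ _ := hav
  · rw [blks_imbCount_far hrun1, imbCount, blks_imbCount_far hrun2, hadd3 _ _ hr4,
      blks_imbCount_zero_far hrun4, add_zero]
    omega

end Flat

end BP2
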