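import Mathlib
import Pool.Agent.BP2.S.Defs
import Pool.Agent.BP2.S.Base
import Pool.Agent.BP2.S.Bridge

set_option autoImplicit false

/-! MP_475aca_co, part (S), Main: the states of a run -/

namespace BP2

section
variable {Lam : Type*} [DecidableEq Lam]

/-- the state after a level -/
def nxt (I K : Lam → Lam) : Lv Lam → (Lam → Lam)
  | .cut K1 => K1
  | .far U => step I K U
  | .loc O => step I K (locU I O)

/-- the state after `t` levels -/
def stt (I : Lam → Lam) : List (Lv Lam) → (Lam → Lam) → ℕ → (Lam → Lam)
  | [], K, _ => K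
  | _ :: _, K, 0 => K
  | l :: L, K, t + 1 => stt I L (nxt I K l) t

/-- validity of one level -/
inductive LvOK (E I K : Lam → Lam) : Lv Lam → Prop
  | cut (K1 : Lam → Lam) : Cut K K1 → (∀ x, K1 x ≠ K x → K x ≠ I x) → LvOK E I K (.cut K1)
  | far (U : Finset Lam) : Far E I K U → LvOK E I K (.far U)
  | loc (O : Finset Lam) : Loc E I K O → LvOK E I K (.loc O)

@[simp] lemma stt_zero (I : Lam → Lam) (L : List (Lv Lam)) (K : Lam → Lam) : stt I L K 0 = K := by
  cases L <;> rfl

lemma run_ok {E I K K' : Lam → Lam} {L : List (Lv Lam)} (h : SRun E I K L K') :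
    ∀ t l, L[t]? = some l → LvOK E I (stt I L K t) l ∧ stt I L K (t + 1) = nxt I (stt I L K t) l := by
  induction h with
  | nil K => intro t l h; simp at h
  | cut K K1 L K' h1 h2 _ ih =>
    intro t l hl
    cases t with
    | zero =>
      simp only [List.getElem?_cons_zero, Option.some.injEq] at hl
      subst hl
      refine ⟨?_, ?_⟩
      · rw [stt_zero]
        exact LvOK.cut K1 h1 h2
      · simp [stt, nxt]
    | succ t =>
      simp only [List.getElem?_cons_succ] at hl
      exact ih t l hl
  | far K U L K' h1 _ ih =>
    intro t l hl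
    cases t with
    | zero =>
      simp only [List.getElem?_cons_zero, Option.some.injEq] at hl
      subst hl
      refine ⟨?_, ?_⟩
      · rw [stt_zero]
        exact LvOK.far U h1
      · simp [stt, nxt]
    | succ t =>
      simp only [List.getElem?_cons_succ] at hl
      exact ih t l hl
  | loc K O L K' h1 _ ih =>
    intro t l hl
    cases t with
    | zero =>
      simp only [List.getElem?_cons_zero, Option.some.injEq] at hl
      subst hl
      refine ⟨?_, ?_⟩
      · rw [stt_zero]
        exact LvOK.loc O h1
      · simp [stt, nxt]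
    | succ t =>
      simp only [List.getElem?_cons_succ] at hl
      exact ih t l hl

lemma stt_end {E I K K' : Lam → Lam} {L : List (Lv Lam)} (h : SRun E I K L K') :
    ∀ t, L.length ≤ t → stt I L K t = K' := by
  induction h with
  | nil K => intro t _; rfl
  | cut K K1 L K' _ _ _ ih =>
    intro t ht
    cases t with
    | zero => simp at ht
    | succ t => exact ih t (by simpa using ht)
  | far K U L K' _ _ ih =>
    intro t ht
    cases t with
    | zero => simp at ht
    | succ t => exact ih t (by simpa using ht)
  | loc K O L K' _ _ ih =>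
    intro t ht
    cases t with
    | zero => simp at ht
    | succ t => exact ih t (by simpa using ht)

variable {E I K : Lam → Lam}

lemma locU_closed (hI : ∀ x, I (I x) = x) {O : Finset Lam} {x : Lam} (hx : x ∈ locU I O) :
    I x ∈ locU I O := by
  rw [mem_locU hI] at hx ⊢
  rw [hI]
  exact hx.symm

/-- formed labels stay formed -/
lemma LvOK.formed {l : Lv Lam} (h : LvOK E I K l) (hI : ∀ x, I (I x) = x)
    {x : Lam} (hx : K x = I x) : nxt I K l x = I x := by
  cases h with
  | cut K1 h1 h2 =>
    by_contra hne
    exact h2 x (fun he => hne (by rw [nxt, he, hx])) hx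
  | far U h1 =>
    simp only [nxt, step]
    split_ifs with h2 h3
    · rfl
    · exfalso
      have h4 : x ∈ U := by
        have := h1.closed _ h3
        rwa [hx, hI] at this
      exact h2 h4
    · exact hx
  | loc O h1 =>
    simp only [nxt, step]
    split_ifs with h2 h3
    · rfl
    · exfalso
      have := locU_closed hI h3
      rw [hx, hI] at this
      exact h2 this
    · exact hx

lemma LvOK.cases3 {l : Lv Lam} (h : LvOK E I K l) (x : Lam) :
    nxt I K l x = K x ∨ nxt I K l x = x ∨ nxt I K l x = I x := by
  cases h with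
  | cut K1 h1 h2 =>
    rcases h1.sub x with h | h
    · exact Or.inl h
    · exact Or.inr (Or.inl h)
  | far U h1 =>
    simp only [nxt, step]
    split_ifs <;> simp
  | loc O h1 =>
    simp only [nxt, step]
    split_ifs <;> simp

/-- a label which becomes formed is used -/
lemma LvOK.used {l : Lv Lam} (h : LvOK E I K l) {x : Lam} (hx : K x ≠ I x)
    (hx' : nxt I K l x = I x) (hne : I x ≠ x) : x ∈ l.used I := by
  cases h with
  | cut K1 h1 h2 =>
    exfalso
    simp only [nxt] at hx'
    rcases h1.sub x with h | h
    · exact hx (by rw [← h, hx'])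
    · exact hne (by rw [← hx', h])
  | far U h1 =>
    simp only [nxt, step] at hx'
    simp only [Lv.used]
    by_contra hu
    rw [if_neg hu] at hx'
    split_ifs at hx' with h3
    · exact hne hx'.symm
    · exact hx hx'
  | loc O h1 =>
    simp only [nxt, step] at hx'
    simp only [Lv.used]
    by_contra hu
    rw [if_neg hu] at hx'
    split_ifs at hx' with h3
    · exact hne hx'.symm
    · exact hx hx'

/-- used labels become formed and were not formed before -/
lemma LvOK.of_used {l : Lv Lam} (h : LvOK E I K l) (hI : ∀ x, I (I x) = x)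
    (hG : ∀ x, K (K x) = x) {x : Lam} (hx : x ∈ l.used I) :
    nxt I K l x = I x ∧ K x ≠ I x ∧ I x ≠ x := by
  cases h with
  | cut K1 h1 h2 => simp [Lv.used] at hx
  | far U h1 =>
    simp only [Lv.used] at hx
    refine ⟨by simp [nxt, step, hx], ?_, h1.moving x hx⟩
    intro hKx
    have h2 := h1.sep x hx (I x) (h1.closed x hx)
      (Relation.ReflTransGen.single (Or.inr hKx.symm))
    exact h1.moving x hx h2.symm
  | loc O h1 =>
    simp only [Lv.used] at hx
    refine ⟨by simp [nxt, step, hx], ?_, ?_⟩
    · rw [mem_locU hI] at hx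
      rcases hx with hx | hx
      · exact h1.unf x hx
      · intro hKx
        exact h1.unf (I x) hx (by rw [← hKx, hG, hKx, hI])
    · rw [mem_locU hI] at hx
      have key : ∀ p ∈ O, I p ≠ p := by
        intro p hp he
        apply h1.side p hp
        rw [he]
        exact Relation.ReflTransGen.refl
      rcases hx with hx | hx
      · exact key x hx
      · intro he
        exact key (I x) hx (by rw [he, he])

/-- an adjacency which is opened: a cut, or one of its labels is used -/
lemma LvOK.opened {l : Lv Lam} (h : LvOK E I K l) {x : Lam} (hx : nxt I K l x ≠ K x) :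
    (∃ K1, l = .cut K1 ∧ K1 x ≠ K x) ∨ x ∈ l.used I ∨ K x ∈ l.used I := by
  cases h with
  | cut K1 h1 h2 => exact Or.inl ⟨K1, rfl, hx⟩
  | far U h1 =>
    right
    by_contra hcon
    push Not at hcon
    simp only [Lv.used] at hcon
    simp only [nxt, step, if_neg hcon.1, if_neg hcon.2, ne_eq, not_true_eq_false] at hx
  | loc O h1 =>
    right
    by_contra hcon
    push Not at hcon
    simp only [Lv.used] at hcon
    simp only [nxt, step, if_neg hcon.1, if_neg hcon.2, ne_eq, not_true_eq_false] at hx

end

section
variable {Lam : Type*} [Fintype Lam] [DecidableEq Lam] {E I K K' : Lam → Lam}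
  {L : List (Lv Lam)}

lemma LvOK.geo {l : Lv Lam} (h : LvOK E I K l) (hI : ∀ x, I (I x) = x) (hG : Geo E K) :
    Geo E (nxt I K l) := by
  cases h with
  | cut K1 h1 h2 => exact hG.cut h1
  | far U h1 => exact Far.geo hI hG h1
  | loc O h1 => exact Loc.geo hI hG h1

lemma stt_geo (h : SRun E I K L K') (hI : ∀ x, I (I x) = x) (hG : Geo E K) (t : ℕ) :
    Geo E (stt I L K t) := by
  induction t with
  | zero => rwa [stt_zero]
  | succ t ih =>
    by_cases ht : t < L.length
    · have h1 := run_ok h t L[t] (List.getElem?_eq_getElem ht)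
      rw [h1.2]
      exact h1.1.geo hI ih
    · rw [stt_end h (t + 1) (by omega), ← stt_end h t (by omega)]
      exact ih

/-- one step of the states -/
lemma stt_step (h : SRun E I K L K') (t : ℕ) :
    (∃ l, L[t]? = some l ∧ LvOK E I (stt I L K t) l ∧ stt I L K (t + 1) = nxt I (stt I L K t) l) ∨
    (L.length ≤ t ∧ stt I L K (t + 1) = stt I L K t) := by
  by_cases ht : t < L.length
  · left
    have h1 := run_ok h t L[t] (List.getElem?_eq_getElem ht)
    exact ⟨L[t], List.getElem?_eq_getElem ht, h1⟩
  · right
    refine ⟨by omega, ?_⟩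
    rw [stt_end h (t + 1) (by omega), stt_end h t (by omega)]

lemma stt_formed (h : SRun E I K L K') (hI : ∀ x, I (I x) = x) {x : Lam} {s : ℕ}
    (hs : stt I L K s x = I x) : ∀ t, s ≤ t → stt I L K t x = I x := by
  intro t ht
  induction t, ht using Nat.le_induction with
  | base => exact hs
  | succ t _ ih =>
    rcases stt_step h t with ⟨l, _, h2, h3⟩ | ⟨_, h3⟩
    · rw [h3]
      exact h2.formed hI ih
    · rw [h3, ih]

/-- the states of a label: as at the beginning, loose, or formed; once changed, never as at the
beginning unless formed -/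
lemma stt_cases (h : SRun E I K L K') {x : Lam} (t : ℕ) :
    stt I L K t x = K x ∨ stt I L K t x = x ∨ stt I L K t x = I x := by
  induction t with
  | zero => left; rw [stt_zero]
  | succ t ih =>
    rcases stt_step h t with ⟨l, _, h2, h3⟩ | ⟨_, h3⟩
    · rw [h3]
      rcases h2.cases3 x with h4 | h4 | h4
      · rw [h4]
        exact ih
      · exact Or.inr (Or.inl h4)
      · exact Or.inr (Or.inr h4)
    · rw [h3]
      exact ih

lemma stt_loose (h : SRun E I K L K') {x : Lam} {s : ℕ}
    (hs : stt I L K s x = x ∨ stt I L K s x = I x) :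
    ∀ t, s ≤ t → stt I L K t x = x ∨ stt I L K t x = I x := by
  intro t ht
  induction t, ht using Nat.le_induction with
  | base => exact hs
  | succ t _ ih =>
    rcases stt_step h t with ⟨l, _, h2, h3⟩ | ⟨_, h3⟩
    · rw [h3]
      rcases h2.cases3 x with h4 | h4 | h4
      · rw [h4]
        exact ih
      · exact Or.inl h4
      · exact Or.inr h4
    · rw [h3]
      exact ih

end

end BP2
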