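import Mathlib
import Pool.Agent.BP2.S.MainA

set_option autoImplicit false

/-! MP_475aca_co, part (S), Main: the times of a run -/

namespace BP2

/-- the first time with `p`, at most `Q + 1` -/
noncomputable def fstT (Q : ℕ) (p : ℕ → Prop) : ℕ := by
  classical
  exact Nat.find (⟨Q + 1, Or.inr rfl⟩ : ∃ t, p t ∨ t = Q + 1)

lemma fstT_le (Q : ℕ) (p : ℕ → Prop) : fstT Q p ≤ Q + 1 := by
  classical
  unfold fstT
  exact Nat.find_min' _ (Or.inr rfl)

lemma fstT_not {Q : ℕ} {p : ℕ → Prop} {t : ℕ} (h : t < fstT Q p) : ¬ p t := by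
  classical
  unfold fstT at h
  exact fun hp => Nat.find_min _ h (Or.inl hp)

lemma fstT_spec {Q : ℕ} {p : ℕ → Prop} (h : fstT Q p ≤ Q) : p (fstT Q p) := by
  classical
  have h1 : p (fstT Q p) ∨ fstT Q p = Q + 1 := by
    unfold fstT
    exact Nat.find_spec (⟨Q + 1, Or.inr rfl⟩ : ∃ t, p t ∨ t = Q + 1)
  rcases h1 with h1 | h1
  · exact h1
  · omega

lemma fstT_le_of {Q : ℕ} {p : ℕ → Prop} {t : ℕ} (h : p t) : fstT Q p ≤ t := by
  by_contra hcon
  push Not at hcon
  exact fstT_not hcon h

lemma fstT_congr {Q : ℕ} {p q : ℕ → Prop} (h : ∀ t, p t ↔ q t) : fstT Q p = fstT Q q := by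
  have : p = q := funext fun t => propext (h t)
  rw [this]

section
variable {Lam : Type*} [DecidableEq Lam]

/-- the time at which the adjacency of `x` to `I x` is formed -/
noncomputable def bT (I K : Lam → Lam) (L : List (Lv Lam)) (Q : ℕ) (x : Lam) : ℕ :=
  if I x = x then Q + 1 else fstT Q fun t => stt I L K t x = I x

/-- the time at which the adjacency of `x` to `S x` is opened -/
noncomputable def aT (S I K : Lam → Lam) (L : List (Lv Lam)) (Q : ℕ) (x : Lam) : ℕ :=
  if S x = x then 0 else if K x = I x ∧ S x = I x then 0 else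
    fstT Q fun t => stt I L K t x ≠ S x

end

section
variable {Lam : Type*} [Fintype Lam] [DecidableEq Lam] {E S I K K' : Lam → Lam}
  {L : List (Lv Lam)} {Q : ℕ}

/-- the data of a run from a cut of `S` -/
structure MRun (E S I K : Lam → Lam) (L : List (Lv Lam)) (K' : Lam → Lam) (Q : ℕ) : Prop where
  inv : ∀ x, I (I x) = x
  geo : Geo E S
  cut : Cut S K
  loose : ∀ x, I x = x → K x = x
  len : L.length ≤ Q
  run : SRun E I K L K'

omit [Fintype Lam] in
lemma bT_le (x : Lam) : bT I K L Q x ≤ Q + 1 := by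
  unfold bT
  split_ifs
  · exact le_refl _
  · exact fstT_le _ _

omit [Fintype Lam] in
lemma bT_top {x : Lam} (hx : I x = x) : bT I K L Q x = Q + 1 := by
  unfold bT
  rw [if_pos hx]

omit [Fintype Lam] in
lemma aT_top {x : Lam} (hx : S x = x) : aT S I K L Q x = 0 := by
  unfold aT
  rw [if_pos hx]

omit [Fintype Lam] in
lemma aT_le (x : Lam) : aT S I K L Q x ≤ Q + 1 := by
  unfold aT
  split_ifs
  · omega
  · omega
  · exact fstT_le _ _

lemma MRun.geo0 (h : MRun E S I K L K' Q) : Geo E K := h.geo.cut h.cut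

lemma MRun.geoT (h : MRun E S I K L K' Q) (t : ℕ) : Geo E (stt I L K t) :=
  stt_geo h.run h.inv h.geo0 t

/-- states: as in `S`, loose or formed -/
lemma MRun.cases (h : MRun E S I K L K' Q) (t : ℕ) (x : Lam) :
    stt I L K t x = S x ∨ stt I L K t x = x ∨ stt I L K t x = I x := by
  rcases stt_cases h.run (x := x) t with h1 | h1 | h1
  · rw [h1]
    rcases h.cut.sub x with h2 | h2
    · exact Or.inl h2
    · exact Or.inr (Or.inl h2)
  · exact Or.inr (Or.inl h1)
  · exact Or.inr (Or.inr h1)

/-- before the opening the label is as in `S` -/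
lemma MRun.st_lt (h : MRun E S I K L K' Q) {t : ℕ} {x : Lam} (ht : t < aT S I K L Q x) :
    stt I L K t x = S x := by
  unfold aT at ht
  split_ifs at ht with h1 h2
  · omega
  · omega
  · have := fstT_not ht
    push Not at this
    exact this

/-- after the opening the label is loose or formed -/
lemma MRun.st_ge (h : MRun E S I K L K' Q) {t : ℕ} {x : Lam} (ht : aT S I K L Q x ≤ t)
    (htQ : t ≤ Q) : stt I L K t x = x ∨ stt I L K t x = I x := by
  have key : stt I L K (aT S I K L Q x) x = x ∨ stt I L K (aT S I K L Q x) x = I x := by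
    by_cases h1 : S x = x
    · rw [aT_top h1, stt_zero]
      rcases h.cut.sub x with h2 | h2
      · left; rw [h2, h1]
      · left; exact h2
    · by_cases h2 : K x = I x ∧ S x = I x
      · have : aT S I K L Q x = 0 := by
          unfold aT
          rw [if_neg h1, if_pos h2]
        rw [this, stt_zero]
        exact Or.inr h2.1
      · have h3 : aT S I K L Q x = fstT Q fun t => stt I L K t x ≠ S x := by
          unfold aT
          rw [if_neg h1, if_neg h2]
        have h4 := fstT_spec (Q := Q) (p := fun t => stt I L K t x ≠ S x) (by rw [← h3]; omega)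
        rw [← h3] at h4
        rcases h.cases (aT S I K L Q x) x with h5 | h5 | h5
        · exact absurd h5 h4
        · exact Or.inl h5
        · exact Or.inr h5
  exact stt_loose h.run key t ht

/-- after the forming time the label is formed -/
lemma MRun.st_b (h : MRun E S I K L K' Q) {t : ℕ} {x : Lam} (ht : bT I K L Q x ≤ t)
    (htQ : t ≤ Q) : stt I L K t x = I x := by
  have h1 : ¬ I x = x := by
    intro h1
    rw [bT_top h1] at ht
    omega
  have h2 : bT I K L Q x = fstT Q fun t => stt I L K t x = I x := by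
    unfold bT
    rw [if_neg h1]
  have h3 := fstT_spec (Q := Q) (p := fun t => stt I L K t x = I x) (by rw [← h2]; omega)
  rw [← h2] at h3
  exact stt_formed h.run h.inv h3 t ht

/-- before the forming time the label is not formed, unless it has no partner -/
lemma MRun.st_b' (_h : MRun E S I K L K' Q) {t : ℕ} {x : Lam} (ht : t < bT I K L Q x)
    (h1 : I x ≠ x) : stt I L K t x ≠ I x := by
  unfold bT at ht
  rw [if_neg h1] at ht
  exact fstT_not ht

lemma MRun.ab (h : MRun E S I K L K' Q) (x : Lam) : aT S I K L Q x ≤ bT I K L Q x := by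
  by_contra hcon
  push Not at hcon
  have h0 := aT_le (S := S) (I := I) (K := K) (L := L) (Q := Q) x
  have h1 := h.st_lt hcon
  have h2 := h.st_b (le_refl (bT I K L Q x)) (by omega)
  rw [h1] at h2
  -- `S x = I x`
  have h3 : ¬ S x = x := by
    intro h3
    rw [aT_top h3] at hcon
    omega
  have h4 : ¬ (K x = I x ∧ S x = I x) := by
    intro h4
    unfold aT at hcon
    rw [if_neg h3, if_pos h4] at hcon
    omega
  have h5 : K x = x := by
    rcases h.cut.sub x with h6 | h6
    · exact absurd ⟨by rw [h6, h2], h2⟩ h4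
    · exact h6
  have h7 : aT S I K L Q x = fstT Q fun t => stt I L K t x ≠ S x := by
    unfold aT
    rw [if_neg h3, if_neg h4]
  have h8 : fstT Q (fun t => stt I L K t x ≠ S x) ≤ 0 := by
    apply fstT_le_of
    rw [stt_zero, h5]
    exact fun h9 => h3 h9.symm
  omega

/-- the state in terms of the times -/
lemma MRun.st_eq (h : MRun E S I K L K' Q) {t : ℕ} (htQ : t ≤ Q) (x : Lam) :
    stt I L K t x = Kt S I (aT S I K L Q) (bT I K L Q) t x := by
  unfold Kt
  split_ifs with h1 h2
  · exact h.st_lt h1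
  · rcases h.st_ge (x := x) (by omega) htQ with h3 | h3
    · exact h3
    · by_cases h4 : I x = x
      · rw [h3, h4]
      · exact absurd h3 (h.st_b' h2 h4)
  · exact h.st_b (by omega) htQ

lemma MRun.aS (h : MRun E S I K L K' Q) (x : Lam) : aT S I K L Q (S x) = aT S I K L Q x := by
  have hS := h.geo.Kinv
  have hK := h.cut.inv
  by_cases h1 : S x = x
  · rw [h1]
  have h1' : ¬ S (S x) = S x := by
    rw [hS]
    exact fun h2 => h1 h2.symm
  have h2 : (K (S x) = I (S x) ∧ S (S x) = I (S x)) ↔ (K x = I x ∧ S x = I x) := by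
    constructor
    · rintro ⟨h3, h4⟩
      have h5 : I x = S x := by
        rw [hS] at h4
        calc I x = I (I (S x)) := by rw [← h4]
          _ = S x := h.inv _
      refine ⟨?_, h5.symm⟩
      have h6 : K (S x) = x := by rw [h3, ← h4, hS]
      calc K x = K (K (S x)) := by rw [h6]
        _ = S x := hK _
        _ = I x := h5.symm
    · rintro ⟨h3, h4⟩
      have h5 : I (S x) = x := by rw [h4, h.inv]
      refine ⟨?_, by rw [hS, h5]⟩
      rw [h5, h4, ← h3, hK]
  have h3 : ∀ t, stt I L K t (S x) ≠ S (S x) ↔ stt I L K t x ≠ S x := by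
    intro t
    have hG := (h.geoT t).Kinv
    rw [not_iff_not, hS]
    constructor
    · intro h4
      rw [← hG (S x), h4]
    · intro h4
      rw [← h4, hG]
  unfold aT
  rw [if_neg h1, if_neg h1', fstT_congr h3]
  by_cases h5 : K x = I x ∧ S x = I x
  · rw [if_pos h5, if_pos (h2.2 h5)]
  · rw [if_neg h5, if_neg (fun h6 => h5 (h2.1 h6))]

lemma MRun.bI (h : MRun E S I K L K' Q) (x : Lam) : bT I K L Q (I x) = bT I K L Q x := by
  by_cases h1 : I x = x
  · rw [h1]
  have h1' : ¬ I (I x) = I x := by
    rw [h.inv]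
    exact fun h2 => h1 h2.symm
  unfold bT
  rw [if_neg h1, if_neg h1']
  apply fstT_congr
  intro t
  have hG := (h.geoT t).Kinv
  rw [h.inv]
  constructor
  · intro h4
    rw [← hG (I x), h4]
  · intro h4
    rw [← h4, hG]

lemma MRun.triv (h : MRun E S I K L K' Q) {x : Lam} (hx : bT I K L Q x = 0) : S x = I x := by
  have h1 := h.st_b (t := 0) (x := x) (by omega) (by omega)
  rw [stt_zero] at h1
  rcases h.cut.sub x with h2 | h2
  · rw [← h2, h1]
  · rw [h2] at h1
    rw [bT_top h1.symm] at hx
    omega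

lemma MRun.triv' (h : MRun E S I K L K' Q) {x : Lam} (hx : S x = I x) :
    aT S I K L Q x = 0 := by
  by_cases h1 : S x = x
  · exact aT_top h1
  by_cases h2 : K x = I x ∧ S x = I x
  · unfold aT
    rw [if_neg h1, if_pos h2]
  · have h5 : K x = x := by
      rcases h.cut.sub x with h6 | h6
      · exact absurd ⟨by rw [h6, hx], hx⟩ h2
      · exact h6
    have h8 : fstT Q (fun t => stt I L K t x ≠ S x) ≤ 0 := by
      apply fstT_le_of
      rw [stt_zero, h5]
      exact fun h9 => h1 h9.symm
    unfold aT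
    rw [if_neg h1, if_neg h2]
    omega

/-- the used labels of the level `t` are those with forming time `t + 1` -/
lemma MRun.used (h : MRun E S I K L K' Q) {t : ℕ} (ht : t < Q) (x : Lam) :
    bT I K L Q x = t + 1 ↔ ∃ l, L[t]? = some l ∧ x ∈ l.used I := by
  constructor
  · intro hb
    have h1 := h.st_b (t := t + 1) (x := x) (by omega) (by omega)
    have h2 : I x ≠ x := by
      intro h2
      rw [bT_top h2] at hb
      omega
    have h3 := h.st_b' (t := t) (x := x) (by omega) h2
    rcases stt_step h.run t with ⟨l, h4, h5, h6⟩ | ⟨_, h6⟩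
    · refine ⟨l, h4, ?_⟩
      rw [h6] at h1
      exact h5.used h3 h1 h2
    · rw [h6] at h1
      exact absurd h1 h3
  · rintro ⟨l, h1, h2⟩
    obtain ⟨h3, h4⟩ := run_ok h.run t l h1
    obtain ⟨h5, h6, h7⟩ := h3.of_used h.inv (h.geoT t).Kinv h2
    rw [← h4] at h5
    by_contra hne
    rcases Nat.lt_or_gt_of_ne hne with h8 | h8
    · exact h6 (h.st_b (by omega) (by omega))
    · exact h.st_b' h8 h7 h5

/-- the opened adjacencies of the level `t` -/
lemma MRun.opened (h : MRun E S I K L K' Q) {t : ℕ} (ht : t < Q) {x : Lam}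
    (hx : aT S I K L Q x = t + 1) : stt I L K t x = S x ∧ ∃ l, L[t]? = some l ∧
      ((∃ K1, l = .cut K1 ∧ K1 x ≠ stt I L K t x) ∨ x ∈ l.used I ∨ S x ∈ l.used I) := by
  have h1 : stt I L K t x = S x := h.st_lt (by omega)
  refine ⟨h1, ?_⟩
  have h2 : stt I L K (t + 1) x ≠ S x := by
    have h3 : ¬ S x = x := by
      intro h3
      rw [aT_top h3] at hx
      omega
    have h4 : ¬ (K x = I x ∧ S x = I x) := by
      intro h4
      unfold aT at hx
      rw [if_neg h3, if_pos h4] at hx
      omega
    have h7 : aT S I K L Q x = fstT Q fun t => stt I L K t x ≠ S x := by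
      unfold aT
      rw [if_neg h3, if_neg h4]
    have h8 := fstT_spec (Q := Q) (p := fun t => stt I L K t x ≠ S x) (by rw [← h7]; omega)
    rw [← h7, hx] at h8
    exact h8
  rcases stt_step h.run t with ⟨l, h4, h5, h6⟩ | ⟨_, h6⟩
  · refine ⟨l, h4, ?_⟩
    rw [h6] at h2
    have := h5.opened (x := x) (by rw [h1]; exact h2)
    rw [h1] at this ⊢
    exact this
  · rw [h6] at h2
    exact absurd h1 h2

/-- at a local level: a used label was in a gap -/
lemma MRun.loc_gap (h : MRun E S I K L K' Q) {t : ℕ} (ht : t < Q) {O : Finset Lam}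
    (hO : L[t]? = some (Lv.loc O)) {x : Lam} (hx : x ∈ locU I O) :
    stt I L K t x = S x ∧ S x ≠ x ∧ S x ≠ I x ∧ aT S I K L Q x = t + 1 ∧
      bT I K L Q x = t + 1 := by
  obtain ⟨h1, h2⟩ := run_ok h.run t _ hO
  have h3 : Loc E I (stt I L K t) O := by
    cases h1 with
    | loc O h1 => exact h1
  have hG := (h.geoT t).Kinv
  have hne : stt I L K t x ≠ x ∧ stt I L K t x ≠ I x := by
    rw [mem_locU h.inv] at hx
    rcases hx with hx | hx
    · exact ⟨h3.gap1 x hx, h3.unf x hx⟩
    · have h4 := h3.gap2 _ hx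
      have h5 := h3.unf _ hx
      rw [h.inv] at h4 h5
      refine ⟨h4, fun h6 => h5 ?_⟩
      rw [← h6, hG]
  have hS : stt I L K t x = S x := by
    rcases h.cases t x with h4 | h4 | h4
    · exact h4
    · exact absurd h4 hne.1
    · exact absurd h4 hne.2
  have hb : bT I K L Q x = t + 1 := (h.used ht x).2 ⟨_, hO, by simpa [Lv.used] using hx⟩
  have ha : ¬ aT S I K L Q x ≤ t := by
    intro ha
    rcases h.st_ge ha (by omega) with h4 | h4
    · exact hne.1 h4
    · exact hne.2 h4
  have hab := h.ab x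
  rw [hS] at hne
  exact ⟨hS, hne.1, hne.2, by omega, hb⟩

lemma MRun.loc (h : MRun E S I K L K' Q) {t : ℕ} {O : Finset Lam}
    (hO : L[t]? = some (Lv.loc O)) : Loc E I (stt I L K t) O := by
  obtain ⟨h1, h2⟩ := run_ok h.run t _ hO
  cases h1 with
  | loc O h1 => exact h1

lemma MRun.far (h : MRun E S I K L K' Q) {t : ℕ} {U : Finset Lam}
    (hU : L[t]? = some (Lv.far U)) : Far E I (stt I L K t) U := by
  obtain ⟨h1, h2⟩ := run_ok h.run t _ hU
  cases h1 with
  | far O h1 => exact h1

/-- the gap mate of a used label of a local level is not used at this level -/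
lemma MRun.loc_mate (h : MRun E S I K L K' Q) {t : ℕ} (ht : t < Q) {O : Finset Lam}
    (hO : L[t]? = some (Lv.loc O)) {x : Lam} (hx : x ∈ locU I O) : S x ∉ locU I O := by
  intro hx'
  have hL := h.loc hO
  have hG := h.geoT t
  obtain ⟨h1, h2, h3, _, _⟩ := h.loc_gap ht hO hx
  -- the first label of the unit of `x`
  have key : ∀ y, y ∈ locU I O → ∃ p ∈ O, (y = p ∨ y = I p) ∧ Same E (stt I L K t) y p := by
    intro y hy
    rw [mem_locU h.inv] at hy
    rcases hy with hy | hy
    · exact ⟨y, hy, Or.inl rfl, Same.refl _ _ _⟩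
    · refine ⟨I y, hy, Or.inr (h.inv y).symm, ?_⟩
      have := hL.body _ hy
      rw [h.inv] at this
      exact hG.symm this
  obtain ⟨p, hp, hxp, hs⟩ := key x hx
  obtain ⟨q, hq, hxq, hs'⟩ := key (S x) hx'
  have hsx : Same E (stt I L K t) x (S x) := by
    rw [← h1]
    exact same_K _ _ _
  have hpq : p = q := hL.sep p hp q hq ((hG.symm hs).trans (hsx.trans hs'))
  subst hpq
  rcases hxp with hxp | hxp <;> rcases hxq with hxq | hxq
  · exact h2 (by rw [hxq, hxp])
  · exact h3 (by rw [hxq, hxp])
  · apply h3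
    rw [hxq, hxp, h.inv]
  · exact h2 (by rw [hxq, ← hxp])

end

end BP2
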