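import Mathlib
import Pool.Agent.BP2.S.MainB

set_option autoImplicit false

/-! MP_475aca_co, part (S), Main: the numerical conditions -/

namespace BP2

open Finset

section
variable {Lam : Type*} [Fintype Lam] [DecidableEq Lam]

open Classical in
/-- the labels which are cut at some level -/
noncomputable def cutSet (I K : Lam → Lam) (L : List (Lv Lam)) : Finset Lam :=
  univ.filter fun x => ∃ t K1, L[t]? = some (Lv.cut K1) ∧ K1 x ≠ stt I L K t x

omit [DecidableEq Lam] in
lemma mem_cutSet [DecidableEq Lam] {I K : Lam → Lam} {L : List (Lv Lam)} {x : Lam} :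
    x ∈ cutSet I K L ↔ ∃ t K1, L[t]? = some (Lv.cut K1) ∧ K1 x ≠ stt I L K t x := by
  classical
  unfold cutSet
  simp

lemma card_cutSet_le (I : Lam → Lam) (L : List (Lv Lam)) :
    ∀ K : Lam → Lam, (cutSet I K L).card ≤ cutCount I K L := by
  classical
  induction L with
  | nil =>
    intro K
    simp [cutSet, cutCount]
  | cons l L ih =>
    intro K
    have key : ∀ x ∈ cutSet I K (l :: L), (∃ K1, l = Lv.cut K1 ∧ K1 x ≠ K x) ∨
        x ∈ cutSet I (nxt I K l) L := by
      intro x hx
      unfold cutSet at hx ⊢
      rw [mem_filter] at hx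
      obtain ⟨_, t, K1, h1, h2⟩ := hx
      cases t with
      | zero =>
        left
        simp only [List.getElem?_cons_zero, Option.some.injEq] at h1
        exact ⟨K1, h1, by simpa using h2⟩
      | succ t =>
        right
        rw [mem_filter]
        exact ⟨mem_univ _, t, K1, by simpa using h1, h2⟩
    cases l with
    | cut K1 =>
      have h1 : cutSet I K (Lv.cut K1 :: L) ⊆
          (univ.filter fun x => K1 x ≠ K x) ∪ cutSet I K1 L := by
        intro x hx
        rcases key x hx with ⟨K2, h2, h3⟩ | h2
        · rw [mem_union, mem_filter]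
          left
          cases h2
          exact ⟨mem_univ _, h3⟩
        · exact mem_union_right _ h2
      calc _ ≤ _ := card_le_card h1
        _ ≤ _ := card_union_le _ _
        _ ≤ _ := by
          unfold cutCount
          exact Nat.add_le_add_left (ih K1) _
    | far U =>
      have h1 : cutSet I K (Lv.far U :: L) ⊆ cutSet I (step I K U) L := by
        intro x hx
        rcases key x hx with ⟨K2, h2, _⟩ | h2
        · cases h2
        · exact h2
      exact (card_le_card h1).trans (ih _)
    | loc O =>
      have h1 : cutSet I K (Lv.loc O :: L) ⊆ cutSet I (step I K (locU I O)) L := by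
        intro x hx
        rcases key x hx with ⟨K2, h2, _⟩ | h2
        · cases h2
        · exact h2
      exact (card_le_card h1).trans (ih _)

/-- the balance error of the level `t` -/
def imbAt (I K : Lam → Lam) (L : List (Lv Lam)) (t : ℕ) : ℕ :=
  match L[t]? with
  | some (Lv.loc O) => imb I (stt I L K t) O ((L.drop (t + 1)).map (Lv.used I))
  | _ => 0

lemma sum_imbAt_le (I : Lam → Lam) (L : List (Lv Lam)) :
    ∀ (K : Lam → Lam) (N : ℕ), ∑ t ∈ range N, imbAt I K L t ≤ imbCount I K L := by
  induction L with
  | nil =>
    intro K N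
    simp [imbAt]
  | cons l L ih =>
    intro K N
    cases N with
    | zero => simp
    | succ N =>
      rw [Finset.sum_range_succ']
      have h1 : ∀ t, imbAt I K (l :: L) (t + 1) = imbAt I (nxt I K l) L t := fun t => rfl
      rw [Finset.sum_congr rfl fun t _ => h1 t]
      have h2 := ih (nxt I K l) N
      cases l with
      | cut K1 =>
        have h3 : imbAt I K (Lv.cut K1 :: L) 0 = 0 := rfl
        rw [h3]
        exact h2
      | far U =>
        have h3 : imbAt I K (Lv.far U :: L) 0 = 0 := rfl
        rw [h3]
        exact h2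
      | loc O =>
        have h3 : imbAt I K (Lv.loc O :: L) 0 = imb I K O (L.map (Lv.used I)) := by
          unfold imbAt
          simp
        rw [h3, add_comm]
        exact Nat.add_le_add_left h2 _

omit [Fintype Lam] [DecidableEq Lam] in
/-- a sum over times is at most the sum over the list -/
lemma sum_le_list {α : Type*} (g : α → ℕ) (M : List α) :
    ∀ (N : ℕ) (F : ℕ → ℕ), (∀ i < N, F i ≤ (M[i]?).elim 0 g) →
      ∑ i ∈ range N, F i ≤ (M.map g).sum := by
  induction M with
  | nil =>
    intro N F hF
    rw [Finset.sum_eq_zero]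
    · simp
    · intro i hi
      have := hF i (mem_range.1 hi)
      simpa using this
  | cons a M ih =>
    intro N F hF
    cases N with
    | zero => simp
    | succ N =>
      rw [Finset.sum_range_succ', List.map_cons, List.sum_cons, add_comm]
      refine Nat.add_le_add ?_ ?_
      · have := hF 0 (by omega)
        simpa using this
      · refine ih N _ ?_
        intro i hi
        have := hF (i + 1) (by omega)
        simpa using this

end

section
variable {Lam : Type*} [Fintype Lam] [DecidableEq Lam] {E S I K K' : Lam → Lam}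
  {L : List (Lv Lam)} {Q : ℕ}

lemma MRun.count_start (h : MRun E S I K L K' Q) :
    (univ.filter fun x => aT S I K L Q x = 0 ∧ 0 < bT I K L Q x).card ≤
      (univ.filter fun x => S x = x).card + (univ.filter fun x => K x ≠ S x).card := by
  refine le_trans (card_le_card ?_) (card_union_le _ _)
  intro x hx
  rw [mem_filter] at hx
  rw [mem_union, mem_filter, mem_filter]
  obtain ⟨_, h1, h2⟩ := hx
  by_cases h3 : S x = x
  · exact Or.inl ⟨mem_univ _, h3⟩
  right
  refine ⟨mem_univ _, ?_⟩
  intro h4
  have h5 := h.st_ge (t := 0) (x := x) (by omega) (by omega)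
  rw [stt_zero] at h5
  rcases h5 with h5 | h5
  · exact h3 (by rw [← h4, h5])
  · have h6 : I x ≠ x := by
      intro h6
      exact h3 (by rw [← h4, h5, h6])
    have h7 := h.st_b' (t := 0) h2 h6
    rw [stt_zero] at h7
    exact h7 h5

lemma MRun.count_fin (h : MRun E S I K L K' Q) :
    (univ.filter fun x => Q < bT I K L Q x).card ≤
      (univ.filter fun x => I x = x).card + (univ.filter fun x => K' x ≠ I x).card := by
  refine le_trans (card_le_card ?_) (card_union_le _ _)
  intro x hx
  rw [mem_filter] at hx
  rw [mem_union, mem_filter, mem_filter]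
  by_cases h3 : I x = x
  · exact Or.inl ⟨mem_univ _, h3⟩
  right
  refine ⟨mem_univ _, ?_⟩
  have := h.st_b' (t := Q) hx.2 h3
  rwa [stt_end h.run Q h.len] at this

lemma MRun.count_loose (h : MRun E S I K L K' Q) :
    2 * (univ.filter fun x => aT S I K L Q x < bT I K L Q x).card ≤ Fintype.card Lam +
      ((univ.filter fun x => aT S I K L Q x = 0 ∧ 0 < bT I K L Q x).card + cutCount I K L) := by
  set X := univ.filter fun x => aT S I K L Q x < bT I K L Q x with hX
  set X0 := univ.filter fun x => aT S I K L Q x = 0 ∧ 0 < bT I K L Q x with hX0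
  set Y := univ.filter fun x => ¬ aT S I K L Q x < bT I K L Q x with hY
  have h1 : X.card + Y.card = Fintype.card Lam := by
    rw [hX, hY, Finset.card_filter_add_card_filter_not, card_univ]
  -- the remaining labels of `X` inject into `Y`
  have h2 : (X \ (X0 ∪ cutSet I K L)).card ≤ Y.card := by
    refine Finset.card_le_card_of_injOn S ?_ ?_
    · intro x hx
      rw [mem_coe, mem_sdiff, mem_union, not_or] at hx
      obtain ⟨hx1, hx2, hx3⟩ := hx
      rw [hX, mem_filter] at hx1
      have ha : aT S I K L Q x ≠ 0 := by
        intro ha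
        apply hx2
        rw [hX0, mem_filter]
        exact ⟨mem_univ _, ha, by omega⟩
      obtain ⟨t, ht⟩ := Nat.exists_eq_succ_of_ne_zero ha
      have hb := bT_le (I := I) (K := K) (L := L) (Q := Q) x
      have htQ : t < Q := by omega
      obtain ⟨h3, l, h4, h5⟩ := h.opened htQ ht
      have h6 : S x ∈ l.used I := by
        rcases h5 with ⟨K1, h6, h7⟩ | h6 | h6
        · exfalso
          apply hx3
          rw [mem_cutSet]
          exact ⟨t, K1, by rw [h4, h6], h7⟩
        · exfalso
          have := (h.used htQ x).2 ⟨l, h4, h6⟩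
          omega
        · exact h6
      have h7 := (h.used htQ (S x)).2 ⟨l, h4, h6⟩
      have h8 := h.aS x
      rw [hY, mem_coe, mem_filter]
      exact ⟨mem_univ _, by omega⟩
    · intro x _ y _ hxy
      rw [← h.geo.Kinv x, ← h.geo.Kinv y]
      exact congrArg S hxy
  have h3 : X.card ≤ (X \ (X0 ∪ cutSet I K L)).card + (X0 ∪ cutSet I K L).card := by
    have := Finset.card_le_card_sdiff_add_card (s := X) (t := X0 ∪ cutSet I K L)
    omega
  have h4 := card_union_le X0 (cutSet I K L)
  have h5 := card_cutSet_le I L K
  omega

/-- the first labels of the local levels -/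
def PT (I K : Lam → Lam) (L : List (Lv Lam)) (Q : ℕ) (x : Lam) : Prop :=
  ∃ t O, t < Q ∧ L[t]? = some (Lv.loc O) ∧ x ∈ O ∧ bT I K L Q x = t + 1

lemma MRun.PT_iff (h : MRun E S I K L K' Q) {t : ℕ} (ht : t < Q) {O : Finset Lam}
    (hO : L[t]? = some (Lv.loc O)) {x : Lam} :
    x ∈ O ↔ bT I K L Q x = t + 1 ∧ PT I K L Q x := by
  constructor
  · intro hx
    have hx' : x ∈ locU I O := by
      rw [mem_locU h.inv]
      exact Or.inl hx
    have hb := (h.loc_gap ht hO hx').2.2.2.2
    exact ⟨hb, t, O, ht, hO, hx, hb⟩
  · rintro ⟨hb, t', O', _, hO', hx, hb'⟩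
    have : t' = t := by omega
    subst this
    rw [hO] at hO'
    cases hO'
    exact hx

open Classical in
lemma MRun.bal_level (h : MRun E S I K L K' Q) {t : ℕ} (ht : t < Q) {O : Finset Lam}
    (hO : L[t]? = some (Lv.loc O)) :
    ∑ j ∈ range (Q + 2), Int.natAbs (((O.filter fun x => bT I K L Q (S x) = j).card : ℤ) -
        (O.filter fun x => bT I K L Q (S (I x)) = j).card) ≤
      imbAt I K L t + (univ.filter fun x => aT S I K L Q x = t + 1 ∧ Q < bT I K L Q x).card := by
  have hL := h.loc hO
  have hU1 : ∀ x ∈ O, x ∈ locU I O := fun x hx => by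
    rw [mem_locU h.inv]
    exact Or.inl hx
  have hU2 : ∀ x ∈ O, I x ∈ locU I O := fun x hx => by
    rw [mem_locU h.inv, h.inv]
    exact Or.inr hx
  -- the times of the gap mates
  have hm : ∀ x ∈ locU I O, aT S I K L Q (S x) = t + 1 ∧ t + 1 < bT I K L Q (S x) := by
    intro x hx
    have h1 := (h.loc_gap ht hO hx).2.2.2.1
    have h2 := h.aS x
    have h3 := h.ab (S x)
    have h4 : bT I K L Q (S x) ≠ t + 1 := by
      intro h4
      obtain ⟨l, h5, h6⟩ := (h.used ht (S x)).1 h4
      rw [hO] at h5
      cases h5
      exact h.loc_mate ht hO hx h6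
    omega
  set F : ℕ → ℕ := fun j => Int.natAbs (((O.filter fun x => bT I K L Q (S x) = j).card : ℤ) -
        (O.filter fun x => bT I K L Q (S (I x)) = j).card) with hF
  -- early times
  have h0 : ∀ j < t + 2, F j = 0 := by
    intro j hj
    have e1 : (O.filter fun x => bT I K L Q (S x) = j) = ∅ := by
      rw [filter_eq_empty_iff]
      intro x hx h1
      have := (hm x (hU1 x hx)).2
      omega
    have e2 : (O.filter fun x => bT I K L Q (S (I x)) = j) = ∅ := by
      rw [filter_eq_empty_iff]
      intro x hx h1
      have := (hm _ (hU2 x hx)).2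
      omega
    simp only [hF]
    rw [e1, e2]
    simp
  -- the last time
  have hlast : F (Q + 1) ≤
      (univ.filter fun x => aT S I K L Q x = t + 1 ∧ Q < bT I K L Q x).card := by
    have e1 : (O.filter fun x => bT I K L Q (S x) = Q + 1).card ≤
        (univ.filter fun x => aT S I K L Q x = t + 1 ∧ Q < bT I K L Q x).card := by
      refine Finset.card_le_card_of_injOn S ?_ ?_
      · intro x hx
        rw [mem_coe, mem_filter] at hx
        rw [mem_coe, mem_filter]
        exact ⟨mem_univ _, (hm x (hU1 x hx.1)).1, by omega⟩
      · intro x _ y _ hxy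
        rw [← h.geo.Kinv x, ← h.geo.Kinv y]
        exact congrArg S hxy
    have e2 : (O.filter fun x => bT I K L Q (S (I x)) = Q + 1).card ≤
        (univ.filter fun x => aT S I K L Q x = t + 1 ∧ Q < bT I K L Q x).card := by
      refine Finset.card_le_card_of_injOn (fun x => S (I x)) ?_ ?_
      · intro x hx
        rw [mem_coe, mem_filter] at hx
        rw [mem_coe, mem_filter]
        exact ⟨mem_univ _, (hm _ (hU2 x hx.1)).1, by show Q < bT I K L Q (S (I x)); omega⟩
      · intro x _ y _ hxy
        have h1 : I x = I y := by
          rw [← h.geo.Kinv (I x), ← h.geo.Kinv (I y)]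
          exact congrArg S hxy
        rw [← h.inv x, ← h.inv y]
        exact congrArg I h1
    simp only [hF]
    omega
  -- the times in between
  have hmid : ∑ i ∈ range (Q - (t + 1)), F (t + 2 + i) ≤ imbAt I K L t := by
    have h1 : imbAt I K L t = imb I (stt I L K t) O ((L.drop (t + 1)).map (Lv.used I)) := by
      unfold imbAt
      rw [hO]
    rw [h1, imb, List.map_map]
    refine sum_le_list _ _ _ _ ?_
    intro i hi
    have hj : t + 1 + i < Q := by omega
    rw [List.getElem?_drop]
    -- used labels of the level `t + 1 + i`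
    have hu := fun x => h.used hj x
    have e0 : t + 2 + i = t + 1 + i + 1 := by omega
    cases hl : L[t + 1 + i]? with
    | none =>
      have e1 : ∀ x, ¬ bT I K L Q x = t + 2 + i := by
        intro x hx
        rw [e0, hu x] at hx
        obtain ⟨l, h2, _⟩ := hx
        rw [hl] at h2
        cases h2
      simp only [hF]
      rw [filter_eq_empty_iff.2 fun x _ => e1 (S x), filter_eq_empty_iff.2 fun x _ => e1 (S (I x))]
      simp
    | some l =>
      have e1 : ∀ x, bT I K L Q x = t + 2 + i ↔ x ∈ l.used I := by
        intro x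
        rw [e0, hu x]
        constructor
        · rintro ⟨l', h2, h3⟩
          rw [hl] at h2
          cases h2
          exact h3
        · intro h3
          exact ⟨l, hl, h3⟩
      have e2 : (O.filter fun x => bT I K L Q (S x) = t + 2 + i) =
          O.filter fun p => stt I L K t p ∈ l.used I := by
        refine filter_congr fun x hx => ?_
        rw [e1, (h.loc_gap ht hO (hU1 x hx)).1]
      have e3 : (O.filter fun x => bT I K L Q (S (I x)) = t + 2 + i) =
          O.filter fun p => stt I L K t (I p) ∈ l.used I := by
        refine filter_congr fun x hx => ?_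
        rw [e1, (h.loc_gap ht hO (hU2 x hx)).1]
      simp only [hF, Option.elim_some, Function.comp_apply]
      rw [e2, e3]
  have hsum : ∑ j ∈ range (Q + 2), F j =
      ∑ j ∈ range (t + 2), F j + ∑ i ∈ range (Q - (t + 1)), F (t + 2 + i) + F (Q + 1) := by
    rw [Finset.sum_range_succ]
    congr 1
    have e : Q + 1 = (t + 2) + (Q - (t + 1)) := by omega
    rw [e, Finset.sum_range_add]
  rw [hsum, Finset.sum_eq_zero (fun j hj => h0 j (mem_range.1 hj))]
  omega

end

end BP2
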