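import Mathlib
import Pool.Agent.BP2.S.MainC

set_option autoImplicit false

/-! MP_475aca_co, part (S), Main: the labels without the floor -/

namespace BP2

open Finset Function

section
variable {L : Type*} {f : L}

open Classical in
/-- an involution on the labels without the floor -/
noncomputable def rst (f : L) (S : L → L) (x : {x : L // x ≠ f}) : {x : L // x ≠ f} :=
  if h : S x = f then x else ⟨S x, h⟩

open Classical in
/-- the extension by the loose floor -/
noncomputable def ext (K : {x : L // x ≠ f} → {x : L // x ≠ f}) (z : L) : L :=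
  if h : z = f then f else (K ⟨z, h⟩ : L)

lemma rst_val {S : L → L} {x : {x : L // x ≠ f}} (h : S x = f → False) :
    (rst f S x : L) = S x := by
  unfold rst
  rw [dif_neg (fun h' => h h')]

lemma rst_self {S : L → L} {x : {x : L // x ≠ f}} : rst f S x = x ↔ S x = x ∨ S x = f := by
  by_cases h : S x = f
  · unfold rst
    rw [dif_pos h]
    simp [h]
  · constructor
    · intro h1
      left
      rw [← rst_val (f := f) (S := S) (x := x) h, h1]
    · rintro (h1 | h1)
      · apply Subtype.ext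
        rw [rst_val h, h1]
      · exact absurd h1 h

lemma rst_ne {S : L → L} {x : {x : L // x ≠ f}} (h : rst f S x ≠ x) : S x ≠ f ∧ S x ≠ x := by
  rw [ne_eq, rst_self, not_or] at h
  exact ⟨h.2, h.1⟩

lemma rst_inv {S : L → L} (hS : ∀ x, S (S x) = x) (x : {x : L // x ≠ f}) :
    rst f S (rst f S x) = x := by
  by_cases h : rst f S x = x
  · rw [h, h]
  · have h1 := rst_ne h
    have h2 : (rst f S x : L) = S x := rst_val h1.1
    have h3 : S (rst f S x : L) = f → False := by
      rw [h2, hS]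
      exact x.2
    apply Subtype.ext
    rw [rst_val h3, h2, hS]

lemma ext_ne (K : {x : L // x ≠ f} → {x : L // x ≠ f}) {z : L} (h : z ≠ f) :
    ext K z = (K ⟨z, h⟩ : L) := by
  unfold ext
  rw [dif_neg h]

lemma ext_f (K : {x : L // x ≠ f} → {x : L // x ≠ f}) : ext K f = f := by
  unfold ext
  rw [dif_pos rfl]

/-- a closed set which contains `x` contains its body -/
lemma same_cl {E : L → L} {K : {x : L // x ≠ f} → {x : L // x ≠ f}} {C : Set L}
    (hC : Cl E (ext K) C) {x y : {x : L // x ≠ f}} (h : Same (rst f E) K x y) (hx : (x : L) ∈ C) :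
    (y : L) ∈ C := by
  induction h with
  | refl => exact hx
  | @tail b c _ h2 ih =>
    rcases h2 with h2 | h2
    · subst h2
      by_cases hb : E b = f
      · have h3 : rst f E b = b := rst_self.2 (Or.inr hb)
        rw [h3]
        exact ih
      · rw [rst_val hb]
        exact (hC _ ih).1
    · subst h2
      have := (hC _ ih).2
      rwa [ext_ne K b.2] at this

lemma conn_ext {E : L → L} (hE : ∀ x, E (E x) = x) (hf : E f = f)
    {K : {x : L // x ≠ f} → {x : L // x ≠ f}} {x y : {x : L // x ≠ f}} :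
    Conn E (ext K) x y ↔ Same (rst f E) K x y := by
  constructor
  · intro h
    have h1 := h {z | ∃ hz : z ≠ f, Same (rst f E) K x ⟨z, hz⟩} ?_ ⟨x.2, Same.refl _ _ _⟩
    · exact h1.2
    · rintro z ⟨hz, h1⟩
      have hEz : E z ≠ f := by
        intro h2
        apply hz
        rw [← hE z, h2, hf]
      refine ⟨⟨hEz, ?_⟩, ?_⟩
      · have h2 : rst f E ⟨z, hz⟩ = ⟨E z, hEz⟩ := Subtype.ext (rst_val hEz)
        rw [← h2]
        exact h1.trans (same_E _ _ _)
      · rw [ext_ne K hz]
        exact ⟨(K ⟨z, hz⟩).2, h1.trans (same_K _ _ _)⟩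
  · intro h C hC hx
    exact same_cl hC h hx

lemma acyc_ext {E : L → L} (hf : E f = f) {K : {x : L // x ≠ f} → {x : L // x ≠ f}}
    (hG : Geo (rst f E) K) : Acyc E (ext K) := by
  intro C hC hne
  obtain ⟨x, hx⟩ := hne
  by_cases hxf : x = f
  · subst hxf
    exact ⟨x, hx, Or.inl hf⟩
  · obtain ⟨z, h1, h2⟩ := hG.acyc ⟨x, hxf⟩
    refine ⟨z, same_cl hC h1 hx, Or.inr ?_⟩
    rw [ext_ne K z.2]
    exact congrArg Subtype.val h2

open Classical in
lemma cut_ext {K : {x : L // x ≠ f} → {x : L // x ≠ f}} (x : {x : L // x ≠ f}) :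
    cut (ext K) (x : L) = ext (cut K x) := by
  funext z
  by_cases hz : z = f
  · subst hz
    rw [ext_f]
    unfold cut
    split_ifs
    · rfl
    · rw [ext_f]
  · rw [ext_ne _ hz]
    unfold cut
    have h1 : (z = (x : L) ∨ z = ext K x) ↔ ((⟨z, hz⟩ : {x : L // x ≠ f}) = x ∨
        (⟨z, hz⟩ : {x : L // x ≠ f}) = K x) := by
      rw [ext_ne K x.2, Subtype.ext_iff, Subtype.ext_iff]
    by_cases h2 : z = (x : L) ∨ z = ext K x
    · rw [if_pos h2, if_pos (h1.1 h2)]
    · rw [if_neg h2, if_neg (fun h3 => h2 (h1.2 h3)), ext_ne _ hz]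

/-- the geometry of an arrangement -/
lemma geo_rst {E S : L → L} (hE : IsEl E) (hf : E f = f) (hS : IsArr E S)
    (hne : ∃ x : L, x ≠ f) : Geo (rst f E) (rst f S) := by
  have hEf : ∀ x, x ≠ f → E x ≠ f := by
    intro x hx h2
    apply hx
    rw [← hE.invol x, h2, hf]
  have hEx : ∀ x, x ≠ f → E x ≠ x := fun x hx h => hx (hE.floor.unique h hf)
  refine ⟨rst_inv hE.invol, ?_, rst_inv hS.invol, ?_⟩
  · intro x h
    rcases rst_self.1 h with h1 | h1
    · exact hEx x x.2 h1
    · exact hEf x x.2 h1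
  · intro x
    by_contra hcon
    push Not at hcon
    -- the body is closed under `E` and `S`
    have h1 : Cl E S {z | ∃ hz : z ≠ f, Same (rst f E) (rst f S) x ⟨z, hz⟩} := by
      rintro z ⟨hz, h1⟩
      refine ⟨⟨hEf z hz, ?_⟩, ?_⟩
      · have h2 : rst f E ⟨z, hz⟩ = ⟨E z, hEf z hz⟩ := Subtype.ext (rst_val (hEf z hz))
        rw [← h2]
        exact h1.trans (same_E _ _ _)
      · have h2 := hcon _ h1
        obtain ⟨h3, _⟩ := rst_ne h2
        refine ⟨h3, ?_⟩
        have h4 : rst f S ⟨z, hz⟩ = ⟨S z, h3⟩ := Subtype.ext (rst_val h3)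
        rw [← h4]
        exact h1.trans (same_K _ _ _)
    have h2 := hS.conn x f _ h1 ⟨x.2, Same.refl _ _ _⟩
    exact h2.1 rfl

/-- the target line -/
lemma tgt_rst {E I : L → L} (hE : IsEl E) (hf : E f = f) (hI : IsArr E I)
    (hne : ∃ x : L, x ≠ f) : Tgt (rst f E) (rst f I) := by
  have hEf : ∀ x, x ≠ f → E x ≠ f := by
    intro x hx h2
    apply hx
    rw [← hE.invol x, h2, hf]
  have hIf : I f ≠ f := by
    intro h
    obtain ⟨x, hx⟩ := hne
    have h1 : Cl E I {f} := by
      rintro z rfl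
      exact ⟨hf, h⟩
    exact hx (hI.conn f x _ h1 rfl)
  have hG := geo_rst hE hf hI hne
  have key : ∀ x, Same (rst f E) (rst f I) x ⟨I f, hIf⟩ := by
    intro x
    by_contra hcon
    have h1 : Cl E I {z | ∃ hz : z ≠ f, Same (rst f E) (rst f I) x ⟨z, hz⟩} := by
      rintro z ⟨hz, h1⟩
      refine ⟨⟨hEf z hz, ?_⟩, ?_⟩
      · have h2 : rst f E ⟨z, hz⟩ = ⟨E z, hEf z hz⟩ := Subtype.ext (rst_val (hEf z hz))
        rw [← h2]
        exact h1.trans (same_E _ _ _)
      · have h3 : I z ≠ f := by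
          intro h3
          apply hcon
          have h4 : (⟨z, hz⟩ : {x : L // x ≠ f}) = ⟨I f, hIf⟩ := by
            apply Subtype.ext
            show z = I f
            have h5 := hI.invol z
            rw [h3] at h5
            exact h5.symm
          rwa [h4] at h1
        refine ⟨h3, ?_⟩
        have h4 : rst f I ⟨z, hz⟩ = ⟨I z, h3⟩ := Subtype.ext (rst_val h3)
        rw [← h4]
        exact h1.trans (same_K _ _ _)
    have h2 := hI.conn x f _ h1 ⟨x.2, Same.refl _ _ _⟩
    exact h2.1 rfl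
  refine ⟨rst_inv hI.invol, ?_, ⟨I f, hIf⟩, ?_⟩
  · intro x y
    exact (key x).trans (Same.symm hG.Einv hG.Kinv (key y))
  · rw [rst_self]
    right
    exact hI.invol f

lemma card_rst_self [Fintype {x : L // x ≠ f}] {E S : L → L} (hS : IsArr E S)
    [DecidablePred fun x : {x : L // x ≠ f} => rst f S x = x] :
    (univ.filter fun x : {x : L // x ≠ f} => rst f S x = x).card ≤ 2 := by
  classical
  obtain ⟨t, ht, ht'⟩ := hS.top
  have h1 : (univ.filter fun x : {x : L // x ≠ f} => rst f S x = x).card ≤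
      ({t, S f} : Finset L).card := by
    refine Finset.card_le_card_of_injOn Subtype.val ?_ ?_
    · intro x hx
      rw [mem_coe, mem_filter] at hx
      rw [mem_coe, mem_insert, mem_singleton]
      rcases rst_self.1 hx.2 with h2 | h2
      · left
        exact ht' _ h2
      · right
        have h5 := hS.invol (x : L)
        rw [h2] at h5
        exact h5.symm
    · intro x _ y _ hxy
      exact Subtype.ext hxy
  exact h1.trans Finset.card_le_two

lemma card_le_sub [Fintype L] [Fintype {x : L // x ≠ f}] (p : L → Prop) [DecidablePred p]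
    [DecidablePred fun x : {x : L // x ≠ f} => p (x : L)] :
    (univ.filter p).card ≤ 1 + (univ.filter fun x : {x : L // x ≠ f} => p (x : L)).card := by
  classical
  have h1 : univ.filter p ⊆ {f} ∪ (univ.filter fun x : {x : L // x ≠ f} => p (x : L)).image
      Subtype.val := by
    intro x hx
    rw [mem_filter] at hx
    rw [mem_union, mem_singleton, mem_image]
    by_cases h : x = f
    · exact Or.inl h
    · refine Or.inr ⟨⟨x, h⟩, ?_, rfl⟩
      rw [mem_filter]
      exact ⟨mem_univ _, hx.2⟩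
  refine (card_le_card h1).trans ((card_union_le _ _).trans ?_)
  rw [card_singleton]
  exact Nat.add_le_add_left card_image_le _

lemma card_sub [Fintype L] [Fintype {x : L // x ≠ f}] {n : ℕ} (hn : Fintype.card L = 2 * n + 1) :
    Fintype.card {x : L // x ≠ f} = 2 * n := by
  classical
  have := Fintype.card_subtype_compl (fun x : L => x = f)
  rw [Fintype.card_subtype_eq, hn] at this
  rw [← Nat.add_sub_cancel (2 * n) 1, ← this]

end

section
variable {L : Type*} [Fintype L] {f : L} {E S I : L → L}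
  {K K' : {x : L // x ≠ f} → {x : L // x ≠ f}}
  {Ls : List (Lv {x : L // x ≠ f})} {Q : ℕ}

open Classical in
/-- opening times -/
noncomputable def aL (f : L) (S I : L → L) (K : {x : L // x ≠ f} → {x : L // x ≠ f})
    (Ls : List (Lv {x : L // x ≠ f})) (Q : ℕ) (x : L) : ℕ :=
  if h : x = f then 0 else aT (rst f S) (rst f I) K Ls Q ⟨x, h⟩

open Classical in
/-- forming times -/
noncomputable def bL (f : L) (I : L → L) (K : {x : L // x ≠ f} → {x : L // x ≠ f})
    (Ls : List (Lv {x : L // x ≠ f})) (Q : ℕ) (x : L) : ℕ :=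
  if h : x = f then Q + 1 else bT (rst f I) K Ls Q ⟨x, h⟩

/-- the local transitions -/
def locL (Ls : List (Lv {x : L // x ≠ f})) (Q : ℕ) : Set ℕ :=
  {t | t < Q ∧ ∃ O, Ls[t]? = some (Lv.loc O)}

open Classical in
/-- the first labels -/
def PL (f : L) (I : L → L) (K : {x : L // x ≠ f} → {x : L // x ≠ f})
    (Ls : List (Lv {x : L // x ≠ f})) (Q : ℕ) (x : L) : Prop :=
  ∃ h : x ≠ f, PT (rst f I) K Ls Q ⟨x, h⟩

open Classical in
lemma aL_ne {x : {x : L // x ≠ f}} :
    aL f S I K Ls Q x = aT (rst f S) (rst f I) K Ls Q x := by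
  unfold aL
  rw [dif_neg x.2]

open Classical in
lemma bL_ne {x : {x : L // x ≠ f}} : bL f I K Ls Q x = bT (rst f I) K Ls Q x := by
  unfold bL
  rw [dif_neg x.2]

lemma aL_f : aL f S I K Ls Q f = 0 := by
  unfold aL
  rw [dif_pos rfl]

lemma bL_f : bL f I K Ls Q f = Q + 1 := by
  unfold bL
  rw [dif_pos rfl]

open Classical in
/-- the rigid adjacencies -/
lemma MRun.Kt_ext (h : MRun (rst f E) (rst f S) (rst f I) K Ls K' Q) {t : ℕ} (ht : t ≤ Q) :
    Kt S I (aL f S I K Ls Q) (bL f I K Ls Q) t = ext (stt (rst f I) Ls K t) := by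
  funext z
  by_cases hz : z = f
  · subst hz
    rw [ext_f]
    unfold Kt
    rw [aL_f, bL_f, if_neg (by omega), if_pos (by omega)]
  · have e1 : aL f S I K Ls Q z = aT (rst f S) (rst f I) K Ls Q ⟨z, hz⟩ :=
      aL_ne (x := ⟨z, hz⟩)
    have e2 : bL f I K Ls Q z = bT (rst f I) K Ls Q ⟨z, hz⟩ := bL_ne (x := ⟨z, hz⟩)
    rw [ext_ne _ hz, h.st_eq ht]
    unfold Kt
    rw [e1, e2]
    split_ifs with h1 h2
    · have h3 : rst f S ⟨z, hz⟩ ≠ ⟨z, hz⟩ := by
        intro h3
        rw [aT_top h3] at h1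
        omega
      exact (rst_val (rst_ne h3).1).symm
    · rfl
    · have h3 : rst f I ⟨z, hz⟩ ≠ ⟨z, hz⟩ := by
        intro h3
        rw [bT_top h3] at h2
        omega
      exact (rst_val (rst_ne h3).1).symm

end

end BP2
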