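import Mathlib
import Pool.Agent.BP2.S.MainD

set_option autoImplicit false

/-! MP_475aca_co, part (S), Main: the schedule and the numerical conditions on all labels -/

namespace BP2

open Finset Function

section
variable {L : Type*} [Fintype L] {f : L} {E S I : L → L}
  {K K' : {x : L // x ≠ f} → {x : L // x ≠ f}}
  {Ls : List (Lv {x : L // x ≠ f})} {Q : ℕ}

lemma ne_f_of_bL {x : L} {t : ℕ} (ht : t < Q) (h : bL f I K Ls Q x = t + 1) : x ≠ f := by
  rintro rfl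
  rw [bL_f] at h
  omega

open Classical in
theorem MRun.sched (h : MRun (rst f E) (rst f S) (rst f I) K Ls K' Q) (hE : IsEl E)
    (hf : E f = f) (hS : IsArr E S) (hI : IsArr E I) :
    Sched E S I Q (aL f S I K Ls Q) (bL f I K Ls Q) (locL Ls Q) (PL f I K Ls Q) := by
  have hSf : ∀ x : {x : L // x ≠ f}, S x = f → rst f S x = x := fun x hx => rst_self.2 (Or.inr hx)
  have hIf : ∀ x : {x : L // x ≠ f}, I x = f → rst f I x = x := fun x hx => rst_self.2 (Or.inr hx)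
  -- the target partner of a used label
  have hIx : ∀ t < Q, ∀ x : {x : L // x ≠ f}, bT (rst f I) K Ls Q x = t + 1 →
      I x ≠ f := by
    intro t ht x hx h1
    rw [bT_top (hIf x h1)] at hx
    omega
  refine
    { aS := ?_, bI := ?_, ab := ?_, triv := ?_, triv' := ?_, topS := ?_, topI := ?_, acyc := ?_,
      far := ?_, opened := ?_, noCut := ?_, first := ?_, body := ?_, side := ?_, one := ?_ }
  · -- aS
    intro x
    by_cases hx : x = f
    · subst hx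
      rw [aL_f]
      by_cases h1 : S x = x
      · rw [h1, aL_f]
      · have h2 : aL x S I K Ls Q (S x) = aT (rst x S) (rst x I) K Ls Q ⟨S x, h1⟩ :=
          aL_ne (x := ⟨S x, h1⟩)
        rw [h2, aT_top (hSf _ (hS.invol x))]
    · have h0 : aL f S I K Ls Q x = aT (rst f S) (rst f I) K Ls Q ⟨x, hx⟩ := aL_ne (x := ⟨x, hx⟩)
      by_cases h1 : S x = f
      · rw [h1, aL_f, h0, aT_top (hSf ⟨x, hx⟩ h1)]
      · have h2 : aL f S I K Ls Q (S x) = aT (rst f S) (rst f I) K Ls Q ⟨S x, h1⟩ :=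
          aL_ne (x := ⟨S x, h1⟩)
        have h3 : (⟨S x, h1⟩ : {x : L // x ≠ f}) = rst f S ⟨x, hx⟩ :=
          Subtype.ext (rst_val (x := ⟨x, hx⟩) h1).symm
        rw [h0, h2, h3, h.aS]
  · -- bI
    intro x
    by_cases hx : x = f
    · subst hx
      rw [bL_f]
      by_cases h1 : I x = x
      · rw [h1, bL_f]
      · have h2 : bL x I K Ls Q (I x) = bT (rst x I) K Ls Q ⟨I x, h1⟩ :=
          bL_ne (x := ⟨I x, h1⟩)
        rw [h2, bT_top (hIf _ (hI.invol x))]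
    · have h0 : bL f I K Ls Q x = bT (rst f I) K Ls Q ⟨x, hx⟩ := bL_ne (x := ⟨x, hx⟩)
      by_cases h1 : I x = f
      · rw [h1, bL_f, h0, bT_top (hIf ⟨x, hx⟩ h1)]
      · have h2 : bL f I K Ls Q (I x) = bT (rst f I) K Ls Q ⟨I x, h1⟩ :=
          bL_ne (x := ⟨I x, h1⟩)
        have h3 : (⟨I x, h1⟩ : {x : L // x ≠ f}) = rst f I ⟨x, hx⟩ :=
          Subtype.ext (rst_val (x := ⟨x, hx⟩) h1).symm
        rw [h0, h2, h3, h.bI]
  · -- ab
    intro x
    by_cases hx : x = f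
    · subst hx
      rw [aL_f]
      omega
    · have h0 : aL f S I K Ls Q x = aT (rst f S) (rst f I) K Ls Q ⟨x, hx⟩ := aL_ne (x := ⟨x, hx⟩)
      have h1 : bL f I K Ls Q x = bT (rst f I) K Ls Q ⟨x, hx⟩ := bL_ne (x := ⟨x, hx⟩)
      rw [h0, h1]
      exact h.ab _
  · -- triv
    intro x hb
    by_cases hx : x = f
    · subst hx
      rw [bL_f] at hb
      omega
    · have h1 : bL f I K Ls Q x = bT (rst f I) K Ls Q ⟨x, hx⟩ := bL_ne (x := ⟨x, hx⟩)
      rw [h1] at hb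
      have h2 := h.triv hb
      have h3 : rst f I ⟨x, hx⟩ ≠ ⟨x, hx⟩ := by
        intro h3
        rw [bT_top h3] at hb
        omega
      have h4 : rst f S ⟨x, hx⟩ ≠ ⟨x, hx⟩ := by
        rw [h2]
        exact h3
      have h5 : (rst f S ⟨x, hx⟩ : L) = S x := rst_val (rst_ne h4).1
      have h6 : (rst f I ⟨x, hx⟩ : L) = I x := rst_val (rst_ne h3).1
      rw [← h5, ← h6, h2]
  · -- triv'
    intro x hSI
    by_cases hx : x = f
    · subst hx
      exact aL_f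
    · have h0 : aL f S I K Ls Q x = aT (rst f S) (rst f I) K Ls Q ⟨x, hx⟩ := aL_ne (x := ⟨x, hx⟩)
      rw [h0]
      by_cases h1 : S x = f
      · exact aT_top (hSf ⟨x, hx⟩ h1)
      · have h2 : I x ≠ f := by rw [← hSI]; exact h1
        apply h.triv'
        apply Subtype.ext
        rw [rst_val (x := ⟨x, hx⟩) h1, rst_val (x := ⟨x, hx⟩) h2]
        exact hSI
  · -- topS
    intro x hSx
    by_cases hx : x = f
    · subst hx
      exact aL_f
    · have h0 : aL f S I K Ls Q x = aT (rst f S) (rst f I) K Ls Q ⟨x, hx⟩ := aL_ne (x := ⟨x, hx⟩)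
      rw [h0]
      exact aT_top (rst_self.2 (Or.inl hSx))
  · -- topI
    intro x hIx
    right
    by_cases hx : x = f
    · subst hx
      rw [bL_f]
      omega
    · have h1 : bL f I K Ls Q x = bT (rst f I) K Ls Q ⟨x, hx⟩ := bL_ne (x := ⟨x, hx⟩)
      rw [h1, bT_top (rst_self.2 (Or.inl hIx))]
      omega
  · -- acyc
    intro t ht
    rw [h.Kt_ext ht]
    exact acyc_ext hf (h.geoT t)
  · -- far
    intro t ht htl x y hbx hby hxy
    have hx := ne_f_of_bL ht hbx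
    have hy := ne_f_of_bL ht hby
    have hbx' : bT (rst f I) K Ls Q ⟨x, hx⟩ = t + 1 := by
      rw [← hbx]
      exact (bL_ne (x := ⟨x, hx⟩)).symm
    have hby' : bT (rst f I) K Ls Q ⟨y, hy⟩ = t + 1 := by
      rw [← hby]
      exact (bL_ne (x := ⟨y, hy⟩)).symm
    obtain ⟨l, h1, h2⟩ := (h.used ht _).1 hbx'
    obtain ⟨l', h1', h2'⟩ := (h.used ht _).1 hby'
    rw [h1] at h1'
    cases h1'
    rw [h.Kt_ext ht.le]
    intro hc
    have hc' := (conn_ext hE.invol hf (x := ⟨x, hx⟩) (y := ⟨y, hy⟩)).1 hc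
    cases l with
    | cut K1 => simp [Lv.used] at h2
    | far U =>
      have h3 := (h.far h1).sep _ h2 _ h2' hc'
      exact hxy (congrArg Subtype.val h3)
    | loc O => exact htl ⟨ht, O, h1⟩
  · -- opened
    rintro t _ ⟨ht, O, hO⟩ x hbx
    have hx := ne_f_of_bL ht hbx
    have hbx' : bT (rst f I) K Ls Q ⟨x, hx⟩ = t + 1 := by
      rw [← hbx]
      exact (bL_ne (x := ⟨x, hx⟩)).symm
    obtain ⟨l, h1, h2⟩ := (h.used ht _).1 hbx'
    rw [hO] at h1
    cases h1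
    have h3 := (h.loc_gap ht hO h2).2.2.2.1
    rw [← h3]
    exact aL_ne (x := ⟨x, hx⟩)
  · -- noCut
    rintro t _ ⟨ht, O, hO⟩ x hax
    have hx : x ≠ f := by
      rintro rfl
      rw [aL_f] at hax
      omega
    have h0 : aL f S I K Ls Q x = aT (rst f S) (rst f I) K Ls Q ⟨x, hx⟩ := aL_ne (x := ⟨x, hx⟩)
    rw [h0] at hax
    obtain ⟨_, l, h1, h2⟩ := h.opened ht hax
    rw [hO] at h1
    cases h1
    rcases h2 with ⟨K1, h2, _⟩ | h2 | h2
    · cases h2
    · left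
      have h3 := (h.used ht _).2 ⟨_, hO, h2⟩
      rw [← h3]
      exact bL_ne (x := ⟨x, hx⟩)
    · right
      have h3 := (h.used ht _).2 ⟨_, hO, h2⟩
      have h4 : rst f S ⟨x, hx⟩ ≠ ⟨x, hx⟩ := by
        intro h4
        rw [aT_top h4] at hax
        omega
      have h5 := rst_ne h4
      have h6 : rst f S ⟨x, hx⟩ = ⟨S x, h5.1⟩ := Subtype.ext (rst_val h5.1)
      rw [← h3, h6]
      exact bL_ne (x := ⟨S x, h5.1⟩)
  · -- first
    rintro t _ ⟨ht, O, hO⟩ x hbx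
    have hx := ne_f_of_bL ht hbx
    have hbx' : bT (rst f I) K Ls Q ⟨x, hx⟩ = t + 1 := by
      rw [← hbx]
      exact (bL_ne (x := ⟨x, hx⟩)).symm
    obtain ⟨l, h1, h2⟩ := (h.used ht _).1 hbx'
    rw [hO] at h1
    cases h1
    have h3 := hIx t ht _ hbx'
    have h4 : rst f I ⟨x, hx⟩ = ⟨I x, h3⟩ := Subtype.ext (rst_val h3)
    have hb' : bT (rst f I) K Ls Q (rst f I ⟨x, hx⟩) = t + 1 := by rw [h.bI, hbx']
    have e1 : PL f I K Ls Q x ↔ (⟨x, hx⟩ : {x : L // x ≠ f}) ∈ O := by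
      rw [h.PT_iff ht hO]
      constructor
      · rintro ⟨_, h5⟩
        exact ⟨hbx', h5⟩
      · rintro ⟨_, h5⟩
        exact ⟨hx, h5⟩
    have e2 : PL f I K Ls Q (I x) ↔ rst f I ⟨x, hx⟩ ∈ O := by
      rw [h.PT_iff ht hO, h4]
      constructor
      · rintro ⟨_, h5⟩
        exact ⟨by rw [← h4]; exact hb', h5⟩
      · rintro ⟨_, h5⟩
        exact ⟨h3, h5⟩
    rw [e1, e2]
    have hL := h.loc hO
    constructor
    · exact fun h5 => hL.notMem h5
    · intro h5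
      have h6 : (⟨x, hx⟩ : {x : L // x ≠ f}) ∈ locU (rst f I) O := h2
      rw [mem_locU h.inv] at h6
      rcases h6 with h6 | h6
      · exact h6
      · exact absurd h6 h5
  · -- body
    rintro t _ ⟨ht, O, hO⟩ x hbx
    have hx := ne_f_of_bL ht hbx
    have hbx' : bT (rst f I) K Ls Q ⟨x, hx⟩ = t + 1 := by
      rw [← hbx]
      exact (bL_ne (x := ⟨x, hx⟩)).symm
    obtain ⟨l, h1, h2⟩ := (h.used ht _).1 hbx'
    rw [hO] at h1
    cases h1
    have h3 := hIx t ht _ hbx'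
    have h4 : rst f I ⟨x, hx⟩ = ⟨I x, h3⟩ := Subtype.ext (rst_val h3)
    rw [h.Kt_ext ht.le]
    refine (conn_ext hE.invol hf (x := ⟨x, hx⟩) (y := ⟨I x, h3⟩)).2 ?_
    rw [← h4]
    have hL := h.loc hO
    have h6 : (⟨x, hx⟩ : {x : L // x ≠ f}) ∈ locU (rst f I) O := h2
    rw [mem_locU h.inv] at h6
    rcases h6 with h6 | h6
    · exact hL.body _ h6
    · have h7 := hL.body _ h6
      rw [h.inv] at h7
      exact (h.geoT t).symm h7
  · -- side
    rintro t _ ⟨ht, O, hO⟩ x hbx hP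
    have hx := ne_f_of_bL ht hbx
    have hbx' : bT (rst f I) K Ls Q ⟨x, hx⟩ = t + 1 := by
      rw [← hbx]
      exact (bL_ne (x := ⟨x, hx⟩)).symm
    have h3 := hIx t ht _ hbx'
    have h4 : rst f I ⟨x, hx⟩ = ⟨I x, h3⟩ := Subtype.ext (rst_val h3)
    obtain ⟨_, hP'⟩ := hP
    have hxO := (h.PT_iff ht hO).2 ⟨hbx', hP'⟩
    rw [h.Kt_ext ht.le]
    have h5 := cut_ext (K := stt (rst f I) Ls K t) (⟨x, hx⟩ : {x : L // x ≠ f})
    intro hc
    have h6 : BP2.cut (ext (stt (rst f I) Ls K t)) x =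
        ext (BP2.cut (stt (rst f I) Ls K t) (⟨x, hx⟩ : {x : L // x ≠ f})) := h5
    rw [h6] at hc
    have hc' := (conn_ext hE.invol hf (x := ⟨x, hx⟩) (y := ⟨I x, h3⟩)).1 hc
    rw [← h4] at hc'
    have h7 := (h.loc hO).side _ hxO
    rw [cutAt_eq_cut] at h7
    exact h7 hc'
  · -- one
    rintro t _ ⟨ht, O, hO⟩ x y hbx hby hPx hPy hc
    have hx := ne_f_of_bL ht hbx
    have hy := ne_f_of_bL ht hby
    have hbx' : bT (rst f I) K Ls Q ⟨x, hx⟩ = t + 1 := by
      rw [← hbx]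
      exact (bL_ne (x := ⟨x, hx⟩)).symm
    have hby' : bT (rst f I) K Ls Q ⟨y, hy⟩ = t + 1 := by
      rw [← hby]
      exact (bL_ne (x := ⟨y, hy⟩)).symm
    obtain ⟨_, hP'⟩ := hPx
    obtain ⟨_, hP''⟩ := hPy
    have hxO := (h.PT_iff ht hO).2 ⟨hbx', hP'⟩
    have hyO := (h.PT_iff ht hO).2 ⟨hby', hP''⟩
    rw [h.Kt_ext ht.le] at hc
    have hc' := (conn_ext hE.invol hf (x := ⟨x, hx⟩) (y := ⟨y, hy⟩)).1 hc
    exact congrArg Subtype.val ((h.loc hO).sep _ hxO _ hyO hc')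

end

end BP2
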