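import Mathlib
import Pool.Agent.BP2.S.MainE

set_option autoImplicit false

/-! MP_475aca_co, part (S), Main: the numerical conditions on all labels -/

namespace BP2

open Finset Function

section
variable {L : Type*} [Fintype L] {f : L} {E S I : L → L}
  {K K' : {x : L // x ≠ f} → {x : L // x ≠ f}}
  {Ls : List (Lv {x : L // x ≠ f})} {Q : ℕ}

open Classical in
lemma MRun.nOut_eq (h : MRun (rst f E) (rst f S) (rst f I) K Ls K' Q) {t : ℕ} (ht : t < Q)
    {O : Finset {x : L // x ≠ f}} (hO : Ls[t]? = some (Lv.loc O)) (j : ℕ) :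
    nOut S (bL f I K Ls Q) (PL f I K Ls Q) t j =
      (O.filter fun x => bT (rst f I) K Ls Q (rst f S x) = j).card := by
  have e : (univ.filter fun x => bL f I K Ls Q x = t + 1 ∧ PL f I K Ls Q x ∧
      bL f I K Ls Q (S x) = j) =
      (O.filter fun x => bT (rst f I) K Ls Q (rst f S x) = j).image Subtype.val := by
    ext z
    rw [mem_filter, mem_image]
    have key : ∀ x : {x : L // x ≠ f}, x ∈ O → bL f I K Ls Q (S x) =
        bT (rst f I) K Ls Q (rst f S x) := by
      intro x hx
      have h1 := h.loc_gap ht hO ((mem_locU h.inv).2 (Or.inl hx))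
      have h2 := rst_ne h1.2.1
      have h3 : rst f S x = ⟨S x, h2.1⟩ := Subtype.ext (rst_val h2.1)
      rw [h3]
      exact bL_ne (x := ⟨S x, h2.1⟩)
    constructor
    · rintro ⟨_, h1, h2, h3⟩
      have hz := ne_f_of_bL ht h1
      have h4 : bT (rst f I) K Ls Q ⟨z, hz⟩ = t + 1 := by
        rw [← h1]
        exact (bL_ne (x := ⟨z, hz⟩)).symm
      obtain ⟨_, h5⟩ := h2
      have h6 := (h.PT_iff ht hO).2 ⟨h4, h5⟩
      refine ⟨⟨z, hz⟩, ?_, rfl⟩
      rw [mem_filter]
      exact ⟨h6, by rw [← key _ h6]; exact h3⟩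
    · rintro ⟨x, hx, rfl⟩
      rw [mem_filter] at hx
      have h1 := (h.PT_iff ht hO).1 hx.1
      exact ⟨mem_univ _, by rw [bL_ne]; exact h1.1, ⟨x.2, h1.2⟩, by rw [key _ hx.1]; exact hx.2⟩
  have e2 : nOut S (bL f I K Ls Q) (PL f I K Ls Q) t j =
      (univ.filter fun x => bL f I K Ls Q x = t + 1 ∧ PL f I K Ls Q x ∧
      bL f I K Ls Q (S x) = j).card := by
    unfold nOut
    convert rfl
  rw [e2, e, card_image_of_injective _ Subtype.val_injective]

open Classical in
lemma MRun.nIn_eq (h : MRun (rst f E) (rst f S) (rst f I) K Ls K' Q) {t : ℕ} (ht : t < Q)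
    {O : Finset {x : L // x ≠ f}} (hO : Ls[t]? = some (Lv.loc O)) (j : ℕ) :
    nIn S I (bL f I K Ls Q) (PL f I K Ls Q) t j =
      (O.filter fun x => bT (rst f I) K Ls Q (rst f S (rst f I x)) = j).card := by
  have e : (univ.filter fun x => bL f I K Ls Q x = t + 1 ∧ PL f I K Ls Q x ∧
      bL f I K Ls Q (S (I x)) = j) =
      (O.filter fun x => bT (rst f I) K Ls Q (rst f S (rst f I x)) = j).image Subtype.val := by
    ext z
    rw [mem_filter, mem_image]
    have key : ∀ x : {x : L // x ≠ f}, x ∈ O → bL f I K Ls Q (S (I x)) =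
        bT (rst f I) K Ls Q (rst f S (rst f I x)) := by
      intro x hx
      have hI := (h.loc hO).ne hx
      have hI2 := rst_ne hI
      have hI3 : rst f I x = ⟨I x, hI2.1⟩ := Subtype.ext (rst_val hI2.1)
      have hx' : rst f I x ∈ locU (rst f I) O := by
        rw [mem_locU h.inv, h.inv]
        exact Or.inr hx
      have h1 := h.loc_gap ht hO hx'
      rw [hI3] at h1 ⊢
      have h2 := rst_ne h1.2.1
      have h3 : rst f S ⟨I x, hI2.1⟩ = ⟨S (I x), h2.1⟩ := Subtype.ext (rst_val h2.1)
      rw [h3]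
      exact bL_ne (x := ⟨S (I x), h2.1⟩)
    constructor
    · rintro ⟨_, h1, h2, h3⟩
      have hz := ne_f_of_bL ht h1
      have h4 : bT (rst f I) K Ls Q ⟨z, hz⟩ = t + 1 := by
        rw [← h1]
        exact (bL_ne (x := ⟨z, hz⟩)).symm
      obtain ⟨_, h5⟩ := h2
      have h6 := (h.PT_iff ht hO).2 ⟨h4, h5⟩
      refine ⟨⟨z, hz⟩, ?_, rfl⟩
      rw [mem_filter]
      exact ⟨h6, by rw [← key _ h6]; exact h3⟩
    · rintro ⟨x, hx, rfl⟩
      rw [mem_filter] at hx
      have h1 := (h.PT_iff ht hO).1 hx.1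
      exact ⟨mem_univ _, by rw [bL_ne]; exact h1.1, ⟨x.2, h1.2⟩, by rw [key _ hx.1]; exact hx.2⟩
  have e2 : nIn S I (bL f I K Ls Q) (PL f I K Ls Q) t j =
      (univ.filter fun x => bL f I K Ls Q x = t + 1 ∧ PL f I K Ls Q x ∧
      bL f I K Ls Q (S (I x)) = j).card := by
    unfold nIn
    convert rfl
  rw [e2, e, card_image_of_injective _ Subtype.val_injective]

lemma sum_fiber_le {α : Type*} [DecidableEq α] (X : Finset α) (g : α → ℕ) (s : Finset ℕ) :
    ∑ t ∈ s, (X.filter fun x => g x = t + 1).card ≤ X.card := by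
  rw [← Finset.card_biUnion]
  · refine card_le_card ?_
    intro x hx
    rw [mem_biUnion] at hx
    obtain ⟨t, _, h1⟩ := hx
    exact (mem_filter.1 h1).1
  · intro t _ t' _ hne
    rw [Function.onFun, Finset.disjoint_left]
    intro x hx hx'
    rw [mem_filter] at hx hx'
    omega

open Classical in
theorem MRun.good (h : MRun (rst f E) (rst f S) (rst f I) K Ls K' Q)
    (hS : IsArr E S) (hI : IsArr E I) {n d : ℕ} (hn : Fintype.card L = 2 * n + 1)
    (hd : (univ.filter fun x => K x ≠ rst f S x).card +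
      (univ.filter fun x => K' x ≠ rst f I x).card + cutCount (rst f I) K Ls +
      imbCount (rst f I) K Ls + 10 ≤ d) :
    Good S I n Q (aL f S I K Ls Q) (bL f I K Ls Q) (locL Ls Q) (PL f I K Ls Q) d := by
  have c1 := h.count_start
  have c2 := h.count_fin
  have c3 := h.count_loose
  have s1 : (univ.filter fun x : {x : L // x ≠ f} => rst f S x = x).card ≤ 2 :=
    card_rst_self hS
  have s2 : (univ.filter fun x : {x : L // x ≠ f} => rst f I x = x).card ≤ 2 :=
    card_rst_self hI
  have hc : Fintype.card {x : L // x ≠ f} = 2 * n := card_sub hn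
  refine { start := ?_, fin := ?_, loose := ?_, bal := ?_, le := ?_ }
  · refine (card_le_sub (f := f) _).trans ?_
    have e : (univ.filter fun x : {x : L // x ≠ f} => aL f S I K Ls Q (x : L) = 0 ∧
        0 < bL f I K Ls Q (x : L)) = univ.filter fun x => aT (rst f S) (rst f I) K Ls Q x = 0 ∧
        0 < bT (rst f I) K Ls Q x := by
      refine filter_congr fun x _ => ?_
      rw [aL_ne, bL_ne]
    rw [e]
    omega
  · refine (card_le_sub (f := f) _).trans ?_
    have e : (univ.filter fun x : {x : L // x ≠ f} => Q < bL f I K Ls Q (x : L)) =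
        univ.filter fun x => Q < bT (rst f I) K Ls Q x := by
      refine filter_congr fun x _ => ?_
      rw [bL_ne]
    rw [e]
    omega
  · refine (card_le_sub (f := f) _).trans ?_
    have e : (univ.filter fun x : {x : L // x ≠ f} => aL f S I K Ls Q (x : L) <
        bL f I K Ls Q (x : L)) = univ.filter fun x => aT (rst f S) (rst f I) K Ls Q x <
        bT (rst f I) K Ls Q x := by
      refine filter_congr fun x _ => ?_
      rw [aL_ne, bL_ne]
    rw [e]
    omega
  · have key : ∀ t ∈ (Finset.range Q).filter (fun t => t ∈ locL Ls Q),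
        ∑ j ∈ Finset.range (Q + 2), Int.natAbs ((nOut S (bL f I K Ls Q) (PL f I K Ls Q) t j : ℤ) -
          nIn S I (bL f I K Ls Q) (PL f I K Ls Q) t j) ≤ imbAt (rst f I) K Ls t +
        ((univ.filter fun x => Q < bT (rst f I) K Ls Q x).filter fun x =>
          aT (rst f S) (rst f I) K Ls Q x = t + 1).card := by
      intro t ht
      rw [mem_filter] at ht
      obtain ⟨_, htQ, O, hO⟩ := ht
      have h1 := h.bal_level htQ hO
      have e1 : (univ.filter fun x => Q < bT (rst f I) K Ls Q x).filter (fun x =>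
          aT (rst f S) (rst f I) K Ls Q x = t + 1) = univ.filter fun x =>
          aT (rst f S) (rst f I) K Ls Q x = t + 1 ∧ Q < bT (rst f I) K Ls Q x := by
        rw [filter_filter]
        exact filter_congr fun x _ => and_comm
      rw [e1]
      refine le_trans (le_of_eq ?_) h1
      refine Finset.sum_congr rfl fun j _ => ?_
      rw [h.nOut_eq htQ hO, h.nIn_eq htQ hO]
    refine (Finset.sum_le_sum key).trans ?_
    rw [Finset.sum_add_distrib]
    have k1 : ∑ t ∈ (Finset.range Q).filter (fun t => t ∈ locL Ls Q), imbAt (rst f I) K Ls t ≤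
        imbCount (rst f I) K Ls :=
      (Finset.sum_le_sum_of_subset (filter_subset _ _)).trans (sum_imbAt_le _ _ _ _)
    have k2 := sum_fiber_le (univ.filter fun x => Q < bT (rst f I) K Ls Q x)
      (aT (rst f S) (rst f I) K Ls Q) ((Finset.range Q).filter (fun t => t ∈ locL Ls Q))
    omega
  · intro x
    by_cases hx : x = f
    · subst hx
      rw [bL_f]
    · have h1 : bL f I K Ls Q x = bT (rst f I) K Ls Q ⟨x, hx⟩ := bL_ne (x := ⟨x, hx⟩)
      rw [h1]
      exact bT_le _

end

end BP2
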