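import Mathlib
import Pool.Agent.BP2.S.MainF
import Pool.Agent.BP2.S.Flat

set_option autoImplicit false

/-! MP_475aca_co, part (S): the structure theorem -/

namespace BP2

open Finset Function

theorem structure_theorem : StructureTheorem := by
  classical
  intro m hm
  obtain ⟨Q, C, hflat⟩ := flat (8 * m) (by omega)
  refine ⟨Q, C + 20 * m, ?_⟩
  intro L _ E S I n hn hE hS hI
  obtain ⟨f, hf, _⟩ := hE.floor
  by_cases hne : ∃ x : L, x ≠ f
  · have hG := geo_rst hE hf hS hne
    have hT := tgt_rst hE hf hI hne
    obtain ⟨K, Ls, K', h1, h2, h3, h4, h5, h6, h7, h8⟩ :=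
      hflat {x : L // x ≠ f} (rst f E) (rst f I) (rst f S) hT hG
    have h : MRun (rst f E) (rst f S) (rst f I) K Ls K' Q :=
      { inv := hT.Iinv, geo := hG, cut := h1, loose := h2, len := h3, run := h4 }
    refine ⟨aL f S I K Ls Q, bL f I K Ls Q, locL Ls Q, PL f I K Ls Q, _,
      h.sched hE hf hS hI, h.good hS hI hn (le_refl _), ?_⟩
    rw [card_sub hn] at h5 h6 h7 h8
    have e : 8 * (m * ((univ.filter fun x => K x ≠ rst f S x).card +
        (univ.filter fun x => K' x ≠ rst f I x).card + cutCount (rst f I) K Ls +
        imbCount (rst f I) K Ls + 10)) =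
        8 * m * (univ.filter fun x => K x ≠ rst f S x).card +
        8 * m * (univ.filter fun x => K' x ≠ rst f I x).card + 8 * m * cutCount (rst f I) K Ls +
        8 * m * imbCount (rst f I) K Ls + 80 * m := by ring
    omega
  · push Not at hne
    have hs : ∀ x y : L, x = y := fun x y => (hne x).trans (hne y).symm
    refine ⟨fun _ => 0, fun _ => 0, ∅, fun _ => True, 0, ?_, ?_, by omega⟩
    · refine
        { aS := fun _ => rfl, bI := fun _ => rfl, ab := fun _ => le_refl _,
          triv := fun _ _ => hs _ _, triv' := fun _ _ => rfl, topS := fun _ _ => rfl,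
          topI := fun _ _ => Or.inl rfl, acyc := ?_, far := ?_, opened := ?_, noCut := ?_,
          first := ?_, body := ?_, side := ?_, one := ?_ }
      · intro t _ C _ hne'
        obtain ⟨x, hx⟩ := hne'
        exact ⟨x, hx, Or.inl (hs _ _)⟩
      · intro t _ _ x y h1
        omega
      · intro t _ h1
        exact absurd h1 (Set.notMem_empty t)
      · intro t _ h1
        exact absurd h1 (Set.notMem_empty t)
      · intro t _ h1
        exact absurd h1 (Set.notMem_empty t)
      · intro t _ h1
        exact absurd h1 (Set.notMem_empty t)
      · intro t _ h1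
        exact absurd h1 (Set.notMem_empty t)
      · intro t _ h1
        exact absurd h1 (Set.notMem_empty t)
    · refine { start := ?_, fin := ?_, loose := ?_, bal := ?_, le := ?_ }
      · rw [Finset.card_eq_zero.2]
        rw [filter_eq_empty_iff]
        intro x _ h1
        omega
      · rw [Finset.card_eq_zero.2]
        rw [filter_eq_empty_iff]
        intro x _ h1
        omega
      · rw [Finset.card_eq_zero.2]
        · omega
        · rw [filter_eq_empty_iff]
          intro x _ h1
          omega
      · refine le_of_eq (Finset.sum_eq_zero ?_)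
        intro t ht
        exfalso
        simp at ht
      · intro x
        omega

end BP2
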