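import Pool.Agent.BP2.S.Base
import Pool.Agent.BP2.S.Pos

/-! MP_475aca_co, part (S): the state inside a round. -/

set_option autoImplicit false

namespace BP2

section RoundA
variable {Lam : Type*}

theorem ra_symm {E K : Lam → Lam} (hG : Geo E K) {x y : Lam} (h : Same E K x y) :
    Same E K y x := Same.symm hG.Einv hG.Kinv h

theorem ra_step_inv [DecidableEq Lam] {E I K : Lam → Lam} (hI : ∀ x, I (I x) = x)
    (hG : Geo E K) (D : Finset Lam) (hD : ∀ x ∈ D, I x ∈ D) (x : Lam) :
    step I K D (step I K D x) = x := by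
  by_cases hx : x ∈ D
  · have h1 : step I K D x = I x := by unfold step; rw [if_pos hx]
    rw [h1]
    unfold step
    rw [if_pos (hD x hx), hI]
  · by_cases hk : K x ∈ D
    · have h1 : step I K D x = x := by unfold step; rw [if_neg hx, if_pos hk]
      rw [h1, h1]
    · have h1 : step I K D x = K x := by unfold step; rw [if_neg hx, if_neg hk]
      rw [h1]
      unfold step
      rw [if_neg hk, hG.Kinv, if_neg hx]

/-- E keeps all D-labels below -/
theorem ra_E {E K : Lam → Lam} {pos : Lam → ℕ} (hp : Pos E K pos) {d z : Lam}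
    (hd : Odd (pos d)) (h : pos d < pos z) : pos d < pos (E z) := by
  rcases Nat.even_or_odd (pos z) with h1 | h1
  · rw [hp.even_E z h1]; omega
  · have h2 := hp.odd_E z h1
    obtain ⟨a, ha⟩ := hd
    obtain ⟨b, hb⟩ := h1
    omega

/-- E keeps not after a -/
theorem ra_E' {E K : Lam → Lam} {pos : Lam → ℕ} (hp : Pos E K pos) {a z : Lam}
    (ha : Odd (pos a)) (h : pos z ≤ pos a) : pos (E z) ≤ pos a := by
  rcases Nat.even_or_odd (pos z) with h1 | h1
  · rw [hp.even_E z h1]
    obtain ⟨b, hb⟩ := h1
    obtain ⟨c, hc⟩ := ha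
    omega
  · have h2 := hp.odd_E z h1
    omega

/-- K keeps all D-labels below -/
theorem ra_K {E K : Lam → Lam} {pos : Lam → ℕ} (hp : Pos E K pos) {d z : Lam}
    (hdz : Same E K d z) (hne : d ≠ K z) (h : pos d < pos z) : pos d < pos (K z) := by
  by_cases hK : K z = z
  · rw [hK]; exact h
  rcases Nat.even_or_odd (pos z) with h1 | h1
  · have h2 := hp.even_K z h1 hK
    have h3 : pos d ≠ pos (K z) := by
      intro h4
      exact hne (hp.inj d (K z) (Same.trans hdz (same_K E K z)) h4)
    omega
  · rw [hp.odd_K z h1 hK]; omega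

/-- K keeps not after a away from a -/
theorem ra_K' {E K : Lam → Lam} {pos : Lam → ℕ} (hp : Pos E K pos) {a z : Lam}
    (haz : Same E K z a) (hne : z ≠ a) (h : pos z ≤ pos a) : pos (K z) ≤ pos a := by
  by_cases hK : K z = z
  · rw [hK]; exact h
  rcases Nat.even_or_odd (pos z) with h1 | h1
  · have h2 := hp.even_K z h1 hK
    omega
  · rw [hp.odd_K z h1 hK]
    have h3 : pos z ≠ pos a := fun h4 => hne (hp.inj z a haz h4)
    omega

/-- the last segment of a body -/
theorem ra_last [DecidableEq Lam] {E I K : Lam → Lam} {pos : Lam → ℕ} (hG : Geo E K)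
    (hp : Pos E K pos) (D : Finset Lam) (hodd : ∀ x ∈ D, Odd (pos x)) (x : Lam)
    (hx : ∀ d ∈ D, Same E K d x → pos d < pos x) (y : Lam)
    (h : Same E (step I K D) x y) : Same E K x y := by
  have key : y ∈ {z | Same E K x z ∧ ∀ d ∈ D, Same E K d x → pos d < pos z} := by
    refine Same.closed ?_ ?_ h ⟨Same.refl E K x, hx⟩
    · rintro z ⟨h1, h2⟩
      exact ⟨Same.trans h1 (same_E E K z), fun d hd hdx => ra_E hp (hodd d hd) (h2 d hd hdx)⟩
    · rintro z ⟨h1, h2⟩
      have hz : z ∉ D := fun hz => lt_irrefl _ (h2 z hz (ra_symm hG h1))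
      by_cases hk : K z ∈ D
      · have h3 : step I K D z = z := by unfold step; rw [if_neg hz, if_pos hk]
        rw [h3]; exact ⟨h1, h2⟩
      · have h3 : step I K D z = K z := by unfold step; rw [if_neg hz, if_neg hk]
        rw [h3]
        refine ⟨Same.trans h1 (same_K E K z), fun d hd hdx => ?_⟩
        exact ra_K hp (Same.trans hdx h1) (fun h4 => hk (h4 ▸ hd)) (h2 d hd hdx)
  exact key.1

/-- one segment ending at a -/
def RaSeg (E K : Lam → Lam) (pos : Lam → ℕ) (D : Finset Lam) (a : Lam) : Set Lam :=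
  {z | Same E K z a ∧ pos z ≤ pos a ∧ ∀ d ∈ D, Same E K d a → pos d < pos a → pos d < pos z}

theorem ra_seg_E [DecidableEq Lam] {E K : Lam → Lam} {pos : Lam → ℕ} (hG : Geo E K)
    (hp : Pos E K pos) (D : Finset Lam) (hodd : ∀ x ∈ D, Odd (pos x)) {a : Lam} (ha : a ∈ D)
    {z : Lam} (hz : z ∈ RaSeg E K pos D a) : E z ∈ RaSeg E K pos D a := by
  obtain ⟨h1, h2, h3⟩ := hz
  exact ⟨Same.trans (ra_symm hG (same_E E K z)) h1, ra_E' hp (hodd a ha) h2,
    fun d hd hda hlt => ra_E hp (hodd d hd) (h3 d hd hda hlt)⟩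

theorem ra_seg_K [DecidableEq Lam] {E I K : Lam → Lam} {pos : Lam → ℕ} (hG : Geo E K)
    (hp : Pos E K pos) (D : Finset Lam) (hD : ∀ x ∈ D, I x ∈ D)
    {a : Lam} (ha : a ∈ D) {z : Lam} (hz : z ∈ RaSeg E K pos D a) :
    step I K D z ∈ RaSeg E K pos D a ∨ step I K D z ∈ RaSeg E K pos D (I a) := by
  obtain ⟨h1, h2, h3⟩ := hz
  by_cases hzD : z ∈ D
  · have h4 : z = a := by
      by_contra hne
      have h5 : pos z ≠ pos a := fun h6 => hne (hp.inj z a h1 h6)
      exact lt_irrefl _ (h3 z hzD h1 (lt_of_le_of_ne h2 h5))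
    have h5 : step I K D z = I a := by unfold step; rw [if_pos hzD, h4]
    rw [h5]
    exact Or.inr ⟨Same.refl E K _, le_rfl, fun d _ _ h6 => h6⟩
  · left
    by_cases hk : K z ∈ D
    · have h4 : step I K D z = z := by unfold step; rw [if_neg hzD, if_pos hk]
      rw [h4]; exact ⟨h1, h2, h3⟩
    · have h4 : step I K D z = K z := by unfold step; rw [if_neg hzD, if_neg hk]
      rw [h4]
      refine ⟨Same.trans (ra_symm hG (same_K E K z)) h1,
        ra_K' hp h1 (fun h5 => hzD (h5 ▸ ha)) h2, fun d hd hda hlt => ?_⟩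
      exact ra_K hp (Same.trans hda (ra_symm hG h1)) (fun h5 => hk (h5 ▸ hd)) (h3 d hd hda hlt)

/-- the bodies inside a round: part of an old body, or of the bodies of a and I a, a in D -/
theorem ra_body [DecidableEq Lam] {E I K : Lam → Lam} {pos : Lam → ℕ} (hI : ∀ x, I (I x) = x)
    (hG : Geo E K) (hp : Pos E K pos) (D : Finset Lam) (hD : ∀ x ∈ D, I x ∈ D)
    (hodd : ∀ x ∈ D, Odd (pos x)) (x : Lam) :
    (∀ y, Same E (step I K D) x y → Same E K x y) ∨
    ∃ a ∈ D, Same E K x a ∧ ∀ y, Same E (step I K D) x y → Same E K a y ∨ Same E K (I a) y := by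
  classical
  by_cases hx : ∀ d ∈ D, Same E K d x → pos d < pos x
  · exact Or.inl (ra_last hG hp D hodd x hx)
  · right
    push Not at hx
    obtain ⟨d0, hd0, hd0x, hd0p⟩ := hx
    obtain ⟨a, haA, hmin⟩ := Finset.exists_min_image
      (D.filter (fun d => Same E K d x ∧ pos x ≤ pos d)) pos
      ⟨d0, Finset.mem_filter.2 ⟨hd0, hd0x, hd0p⟩⟩
    obtain ⟨ha, hax, hap⟩ := Finset.mem_filter.1 haA
    refine ⟨a, ha, ra_symm hG hax, fun y hy => ?_⟩
    have hstart : x ∈ RaSeg E K pos D a := by
      refine ⟨ra_symm hG hax, hap, fun d hd hda hlt => ?_⟩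
      by_contra hcon
      push Not at hcon
      have := hmin d (Finset.mem_filter.2 ⟨hd, Same.trans hda hax, hcon⟩)
      omega
    have key : y ∈ RaSeg E K pos D a ∪ RaSeg E K pos D (I a) := by
      refine Same.closed ?_ ?_ hy (Or.inl hstart)
      · rintro z (hz | hz)
        · exact Or.inl (ra_seg_E hG hp D hodd ha hz)
        · exact Or.inr (ra_seg_E hG hp D hodd (hD a ha) hz)
      · rintro z (hz | hz)
        · exact ra_seg_K hG hp D hD ha hz
        · have := ra_seg_K (I := I) hG hp D hD (hD a ha) hz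
          rw [hI] at this
          exact this.symm
    rcases key with h | h
    · exact Or.inl (ra_symm hG h.1)
    · exact Or.inr (ra_symm hG h.1)

variable [Fintype Lam] [DecidableEq Lam] {E I K : Lam → Lam}

set_option linter.unusedVariables false in
theorem step_step (hI : ∀ x, I (I x) = x) (D U : Finset Lam) (hD : ∀ x ∈ D, I x ∈ D)
    (hU : ∀ x ∈ U, I x ∈ U) (hDU : Disjoint D U) :
    step I (step I K D) U = step I K (D ∪ U) := by
  funext x
  by_cases hx : x ∈ U
  · unfold step
    rw [if_pos hx, if_pos (Finset.mem_union_right D hx)]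
  · by_cases hxD : x ∈ D
    · have h1 : step I K D x = I x := by unfold step; rw [if_pos hxD]
      have h2 : I x ∉ U := Finset.disjoint_left.1 hDU (hD x hxD)
      have h3 : step I (step I K D) U x = I x := by
        show (if x ∈ U then I x else if step I K D x ∈ U then x else step I K D x) = I x
        rw [if_neg hx, h1, if_neg h2]
      rw [h3]
      unfold step
      rw [if_pos (Finset.mem_union_left U hxD)]
    · have h0 : x ∉ D ∪ U := by
        rw [Finset.mem_union]; tauto
      show (if x ∈ U then I x else if step I K D x ∈ U then x else step I K D x) =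
        (if x ∈ D ∪ U then I x else if K x ∈ D ∪ U then x else K x)
      rw [if_neg hx, if_neg h0]
      by_cases hk : K x ∈ D
      · have h1 : step I K D x = x := by unfold step; rw [if_neg hxD, if_pos hk]
        rw [h1, if_neg hx, if_pos (Finset.mem_union_left U hk)]
      · have h1 : step I K D x = K x := by unfold step; rw [if_neg hxD, if_neg hk]
        rw [h1]
        by_cases hkU : K x ∈ U
        · rw [if_pos hkU, if_pos (Finset.mem_union_right D hkU)]
        · rw [if_neg hkU, if_neg (by rw [Finset.mem_union]; tauto)]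

set_option linter.unusedVariables false in
/-- every level (i,j), in lexicographic order, is a far level -/
theorem round_level {pos : Lam → ℕ} {col : Lam → Bool} (hI : ∀ x, I (I x) = x) (hG : Geo E K)
    (hp : Pos E K pos) (hcol : ∀ x y, Same E K x y → col x = col y) (V : Finset Lam)
    (hV : ∀ x ∈ V, I x ∈ V) (hodd : ∀ x ∈ V, Odd (pos x)) (hVc : ∀ x ∈ V, col x ≠ col (I x))
    (i j : ℕ) :
    Far E I (step I K (V.filter (fun x => (col x = true ∧
        (pos x < i ∨ (pos x = i ∧ pos (I x) < j))) ∨ (col x = false ∧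
        (pos (I x) < i ∨ (pos (I x) = i ∧ pos x < j))))))
      (V.filter (fun x => (col x = true ∧ pos x = i ∧ pos (I x) = j) ∨
        (col x = false ∧ pos (I x) = i ∧ pos x = j))) := by
  set D := V.filter (fun x => (col x = true ∧
        (pos x < i ∨ (pos x = i ∧ pos (I x) < j))) ∨ (col x = false ∧
        (pos (I x) < i ∨ (pos (I x) = i ∧ pos x < j)))) with hDdef
  have hcolI : ∀ x ∈ V, ∀ b, col x = b → col (I x) = !b := by
    intro x hx b hb
    have h1 := hVc x hx
    rw [hb] at h1
    cases b <;> cases h2 : col (I x) <;> simp_all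
  have hD : ∀ x ∈ D, I x ∈ D := by
    intro x hx
    rw [hDdef, Finset.mem_filter] at hx ⊢
    obtain ⟨hxV, hx2⟩ := hx
    refine ⟨hV x hxV, ?_⟩
    rcases hx2 with ⟨h1, h2⟩ | ⟨h1, h2⟩
    · right
      exact ⟨by simpa using hcolI x hxV _ h1, by rw [hI]; exact h2⟩
    · left
      exact ⟨by simpa using hcolI x hxV _ h1, by rw [hI]; exact h2⟩
  have hDodd : ∀ x ∈ D, Odd (pos x) := fun x hx => hodd x (Finset.mem_filter.1 hx).1
  have hDV : ∀ x ∈ D, x ∈ V := fun x hx => (Finset.mem_filter.1 hx).1
  -- the case of colour true: last segment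
  have htrue : ∀ x ∈ V, col x = true → pos x = i → pos (I x) = j → ∀ y,
      Same E (step I K D) x y → Same E K x y := by
    intro x hxV hc h1 h2 y hy
    refine ra_last hG hp D hDodd x (fun d hd hdx => ?_) y hy
    have hdc : col d = true := by rw [hcol d x hdx, hc]
    rw [hDdef, Finset.mem_filter] at hd
    rcases hd.2 with ⟨_, h3⟩ | ⟨h3, _⟩
    · rcases h3 with h3 | ⟨h3, h4⟩
      · omega
      · exfalso
        have h5 := hp.inj d x hdx (by omega)
        rw [h5] at h4
        omega
    · rw [hdc] at h3; exact absurd h3 (by decide)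
  have hsymm : ∀ x y, Same E (step I K D) x y → Same E (step I K D) y x := fun x y h =>
    Same.symm hG.Einv (ra_step_inv hI hG D hD) h
  refine ⟨fun x hx => ?_, fun x hx => ?_, fun x hx y hy hxy => ?_⟩
  · rw [Finset.mem_filter] at hx ⊢
    obtain ⟨hxV, hx2⟩ := hx
    refine ⟨hV x hxV, ?_⟩
    rcases hx2 with ⟨h1, h2, h3⟩ | ⟨h1, h2, h3⟩
    · right
      exact ⟨by simpa using hcolI x hxV _ h1, by rw [hI]; exact h2, h3⟩
    · left
      exact ⟨by simpa using hcolI x hxV _ h1, h2, by rw [hI]; exact h3⟩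
  · intro h
    have h1 := hVc x (Finset.mem_filter.1 hx).1
    rw [h] at h1
    exact h1 rfl
  · rw [Finset.mem_filter] at hx hy
    obtain ⟨hxV, hx2⟩ := hx
    obtain ⟨hyV, hy2⟩ := hy
    rcases hx2 with ⟨x1, x2, x3⟩ | ⟨x1, x2, x3⟩
    · have h1 := htrue x hxV x1 x2 x3 y hxy
      have h2 := hcol x y h1
      rcases hy2 with ⟨y1, y2, y3⟩ | ⟨y1, y2, y3⟩
      · exact hp.inj x y h1 (by omega)
      · rw [x1, y1] at h2; exact absurd h2 (by decide)
    · rcases hy2 with ⟨y1, y2, y3⟩ | ⟨y1, y2, y3⟩
      · have h1 := htrue y hyV y1 y2 y3 x (hsymm x y hxy)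
        have h2 := hcol y x h1
        rw [x1, y1] at h2; exact absurd h2 (by decide)
      · have hK : Same E K x y := by
          rcases ra_body (I := I) hI hG hp D hD hDodd x with h | ⟨a, ha, hxa, h⟩
          · exact h y hxy
          · rcases h y hxy with h1 | h1
            · exact Same.trans hxa h1
            · exfalso
              have h2 := hcol _ _ h1
              have h3 := hcol _ _ hxa
              have h4 := hVc a (hDV a ha)
              rw [h2, ← h3, x1, y1] at h4
              exact h4 rfl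
        exact hp.inj x y hK (by omega)

set_option linter.unusedVariables false in
theorem round_small {pos : Lam → ℕ} {col : Lam → Bool} {R : ℕ} (hI : ∀ x, I (I x) = x)
    (hG : Geo E K) (hR : Small E K R)
    (hp : Pos E K pos) (hcol : ∀ x y, Same E K x y → col x = col y) (V : Finset Lam)
    (hV : ∀ x ∈ V, I x ∈ V) (hodd : ∀ x ∈ V, Odd (pos x)) (hVc : ∀ x ∈ V, col x ≠ col (I x)) :
    Small E (step I K V) (2 * R) := by
  intro x
  rcases ra_body (I := I) hI hG hp V hV hodd x with h | ⟨a, ha, hxa, h⟩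
  · have h1 : body E (step I K V) x ⊆ body E K x := by
      intro y hy
      rw [mem_body] at hy ⊢
      exact h y hy
    have h2 := Finset.card_le_card h1
    have h3 := hR x
    omega
  · have h1 : body E (step I K V) x ⊆ body E K a ∪ body E K (I a) := by
      intro y hy
      rw [mem_body] at hy
      rw [Finset.mem_union, mem_body, mem_body]
      exact h y hy
    have h2 := Finset.card_le_card h1
    have h3 := Finset.card_union_le (body E K a) (body E K (I a))
    have h4 := hR a
    have h5 := hR (I a)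
    omega

end RoundA

end BP2
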